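import Pool.Agent.Work.MP_0f91f8_co.Df.Stmts

/-! Block [0f91f8 DF], item AFC: absorption and intersections of chains. -/

set_option linter.unusedSectionVars false

open Filter Topology

universe u

namespace Pool.Agent.Work.MP_0f91f8_co.Df

open Pool.Agent.Work.MP_0f91f8_co.Cge (L LL sd tendsto_L L_eq L_eq_iff continuous_L L_congr L_const
  L_pure L_map L_comp L_mem continuous_map)

variable (E : Type u) [Group E] [TopologicalSpace E] [CompactSpace E] [T2Space E]

namespace I_AFC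

variable {E} {G : Type} [CommGroup G]

/-- the laws absorbing `y` modulo `A` -/
def NY (θ : G →* E) (A : Subgroup E) (y : G → E) : Set (Ultrafilter (G × G)) :=
  {𝔬 | L 𝔬 (fun p => θ p.2) ∈ (A : Set E) ∧ L 𝔬 (fun p => θ (p.2 * p.1) * y p.1) ∈ (A : Set E)}

theorem isClosed_NY {θ : G →* E} {A : Subgroup E} (hA : IsClosed (A : Set E)) (y : G → E) :
    IsClosed (NY θ A y) :=
  (hA.preimage (continuous_L (fun p : G × G => θ p.2))).inter
    (hA.preimage (continuous_L (fun p : G × G => θ (p.2 * p.1) * y p.1)))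

theorem NY_mono {θ : G →* E} {A A' : Subgroup E} (h : A ≤ A') (y : G → E) :
    NY θ A y ⊆ NY θ A' y :=
  fun _ hm => ⟨h hm.1, h hm.2⟩

/-- the good first marginals -/
def CY (θ : G →* E) (A : Subgroup E) : Set (Ultrafilter G) :=
  {k | ∀ y : G → E, (∀ κ, y κ ∈ DD θ ⊤) → k ∈ (fun m => m.map Prod.fst) '' NY θ A y}

theorem isClosed_CY {θ : G →* E} {A : Subgroup E} (hA : IsClosed (A : Set E)) :
    IsClosed (CY θ A) := by
  have : CY θ A = ⋂ (y : G → E) (_ : ∀ κ, y κ ∈ DD θ ⊤),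
      (fun m : Ultrafilter (G × G) => m.map Prod.fst) '' NY θ A y := by
    ext u
    simp only [CY, Set.mem_setOf_eq, Set.mem_iInter]
  rw [this]
  refine isClosed_iInter fun y => isClosed_iInter fun _ => ?_
  exact (((isClosed_NY hA y).isCompact).image (continuous_map Prod.fst)).isClosed

theorem CY_mono {θ : G →* E} {A A' : Subgroup E} (h : A ≤ A') : CY θ A ⊆ CY θ A' :=
  fun _ hu y hy => Set.image_mono (NY_mono h y) (hu y hy)

/-- compactness along a chain of subgroups -/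
theorem chain_inter {X : Type*} [TopologicalSpace X] [CompactSpace X] {c : Set (Subgroup E)}
    (hne : c.Nonempty) (hc : IsChain (· ≤ ·) c) (F : Subgroup E → Set X)
    (hF : ∀ A A', A ≤ A' → F A ⊆ F A') (hcl : ∀ A ∈ c, IsClosed (F A))
    (hn : ∀ A ∈ c, (F A).Nonempty) : ∃ x, ∀ A ∈ c, x ∈ F A := by
  have : Nonempty c := hne.to_subtype
  have hdir : Directed (· ⊇ ·) (fun A : c => F A) := by
    intro A A'
    rcases hc.total A.2 A'.2 with h | h
    · exact ⟨A, subset_rfl, hF _ _ h⟩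
    · exact ⟨A', hF _ _ h, subset_rfl⟩
  obtain ⟨x, hx⟩ := IsCompact.nonempty_iInter_of_directed_nonempty_isCompact_isClosed
    (fun A : c => F A) hdir (fun A => hn A A.2) (fun A => (hcl A A.2).isCompact)
    (fun A => hcl A A.2)
  rw [Set.mem_iInter] at hx
  exact ⟨x, fun A hA => hx ⟨A, hA⟩⟩

end I_AFC

open I_AFC in
theorem AFC_pf : AFC E := by
  intro G _ θ hθ c hne hc hA
  obtain ⟨k, hk⟩ := chain_inter hne hc (fun A => CY θ A) (fun A A' h => CY_mono h)
    (fun A hAc => isClosed_CY (hA A hAc).1) (fun A hAc => by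
      obtain ⟨k, hk⟩ := (hA A hAc).2
      refine ⟨k, fun y hy => ?_⟩
      obtain ⟨𝔬, h1, h2, h3⟩ := hk y hy
      exact ⟨𝔬, ⟨h2, h3⟩, h1⟩)
  refine ⟨k, fun y hy => ?_⟩
  obtain ⟨𝔬, h𝔬⟩ := chain_inter hne hc
    (fun A => NY θ A y ∩ (fun m : Ultrafilter (G × G) => m.map Prod.fst) ⁻¹' {k})
    (fun A A' h => Set.inter_subset_inter_left _ (NY_mono h y))
    (fun A hAc => (isClosed_NY (hA A hAc).1 y).inter
      (isClosed_singleton.preimage (continuous_map Prod.fst)))
    (fun A hAc => by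
      obtain ⟨m, hm, hmu⟩ := (hk A hAc) y hy
      exact ⟨m, hm, hmu⟩)
  obtain ⟨A, hAc⟩ := hne
  refine ⟨𝔬, (h𝔬 A hAc).2, ?_, ?_⟩
  · rw [Subgroup.mem_sInf]
    exact fun A' hA' => (h𝔬 A' hA').1.1
  · rw [Subgroup.mem_sInf]
    exact fun A' hA' => (h𝔬 A' hA').1.2

end Pool.Agent.Work.MP_0f91f8_co.Df
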