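import Pool.Agent.Work.MP_0f91f8_co.Df.Stmts

/-!
Block [0f91f8 DF], item AFS: the successor step of the absorption.
-/

set_option linter.unusedSectionVars false
set_option linter.unusedVariables false

open Filter Topology

universe u

namespace Pool.Agent.Work.MP_0f91f8_co.Df

open Pool.Agent.Work.MP_0f91f8_co.Cge (L LL sd L_congr L_map L_mem L_sd LL_congr eventually_sd)

namespace I_AFS

variable {E : Type u} [Group E] [TopologicalSpace E] [CompactSpace E] [T2Space E]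
variable {G : Type} [CommGroup G]

/-- the marginal of the total law -/
lemma marginal {u k' : Ultrafilter G} {m : Ultrafilter (G × G)} (hm : m.map Prod.fst = u)
    {o : G → Ultrafilter (G × G)} (ho : ∀ κ, (o κ).map Prod.fst = k') :
    ((sd m (fun p => o p.1)).map (fun P => (P.1.1 * P.2.1, P.1.2 * P.2.2))).map Prod.fst =
      (sd u (fun _ => k')).map (fun p => p.1 * p.2) := by
  apply Ultrafilter.coe_injective
  ext s
  show (∀ᶠ P in (sd m (fun p => o p.1) : Filter ((G × G) × (G × G))), P.1.1 * P.2.1 ∈ s) ↔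
    ∀ᶠ p in (sd u (fun _ => k') : Filter (G × G)), p.1 * p.2 ∈ s
  rw [eventually_sd, eventually_sd, ← hm]
  have h1 : ∀ κ : G, (∀ᶠ q in (o κ : Filter (G × G)), κ * q.1 ∈ s) ↔
      ∀ᶠ κ' in (k' : Filter G), κ * κ' ∈ s := by
    intro κ
    rw [← ho κ]
    exact Iff.rfl
  show (∀ᶠ p in (m : Filter (G × G)), ∀ᶠ q in (o p.1 : Filter (G × G)), p.1 * q.1 ∈ s) ↔
    ∀ᶠ p in (m : Filter (G × G)), ∀ᶠ κ' in (k' : Filter G), p.1 * κ' ∈ s
  constructor
  · intro h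
    filter_upwards [h] with p hp
    exact (h1 p.1).1 hp
  · intro h
    filter_upwards [h] with p hp
    exact (h1 p.1).2 hp

/-- the limit of the product is in `DD A` -/
lemma limit (hD : DDP E) {θ : G →* E} (hθ : RT θ) {A : Subgroup E} (hA : CA θ A)
    {u : Ultrafilter G} {m : Ultrafilter (G × G)} (hm : m.map Prod.fst = u) {x : G → E}
    (hx : ∀ κ, x κ ∈ A) (f : G × G → G) (hf : L m (fun p => θ (f p)) = (L u x)⁻¹) :
    L m (fun p => θ (f p) * x p.1) ∈ DD θ A := by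
  have h0 : ∀ᶠ p in (m.map (fun p => (θ (f p), x p.1)) : Filter (E × E)), p.2 ∈ A := by
    show ∀ᶠ p in (m : Filter (G × G)), x p.1 ∈ A
    exact Eventually.of_forall fun p => hx p.1
  have h1 := (hD G θ hθ A hA).2 (m.map (fun p => (θ (f p), x p.1))) h0
  have h2 : L m (fun p : G × G => x p.1) = L u x := by
    rw [← hm, L_map]
  simpa only [L_map, hf, h2, inv_mul_cancel, inv_one, one_mul] using h1

/-- the landing at the state `1` -/
lemma landing {θ : G →* E} (hFL : FL θ (MK G) (DD θ ⊤) ⊥) :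
    ∃ u : Ultrafilter G, ∀ e₁ ∈ DD θ ⊤, ∀ e₂ ∈ DD θ ⊤, ∃ m : Ultrafilter (G × G),
      m.map Prod.fst = u ∧ L m (fun p => θ p.2) = e₁ ∧ L m (fun p => θ (p.2 * p.1)) = e₂ := by
  obtain ⟨u, -, hu⟩ := hFL 1 (Set.mem_univ _)
  refine ⟨u, fun e₁ he₁ e₂ he₂ => ?_⟩
  obtain ⟨m, -, hm, h1, h2⟩ := hu e₁ he₁ e₂ he₂
  rw [Subgroup.mem_bot, inv_mul_eq_one] at h1 h2
  exact ⟨m, hm, h1.symm, h2.symm⟩

/-- the first limit of the total law -/
lemma first {θ : G →* E} (hθ : RT θ) (m : Ultrafilter (G × G))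
    (o : G → Ultrafilter (G × G)) :
    L ((sd m (fun p => o p.1)).map (fun P => (P.1.1 * P.2.1, P.1.2 * P.2.2)))
      (fun p => θ p.2) = L m (fun p => θ p.2 * L (o p.1) (fun q => θ q.2)) := by
  rw [L_map, L_sd]
  have h5 := hθ.LL_mul_left m (fun p => o p.1) (fun p => p.2) (fun _ q => θ q.2)
  refine Eq.trans ?_ h5
  exact LL_congr (Eventually.of_forall fun v => Eventually.of_forall fun ω => map_mul θ _ _)

/-- the second limit of the total law -/
lemma second {θ : G →* E} (hθ : RT θ) (m : Ultrafilter (G × G))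
    (o : G → Ultrafilter (G × G)) (y : G → E) :
    L ((sd m (fun p => o p.1)).map (fun P => (P.1.1 * P.2.1, P.1.2 * P.2.2)))
      (fun p => θ (p.2 * p.1) * y p.1) =
      L m (fun p => θ (p.2 * p.1) * L (o p.1) (fun q => θ (q.2 * q.1) * y (p.1 * q.1))) := by
  rw [L_map, L_sd]
  have h5 := hθ.LL_mul_left m (fun p => o p.1) (fun p => p.2 * p.1)
    (fun p q => θ (q.2 * q.1) * y (p.1 * q.1))
  refine Eq.trans ?_ h5
  refine LL_congr (Eventually.of_forall fun v => Eventually.of_forall fun ω => ?_)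
  show θ (v.2 * ω.2 * (v.1 * ω.1)) * y (v.1 * ω.1) =
    θ (v.2 * v.1) * (θ (ω.2 * ω.1) * y (v.1 * ω.1))
  rw [← mul_assoc (θ (v.2 * v.1)), ← map_mul, mul_mul_mul_comm]

end I_AFS

open I_AFS in
/-- successor step of the absorption -/
theorem AFS_pf (E : Type u) [Group E] [TopologicalSpace E] [CompactSpace E] [T2Space E]
    (hD : DDP E) : AFS E := by
  intro G _ θ hθ hFL A hA hAle hAF
  obtain ⟨u, hu⟩ := landing hFL
  obtain ⟨k', hk'⟩ := hAF
  refine ⟨(sd u (fun _ => k')).map (fun p => p.1 * p.2), fun y hy => ?_⟩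
  have hc : ∀ κ₁ : G, ∃ 𝔬 : Ultrafilter (G × G), 𝔬.map Prod.fst = k' ∧
      L 𝔬 (fun p => θ p.2) ∈ A ∧ L 𝔬 (fun p => θ (p.2 * p.1) * y (κ₁ * p.1)) ∈ A :=
    fun κ₁ => hk' (fun κ₂ => y (κ₁ * κ₂)) (fun κ₂ => hy _)
  choose o ho1 ho2 ho3 using hc
  have hLA : ∀ x : G → E, (∀ κ, x κ ∈ A) → (L u x)⁻¹ ∈ DD θ ⊤ := fun x hx =>
    hAle (A.inv_mem (L_mem hA.closed (Eventually.of_forall hx)))
  obtain ⟨x₁, hx₁⟩ : ∃ x₁ : G → E, x₁ = fun κ₁ => L (o κ₁) (fun p => θ p.2) := ⟨_, rfl⟩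
  obtain ⟨x₂, hx₂⟩ : ∃ x₂ : G → E, x₂ = fun κ₁ =>
    L (o κ₁) (fun p => θ (p.2 * p.1) * y (κ₁ * p.1)) := ⟨_, rfl⟩
  have hA1 : ∀ κ, x₁ κ ∈ A := fun κ => by rw [hx₁]; exact ho2 κ
  have hA2 : ∀ κ, x₂ κ ∈ A := fun κ => by rw [hx₂]; exact ho3 κ
  obtain ⟨m, hm, h1, h2⟩ := hu (L u x₁)⁻¹ (hLA x₁ hA1) (L u x₂)⁻¹ (hLA x₂ hA2)
  refine ⟨(sd m (fun p => o p.1)).map (fun P => (P.1.1 * P.2.1, P.1.2 * P.2.2)),
    ?_, ?_, ?_⟩
  · exact marginal hm ho1
  · have h3 := limit hD hθ hA hm hA1 (fun p => p.2) h1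
    rw [first hθ m o]
    rw [hx₁] at h3
    exact h3
  · have h3 := limit hD hθ hA hm hA2 (fun p => p.2 * p.1) h2
    rw [second hθ m o y]
    rw [hx₂] at h3
    exact h3

end Pool.Agent.Work.MP_0f91f8_co.Df
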