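import Pool.Agent.Work.MP_0f91f8_co.Df.Stmts

/-!
Block [0f91f8 DF], item CFG.
-/

set_option linter.unusedSectionVars false

open Filter Topology

universe u

namespace Pool.Agent.Work.MP_0f91f8_co.Df

open Pool.Agent.Work.MP_0f91f8_co.Cge (L LL sd tendsto_L L_eq L_eq_iff L_congr L_const L_map
  L_mem eventually_sd L_sd LL_congr bnd)

namespace I_CFG

/-- a common denominator -/
lemma exists_denom (Y : Finset ℚ) : ∃ c : ℕ, 0 < c ∧ ∀ y ∈ Y, ∃ z : ℤ, (z : ℚ) = y * c := by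
  classical
  refine ⟨∏ y ∈ Y, y.den, Finset.prod_pos fun y _ => y.den_pos, ?_⟩
  intro y hy
  obtain ⟨e, he⟩ := Finset.dvd_prod_of_mem (fun y : ℚ => y.den) hy
  refine ⟨y.num * e, ?_⟩
  rw [he]
  push_cast
  have h := Rat.mul_den_eq_num y
  rw [← mul_assoc, h]

end I_CFG

theorem CFG_pf (E : Type u) [Group E] [TopologicalSpace E] [CompactSpace E] [T2Space E]
    (hS : SYND E) (hB : Cge.BRAUER) : CFG E := by
  classical
  intro θ hθ κ X O hO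
  have hκ : (κ : ℚ) ≠ 0 := κ.ne_zero
  obtain ⟨M, hM⟩ := hS θ hθ O hO
  -- the colouring
  have hcol : ∀ n : ℕ, ∃ m : {m // m ∈ M}, θ ((m : ℚˣ) * un (n : ℚ)) ∈ O := by
    intro n
    obtain ⟨m, hm, h1⟩ := hM (un (n : ℚ))
    exact ⟨⟨m, hm⟩, h1⟩
  choose χ hχ using hcol
  obtain ⟨c, hc, hcd⟩ := I_CFG.exists_denom (X.image fun x => x * (κ : ℚ) / 2)
  have hz : ∀ x : ℚ, ∃ z : ℤ, x ∈ X → (z : ℚ) = x * (κ : ℚ) / 2 * c := by
    intro x
    by_cases hx : x ∈ X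
    · obtain ⟨z, hz⟩ := hcd (x * (κ : ℚ) / 2) (Finset.mem_image_of_mem _ hx)
      exact ⟨z, fun _ => hz⟩
    · exact ⟨0, fun h => absurd h hx⟩
  choose z hz using hz
  obtain ⟨s₀, d₀, hd, hJ, hmono⟩ := hB {m // m ∈ M} (∑ x ∈ X, (z x).natAbs) c hc χ
  set J := ∑ x ∈ X, (z x).natAbs with hJdef
  have hs₀ : 0 < s₀ := lt_of_le_of_lt (Nat.zero_le _) hJ
  set m : ℚˣ := (χ (c * d₀) : ℚˣ) with hm
  -- terms of the progression
  have hterm : ∀ j : ℤ, j.natAbs ≤ J →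
      (s₀ : ℚ) + j * d₀ ≠ 0 ∧ θ (m * un ((s₀ : ℚ) + j * d₀)) ∈ O := by
    intro j hj
    have hjd : j.natAbs * d₀ < s₀ := lt_of_le_of_lt (Nat.mul_le_mul_right _ hj) hJ
    obtain ⟨hp, hn⟩ := hmono j.natAbs hj
    rcases le_total 0 j with h0 | h0
    · have e : ((s₀ + j.natAbs * d₀ : ℕ) : ℚ) = (s₀ : ℚ) + j * d₀ := by
        have h3 : (|(j : ℚ)|) = (j : ℚ) := abs_of_nonneg (by exact_mod_cast h0)
        push_cast
        rw [Nat.cast_natAbs, Int.cast_abs, h3]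
      have h := hχ (s₀ + j.natAbs * d₀)
      rw [hp, e] at h
      refine ⟨?_, h⟩
      rw [← e]
      have : 0 < s₀ + j.natAbs * d₀ := by omega
      exact_mod_cast this.ne'
    · have e : ((s₀ - j.natAbs * d₀ : ℕ) : ℚ) = (s₀ : ℚ) + j * d₀ := by
        have h3 : (|(j : ℚ)|) = -(j : ℚ) := abs_of_nonpos (by exact_mod_cast h0)
        rw [Nat.cast_sub hjd.le, Nat.cast_mul, Nat.cast_natAbs, Int.cast_abs, h3]
        ring
      have h := hχ (s₀ - j.natAbs * d₀)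
      rw [hn, e] at h
      refine ⟨?_, h⟩
      rw [← e]
      have : 0 < s₀ - j.natAbs * d₀ := by omega
      exact_mod_cast this.ne'
  have hD := hχ (c * d₀)
  rw [← hm] at hD
  have hs₀q : (s₀ : ℚ) ≠ 0 := by exact_mod_cast hs₀.ne'
  have hc0 : (c : ℚ) ≠ 0 := by exact_mod_cast hc.ne'
  have hd0 : (d₀ : ℚ) ≠ 0 := by exact_mod_cast hd.ne'
  have hW0 : (κ : ℚ) * (c * d₀) / (2 * s₀) ≠ 0 :=
    div_ne_zero (mul_ne_zero hκ (mul_ne_zero hc0 hd0)) (mul_ne_zero two_ne_zero hs₀q)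
  refine ⟨(κ : ℚ) * (c * d₀) / (2 * s₀), m * un (s₀ : ℚ), hW0, ?_, ?_⟩
  · have e : m * un (s₀ : ℚ) * un (2 * ((κ : ℚ) * (c * d₀) / (2 * s₀)) / (κ : ℚ)) =
        m * un ((c * d₀ : ℕ) : ℚ) := by
      rw [mul_assoc, ← un_mul hs₀q (div_ne_zero (mul_ne_zero two_ne_zero hW0) hκ)]
      congr 2
      push_cast
      field_simp
    rw [e]
    exact hD
  · intro x hx
    have hxz := hz x hx
    have hle : (z x).natAbs ≤ J := by
      rw [hJdef]
      exact Finset.single_le_sum (f := fun x => (z x).natAbs) (fun _ _ => Nat.zero_le _) hx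
    have ht := hterm (z x) hle
    have e2 : 1 + x * ((κ : ℚ) * (c * d₀) / (2 * s₀)) = ((s₀ : ℚ) + z x * d₀) / s₀ := by
      rw [hxz]
      field_simp
    have h0 : 1 + x * ((κ : ℚ) * (c * d₀) / (2 * s₀)) ≠ 0 := by
      rw [e2]
      exact div_ne_zero ht.1 hs₀q
    refine ⟨h0, ?_⟩
    rw [mul_assoc, ← un_mul hs₀q h0, e2, mul_div_cancel₀ _ hs₀q]
    exact ht.2

end Pool.Agent.Work.MP_0f91f8_co.Df
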