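import Pool.Agent.Work.MP_0f91f8_co.Df.Stmts

/-!
Block [0f91f8 DF], item CLO: the closure step.
-/

set_option linter.unusedSectionVars false
set_option linter.unusedVariables false

open Filter Topology

universe u

namespace Pool.Agent.Work.MP_0f91f8_co.Df

open Pool.Agent.Work.MP_0f91f8_co.Cge (L LL sd op aa cc bnd L_map L_sd L_congr L_const
  one_add_sq_pos norm_op eventually_sd LL_fst)

namespace I_CLO

section General

variable {Ω Ω' Ω'' : Type*}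

lemma sd_map_fst (𝔲 : Ultrafilter Ω) (𝔬 : Ultrafilter Ω') (g : Ω → Ω'') :
    sd (𝔲.map g) (fun _ => 𝔬) = (sd 𝔲 (fun _ => 𝔬)).map (fun P => (g P.1, P.2)) := by
  apply Ultrafilter.coe_injective
  ext t
  exact Iff.rfl

end General

/-- the Moebius image -/
def mo (l m w : ℚ) : ℚ := m * w / (1 + l * w)

/-- the linear part of the ratio -/
def r0 (c l m w : ℚ) : ℚ :=
  (1 + (l - c * m) * w) * (1 + (l + m / c) * w) /
    ((1 + (l + c * m) * w) * (1 + (l - m / c) * w))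

/-- the remaining part of the ratio -/
def rh (c a b : ℚ) : ℚ :=
  (1 + (-((c + a) / (1 - c * a))) * b) * (1 + ((1 / c - a) / (1 + a / c)) * b) /
    ((1 + (-((c - a) / (1 + c * a))) * b) * (1 + ((1 / c + a) / (1 - a / c)) * b))

lemma aa_op' {c a b : ℚ} (hc : c ≠ 0) (h : 1 - a * b ≠ 0) :
    aa c (op a b) = ((1 - c * a) - (c + a) * b) * ((1 + a / c) + (1 / c - a) * b) /
      ((1 + a ^ 2) * (1 + b ^ 2)) := by
  have h1 : (1 : ℚ) + a ^ 2 ≠ 0 := (one_add_sq_pos a).ne'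
  have h2 : (1 : ℚ) + b ^ 2 ≠ 0 := (one_add_sq_pos b).ne'
  unfold aa
  rw [norm_op h]
  unfold op
  field_simp
  ring

lemma ratio {c a b : ℚ} (hc : c ≠ 0) (h : 1 - a * b ≠ 0) (h' : 1 + a * b ≠ 0)
    (n1 : 1 - c * a ≠ 0) (n2 : 1 + a / c ≠ 0) (n3 : 1 + c * a ≠ 0) (n4 : 1 - a / c ≠ 0) :
    aa c (op a b) * (aa c (op (-a) b))⁻¹ =
      ((1 - c * a) * (1 + a / c) / ((1 + c * a) * (1 - a / c))) * rh c a b := by
  have h'' : 1 - (-a) * b ≠ 0 := by
    intro H; apply h'; linarith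
  rw [aa_op' hc h, aa_op' hc h'']
  have h1 : (1 : ℚ) + a ^ 2 ≠ 0 := (one_add_sq_pos a).ne'
  have h2 : (1 : ℚ) + b ^ 2 ≠ 0 := (one_add_sq_pos b).ne'
  have e1 : (1 - c * a) - (c + a) * b = (1 - c * a) * (1 + (-((c + a) / (1 - c * a))) * b) := by
    field_simp
    ring
  have e2 : (1 + a / c) + (1 / c - a) * b =
      (1 + a / c) * (1 + ((1 / c - a) / (1 + a / c)) * b) := by
    have : (1 + a / c) * ((1 / c - a) / (1 + a / c)) = 1 / c - a := mul_div_cancel₀ _ n2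
    linear_combination (-b) * this
  have e3 : (1 - c * (-a)) - (c + (-a)) * b =
      (1 + c * a) * (1 + (-((c - a) / (1 + c * a))) * b) := by
    have : (1 + c * a) * ((c - a) / (1 + c * a)) = c - a := mul_div_cancel₀ _ n3
    linear_combination b * this
  have e4 : (1 + (-a) / c) + (1 / c - (-a)) * b =
      (1 - a / c) * (1 + ((1 / c + a) / (1 - a / c)) * b) := by
    have : (1 - a / c) * ((1 / c + a) / (1 - a / c)) = 1 / c + a := mul_div_cancel₀ _ n4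
    linear_combination (-b) * this
  rw [e1, e2, e3, e4]
  unfold rh
  rw [show (-a) ^ 2 = a ^ 2 by ring]
  generalize (1 + (-((c + a) / (1 - c * a))) * b) = F1
  generalize (1 + ((1 / c - a) / (1 + a / c)) * b) = F2
  generalize (1 + (-((c - a) / (1 + c * a))) * b) = G1
  generalize (1 + ((1 / c + a) / (1 - a / c)) * b) = G2
  generalize (1 - c * a) = m1 at *
  generalize (1 + a / c) = m2 at *
  generalize (1 + c * a) = m3 at *
  generalize (1 - a / c) = m4 at *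
  have hD : (1 + a ^ 2) * (1 + b ^ 2) ≠ 0 := mul_ne_zero h1 h2
  rw [inv_div, div_mul_div_comm]
  rw [show m1 * F1 * (m2 * F2) * ((1 + a ^ 2) * (1 + b ^ 2)) =
    ((m1 * m2) * (F1 * F2)) * ((1 + a ^ 2) * (1 + b ^ 2)) by ring,
    show (1 + a ^ 2) * (1 + b ^ 2) * (m3 * G1 * (m4 * G2)) =
    ((m3 * m4) * (G1 * G2)) * ((1 + a ^ 2) * (1 + b ^ 2)) by ring,
    mul_div_mul_right _ _ hD, div_mul_div_comm]

lemma r0_eq {c l m w : ℚ} (hl : 1 + l * w ≠ 0) :
    (1 - c * mo l m w) * (1 + mo l m w / c) / ((1 + c * mo l m w) * (1 - mo l m w / c)) =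
      r0 c l m w := by
  have hq : mo l m w * (1 + l * w) = m * w := div_mul_cancel₀ _ hl
  have e1 : 1 - c * mo l m w = (1 + (l - c * m) * w) / (1 + l * w) := by
    rw [eq_div_iff hl]
    linear_combination (-c) * hq
  have e2 : 1 + mo l m w / c = (1 + (l + m / c) * w) / (1 + l * w) := by
    rw [eq_div_iff hl]
    linear_combination (1 / c) * hq
  have e3 : 1 + c * mo l m w = (1 + (l + c * m) * w) / (1 + l * w) := by
    rw [eq_div_iff hl]
    linear_combination c * hq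
  have e4 : 1 - mo l m w / c = (1 + (l - m / c) * w) / (1 + l * w) := by
    rw [eq_div_iff hl]
    linear_combination (-(1 / c)) * hq
  rw [e1, e2, e3, e4, div_mul_div_comm, div_mul_div_comm]
  unfold r0
  rw [div_div_div_cancel_right₀ (mul_ne_zero hl hl)]

/-- quotient of two products of linear factors, as a unit -/
noncomputable def qu (x₁ x₂ x₃ x₄ w : ℚ) : ℚˣ :=
  un (1 + x₁ * w) * un (1 + x₂ * w) * (un (1 + x₃ * w) * un (1 + x₄ * w))⁻¹

/-- `r0` as a unit -/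
noncomputable def R0 (c l m w : ℚ) : ℚˣ := qu (l - c * m) (l + m / c) (l + c * m) (l - m / c) w

/-- `rh` as a unit -/
noncomputable def Rh (c a b : ℚ) : ℚˣ :=
  qu (-((c + a) / (1 - c * a))) ((1 / c - a) / (1 + a / c)) (-((c - a) / (1 + c * a)))
    ((1 / c + a) / (1 - a / c)) b

lemma un_quot {a b c d : ℚ} (ha : a ≠ 0) (hb : b ≠ 0) (hc : c ≠ 0) (hd : d ≠ 0) :
    un (a * b / (c * d)) = un a * un b * (un c * un d)⁻¹ := by
  rw [un_div (mul_ne_zero ha hb) (mul_ne_zero hc hd), un_mul ha hb, un_mul hc hd]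

section Main

variable {E : Type u} [Group E] [TopologicalSpace E] [CompactSpace E] [T2Space E]
  {θ : ℚˣ →* E}

/-- the point-wise facts for one `V` -/
lemma ev_ratio {𝔲 𝔠 : Ultrafilter ℚ} (hu : E1 θ 𝔲) (hc' : E1 θ 𝔠)
    {c : ℚ} (hc : c ≠ 0) (l m : ℚ) :
    ∀ᶠ ω in (sd 𝔲 (fun _ => 𝔠) : Filter (ℚ × ℚ)),
      un (aa c (op (mo l m ω.1) ω.2)) * (un (aa c (op (-mo l m ω.1) ω.2)))⁻¹ =
        R0 c l m ω.1 * Rh c (mo l m ω.1) ω.2 := by
  rw [eventually_sd]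
  filter_upwards [hu.ne l, hu.ne (l - c * m), hu.ne (l + m / c), hu.ne (l + c * m),
    hu.ne (l - m / c)] with w hl h1 h2 h3 h4
  filter_upwards [hc'.ne (mo l m w), hc'.ne (-mo l m w),
    hc'.ne (-((c + mo l m w) / (1 - c * mo l m w))),
    hc'.ne ((1 / c - mo l m w) / (1 + mo l m w / c)),
    hc'.ne (-((c - mo l m w) / (1 + c * mo l m w))),
    hc'.ne ((1 / c + mo l m w) / (1 - mo l m w / c))] with b hb hb' k1 k2 k3 k4
  have hq : mo l m w * (1 + l * w) = m * w := div_mul_cancel₀ _ hl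
  have n1 : 1 - c * mo l m w ≠ 0 := by
    intro H
    apply h1
    linear_combination (1 + l * w) * H + c * hq
  have n2 : 1 + mo l m w / c ≠ 0 := by
    intro H
    apply h2
    linear_combination (1 + l * w) * H - (1 / c) * hq
  have n3 : 1 + c * mo l m w ≠ 0 := by
    intro H
    apply h3
    linear_combination (1 + l * w) * H - c * hq
  have n4 : 1 - mo l m w / c ≠ 0 := by
    intro H
    apply h4
    linear_combination (1 + l * w) * H + (1 / c) * hq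
  have hb'' : 1 - mo l m w * b ≠ 0 := by
    intro H
    apply hb'
    linear_combination H
  have key := ratio (a := mo l m w) (b := b) hc hb'' hb n1 n2 n3 n4
  rw [r0_eq hl] at key
  have g1 : r0 c l m w ≠ 0 := div_ne_zero (mul_ne_zero h1 h2) (mul_ne_zero h3 h4)
  have g2 : rh c (mo l m w) b ≠ 0 := div_ne_zero (mul_ne_zero k1 k2) (mul_ne_zero k3 k4)
  have g3 : aa c (op (mo l m w) b) * (aa c (op (-mo l m w) b))⁻¹ ≠ 0 := by
    rw [key]; exact mul_ne_zero g1 g2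
  have g4 : aa c (op (mo l m w) b) ≠ 0 := left_ne_zero_of_mul g3
  have g5 : aa c (op (-mo l m w) b) ≠ 0 := fun H => right_ne_zero_of_mul g3 (by rw [H, inv_zero])
  show un (aa c (op (mo l m w) b)) * (un (aa c (op (-mo l m w) b)))⁻¹ =
    R0 c l m w * Rh c (mo l m w) b
  rw [← un_inv g5, ← un_mul g4 (inv_ne_zero g5), key, un_mul g1 g2]
  congr 1
  · exact un_quot h1 h2 h3 h4
  · exact un_quot k1 k2 k3 k4

/-- position independence of quotients of linear factors -/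
lemma pos_qu (hPG : POSG E) (hPO : POS E) (hR : RT θ) {𝔲 : Ultrafilter ℚ} (hu : E1 θ 𝔲)
    (x₁ x₂ x₃ x₄ : ℚ) : Pos θ (A0 θ) 𝔲 (fun w => qu x₁ x₂ x₃ x₄ w) := by
  have h1 : ∀ x : ℚ, Pos θ (A0 θ) 𝔲 (fun w => un (1 + x * w)) := fun x =>
    (hPO θ hR ℚ 𝔲 id).1 (by rwa [Ultrafilter.map_id]) x
  obtain ⟨-, -, hm, hi, -⟩ := hPG θ hR (A0 θ) ℚ 𝔲
  exact hm _ _ (hm _ _ (h1 x₁) (h1 x₂)) (hi _ (hm _ _ (h1 x₃) (h1 x₄)))

lemma lim_qu (hPG : POSG E) (hPO : POS E) (hR : RT θ) {𝔲 : Ultrafilter ℚ} (hu : E1 θ 𝔲)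
    (x₁ x₂ x₃ x₄ : ℚ) : L 𝔲 (fun w => θ (qu x₁ x₂ x₃ x₄ w)) ∈ A0 θ :=
  (hPG θ hR (A0 θ) ℚ 𝔲).2.2.2.2 _ (pos_qu hPG hPO hR hu x₁ x₂ x₃ x₄)

/-- splitting off the inner variable -/
lemma split (hR : RT θ) {Ω : Type*} (𝔮 : Ultrafilter Ω) (𝔠 : Ultrafilter ℚ)
    (k : Ω → ℚˣ) (c : ℚ) (a : Ω → ℚ) :
    L (sd 𝔮 (fun _ => 𝔠)) (fun P : Ω × ℚ => θ (k P.1 * Rh c (a P.1) P.2)) =
      L 𝔮 (fun p => θ (k p) * L 𝔠 (fun b => θ (Rh c (a p) b))) := by
  rw [L_sd]
  simp only [map_mul]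
  exact hR.LL_mul_left 𝔮 (fun _ => 𝔠) k (fun p b => θ (Rh c (a p) b))

end Main

end I_CLO

theorem CLO_pf (E : Type u) [Group E] [TopologicalSpace E] [CompactSpace E] [T2Space E]
    (Γ : Type u) [Group Γ] [TopologicalSpace Γ] [IsTopologicalGroup Γ] [CompactSpace Γ]
    [T2Space Γ]
    (hE : E1BND E) (hM : MOB E) (hCO : COMPEN E) (hPG : POSG E) (hPO : POS E)
    (hI : INDG E Γ) (hK : KIND E Γ) : CLO E Γ := by
  intro θ hR D π hPr N hN v hv0 hCmp 𝔲 hu l m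
  -- the compensators
  have hex : ∀ V : ℚ, ∃ 𝔠 : Ultrafilter ℚ, E1 θ (𝔲 V) → (E1 θ 𝔠 ∧
      ∀ 𝔲₂ : Ultrafilter ℚ, E1 θ 𝔲₂ → nu θ 𝔲₂ = nu θ ((𝔲 V).map (I_CLO.mo (l V) (m V))) →
        bnd 𝔲₂ (fun _ => 𝔠) ∈ WW θ) := by
    intro V
    by_cases hV : E1 θ (𝔲 V)
    · obtain ⟨𝔠, h1, h2⟩ := hCO θ hR _ ((hM θ hR).2.2 (𝔲 V) hV (l V) (m V))
      exact ⟨𝔠, fun _ => ⟨h1, h2⟩⟩
    · exact ⟨pure 0, fun hV' => absurd hV' hV⟩
  choose uc huc using hex
  have hcc : ∀ᶠ V in (v : Filter ℚ), cc V ≠ 0 := by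
    filter_upwards [hv0] with V hV
    obtain ⟨-, h1, h2⟩ := hV
    unfold cc
    apply div_ne_zero
    · intro H; apply h2; linarith
    · intro H; apply h1; linarith
  -- the two families
  have key : ∀ σ : ℚ, (σ = 1 ∨ σ = -1) →
      Ind θ (A0 θ) π N v (fun V => sd (𝔲 V) (fun _ => uc V))
        (fun V ω => un (aa (cc V) (op (σ * I_CLO.mo (l V) (m V) ω.1) ω.2))) := by
    intro σ hσ
    have hσ2 : σ ^ 2 = 1 := by rcases hσ with rfl | rfl <;> norm_num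
    apply hK θ hR D π hPr N hN v hv0 hCmp (ℚ × ℚ) (fun V => sd (𝔲 V) (fun _ => uc V))
      (fun V ω => op (σ * I_CLO.mo (l V) (m V) ω.1) ω.2)
    filter_upwards [hu] with V hV
    obtain ⟨hc1, hc2⟩ := huc V hV
    have e0 : (sd (𝔲 V) (fun _ => uc V)).map
        (fun ω => op (σ * I_CLO.mo (l V) (m V) ω.1) ω.2) =
        bnd ((𝔲 V).map (fun w => (σ * m V) * w / (1 + l V * w))) (fun _ => uc V) := by
      unfold bnd
      rw [I_CLO.sd_map_fst, Ultrafilter.map_map]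
      congr 1
      funext ω
      simp only [Function.comp]
      unfold I_CLO.mo
      congr 1
      ring
    rw [e0]
    refine hc2 _ ((hM θ hR).2.2 (𝔲 V) hV (l V) (σ * m V)) ?_
    unfold nu
    rw [L_map, L_map]
    congr 1
    funext w
    have : (σ * m V * w / (1 + l V * w)) ^ 2 = (I_CLO.mo (l V) (m V) w) ^ 2 := by
      have : σ * m V * w / (1 + l V * w) = σ * I_CLO.mo (l V) (m V) w := by
        unfold I_CLO.mo; ring
      rw [this, mul_pow, hσ2, one_mul]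
    rw [this]
  have kp := key 1 (Or.inl rfl)
  have km := key (-1) (Or.inr rfl)
  simp only [one_mul, neg_mul] at kp km
  obtain ⟨-, hcongr, hmul, hinv⟩ :=
    hI θ hR (A0 θ) D π hPr N hN v (ℚ × ℚ) (fun V => sd (𝔲 V) (fun _ => uc V))
  have kr := hcongr _ (fun V ω => I_CLO.R0 (cc V) (l V) (m V) ω.1 *
    I_CLO.Rh (cc V) (I_CLO.mo (l V) (m V) ω.1) ω.2) (hmul _ _ kp (hinv _ km)) (by
      filter_upwards [hu, hcc] with V hV hcV
      exact I_CLO.ev_ratio hV (huc V hV).1 hcV (l V) (m V))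
  have hposR : ∀ V, E1 θ (𝔲 V) → Pos θ (A0 θ) (𝔲 V) (fun w => I_CLO.R0 (cc V) (l V) (m V) w) :=
    fun V hV => I_CLO.pos_qu hPG hPO hR hV _ _ _ _
  refine ⟨?_, ?_⟩
  · filter_upwards [hu] with V hV
    exact hposR V hV
  · intro 𝔮 h𝔮
    change (L v (fun V => π (L (𝔮 V) (fun p => θ p.2))))⁻¹ *
      L v (fun V => π (L (𝔮 V) (fun p => θ (p.2 * I_CLO.R0 (cc V) (l V) (m V) p.1)))) *
      (L v (fun V => π (L (𝔲 V) (fun w => θ (I_CLO.R0 (cc V) (l V) (m V) w)))))⁻¹ ∈ N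
    -- the inner limits
    set lam : ℚ → ℚ → E := fun V w => L (uc V)
      (fun b => θ (I_CLO.Rh (cc V) (I_CLO.mo (l V) (m V) w) b)) with hlam
    have hlamA : ∀ V, E1 θ (𝔲 V) → ∀ w, lam V w ∈ A0 θ := fun V hV w =>
      I_CLO.lim_qu hPG hPO hR (huc V hV).1 _ _ _ _
    have hq' : ∀ᶠ V in (v : Filter ℚ),
        ((sd (𝔮 V) (fun _ => uc V)).map
          (fun P : (ℚ × ℚˣ) × ℚ => ((P.1.1, P.2), P.1.2))).map Prod.fst =
          sd (𝔲 V) (fun _ => uc V) ∧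
        L ((sd (𝔮 V) (fun _ => uc V)).map
          (fun P : (ℚ × ℚˣ) × ℚ => ((P.1.1, P.2), P.1.2))) (fun p => θ p.2) =
          L (𝔮 V) (fun p => θ p.2) := by
      filter_upwards [h𝔮] with V hV
      obtain ⟨hv1, hv2⟩ := hV
      refine ⟨?_, ?_⟩
      · rw [Ultrafilter.map_map, ← hv1, I_CLO.sd_map_fst]
        rfl
      · rw [L_map, L_sd]
        exact LL_fst (𝔮 V) (fun _ => uc V) (fun p => θ p.2)
    have k2 := kr.2 (fun V => (sd (𝔮 V) (fun _ => uc V)).map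
      (fun P : (ℚ × ℚˣ) × ℚ => ((P.1.1, P.2), P.1.2))) (by
        filter_upwards [hq', h𝔮] with V hV hV'
        exact ⟨hV.1, by rw [hV.2]; exact hV'.2⟩)
    have c1 : L v (fun V => π (L ((sd (𝔮 V) (fun _ => uc V)).map
        (fun P : (ℚ × ℚˣ) × ℚ => ((P.1.1, P.2), P.1.2))) (fun p => θ p.2))) =
        L v (fun V => π (L (𝔮 V) (fun p => θ p.2))) := by
      apply L_congr
      filter_upwards [hq'] with V hV
      rw [hV.2]
    have c2 : L v (fun V => π (L ((sd (𝔮 V) (fun _ => uc V)).map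
        (fun P : (ℚ × ℚˣ) × ℚ => ((P.1.1, P.2), P.1.2)))
        (fun p => θ (p.2 * (I_CLO.R0 (cc V) (l V) (m V) p.1.1 *
          I_CLO.Rh (cc V) (I_CLO.mo (l V) (m V) p.1.1) p.1.2))))) =
        L v (fun V => π (L (𝔮 V) (fun p => θ (p.2 * I_CLO.R0 (cc V) (l V) (m V) p.1)))) *
          L v (fun V => L (𝔲 V) (fun w => π (lam V w))) := by
      rw [← Cge.L_mul]
      apply L_congr
      filter_upwards [hu, h𝔮] with V hV hq
      obtain ⟨hv1, hv2⟩ := hq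
      have e1 : L ((sd (𝔮 V) (fun _ => uc V)).map
          (fun P : (ℚ × ℚˣ) × ℚ => ((P.1.1, P.2), P.1.2)))
          (fun p => θ (p.2 * (I_CLO.R0 (cc V) (l V) (m V) p.1.1 *
            I_CLO.Rh (cc V) (I_CLO.mo (l V) (m V) p.1.1) p.1.2))) =
          L (𝔮 V) (fun p => θ (p.2 * I_CLO.R0 (cc V) (l V) (m V) p.1) * lam V p.1) := by
        rw [L_map]
        have := I_CLO.split hR (𝔮 V) (uc V)
          (fun p : ℚ × ℚˣ => p.2 * I_CLO.R0 (cc V) (l V) (m V) p.1) (cc V)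
          (fun p => I_CLO.mo (l V) (m V) p.1)
        simp only [mul_assoc] at this
        exact this
      have hx : L (𝔮 V) (fun p => θ (p.2 * I_CLO.R0 (cc V) (l V) (m V) p.1)) ∈ A0 θ := by
        have := (A0 θ).mul_mem hv2 (hposR V hV (𝔮 V) hv1)
        rwa [mul_inv_cancel_left] at this
      have e2 := (hPr.L_mul (𝔬 := 𝔮 V)
        (x := fun p => θ (p.2 * I_CLO.R0 (cc V) (l V) (m V) p.1))
        (z := fun p => lam V p.1) hx (Eventually.of_forall fun p => hlamA V hV p.1)).2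
      rw [e1, e2]
      congr 1
      rw [← hv1, L_map]
    have c3 : L v (fun V => π (L (sd (𝔲 V) (fun _ => uc V))
        (fun ω => θ (I_CLO.R0 (cc V) (l V) (m V) ω.1 *
          I_CLO.Rh (cc V) (I_CLO.mo (l V) (m V) ω.1) ω.2)))) =
        L v (fun V => π (L (𝔲 V) (fun w => θ (I_CLO.R0 (cc V) (l V) (m V) w)))) *
          L v (fun V => L (𝔲 V) (fun w => π (lam V w))) := by
      rw [← Cge.L_mul]
      apply L_congr
      filter_upwards [hu] with V hV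
      have e1 := I_CLO.split hR (𝔲 V) (uc V)
        (fun w : ℚ => I_CLO.R0 (cc V) (l V) (m V) w) (cc V)
        (fun w => I_CLO.mo (l V) (m V) w)
      have e2 := (hPr.L_mul (𝔬 := 𝔲 V)
        (x := fun w => θ (I_CLO.R0 (cc V) (l V) (m V) w))
        (z := fun w => lam V w) (I_CLO.lim_qu hPG hPO hR hV _ _ _ _)
        (Eventually.of_forall fun w => hlamA V hV w)).2
      rw [e1, e2]
    rw [c1, c2, c3] at k2
    convert k2 using 1
    group

end Pool.Agent.Work.MP_0f91f8_co.Df
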