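import Pool.Agent.Work.MP_0f91f8_co.Df.Stmts

set_option linter.unusedSectionVars false
set_option linter.unusedVariables false

open Filter Topology

universe u

namespace Pool.Agent.Work.MP_0f91f8_co.Df

open Pool.Agent.Work.MP_0f91f8_co.Cge (L LL sd L_congr L_map L_sd LL_congr eventually_sd)

namespace I_CMPS

section

variable {S T G : Type} [CommGroup G]

/-- both ultrafilters of moves have the same eventually-statements -/
lemma fst_eq (K : Mach S T G) (s : S) (m : Ultrafilter (T × G))
    (F : S → Ultrafilter (T × G)) :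
    (cps K s m F).map Prod.fst =
      (sd (m.map Prod.fst) (fun t => (F (K.act s t)).map Prod.fst)).map
        (fun p => K.cmp p.1 p.2) := by
  apply Ultrafilter.coe_injective
  ext t
  exact Iff.rfl

/-- almost every state reached by a move is in `S₀`, and the next move is in `W` -/
lemma ev_W {K : Mach S T G} (hK : MOK K) {s : S} (hs : s ∈ K.S₀) {m : Ultrafilter (T × G)}
    (hm : m.map Prod.fst ∈ K.W) {F : S → Ultrafilter (T × G)}
    (hF : ∀ s' ∈ K.S₀, (F s').map Prod.fst ∈ K.W) :
    ∀ᶠ t in (m.map Prod.fst : Filter T), (F (K.act s t)).map Prod.fst ∈ K.W :=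
  (hK.mem s hs _ hm).mono fun t ht => hF _ ht

/-- the cocycle relations along a composition -/
lemma ev_coc {K : Mach S T G} (hK : MOK K) {s : S} (hs : s ∈ K.S₀) {m : Ultrafilter (T × G)}
    (hm : m.map Prod.fst ∈ K.W) {F : S → Ultrafilter (T × G)}
    (hF : ∀ s' ∈ K.S₀, (F s').map Prod.fst ∈ K.W) :
    ∀ᶠ a in (m : Filter (T × G)), ∀ᶠ b in (F (K.act s a.1) : Filter (T × G)),
      K.act s (K.cmp a.1 b.1) = K.act (K.act s a.1) b.1 ∧
        K.r s (K.cmp a.1 b.1) = K.r s a.1 * K.r (K.act s a.1) b.1 := by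
  have h1 : ∀ᶠ t in (m.map Prod.fst : Filter T), ∀ᶠ t' in
      ((F (K.act s t)).map Prod.fst : Filter T),
      K.act s (K.cmp t t') = K.act (K.act s t) t' ∧
        K.r s (K.cmp t t') = K.r s t * K.r (K.act s t) t' := by
    filter_upwards [hK.coc s hs _ hm, ev_W hK hs hm hF] with t h2 h3
    exact h2 _ h3
  exact h1

end

end I_CMPS

variable (E : Type u) [Group E] [TopologicalSpace E] [CompactSpace E] [T2Space E]

/-- compositions of moves -/
theorem CMPS_pf : CMPS E := by
  intro S T G _ θ hθ K hK s hs m hm F hF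
  have hcoc := I_CMPS.ev_coc hK hs hm hF
  refine ⟨?_, ?_, ?_, I_CMPS.fst_eq K s m F, ?_⟩
  · rw [I_CMPS.fst_eq]
    exact hK.cmp _ hm _ (I_CMPS.ev_W hK hs hm hF)
  · unfold P1 cps
    rw [L_map, L_sd, ← hθ.LL_mul_left]
    congr 1
    funext a b
    simp only [map_mul]
  · unfold P2 cps
    rw [L_map, L_sd, ← hθ.LL_mul_left]
    apply LL_congr
    filter_upwards [hcoc] with a ha
    filter_upwards [ha] with b hb
    rw [← map_mul]
    congr 1
    rw [hb.2]
    exact mul_mul_mul_comm _ _ _ _
  · apply Ultrafilter.coe_injective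
    ext t
    show (∀ᶠ a in (m : Filter (T × G)), ∀ᶠ b in (F (K.act s a.1) : Filter (T × G)),
        K.act s (K.cmp a.1 b.1) ∈ t) ↔
      (∀ᶠ a in (m : Filter (T × G)), ∀ᶠ b in (F (K.act s a.1) : Filter (T × G)),
        K.act (K.act s a.1) b.1 ∈ t)
    constructor
    · intro h
      filter_upwards [h, hcoc] with a h1 h2
      filter_upwards [h1, h2] with b h3 h4
      rw [← h4.1]
      exact h3
    · intro h
      filter_upwards [h, hcoc] with a h1 h2
      filter_upwards [h1, h2] with b h3 h4
      rw [h4.1]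
      exact h3

end Pool.Agent.Work.MP_0f91f8_co.Df
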