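import Pool.Agent.Work.MP_0f91f8_co.Df.Stmts

/-!
Block [0f91f8 DF], item COMPEN: compensation of norms.
-/

set_option linter.unusedSectionVars false

open Filter Topology

universe u

namespace Pool.Agent.Work.MP_0f91f8_co.Df

open Pool.Agent.Work.MP_0f91f8_co.Cge (L LL sd tendsto_L L_eq L_eq_iff continuous_L L_congr L_const
  L_pure L_map L_comp L_mem op aa cc bnd)

namespace I_COMPEN

variable {E : Type u} [Group E] [TopologicalSpace E] [CompactSpace E] [T2Space E]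

/-- norms of laws modulo `A0` -/
def SS (θ : ℚˣ →* E) : Set E := {x | ∃ 𝔲 : Ultrafilter ℚ, E1 θ 𝔲 ∧ (nu θ 𝔲)⁻¹ * x ∈ A0 θ}

lemma nu_bnd (hN : NUB E) {θ : ℚˣ →* E} (h : RT θ) {𝔲 𝔲' : Ultrafilter ℚ} (hu : E1 θ 𝔲)
    (hu' : E1 θ 𝔲') : (nu θ 𝔲 * nu θ 𝔲')⁻¹ * nu θ (bnd 𝔲 (fun _ => 𝔲')) ∈ A0 θ := by
  have h1 := hN θ h 𝔲 (fun _ => 𝔲') hu (Eventually.of_forall fun _ => hu')
  rw [h.L_mul_right] at h1
  exact h1

lemma mul_mem (hR : RIG E) (hE : E1BND E) (hN : NUB E) {θ : ℚˣ →* E} (h : RT θ) :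
    ∀ x ∈ SS θ, ∀ y ∈ SS θ, x * y ∈ SS θ := by
  rintro x ⟨𝔲, hu, hx⟩ y ⟨𝔲', hu', hy⟩
  refine ⟨bnd 𝔲 (fun _ => 𝔲'), hE θ h 𝔲 _ hu (Eventually.of_forall fun _ => hu'), ?_⟩
  have h1 := (A0 θ).inv_mem (nu_bnd hN h hu hu')
  have h2 := (hR θ h).2 (nu θ 𝔲') _ hx
  have h3 := (A0 θ).mul_mem (A0 θ |>.mul_mem h1 h2) hy
  convert h3 using 1
  group

lemma isClosed_SS (hJ : JJ E) (hR : RIG E) (hM : MOB E) {θ : ℚˣ →* E} (h : RT θ) :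
    IsClosed (SS θ) := by
  classical
  rw [isClosed_iff_ultrafilter]
  intro x 𝔬 hx hS
  have hch : ∀ y : E, ∃ 𝔲 : Ultrafilter ℚ, E1 θ 𝔲 ∧ (y ∈ SS θ → (nu θ 𝔲)⁻¹ * y ∈ A0 θ) := by
    intro y
    by_cases hy : y ∈ SS θ
    · obtain ⟨𝔲, h1, h2⟩ := hy
      exact ⟨𝔲, h1, fun _ => h2⟩
    · exact ⟨pure 0, (hM θ h).1, fun h' => absurd h' hy⟩
  choose v hv1 hv2 using hch
  have hA := (hR θ h).1
  have hev : ∀ᶠ y in (𝔬 : Filter E), (nu θ (v y))⁻¹ * y ∈ A0 θ :=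
    mem_of_superset hS fun y hy => hv2 y hy
  obtain ⟨q, hq, hq2⟩ := hJ ℚˣ θ h (A0 θ) hA.closed
    (𝔬.map fun y => (nu θ (v y), (nu θ (v y))⁻¹ * y)) hev
  simp only [L_map, mul_inv_cancel_left] at hq2
  have hLx : L 𝔬 (fun y : E => y) = x := L_eq hx
  rw [hLx] at hq2
  have hnu : L 𝔬 (fun y => nu θ (v y)) = nu θ (L 𝔬 v) :=
    L_comp (continuous_L _) 𝔬 v
  rw [hnu] at hq2
  refine ⟨L 𝔬 v, ?_, ?_⟩
  · exact L_mem (hM θ h).2.1 (Eventually.of_forall hv1)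
  · have h1 := (A0 θ).mul_mem (hA.qq _ hq) (L_mem hA.closed hev)
    rw [hq2]
    convert h1 using 1
    group

end I_COMPEN

open I_COMPEN in
theorem COMPEN_pf (E : Type u) [Group E] [TopologicalSpace E] [CompactSpace E] [T2Space E]
    (hJ : JJ E) (hCSE : CSE E) (hR : RIG E) (hE : E1BND E) (hM : MOB E) (hN : NUB E) :
    COMPEN E := by
  intro θ h 𝔲 hu
  have h1 : nu θ 𝔲 ∈ SS θ := ⟨𝔲, hu, by rw [inv_mul_cancel]; exact (A0 θ).one_mem⟩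
  obtain ⟨𝔲', hu', h2⟩ := (hCSE h.cr (SS θ) (isClosed_SS hJ hR hM h) ⟨_, h1⟩
    (mul_mem hR hE hN h)).2 _ h1
  refine ⟨𝔲', hu', fun 𝔲₂ hu₂ h3 => ⟨hE θ h 𝔲₂ _ hu₂ (Eventually.of_forall fun _ => hu'), ?_⟩⟩
  have h4 := nu_bnd hN h hu₂ hu'
  rw [h3] at h4
  have h5 := (A0 θ).mul_mem ((A0 θ).inv_mem h2) h4
  convert h5 using 1
  group

end Pool.Agent.Work.MP_0f91f8_co.Df
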