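import Pool.Agent.Work.MP_0f91f8_co.Df.Stmts

/-!
Block [0f91f8 DF]: item COV, the covering lemma for the `τ`-closure.
-/

set_option linter.unusedSectionVars false

open Filter Topology

universe u

namespace Pool.Agent.Work.MP_0f91f8_co.Df

variable (E : Type u) [Group E] [TopologicalSpace E] [CompactSpace E] [T2Space E]

namespace I_COV

variable {E}

/-- a closure operator `c`, two sets in `A` which are dense for `c`, one of them `c`-open in `A` -/
lemma inter {c : Set E → Set E} {A O O' : Set E} (hm : ∀ S S' : Set E, S ⊆ S' → c S ⊆ c S')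
    (hi : ∀ S : Set E, c (c S) ⊆ c S) (hu : ∀ S S' : Set E, c (S ∪ S') = c S ∪ c S')
    (hO : O ⊆ A) (hO' : O' ⊆ A) (hc : c (A \ O) ⊆ A \ O) (h1 : A ⊆ c O) (h2 : A ⊆ c O') :
    A ⊆ c (O ∩ O') := by
  have h3 : O ⊆ c (O ∩ O') := by
    intro x hx
    have h4 : x ∈ c O' := h2 (hO hx)
    have h5 : O' ⊆ (O ∩ O') ∪ (A \ O) := by
      intro y hy
      by_cases h : y ∈ O
      · exact Or.inl ⟨h, hy⟩
      · exact Or.inr ⟨hO' hy, h⟩
    have h6 : x ∈ c (O ∩ O') ∪ c (A \ O) := by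
      rw [← hu]
      exact hm _ _ h5 h4
    rcases h6 with h6 | h6
    · exact h6
    · exact absurd hx (hc h6).2
  exact fun a ha => hi _ (hm _ _ h3 (h1 ha))

/-- finite intersections -/
lemma fin {c : Set E → Set E} {A : Set E} (F : Set E → Set E)
    (he : ∀ S : Set E, S ⊆ c S) (hm : ∀ S S' : Set E, S ⊆ S' → c S ⊆ c S')
    (hi : ∀ S : Set E, c (c S) ⊆ c S) (hu : ∀ S S' : Set E, c (S ∪ S') = c S ∪ c S')
    (hA : c A ⊆ A) (hF : ∀ W, c (F W) ⊆ F W) (𝒲 : Finset (Set E)) :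
    (∀ W ∈ 𝒲, A ⊆ c (A \ F W)) → A ⊆ c {a | a ∈ A ∧ ∀ W ∈ 𝒲, a ∉ F W} := by
  classical
  induction 𝒲 using Finset.induction_on with
  | empty =>
    intro _
    refine (he A).trans (hm _ _ ?_)
    intro a ha
    exact ⟨ha, fun W hW => absurd hW (Finset.notMem_empty W)⟩
  | insert W s _ ih =>
    intro h
    have h1 : A ⊆ c ((A \ F W) ∩ {a | a ∈ A ∧ ∀ W' ∈ s, a ∉ F W'}) := by
      apply inter hm hi hu Set.sdiff_subset (fun a ha => ha.1) ?_
        (h W (Finset.mem_insert_self W s))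
        (ih fun W' hW' => h W' (Finset.mem_insert_of_mem hW'))
      intro x hx
      have h2 : A \ (A \ F W) ⊆ A := Set.sdiff_subset
      have h3 : A \ (A \ F W) ⊆ F W := by
        intro y hy
        by_contra h4
        exact hy.2 ⟨hy.1, h4⟩
      exact ⟨hA (hm _ _ h2 hx), fun h4 => h4.2 (hF W (hm _ _ h3 hx))⟩
    refine h1.trans (hm _ _ ?_)
    rintro a ⟨ha1, ha2⟩
    refine ⟨ha1.1, fun W' hW' => ?_⟩
    rcases Finset.mem_insert.1 hW' with rfl | hW'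
    · exact ha1.2
    · exact ha2.2 W' hW'

end I_COV

/-- the covering lemma -/
theorem COV_pf (hT : TCL E) : COV E := by
  intro G _ θ hθ A hA 𝒲 hcov
  obtain ⟨h0, hcl, hm, hi, hu, -, -, -, hAA⟩ := hT G θ hθ
  have he : ∀ S : Set E, S ⊆ tcl θ S := fun S => subset_closure.trans (hcl S)
  by_contra hcon
  have h1 : ∀ W ∈ 𝒲, (A : Set E) ⊆ tcl θ ((A : Set E) \ tcl θ (W ∩ A)) := by
    intro W hW
    have h2 : W ∩ (A : Set E) ⊆ tcl θ ((A : Set E) \ tcl θ (W ∩ A)) := by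
      rintro b ⟨hb1, hb2⟩
      by_contra h3
      exact hcon ⟨W, hW, b, hb2, hb1, h3⟩
    intro a ha
    by_cases h3 : a ∈ tcl θ (W ∩ A)
    · exact hi _ (hm _ _ h2 h3)
    · exact he _ ⟨ha, h3⟩
  have h2 := I_COV.fin (c := tcl θ) (A := (A : Set E)) (fun W => tcl θ (W ∩ (A : Set E)))
    he hm hi hu (hAA A hA) (fun W => hi _) 𝒲 h1
  have h3 : {a | a ∈ (A : Set E) ∧ ∀ W ∈ 𝒲, a ∉ tcl θ (W ∩ (A : Set E))} = ∅ := by
    rw [Set.eq_empty_iff_forall_notMem]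
    rintro a ⟨ha1, ha2⟩
    obtain ⟨W, hW, haW⟩ := hcov a ha1
    exact ha2 W hW (he _ ⟨haW, ha1⟩)
  rw [h3, h0] at h2
  exact h2 A.one_mem

end Pool.Agent.Work.MP_0f91f8_co.Df
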