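import Pool.Agent.Work.MP_0f91f8_co.Df.Stmts

/-!
Block [0f91f8 DF], item DDP: `DD A` is normal in `A`, and limits of products are multiplicative
modulo `DD A`.
-/

set_option linter.unusedSectionVars false

open Filter Topology

universe u

namespace Pool.Agent.Work.MP_0f91f8_co.Df

open Pool.Agent.Work.MP_0f91f8_co.Cge (L LL sd tendsto_L L_eq L_eq_iff L_const L_map L_comp)

variable (E : Type u) [Group E] [TopologicalSpace E] [CompactSpace E] [T2Space E]

namespace I_DDP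

variable {E}

lemma J2 (hJ : JJ E) {G : Type} [CommGroup G] {θ : G →* E} (h : RT θ) {A : Subgroup E}
    (hA : IsClosed (A : Set E)) {Ω : Type*} (𝔬 : Ultrafilter Ω) (x z : Ω → E)
    (hz : ∀ᶠ ω in (𝔬 : Filter Ω), z ω ∈ A) :
    ∃ q ∈ QQ θ A, L 𝔬 (fun ω => x ω * z ω) = L 𝔬 x * q * L 𝔬 z := by
  have h1 : ∀ᶠ p in ((𝔬.map fun ω => (x ω, z ω) : Ultrafilter (E × E)) : Filter (E × E)),
      p.2 ∈ A := hz
  obtain ⟨q, hq, e⟩ := hJ G θ h A hA _ h1
  refine ⟨q, hq, ?_⟩
  simpa only [L_map] using e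

/-- left cosets of `D` are closed -/
lemma isClosed_coset (hJ : JJ E) {G : Type} [CommGroup G] {θ : G →* E} (h : RT θ)
    {D : Subgroup E} (hD : CA θ D) (x : E) : IsClosed {y : E | x⁻¹ * y ∈ D} := by
  rw [isClosed_iff_ultrafilter]
  intro y 𝔣 hf hy
  obtain ⟨q, hq, e⟩ := J2 hJ h hD.closed 𝔣 (fun _ => x) (fun y => x⁻¹ * y) hy
  have e1 : L 𝔣 (fun y : E => x * (x⁻¹ * y)) = y := by
    simp only [mul_inv_cancel_left]
    exact L_eq hf
  rw [e1, L_const, mul_assoc] at e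
  show x⁻¹ * y ∈ D
  rw [e, inv_mul_cancel_left]
  exact D.mul_mem (hD.qq _ hq) (Cge.L_mem hD.closed hy)

lemma isClosed_conj (hJ : JJ E) {G : Type} [CommGroup G] {θ : G →* E} (h : RT θ)
    {D : Subgroup E} (hD : CA θ D) (b : E) : IsClosed {y : E | b⁻¹ * y * b ∈ D} := by
  have h1 : IsClosed {y : E | b⁻¹ * y ∈ D} := isClosed_coset hJ h hD b
  have h2 : {y : E | b⁻¹ * y * b ∈ D} = (fun y : E => y * b) ⁻¹' {y : E | b⁻¹ * y ∈ D} := by
    ext y
    show b⁻¹ * y * b ∈ D ↔ b⁻¹ * (y * b) ∈ D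
    rw [mul_assoc]
  rw [h2]
  exact h1.preimage (h.cr b)

end I_DDP

theorem DDP_pf (hJ : JJ E) : DDP E := by
  intro G _ θ h A hA
  constructor
  · intro a ha d hd
    have h1 : DD θ A ≤ (DD θ A).comap (MulAut.conj a⁻¹).toMonoidHom := by
      refine DD_le ?_ ?_
      · have := I_DDP.isClosed_conj hJ h hA.DD a
        convert this using 1
        ext y
        simp
      · intro b hb q hq
        have := mem_DD (θ := θ) (A.mul_mem hb ha) hq
        simp only [Subgroup.mem_comap, MulEquiv.coe_toMonoidHom, MulAut.conj_apply, inv_inv]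
        convert this using 1
        group
    have h2 := h1 hd
    simpa [MulAut.conj_apply] using h2
  · intro 𝔬 hz
    obtain ⟨q, hq, e⟩ := I_DDP.J2 hJ h hA.closed 𝔬 (fun p => p.1) (fun p => p.2) hz
    rw [e]
    have := mem_DD (θ := θ) (Cge.L_mem hA.closed hz : L 𝔬 (fun p : E × E => p.2) ∈ A) hq
    convert this using 1
    group

end Pool.Agent.Work.MP_0f91f8_co.Df
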