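import Pool.Agent.Work.MP_0f91f8_co.Df.Stmts

/-!
Item DHH: `DD A` is contained in `HH A`.
-/

open Filter Topology

universe u

namespace Pool.Agent.Work.MP_0f91f8_co.Df

open Pool.Agent.Work.MP_0f91f8_co.Cge (L tendsto_L)

variable (E : Type u) [Group E] [TopologicalSpace E] [CompactSpace E] [T2Space E]

namespace I_DHH

variable {E} {G : Type} [CommGroup G] {θ : G →* E} {A : Subgroup E}

/-- the `τ`-open neighbourhoods of `1` in `A` -/
def Good (θ : G →* E) (A : Subgroup E) (V : Set E) : Prop :=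
  V ⊆ A ∧ (1 : E) ∈ V ∧ tcl θ ((A : Set E) \ V) ⊆ (A : Set E) \ V

lemma mem_HH_iff {a : E} : a ∈ HH θ A ↔ ∀ V, Good θ A V → a ∈ tcl θ V :=
  ⟨fun h V hV => h V hV.1 hV.2.1 hV.2.2, fun h V h1 h2 h3 => h V ⟨h1, h2, h3⟩⟩

lemma good_image {V : Set E} (hV : Good θ A V) {f : E → E} (hf : Function.Injective f)
    (hA : f '' (A : Set E) = A) (ht : ∀ S : Set E, tcl θ (f '' S) = f '' tcl θ S)
    (h1 : (1 : E) ∈ f '' V) : Good θ A (f '' V) := by
  refine ⟨?_, h1, ?_⟩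
  · rw [← hA]
    exact Set.image_mono hV.1
  · have : (A : Set E) \ f '' V = f '' ((A : Set E) \ V) := by
      rw [Set.image_diff hf, hA]
    rw [this, ht]
    exact Set.image_mono hV.2.2

section

variable (hmono : ∀ S S' : Set E, S ⊆ S' → tcl θ S ⊆ tcl θ S')
  (hcl : ∀ S : Set E, closure S ⊆ tcl θ S)
  (hid : ∀ S : Set E, tcl θ (tcl θ S) ⊆ tcl θ S)
  (hR : ∀ (S : Set E) (a : E), tcl θ ((fun x => x * a) '' S) = (fun x => x * a) '' tcl θ S)
  (hL : ∀ (S : Set E) (a : E), tcl θ ((fun x => a * x) '' S) = (fun x => a * x) '' tcl θ S)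
  (hI : ∀ S : Set E, tcl θ ((fun x => x⁻¹) '' S) = (fun x => x⁻¹) '' tcl θ S)

include hcl in
lemma one_mem : (1 : E) ∈ HH θ A :=
  mem_HH_iff.2 fun V hV => hcl V (subset_closure hV.2.1)

include hcl hid in
lemma isClosed_HH : IsClosed (HH θ A) := by
  have h1 : HH θ A = ⋂ V ∈ {V : Set E | Good θ A V}, tcl θ V := by
    ext a
    rw [mem_HH_iff]
    simp only [Set.mem_setOf_eq, Set.mem_iInter]
  rw [h1]
  refine isClosed_biInter fun V _ => ?_
  exact isClosed_of_closure_subset ((hcl _).trans (hid V))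

include hR in
lemma image_subset {h : E} (hh : h ∈ HH θ A) {V : Set E} (hV : Good θ A V) :
    (fun x => h * x) '' V ⊆ tcl θ V := by
  rintro _ ⟨x, hx, rfl⟩
  have hxA : x ∈ A := hV.1 hx
  have hg : Good θ A ((fun y => y * x⁻¹) '' V) := by
    refine good_image hV (mul_left_injective x⁻¹) ?_ (fun S => hR S x⁻¹)
      ⟨x, hx, mul_inv_cancel x⟩
    apply Set.Subset.antisymm
    · rintro _ ⟨a, ha, rfl⟩
      exact A.mul_mem ha (A.inv_mem hxA)
    · intro a ha
      exact ⟨a * x, A.mul_mem ha hxA, mul_inv_cancel_right a x⟩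
  have h1 := mem_HH_iff.1 hh _ hg
  rw [hR] at h1
  obtain ⟨y, hy, hyh⟩ := h1
  have : h * x = y := by
    rw [← hyh]
    exact inv_mul_cancel_right y x
  show h * x ∈ tcl θ V
  rw [this]
  exact hy

include hmono hid hR hL in
lemma mul_mem {h h' : E} (hh : h ∈ HH θ A) (hh' : h' ∈ HH θ A) : h * h' ∈ HH θ A := by
  rw [mem_HH_iff]
  intro V hV
  have h1 : (fun x => h * x) '' tcl θ V ⊆ tcl θ V := by
    rw [← hL]
    exact (hmono _ _ (image_subset hR hh hV)).trans (hid V)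
  exact h1 ⟨h', mem_HH_iff.1 hh' V hV, rfl⟩

include hI in
lemma inv_mem {h : E} (hh : h ∈ HH θ A) : h⁻¹ ∈ HH θ A := by
  rw [mem_HH_iff]
  intro V hV
  have hg : Good θ A ((fun y => y⁻¹) '' V) := by
    refine good_image hV inv_injective ?_ (fun S => hI S) ⟨1, hV.2.1, inv_one⟩
    apply Set.Subset.antisymm
    · rintro _ ⟨a, ha, rfl⟩
      exact A.inv_mem ha
    · intro a ha
      exact ⟨a⁻¹, A.inv_mem ha, inv_inv a⟩
  have h1 := mem_HH_iff.1 hh _ hg
  rw [hI] at h1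
  obtain ⟨y, hy, rfl⟩ := h1
  show y⁻¹⁻¹ ∈ tcl θ V
  rw [inv_inv]
  exact hy

include hR hL in
lemma conj_mem {h b : E} (hb : b ∈ A) (hh : h ∈ HH θ A) : b⁻¹ * h * b ∈ HH θ A := by
  rw [mem_HH_iff]
  intro V hV
  have hfun : ∀ S : Set E, (fun y => b * y * b⁻¹) '' S =
      (fun y => y * b⁻¹) '' ((fun y => b * y) '' S) := by
    intro S
    rw [Set.image_image]
  have ht : ∀ S : Set E, tcl θ ((fun y => b * y * b⁻¹) '' S) =
      (fun y => b * y * b⁻¹) '' tcl θ S := by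
    intro S
    rw [hfun, hR, hL, ← hfun]
  have hg : Good θ A ((fun y => b * y * b⁻¹) '' V) := by
    refine good_image hV ?_ ?_ ht ⟨1, hV.2.1, ?_⟩
    · intro x y hxy
      exact mul_left_cancel (mul_right_cancel hxy)
    · apply Set.Subset.antisymm
      · rintro _ ⟨a, ha, rfl⟩
        exact A.mul_mem (A.mul_mem hb ha) (A.inv_mem hb)
      · intro a ha
        refine ⟨b⁻¹ * a * b, A.mul_mem (A.mul_mem (A.inv_mem hb) ha) hb, ?_⟩
        show b * (b⁻¹ * a * b) * b⁻¹ = a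
        group
    · show b * 1 * b⁻¹ = 1
      group
  have h1 := mem_HH_iff.1 hh _ hg
  rw [ht] at h1
  obtain ⟨y, hy, hyh⟩ := h1
  have : b⁻¹ * h * b = y := by
    rw [← hyh]
    show b⁻¹ * (b * y * b⁻¹) * b = y
    group
  rw [this]
  exact hy

include hcl in
lemma qq_mem {q : E} (hq : q ∈ QQ θ A) : q ∈ HH θ A := by
  rw [mem_HH_iff]
  intro V hV
  obtain ⟨𝔬, h1, h2, h3, h4⟩ := hq
  refine ⟨𝔬, ?_, h2, h4⟩
  have h5 : (1 : E) ∈ (closure ((A : Set E) \ V))ᶜ := by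
    intro h6
    exact (hV.2.2 (hcl _ h6)).2 hV.2.1
  have h6 : ∀ᶠ p in (𝔬 : Filter (G × E)), p.2 ∈ (closure ((A : Set E) \ V))ᶜ := by
    have := tendsto_L 𝔬 (fun p : G × E => p.2)
    rw [h3] at this
    exact this (isClosed_closure.isOpen_compl.mem_nhds h5)
  filter_upwards [h1, h6] with p hp1 hp2
  by_contra hp3
  exact hp2 (subset_closure ⟨hp1, hp3⟩)

end

end I_DHH

theorem DHH_pf (hT : TCL E) : DHH E := by
  intro G _ θ h A _ d hd
  obtain ⟨-, hcl, hmono, hid, -, hR, hL, hI, -⟩ := hT G θ h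
  let D0 : Subgroup E :=
    { carrier := HH θ A
      mul_mem' := fun ha hb => I_DHH.mul_mem hmono hid hR hL ha hb
      one_mem' := I_DHH.one_mem hcl
      inv_mem' := fun ha => I_DHH.inv_mem hI ha }
  have h1 : DD θ A ≤ D0 := by
    refine DD_le (D := D0) (I_DHH.isClosed_HH hcl hid) ?_
    intro b hb q hq
    exact I_DHH.conj_mem hR hL hb (I_DHH.qq_mem hcl hq)
  exact h1 hd

end Pool.Agent.Work.MP_0f91f8_co.Df
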