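import Pool.Agent.Work.MP_0f91f8_co.Df.Stmts

/-!
Item EKBND: the twisted laws are closed under adaptive composition with laws `E1`.
-/

set_option linter.unusedSectionVars false

open Filter Topology

universe u

namespace Pool.Agent.Work.MP_0f91f8_co.Df

open Pool.Agent.Work.MP_0f91f8_co.Cge (L LL sd op aa cc bnd L_map L_mem eventually_sd L_sd L_congr
  lin_op)

namespace I_EKBND

/-- `1 - V W` from the linear factor at `-V` -/
lemma one_sub_ne {V W : ℚ} (h : 1 + (-V) * W ≠ 0) : 1 - V * W ≠ 0 := by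
  intro h0
  apply h
  linear_combination h0

/-- product formula for a linear factor of a composition -/
lemma un_lin {x V W : ℚ} (g g' : ℚˣ) (h1 : 1 + x * V ≠ 0) (h2 : 1 - V * W ≠ 0)
    (h3 : 1 + (x - V) / (1 + x * V) * W ≠ 0) :
    g * g' * un (1 - V * W) * un (1 + x * op V W) =
      g * un (1 + x * V) * (g' * un (1 + (x - V) / (1 + x * V) * W)) := by
  have e : (1 - V * W) * (1 + x * op V W) =
      (1 + x * V) * (1 + (x - V) / (1 + x * V) * W) := by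
    rw [lin_op h1 h2]
    field_simp
  have h4 : 1 + x * op V W ≠ 0 := by
    intro h0
    rw [h0, mul_zero] at e
    exact (mul_ne_zero h1 h3) e.symm
  calc g * g' * un (1 - V * W) * un (1 + x * op V W)
      = g * g' * (un (1 - V * W) * un (1 + x * op V W)) := by rw [mul_assoc]
    _ = g * g' * (un (1 + x * V) * un (1 + (x - V) / (1 + x * V) * W)) := by
        rw [← un_mul h2 h4, e, un_mul h1 h3]
    _ = _ := by
        rw [mul_assoc, mul_assoc]
        congr 1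
        rw [← mul_assoc, ← mul_assoc, mul_comm g']

/-- product formula for the twist of a composition -/
lemma un_tw {κ V W : ℚ} (g g' : ℚˣ) (hκ : κ ≠ 0) (h1 : V ≠ 0) (h2 : 1 - V * W ≠ 0)
    (h3 : 1 + 1 / V * W ≠ 0) :
    g * g' * un (1 - V * W) * un (2 * op V W / κ) =
      g * un (2 * V / κ) * (g' * un (1 + 1 / V * W)) := by
  have h5 : 2 * V / κ ≠ 0 := div_ne_zero (mul_ne_zero two_ne_zero h1) hκ
  have e : (1 - V * W) * (2 * op V W / κ) = 2 * V / κ * (1 + 1 / V * W) := by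
    unfold op
    field_simp
  have h4 : 2 * op V W / κ ≠ 0 := by
    intro h0
    rw [h0, mul_zero] at e
    exact (mul_ne_zero h5 h3) e.symm
  calc g * g' * un (1 - V * W) * un (2 * op V W / κ)
      = g * g' * (un (1 - V * W) * un (2 * op V W / κ)) := by rw [mul_assoc]
    _ = g * g' * (un (2 * V / κ) * un (1 + 1 / V * W)) := by
        rw [← un_mul h2 h4, e, un_mul h5 h3]
    _ = _ := by
        rw [mul_assoc, mul_assoc]
        congr 1
        rw [← mul_assoc, ← mul_assoc, mul_comm g']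

/-- `op V W` is not zero -/
lemma op_ne {V W : ℚ} (h1 : V ≠ 0) (h2 : 1 - V * W ≠ 0) (h3 : 1 + 1 / V * W ≠ 0) :
    op V W ≠ 0 := by
  unfold op
  refine div_ne_zero ?_ h2
  intro h0
  apply h3
  field_simp
  linear_combination h0

end I_EKBND

open I_EKBND in
theorem EKBND_pf (E : Type u) [Group E] [TopologicalSpace E] [CompactSpace E] [T2Space E] :
    EKBND E := by
  intro θ h κ 𝔲 m hu hm
  obtain ⟨𝔮, hq, hlin, hne, htw⟩ := hu
  have hch : ∀ V : ℚ, ∃ 𝔮' : Ultrafilter (ℚ × ℚˣ), E1 θ (m V) → 𝔮'.map Prod.fst = m V ∧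
      ∀ x : ℚ, (∀ᶠ p in (𝔮' : Filter (ℚ × ℚˣ)), 1 + x * p.1 ≠ 0) ∧
        L 𝔮' (fun p => θ (p.2 * un (1 + x * p.1))) = 1 := by
    intro V
    by_cases hV : E1 θ (m V)
    · obtain ⟨q', hq', hq''⟩ := hV
      exact ⟨q', fun _ => ⟨hq', hq''⟩⟩
    · exact ⟨pure (0, 1), fun h => absurd h hV⟩
  choose q' hq' using hch
  have hmq : ∀ᶠ p in (𝔮 : Filter (ℚ × ℚˣ)), E1 θ (m p.1) := by
    have : ∀ᶠ V in ((𝔮.map Prod.fst : Ultrafilter ℚ) : Filter ℚ), E1 θ (m V) := by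
      rw [hq]; exact hm
    exact this
  refine ⟨(sd 𝔮 (fun p => q' p.1)).map
    (fun P => (op P.1.1 P.2.1, P.1.2 * P.2.2 * un (1 - P.1.1 * P.2.1))), ?_, ?_, ?_, ?_⟩
  · apply Ultrafilter.coe_injective
    ext s
    have e1 : (s ∈ ((((sd 𝔮 (fun p => q' p.1)).map
        (fun P => (op P.1.1 P.2.1, P.1.2 * P.2.2 * un (1 - P.1.1 * P.2.1)))).map Prod.fst :
          Ultrafilter ℚ) : Filter ℚ)) ↔
        ∀ᶠ p in (𝔮 : Filter (ℚ × ℚˣ)), ∀ᶠ r in (q' p.1 : Filter (ℚ × ℚˣ)), op p.1 r.1 ∈ s :=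
      Iff.rfl
    have e2 : (s ∈ ((bnd 𝔲 m : Ultrafilter ℚ) : Filter ℚ)) ↔
        ∀ᶠ p in (𝔮 : Filter (ℚ × ℚˣ)), ∀ᶠ W in (m p.1 : Filter ℚ), op p.1 W ∈ s := by
      rw [← hq]
      exact Iff.rfl
    rw [e1, e2]
    apply eventually_congr
    filter_upwards [hmq] with p hp
    have h2 := (hq' p.1 hp).1
    rw [← h2]
    exact Iff.rfl
  · intro x
    have hev : ∀ᶠ P in (sd 𝔮 (fun p => q' p.1) : Filter ((ℚ × ℚˣ) × (ℚ × ℚˣ))),
        1 + x * P.1.1 ≠ 0 ∧ 1 - P.1.1 * P.2.1 ≠ 0 ∧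
          1 + (x - P.1.1) / (1 + x * P.1.1) * P.2.1 ≠ 0 := by
      rw [eventually_sd]
      filter_upwards [(hlin x).1, hmq] with p hp hmp
      filter_upwards [((hq' p.1 hmp).2 (-p.1)).1,
        ((hq' p.1 hmp).2 ((x - p.1) / (1 + x * p.1))).1] with r hr1 hr2
      exact ⟨hp, one_sub_ne hr1, hr2⟩
    constructor
    · show ∀ᶠ P in (sd 𝔮 (fun p => q' p.1) : Filter ((ℚ × ℚˣ) × (ℚ × ℚˣ))),
        1 + x * op P.1.1 P.2.1 ≠ 0
      filter_upwards [hev] with P hP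
      rw [lin_op hP.1 hP.2.1]
      exact mul_ne_zero hP.1 (div_ne_zero hP.2.2 hP.2.1)
    · rw [L_map]
      have h1 := h.L_sd_mul 𝔮 (fun p => q' p.1) (fun p => p.2 * un (1 + x * p.1))
        (fun p r => θ (r.2 * un (1 + (x - p.1) / (1 + x * p.1) * r.1))) 1
        (hmq.mono fun p hp => ((hq' p.1 hp).2 _).2)
      rw [(hlin x).2, mul_one] at h1
      rw [← h1]
      apply L_congr
      filter_upwards [hev] with P hP
      rw [← map_mul]
      congr 1
      exact un_lin _ _ hP.1 hP.2.1 hP.2.2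
  · show ∀ᶠ P in (sd 𝔮 (fun p => q' p.1) : Filter ((ℚ × ℚˣ) × (ℚ × ℚˣ))),
      op P.1.1 P.2.1 ≠ 0
    rw [eventually_sd]
    filter_upwards [hne, hmq] with p hp hmp
    filter_upwards [((hq' p.1 hmp).2 (-p.1)).1, ((hq' p.1 hmp).2 (1 / p.1)).1] with r hr1 hr2
    exact op_ne hp (one_sub_ne hr1) hr2
  · rw [L_map]
    have h1 := h.L_sd_mul 𝔮 (fun p => q' p.1) (fun p => p.2 * un (2 * p.1 / (κ : ℚ)))
      (fun p r => θ (r.2 * un (1 + 1 / p.1 * r.1))) 1
      (hmq.mono fun p hp => ((hq' p.1 hp).2 _).2)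
    rw [htw, mul_one] at h1
    rw [← h1]
    apply L_congr
    rw [eventually_sd]
    filter_upwards [hne, hmq] with p hp hmp
    filter_upwards [((hq' p.1 hmp).2 (-p.1)).1, ((hq' p.1 hmp).2 (1 / p.1)).1] with r hr1 hr2
    rw [← map_mul]
    congr 1
    exact un_tw _ _ κ.ne_zero hp (one_sub_ne hr1) hr2

end Pool.Agent.Work.MP_0f91f8_co.Df
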