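import Pool.Agent.Work.MP_0f91f8_co.Df.Stmts

/-!
Item FIN of block [0f91f8 DF]: the theorem on the rationals.
-/

set_option linter.unusedSectionVars false

open Filter Topology

universe u

namespace Pool.Agent.Work.MP_0f91f8_co.Df

open Pool.Agent.Work.MP_0f91f8_co.Cge (L LL sd tendsto_L L_sd eventually_sd aa aa_one
  one_add_sq_pos)

variable (E : Type u) [Group E] [TopologicalSpace E] [CompactSpace E] [T2Space E]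

namespace I_FIN

/-- the arithmetic of the Pythagorean triple -/
lemma pyth (κ h g : ℚˣ) (V : ℚ) (h0 : V ≠ 0) (h1 : V ≠ 1) (h2 : V ≠ -1) :
    ((h * (g * un (aa 1 V)) : ℚˣ) : ℚ) ^ 2 +
      ((h * κ * (g * un (2 * V / (κ : ℚ) / (1 + V ^ 2))) : ℚˣ) : ℚ) ^ 2 =
        ((h * g : ℚˣ) : ℚ) ^ 2 := by
  have hN : (1 : ℚ) + V ^ 2 ≠ 0 := (one_add_sq_pos V).ne'
  have hκ : (κ : ℚ) ≠ 0 := κ.ne_zero
  have hm : (1 : ℚ) - V ^ 2 ≠ 0 := by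
    have e : (1 : ℚ) - V ^ 2 = -((V - 1) * (V + 1)) := by ring
    rw [e]
    refine neg_ne_zero.2 (mul_ne_zero (sub_ne_zero.2 h1) ?_)
    intro h
    exact h2 (by linarith)
  have ha : aa 1 V ≠ 0 := by
    rw [aa_one]
    exact div_ne_zero hm hN
  have hb : 2 * V / (κ : ℚ) / (1 + V ^ 2) ≠ 0 :=
    div_ne_zero (div_ne_zero (mul_ne_zero two_ne_zero h0) hκ) hN
  simp only [Units.val_mul]
  rw [un_val ha, un_val hb, aa_one]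
  field_simp
  ring

end I_FIN

/-- the theorem on the rationals -/
theorem FIN_pf (hL : LAWK E) (hY : YK E) : FIN E := by
  intro θ hθ hFL hAF O hO
  obtain ⟨O', hsub, hopen, h1O⟩ := mem_nhds_iff.1 hO
  choose o hoE hoS ho1 ho2 using fun κ : ℚˣ => hL θ hθ hFL κ
  obtain ⟨k, hk⟩ := hAF
  obtain ⟨𝔬, -, h1, h2⟩ := hk
    (fun κ => L (o κ) (fun p => θ (p.2 * un (2 * p.1 / (κ : ℚ) / (1 + p.1 ^ 2)))))
    (fun κ => hY θ hθ κ (o κ) (hoE κ) (hoS κ) (ho1 κ) (ho2 κ))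
  rw [Subgroup.mem_bot] at h1 h2
  have hZ : L (sd 𝔬 (fun p => o p.1)) (fun q : (ℚˣ × ℚˣ) × (ℚ × ℚˣ) =>
      θ (q.1.2 * q.2.2)) = 1 := by
    have := hθ.L_sd_mul 𝔬 (fun p => o p.1) (fun p => p.2) (fun _ q => θ q.2) 1
      (Eventually.of_forall fun p => ho1 p.1)
    simp only [map_mul]
    rw [this, h1, one_mul]
  have hX : L (sd 𝔬 (fun p => o p.1)) (fun q : (ℚˣ × ℚˣ) × (ℚ × ℚˣ) =>
      θ (q.1.2 * (q.2.2 * un (aa 1 q.2.1)))) = 1 := by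
    have := hθ.L_sd_mul 𝔬 (fun p => o p.1) (fun p => p.2)
      (fun _ q => θ (q.2 * un (aa 1 q.1))) 1 (Eventually.of_forall fun p => ho2 p.1)
    have e : (fun q : (ℚˣ × ℚˣ) × (ℚ × ℚˣ) => θ (q.1.2 * (q.2.2 * un (aa 1 q.2.1)))) =
        fun q => θ q.1.2 * θ (q.2.2 * un (aa 1 q.2.1)) := by
      funext q
      rw [map_mul θ q.1.2]
    rw [e, this, h1, one_mul]
  have hYY : L (sd 𝔬 (fun p => o p.1)) (fun q : (ℚˣ × ℚˣ) × (ℚ × ℚˣ) =>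
      θ (q.1.2 * q.1.1 * (q.2.2 * un (2 * q.2.1 / (q.1.1 : ℚ) / (1 + q.2.1 ^ 2))))) = 1 := by
    have e : (fun q : (ℚˣ × ℚˣ) × (ℚ × ℚˣ) =>
        θ (q.1.2 * q.1.1 * (q.2.2 * un (2 * q.2.1 / (q.1.1 : ℚ) / (1 + q.2.1 ^ 2))))) =
        fun q => θ (q.1.2 * q.1.1) *
          θ (q.2.2 * un (2 * q.2.1 / (q.1.1 : ℚ) / (1 + q.2.1 ^ 2))) := by
      funext q
      rw [map_mul θ (q.1.2 * q.1.1)]
    rw [e, L_sd, hθ.LL_mul_left 𝔬 (fun p => o p.1) (fun p => p.2 * p.1)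
      (fun p q => θ (q.2 * un (2 * q.1 / (p.1 : ℚ) / (1 + q.1 ^ 2))))]
    exact h2
  have hS : ∀ᶠ q in (sd 𝔬 (fun p => o p.1) : Filter ((ℚˣ × ℚˣ) × (ℚ × ℚˣ))),
      q.2.1 ≠ 0 ∧ q.2.1 ≠ 1 ∧ q.2.1 ≠ -1 := by
    rw [eventually_sd]
    exact Eventually.of_forall fun p => hoS p.1
  have hn : O' ∈ 𝓝 (1 : E) := hopen.mem_nhds h1O
  have tZ := (tendsto_L (sd 𝔬 (fun p => o p.1)) (fun q : (ℚˣ × ℚˣ) × (ℚ × ℚˣ) =>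
      θ (q.1.2 * q.2.2))) (by rw [hZ]; exact hn : O' ∈ _)
  have tX := (tendsto_L (sd 𝔬 (fun p => o p.1)) (fun q : (ℚˣ × ℚˣ) × (ℚ × ℚˣ) =>
      θ (q.1.2 * (q.2.2 * un (aa 1 q.2.1))))) (by rw [hX]; exact hn : O' ∈ _)
  have tY := (tendsto_L (sd 𝔬 (fun p => o p.1)) (fun q : (ℚˣ × ℚˣ) × (ℚ × ℚˣ) =>
      θ (q.1.2 * q.1.1 * (q.2.2 * un (2 * q.2.1 / (q.1.1 : ℚ) / (1 + q.2.1 ^ 2))))))
      (by rw [hYY]; exact hn : O' ∈ _)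
  have hall : ∀ᶠ q in (sd 𝔬 (fun p => o p.1) : Filter ((ℚˣ × ℚˣ) × (ℚ × ℚˣ))),
      (q.2.1 ≠ 0 ∧ q.2.1 ≠ 1 ∧ q.2.1 ≠ -1) ∧ θ (q.1.2 * q.2.2) ∈ O' ∧
        θ (q.1.2 * (q.2.2 * un (aa 1 q.2.1))) ∈ O' ∧
        θ (q.1.2 * q.1.1 * (q.2.2 * un (2 * q.2.1 / (q.1.1 : ℚ) / (1 + q.2.1 ^ 2)))) ∈ O' := by
    filter_upwards [hS, tZ, tX, tY] with q a b c d
    exact ⟨a, b, c, d⟩
  obtain ⟨q, ⟨hq0, hq1, hq2⟩, hqZ, hqX, hqY⟩ := hall.exists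
  exact ⟨_, _, _, I_FIN.pyth q.1.1 q.1.2 q.2.2 q.2.1 hq0 hq1 hq2, hsub hqX, hsub hqY, hsub hqZ⟩

end Pool.Agent.Work.MP_0f91f8_co.Df
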