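import Pool.Agent.Work.MP_0f91f8_co.Df.Stmts

/-! Block [0f91f8 DF], item FLC: landings and intersections of chains. -/

set_option linter.unusedSectionVars false

open Filter Topology

universe u

namespace Pool.Agent.Work.MP_0f91f8_co.Df

open Pool.Agent.Work.MP_0f91f8_co.Cge (L LL sd tendsto_L L_eq L_eq_iff continuous_L L_congr L_const
  L_pure L_map L_comp L_mem continuous_map)

variable (E : Type u) [Group E] [TopologicalSpace E] [CompactSpace E] [T2Space E]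

namespace I_FLC

variable {E}

theorem isClosed_coset (hJ : JJ E) {G : Type} [CommGroup G] {θ : G →* E} (hθ : RT θ)
    {A : Subgroup E} (hA : CA θ A) (e : E) : IsClosed {p : E | e⁻¹ * p ∈ A} := by
  rw [isClosed_iff_ultrafilter]
  intro p u hup hu
  have hA' : ∀ᶠ x in (u : Filter E), e⁻¹ * x ∈ A := hu
  obtain ⟨q, hq, hL⟩ := hJ G θ hθ A hA.closed (u.map fun x => (e, e⁻¹ * x)) hA'
  rw [L_map, L_map, L_map, L_const] at hL
  simp only [mul_inv_cancel_left] at hL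
  have h1 : L u (fun x : E => x) = p := L_eq hup
  have h2 : L u (fun x : E => e⁻¹ * x) ∈ A := L_mem hA.closed hA'
  show e⁻¹ * p ∈ A
  rw [← h1, hL, mul_assoc, inv_mul_cancel_left]
  exact A.mul_mem (hA.qq q hq) h2

variable {S T G : Type} [CommGroup G]

theorem continuous_P1 (θ : G →* E) : Continuous (fun m : Ultrafilter (T × G) => P1 θ m) :=
  continuous_L _

theorem continuous_P2 (θ : G →* E) (K : Mach S T G) (s : S) :
    Continuous (fun m : Ultrafilter (T × G) => P2 θ K s m) :=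
  continuous_L _

theorem isClosed_MM {θ : G →* E} {K : Mach S T G} (hK : MOK K) {B : Subgroup E}
    (hB : IsClosed (B : Set E)) (s : S) : IsClosed (MM θ K B s) := by
  have h1 : IsClosed {m : Ultrafilter (T × G) | m.map Prod.fst ∈ K.W} :=
    hK.closed.preimage (continuous_map Prod.fst)
  have h2 : IsClosed {m : Ultrafilter (T × G) | P1 θ m ∈ B} :=
    hB.preimage (continuous_P1 θ)
  have h3 : IsClosed {m : Ultrafilter (T × G) | P2 θ K s m ∈ B} :=
    hB.preimage (continuous_P2 θ K s)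
  exact h1.inter (h2.inter h3)

/-- the moves landing in `A` at `e₁`, `e₂` -/
def NN (θ : G →* E) (K : Mach S T G) (B A : Subgroup E) (s : S) (e₁ e₂ : E) :
    Set (Ultrafilter (T × G)) :=
  {m | m ∈ MM θ K B s ∧ e₁⁻¹ * P1 θ m ∈ A ∧ e₂⁻¹ * P2 θ K s m ∈ A}

theorem isClosed_NN (hJ : JJ E) {θ : G →* E} (hθ : RT θ) {K : Mach S T G} (hK : MOK K)
    {B A : Subgroup E} (hB : CA θ B) (hA : CA θ A) (s : S) (e₁ e₂ : E) :
    IsClosed (NN θ K B A s e₁ e₂) := by
  have h2 : IsClosed {m : Ultrafilter (T × G) | e₁⁻¹ * P1 θ m ∈ A} :=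
    (isClosed_coset hJ hθ hA e₁).preimage (continuous_P1 θ)
  have h3 : IsClosed {m : Ultrafilter (T × G) | e₂⁻¹ * P2 θ K s m ∈ A} :=
    (isClosed_coset hJ hθ hA e₂).preimage (continuous_P2 θ K s)
  exact (isClosed_MM hK hB.closed s).inter (h2.inter h3)

theorem NN_mono {θ : G →* E} {K : Mach S T G} {B A A' : Subgroup E} (h : A ≤ A') (s : S)
    (e₁ e₂ : E) : NN θ K B A s e₁ e₂ ⊆ NN θ K B A' s e₁ e₂ :=
  fun _ hm => ⟨hm.1, h hm.2.1, h hm.2.2⟩

/-- the good laws of moves -/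
def CC (θ : G →* E) (K : Mach S T G) (B A : Subgroup E) (s : S) : Set (Ultrafilter T) :=
  {u | u ∈ K.W ∧ ∀ e₁ ∈ B, ∀ e₂ ∈ B, u ∈ (fun m => m.map Prod.fst) '' NN θ K B A s e₁ e₂}

theorem isClosed_CC (hJ : JJ E) {θ : G →* E} (hθ : RT θ) {K : Mach S T G} (hK : MOK K)
    {B A : Subgroup E} (hB : CA θ B) (hA : CA θ A) (s : S) :
    IsClosed (CC θ K B A s) := by
  have : CC θ K B A s = K.W ∩ ⋂ e₁ ∈ B, ⋂ e₂ ∈ B,
      (fun m : Ultrafilter (T × G) => m.map Prod.fst) '' NN θ K B A s e₁ e₂ := by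
    ext u
    simp only [CC, Set.mem_setOf_eq, Set.mem_inter_iff, Set.mem_iInter]
  rw [this]
  refine hK.closed.inter ?_
  refine isClosed_biInter fun e₁ _ => isClosed_biInter fun e₂ _ => ?_
  exact (((isClosed_NN hJ hθ hK hB hA s e₁ e₂).isCompact).image
    (continuous_map Prod.fst)).isClosed

theorem CC_mono {θ : G →* E} {K : Mach S T G} {B A A' : Subgroup E} (h : A ≤ A') (s : S) :
    CC θ K B A s ⊆ CC θ K B A' s :=
  fun _ hu => ⟨hu.1, fun e₁ h₁ e₂ h₂ => Set.image_mono (NN_mono h s e₁ e₂) (hu.2 e₁ h₁ e₂ h₂)⟩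

/-- compactness along a chain of subgroups -/
theorem chain_inter {X : Type*} [TopologicalSpace X] [CompactSpace X] {c : Set (Subgroup E)}
    (hne : c.Nonempty) (hc : IsChain (· ≤ ·) c) (F : Subgroup E → Set X)
    (hF : ∀ A A', A ≤ A' → F A ⊆ F A') (hcl : ∀ A ∈ c, IsClosed (F A))
    (hn : ∀ A ∈ c, (F A).Nonempty) : ∃ x, ∀ A ∈ c, x ∈ F A := by
  have : Nonempty c := hne.to_subtype
  have hdir : Directed (· ⊇ ·) (fun A : c => F A) := by
    intro A A'
    rcases hc.total A.2 A'.2 with h | h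
    · exact ⟨A, subset_rfl, hF _ _ h⟩
    · exact ⟨A', hF _ _ h, subset_rfl⟩
  obtain ⟨x, hx⟩ := IsCompact.nonempty_iInter_of_directed_nonempty_isCompact_isClosed
    (fun A : c => F A) hdir (fun A => hn A A.2) (fun A => (hcl A A.2).isCompact)
    (fun A => hcl A A.2)
  rw [Set.mem_iInter] at hx
  exact ⟨x, fun A hA => hx ⟨A, hA⟩⟩

end I_FLC

open I_FLC in
theorem FLC_pf (hJ : JJ E) : FLC E := by
  intro S T G _ θ hθ K hK B hB c hne hc hA s hs
  obtain ⟨u, hu⟩ := chain_inter hne hc (fun A => CC θ K B A s) (fun A A' h => CC_mono h s)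
    (fun A hAc => isClosed_CC hJ hθ hK hB (hA A hAc).1 s) (fun A hAc => by
      obtain ⟨u, huW, hu⟩ := (hA A hAc).2 s hs
      refine ⟨u, huW, fun e₁ h₁ e₂ h₂ => ?_⟩
      obtain ⟨m, hm, rfl, h3, h4⟩ := hu e₁ h₁ e₂ h₂
      exact ⟨m, ⟨hm, h3, h4⟩, rfl⟩)
  have hW : u ∈ K.W := by
    obtain ⟨A, hAc⟩ := hne
    exact (hu A hAc).1
  refine ⟨u, hW, fun e₁ h₁ e₂ h₂ => ?_⟩
  obtain ⟨m, hm⟩ := chain_inter hne hc
    (fun A => NN θ K B A s e₁ e₂ ∩ (fun m : Ultrafilter (T × G) => m.map Prod.fst) ⁻¹' {u})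
    (fun A A' h => Set.inter_subset_inter_left _ (NN_mono h s e₁ e₂))
    (fun A hAc => (isClosed_NN hJ hθ hK hB (hA A hAc).1 s e₁ e₂).inter
      (isClosed_singleton.preimage (continuous_map Prod.fst)))
    (fun A hAc => by
      obtain ⟨m, hm, hmu⟩ := (hu A hAc).2 e₁ h₁ e₂ h₂
      exact ⟨m, hm, hmu⟩)
  obtain ⟨A, hAc⟩ := hne
  refine ⟨m, (hm A hAc).1.1, (hm A hAc).2, ?_, ?_⟩
  · rw [Subgroup.mem_sInf]
    exact fun A' hA' => (hm A' hA').1.2.1
  · rw [Subgroup.mem_sInf]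
    exact fun A' hA' => (hm A' hA').1.2.2

end Pool.Agent.Work.MP_0f91f8_co.Df
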