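import Pool.Agent.Work.MP_0f91f8_co.Df.Stmts

/-!
Block [0f91f8 DF], item INDG: independent families form a group.
-/

set_option linter.unusedSectionVars false
set_option linter.unusedVariables false

open Filter Topology

universe u

namespace Pool.Agent.Work.MP_0f91f8_co.Df

open Pool.Agent.Work.MP_0f91f8_co.Cge (L LL sd L_map L_congr L_const L_eq L_mul L_inv)

variable (E : Type u) [Group E] [TopologicalSpace E] [CompactSpace E] [T2Space E]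
variable (Γ : Type u) [Group Γ] [TopologicalSpace Γ] [IsTopologicalGroup Γ] [CompactSpace Γ]
  [T2Space Γ]

namespace I_INDG

variable {E Γ} {θ : ℚˣ →* E} {A D : Subgroup E} {π : E → Γ} {N : Subgroup Γ}
  {v : Ultrafilter ℚ} {Ω : Type} {𝔬 : ℚ → Ultrafilter Ω}

/-- transfer of almost sure statements from the first marginal -/
lemma ev_fst {𝔮 : Ultrafilter (Ω × ℚˣ)} {𝔬 : Ultrafilter Ω} (h : 𝔮.map Prod.fst = 𝔬)
    {p : Ω → Prop} (hp : ∀ᶠ ω in (𝔬 : Filter Ω), p ω) :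
    ∀ᶠ x in (𝔮 : Filter (Ω × ℚˣ)), p x.1 := by
  rw [← h, Ultrafilter.coe_map] at hp
  exact hp

lemma map_fst_map (𝔮 : Ultrafilter (Ω × ℚˣ)) (g : Ω × ℚˣ → ℚˣ) :
    (𝔮.map (fun p => (p.1, g p))).map Prod.fst = 𝔮.map Prod.fst := by
  rw [Ultrafilter.map_map]
  rfl

lemma map_fst_map' (𝔬 : Ultrafilter Ω) (g : Ω → ℚˣ) :
    (𝔬.map (fun w => (w, g w))).map Prod.fst = 𝔬 := by
  rw [Ultrafilter.map_map]
  exact Ultrafilter.map_id' 𝔬

/-- multiplication by a position independent family preserves limits in `A` -/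
lemma mem_of_pos {𝔬 : Ultrafilter Ω} {r : Ω → ℚˣ} (hp : Pos θ A 𝔬 r)
    {𝔮 : Ultrafilter (Ω × ℚˣ)} (h1 : 𝔮.map Prod.fst = 𝔬) (h2 : L 𝔮 (fun p => θ p.2) ∈ A) :
    L 𝔮 (fun p => θ (p.2 * r p.1)) ∈ A := by
  have h3 := A.mul_mem h2 (hp 𝔮 h1)
  rwa [mul_inv_cancel_left] at h3

lemma L_one (𝔬 : Ultrafilter Ω) : L 𝔬 (fun _ => θ 1) = 1 := by
  rw [L_const, map_one]

lemma LL_one (h : Pr A D π) : L v (fun V => π (L (𝔬 V) (fun _ => θ 1))) = 1 := by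
  have h1 : (fun V => π (L (𝔬 V) (fun _ => θ 1))) = fun _ => (1 : Γ) := by
    funext V
    rw [L_one, h.one]
  rw [h1, L_const]

lemma one_ind (h : Pr A D π)
    (hp : ∀ V, Pos θ A (𝔬 V) (fun _ => 1)) : Ind θ A π N v 𝔬 (fun _ _ => 1) := by
  refine ⟨Eventually.of_forall hp, fun 𝔮 _ => ?_⟩
  rw [LL_one (θ := θ) h, inv_one, mul_one]
  simp only [mul_one, inv_mul_cancel]
  exact N.one_mem

lemma congr_ind
    (hc : ∀ (V : ℚ) (r r' : Ω → ℚˣ), Pos θ A (𝔬 V) r →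
      (∀ᶠ ω in (𝔬 V : Filter Ω), r ω = r' ω) → Pos θ A (𝔬 V) r')
    {r r' : ℚ → Ω → ℚˣ} (hr : Ind θ A π N v 𝔬 r)
    (e : ∀ᶠ V in (v : Filter ℚ), ∀ᶠ ω in (𝔬 V : Filter Ω), r V ω = r' V ω) :
    Ind θ A π N v 𝔬 r' := by
  refine ⟨?_, fun 𝔮 h𝔮 => ?_⟩
  · filter_upwards [hr.1, e] with V h1 h2
    exact hc V _ _ h1 h2
  · have h1 := hr.2 𝔮 h𝔮
    have h2 : L v (fun V => π (L (𝔮 V) (fun p => θ (p.2 * r V p.1)))) =
        L v (fun V => π (L (𝔮 V) (fun p => θ (p.2 * r' V p.1)))) := by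
      apply L_congr
      filter_upwards [h𝔮, e] with V h3 h4
      have h5 : L (𝔮 V) (fun p => θ (p.2 * r V p.1)) =
          L (𝔮 V) (fun p => θ (p.2 * r' V p.1)) := by
        apply L_congr
        filter_upwards [ev_fst h3.1 h4] with p hp
        rw [hp]
      rw [h5]
    have h3 : L v (fun V => π (L (𝔬 V) (fun ω => θ (r V ω)))) =
        L v (fun V => π (L (𝔬 V) (fun ω => θ (r' V ω)))) := by
      apply L_congr
      filter_upwards [e] with V h4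
      have h5 : L (𝔬 V) (fun ω => θ (r V ω)) = L (𝔬 V) (fun ω => θ (r' V ω)) := by
        apply L_congr
        filter_upwards [h4] with p hp
        rw [hp]
      rw [h5]
    rwa [h2, h3] at h1

/-- the conclusion for the coupling of the form `(ω, g ω)` -/
lemma ind_self {r : ℚ → Ω → ℚˣ} (hr : Ind θ A π N v 𝔬 r) {g : ℚ → Ω → ℚˣ}
    (hg : ∀ᶠ V in (v : Filter ℚ), L (𝔬 V) (fun ω => θ (g V ω)) ∈ A) :
    (L v (fun V => π (L (𝔬 V) (fun ω => θ (g V ω)))))⁻¹ *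
      L v (fun V => π (L (𝔬 V) (fun ω => θ (g V ω * r V ω)))) *
      (L v (fun V => π (L (𝔬 V) (fun ω => θ (r V ω)))))⁻¹ ∈ N := by
  have h1 := hr.2 (fun V => (𝔬 V).map (fun w => (w, g V w))) (by
    filter_upwards [hg] with V hV
    refine ⟨map_fst_map' _ _, ?_⟩
    rw [L_map]
    exact hV)
  simp only [L_map] at h1
  exact h1

/-- the conclusion for a coupling with changed second component -/
lemma ind_map {r : ℚ → Ω → ℚˣ} (hr : Ind θ A π N v 𝔬 r) {𝔮 : ℚ → Ultrafilter (Ω × ℚˣ)}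
    {g : ℚ → Ω × ℚˣ → ℚˣ}
    (hg : ∀ᶠ V in (v : Filter ℚ), (𝔮 V).map Prod.fst = 𝔬 V ∧
      L (𝔮 V) (fun p => θ (g V p)) ∈ A) :
    (L v (fun V => π (L (𝔮 V) (fun p => θ (g V p)))))⁻¹ *
      L v (fun V => π (L (𝔮 V) (fun p => θ (g V p * r V p.1)))) *
      (L v (fun V => π (L (𝔬 V) (fun ω => θ (r V ω)))))⁻¹ ∈ N := by
  have h1 := hr.2 (fun V => (𝔮 V).map (fun p => (p.1, g V p))) (by
    filter_upwards [hg] with V hV
    refine ⟨(map_fst_map _ _).trans hV.1, ?_⟩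
    rw [L_map]
    exact hV.2)
  simp only [L_map] at h1
  exact h1

lemma mul_ind (hN : ∀ γ : Γ, ∀ n ∈ N, γ * n * γ⁻¹ ∈ N)
    (hm : ∀ (V : ℚ) (r r' : Ω → ℚˣ), Pos θ A (𝔬 V) r → Pos θ A (𝔬 V) r' →
      Pos θ A (𝔬 V) (fun ω => r ω * r' ω))
    (hL : ∀ (V : ℚ) (r : Ω → ℚˣ), Pos θ A (𝔬 V) r → L (𝔬 V) (fun ω => θ (r ω)) ∈ A)
    {r r' : ℚ → Ω → ℚˣ} (hr : Ind θ A π N v 𝔬 r) (hr' : Ind θ A π N v 𝔬 r') :
    Ind θ A π N v 𝔬 (fun V ω => r V ω * r' V ω) := by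
  refine ⟨?_, fun 𝔮 h𝔮 => ?_⟩
  · filter_upwards [hr.1, hr'.1] with V h1 h2
    exact hm V _ _ h1 h2
  · have h1 := hr.2 𝔮 h𝔮
    have h2 := ind_map (𝔮 := 𝔮) (g := fun V p => p.2 * r V p.1) hr' (by
      filter_upwards [h𝔮, hr.1] with V h3 h4
      exact ⟨h3.1, mem_of_pos h4 h3.1 h3.2⟩)
    have h3 := ind_self (g := r) hr' (by
      filter_upwards [hr.1] with V h4
      exact hL V _ h4)
    have h5 : (fun V => π (L (𝔮 V) (fun p : Ω × ℚˣ => θ (p.2 * (r V p.1 * r' V p.1))))) =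
        fun V => π (L (𝔮 V) (fun p : Ω × ℚˣ => θ (p.2 * r V p.1 * r' V p.1))) := by
      funext V
      simp only [mul_assoc]
    rw [h5]
    have h6 := N.mul_mem h1 (hN (L v (fun V => π (L (𝔬 V) (fun ω => θ (r V ω))))) _
      (N.mul_mem h2 (N.inv_mem h3)))
    refine (congrArg (· ∈ N) ?_).mp h6
    group

lemma inv_ind (h : Pr A D π) (hN : ∀ γ : Γ, ∀ n ∈ N, γ * n * γ⁻¹ ∈ N)
    (hi : ∀ (V : ℚ) (r : Ω → ℚˣ), Pos θ A (𝔬 V) r → Pos θ A (𝔬 V) (fun ω => (r ω)⁻¹))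
    (hL : ∀ (V : ℚ) (r : Ω → ℚˣ), Pos θ A (𝔬 V) r → L (𝔬 V) (fun ω => θ (r ω)) ∈ A)
    {r : ℚ → Ω → ℚˣ} (hr : Ind θ A π N v 𝔬 r) :
    Ind θ A π N v 𝔬 (fun V ω => (r V ω)⁻¹) := by
  have hi' : ∀ᶠ V in (v : Filter ℚ), Pos θ A (𝔬 V) (fun ω => (r V ω)⁻¹) := by
    filter_upwards [hr.1] with V h1
    exact hi V _ h1
  refine ⟨hi', fun 𝔮 h𝔮 => ?_⟩
  have h2 := ind_map (𝔮 := 𝔮) (g := fun V p => p.2 * (r V p.1)⁻¹) hr (by
    filter_upwards [h𝔮, hi'] with V h3 h4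
    exact ⟨h3.1, mem_of_pos h4 h3.1 h3.2⟩)
  have h3 := ind_self (g := fun V ω => (r V ω)⁻¹) hr (by
    filter_upwards [hi'] with V h4
    exact hL V _ h4)
  simp only [inv_mul_cancel_right] at h2
  simp only [inv_mul_cancel] at h3
  rw [LL_one (θ := θ) h] at h3
  have h7 := hN (L v (fun V => π (L (𝔬 V) (fun ω => θ (r V ω)))))⁻¹ _
    (N.mul_mem (N.inv_mem h2) h3)
  refine (congrArg (· ∈ N) ?_).mp h7
  group

end I_INDG

open I_INDG in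
/-- independent families form a group -/
theorem INDG_pf (hPG : POSG E) : INDG E Γ := by
  intro θ hθ A D π h N hN v Ω 𝔬
  have hP := fun V => hPG θ hθ A Ω (𝔬 V)
  refine ⟨one_ind h (fun V => (hP V).1),
    fun r r' hr e => congr_ind (fun V => (hP V).2.1) hr e,
    fun r r' hr hr' => mul_ind hN (fun V => (hP V).2.2.1) (fun V => (hP V).2.2.2.2) hr hr',
    fun r hr => inv_ind h hN (fun V => (hP V).2.2.2.1) (fun V => (hP V).2.2.2.2) hr⟩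

end Pool.Agent.Work.MP_0f91f8_co.Df
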