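import Pool.Agent.Work.MP_0f91f8_co.Df.Stmts

/-!
Block [0f91f8 DF], item JJ: Lemma J.
-/

set_option linter.unusedSectionVars false
set_option linter.unusedVariables false

open Filter Topology

universe u

namespace Pool.Agent.Work.MP_0f91f8_co.Df

open Pool.Agent.Work.MP_0f91f8_co.Cge (L LL sd L_congr L_const L_map L_mem eventually_sd L_sd)

variable (E : Type u) [Group E] [TopologicalSpace E] [CompactSpace E] [T2Space E]

/-- Lemma J -/
theorem JJ_pf : JJ E := by
  intro G _ θ h A hA 𝔬 hz
  have hz' : L 𝔬 (fun p : E × E => p.2) ∈ A := L_mem hA hz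
  set x : E := L 𝔬 (fun p : E × E => p.1) with hx
  set z : E := L 𝔬 (fun p : E × E => p.2) with hzdef
  obtain ⟨𝔨, hk⟩ := h.exists_law x⁻¹
  choose hh hhe using fun e : E => h.exists_law e
  -- the composed law
  set Q : Ultrafilter (G × ((E × E) × G)) := sd 𝔨 (fun _ => sd 𝔬 (fun p => hh p.1)) with hQ
  -- limits over the composed law
  have key : ∀ f : E × E → E, L Q (fun P => θ (P.1 * P.2.2) * f P.2.1) =
      x⁻¹ * L 𝔬 (fun p => p.1 * f p) := by
    intro f
    have h1 : L Q (fun P => θ (P.1 * P.2.2) * f P.2.1) =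
        L 𝔨 (fun k => θ k * L 𝔬 (fun p => p.1 * f p)) := by
      rw [hQ, L_sd]
      unfold LL
      apply L_congr
      refine Eventually.of_forall fun k => ?_
      rw [L_sd]
      unfold LL
      rw [← h.L_mul_left]
      apply L_congr
      refine Eventually.of_forall fun p => ?_
      show L (hh p.1) (fun g => θ (k * g) * f p) = θ k * (p.1 * f p)
      rw [h.L_mul_right, ← mul_assoc]
      congr 1
      have h2 : L (hh p.1) (fun g => θ (k * g)) = θ k * L (hh p.1) (fun g => θ g) := by
        rw [← h.L_mul_left]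
        congr 1
        funext g
        exact map_mul θ k g
      rw [h2, hhe]
    rw [h1, h.L_mul_right, hk]
  refine ⟨x⁻¹ * L 𝔬 (fun p => p.1 * p.2) * z⁻¹, ?_, ?_⟩
  · refine ⟨Q.map (fun P => (P.1 * P.2.2, P.2.1.2 * z⁻¹)), ?_, ?_, ?_, ?_⟩
    · show ∀ᶠ P in (Q : Filter (G × ((E × E) × G))), P.2.1.2 * z⁻¹ ∈ A
      rw [hQ, eventually_sd]
      refine Eventually.of_forall fun k => ?_
      rw [eventually_sd]
      filter_upwards [hz] with p hp
      exact Eventually.of_forall fun _ => A.mul_mem hp (A.inv_mem hz')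
    · rw [L_map]
      have := key (fun _ => 1)
      simp only [mul_one] at this
      rw [this, ← hx, inv_mul_cancel]
    · rw [L_map]
      show L Q (fun P => P.2.1.2 * z⁻¹) = 1
      rw [h.L_mul_right]
      have h3 : L Q (fun P => P.2.1.2) = z := by
        rw [hQ, L_sd]
        unfold LL
        have h4 : L 𝔨 (fun _ : G => L (sd 𝔬 (fun p : E × E => hh p.1)) (fun ω => ω.1.2)) = z := by
          rw [L_const, L_sd]
          unfold LL
          simp only [L_const]
          rfl
        exact h4
      rw [h3, mul_inv_cancel]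
    · rw [L_map]
      show L Q (fun P => θ (P.1 * P.2.2) * (P.2.1.2 * z⁻¹)) = _
      have := key (fun p => p.2 * z⁻¹)
      rw [this, mul_assoc]
      congr 1
      rw [← h.L_mul_right]
      congr 1
      funext p
      rw [mul_assoc]
  · rw [← mul_assoc, ← mul_assoc, mul_inv_cancel, one_mul, inv_mul_cancel_right]

end Pool.Agent.Work.MP_0f91f8_co.Df
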