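import Pool.Agent.Work.MP_0f91f8_co.Df.Stmts

/-!
Block [0f91f8 DF], item KIND: the increments of the machine are independent.
-/

set_option linter.unusedSectionVars false
set_option linter.unusedVariables false

open Filter Topology

universe u

namespace Pool.Agent.Work.MP_0f91f8_co.Df

open Pool.Agent.Work.MP_0f91f8_co.Cge (L LL sd op aa cc bnd L_map L_sd L_congr L_const L_pure
  one_add_sq_pos aa_zero)

namespace I_KIND

variable {E : Type u} [Group E] [TopologicalSpace E] [CompactSpace E] [T2Space E]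

lemma cc_ne {V : ℚ} (h1 : V ≠ 1) (h2 : V ≠ -1) : cc V ≠ 0 := by
  unfold cc
  refine div_ne_zero ?_ ?_
  · intro h
    apply h2
    linarith
  · intro h
    apply h1
    linarith

lemma un_aa {c W : ℚ} (h1 : 1 + (-c) * W ≠ 0) (h2 : 1 + (1 / c) * W ≠ 0) :
    un (aa c W) = un (1 + (-c) * W) * un (1 + (1 / c) * W) * (un (1 + W ^ 2))⁻¹ := by
  have e : aa c W = (1 + (-c) * W) * (1 + (1 / c) * W) / (1 + W ^ 2) := by
    unfold aa
    congr 1
    ring
  rw [e, un_div (mul_ne_zero h1 h2) (one_add_sq_pos W).ne', un_mul h1 h2]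

/-- position independence of the increments -/
lemma pos_aa (hPG : POSG E) (hPO : POS E) {θ : ℚˣ →* E} (h : RT θ) {Ω : Type}
    {𝔬 : Ultrafilter Ω} {W : Ω → ℚ} (hW : 𝔬.map W ∈ WW θ) (c : ℚ) :
    Pos θ (A0 θ) 𝔬 (fun ω => un (aa c (W ω))) := by
  obtain ⟨-, hcongr, hmul, hinv, -⟩ := hPG θ h (A0 θ) Ω 𝔬
  obtain ⟨hlin, hnrm⟩ := hPO θ h Ω 𝔬 W
  have p1 := hlin hW.1 (-c)
  have p2 := hlin hW.1 (1 / c)
  have p3 := hnrm hW
  refine hcongr _ _ (hmul _ _ (hmul _ _ p1 p2) (hinv _ p3)) ?_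
  have n1 : ∀ᶠ ω in (𝔬 : Filter Ω), 1 + (-c) * W ω ≠ 0 := hW.1.ne (-c)
  have n2 : ∀ᶠ ω in (𝔬 : Filter Ω), 1 + (1 / c) * W ω ≠ 0 := hW.1.ne (1 / c)
  filter_upwards [n1, n2] with ω h1 h2
  exact (un_aa h1 h2).symm

lemma L_one (θ : ℚˣ →* E) {Ω : Type} (𝔬 : Ultrafilter Ω) : L 𝔬 (fun _ => θ 1) = 1 := by
  rw [L_const, map_one]

lemma mem_of_pos {θ : ℚˣ →* E} {A : Subgroup E} {Ω : Type} {𝔬 : Ultrafilter Ω} {r : Ω → ℚˣ}
    (hp : Pos θ A 𝔬 r) {𝔮 : Ultrafilter (Ω × ℚˣ)} (h1 : 𝔮.map Prod.fst = 𝔬)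
    (h2 : L 𝔮 (fun p => θ p.2) ∈ A) : L 𝔮 (fun p => θ (p.2 * r p.1)) ∈ A := by
  have := A.mul_mem h2 (hp 𝔮 h1)
  rwa [mul_inv_cancel_left] at this

end I_KIND

variable (E : Type u) [Group E] [TopologicalSpace E] [CompactSpace E] [T2Space E]
variable (Γ : Type u) [Group Γ] [TopologicalSpace Γ] [IsTopologicalGroup Γ] [CompactSpace Γ]
  [T2Space Γ]

open Classical in
theorem KIND_pf (hPG : POSG E) (hPO : POS E) (hW : WWP E) : KIND E Γ := by
  intro θ h D π hπ N hN v hv hK Ω 𝔬 W hWW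
  refine ⟨?_, ?_⟩
  · filter_upwards [hWW] with V hV
    exact I_KIND.pos_aa hPG hPO h hV (cc V)
  · intro 𝔮 h𝔮
    obtain ⟨-, hW0, -⟩ := hW θ h
    set C : ℚ → Prop := fun V => (𝔬 V).map (W V) ∈ WW θ ∧ (𝔮 V).map Prod.fst = 𝔬 V ∧
      L (𝔮 V) (fun p => θ p.2) ∈ A0 θ with hC
    have hCe : ∀ᶠ V in (v : Filter ℚ), C V := by
      filter_upwards [hWW, h𝔮] with V h1 h2
      exact ⟨h1, h2.1, h2.2⟩
    set F : ℚ → Ultrafilter (ℚ × ℚˣ) := fun V =>
      if C V then (𝔮 V).map (fun p => (W V p.1, p.2)) else pure (0, 1) with hF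
    set F' : ℚ → Ultrafilter (ℚ × ℚˣ) := fun V =>
      if C V then (𝔬 V).map (fun w => (W V w, (1 : ℚˣ))) else pure (0, 1) with hF'
    -- computation of the limits
    have P1F : ∀ V, C V → P1 θ (F V) = L (𝔮 V) (fun p => θ p.2) := by
      intro V hV
      simp only [hF, if_pos hV, P1, L_map]
    have P2F : ∀ V, C V → P2 θ (MQ θ) V (F V) =
        L (𝔮 V) (fun p => θ (p.2 * un (aa (cc V) (W V p.1)))) := by
      intro V hV
      simp only [hF, if_pos hV, P2, L_map, MQ]
    have P1F' : ∀ V, C V → P1 θ (F' V) = 1 := by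
      intro V hV
      simp only [hF', if_pos hV, P1, L_map, map_one, L_const]
    have P2F' : ∀ V, C V → P2 θ (MQ θ) V (F' V) =
        L (𝔬 V) (fun w => θ (un (aa (cc V) (W V w)))) := by
      intro V hV
      simp only [hF', if_pos hV, P2, L_map, MQ, one_mul]
    have P1p : P1 θ (pure ((0 : ℚ), (1 : ℚˣ)) : Ultrafilter (ℚ × ℚˣ)) = 1 := by
      simp only [P1, L_pure, map_one]
    have P2p : ∀ V : ℚ, P2 θ (MQ θ) V (pure ((0 : ℚ), (1 : ℚˣ)) : Ultrafilter (ℚ × ℚˣ)) = 1 := by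
      intro V
      simp only [P2, L_pure, MQ, aa_zero, un_one, mul_one, map_one]
    have pureMM : ∀ V : ℚ, (pure ((0 : ℚ), (1 : ℚˣ)) : Ultrafilter (ℚ × ℚˣ)) ∈
        MM θ (MQ θ) (A0 θ) V := by
      intro V
      refine ⟨?_, ?_, ?_⟩
      · rw [Ultrafilter.map_pure]
        exact hW0
      · rw [P1p]
        exact (A0 θ).one_mem
      · rw [P2p]
        exact (A0 θ).one_mem
    have mF : ∀ V, C V → (F V).map Prod.fst = (𝔬 V).map (W V) := by
      intro V hV
      simp only [hF, if_pos hV]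
      rw [← hV.2.1, Ultrafilter.map_map, Ultrafilter.map_map]
      rfl
    have mF' : ∀ V, C V → (F' V).map Prod.fst = (𝔬 V).map (W V) := by
      intro V hV
      simp only [hF', if_pos hV]
      rw [Ultrafilter.map_map]
      rfl
    have selF : Sel θ (MQ θ) (A0 θ) F := by
      intro V _
      by_cases hV : C V
      · refine ⟨?_, ?_, ?_⟩
        · rw [mF V hV]
          exact hV.1
        · rw [P1F V hV]
          exact hV.2.2
        · rw [P2F V hV]
          exact I_KIND.mem_of_pos (r := fun ω => un (aa (cc V) (W V ω)))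
            (I_KIND.pos_aa hPG hPO h hV.1 (cc V)) hV.2.1 hV.2.2
      · have : F V = pure (0, 1) := by simp only [hF, if_neg hV]
        rw [this]
        exact pureMM V
    have selF' : Sel θ (MQ θ) (A0 θ) F' := by
      intro V _
      by_cases hV : C V
      · refine ⟨?_, ?_, ?_⟩
        · rw [mF' V hV]
          exact hV.1
        · rw [P1F' V hV]
          exact (A0 θ).one_mem
        · rw [P2F' V hV]
          exact (hPG θ h (A0 θ) Ω (𝔬 V)).2.2.2.2 _ (I_KIND.pos_aa hPG hPO h hV.1 (cc V))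
      · have : F' V = pure (0, 1) := by simp only [hF', if_neg hV]
        rw [this]
        exact pureMM V
    have hmarg : ∀ V ∈ (MQ θ).S₀, (F V).map Prod.fst = (F' V).map Prod.fst := by
      intro V _
      by_cases hV : C V
      · rw [mF V hV, mF' V hV]
      · simp only [hF, hF', if_neg hV]
    have key := hK F F' selF selF' hmarg
    have i1 : I1 θ π v F = L v (fun V => π (L (𝔮 V) (fun p => θ p.2))) := by
      unfold I1
      apply L_congr
      filter_upwards [hCe] with V hV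
      rw [P1F V hV]
    have i2 : I2 θ (MQ θ) π v F =
        L v (fun V => π (L (𝔮 V) (fun p => θ (p.2 * un (aa (cc V) (W V p.1)))))) := by
      unfold I2
      apply L_congr
      filter_upwards [hCe] with V hV
      rw [P2F V hV]
    have i1' : I1 θ π v F' = 1 := by
      unfold I1
      have : L v (fun V => π (P1 θ (F' V))) = L v (fun _ : ℚ => (1 : Γ)) := by
        apply L_congr
        filter_upwards [hCe] with V hV
        rw [P1F' V hV, hπ.one]
      rw [this, L_const]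
    have i2' : I2 θ (MQ θ) π v F' =
        L v (fun V => π (L (𝔬 V) (fun ω => θ (un (aa (cc V) (W V ω)))))) := by
      unfold I2
      apply L_congr
      filter_upwards [hCe] with V hV
      rw [P2F' V hV]
    rw [i1, i2, i1', i2', inv_one, one_mul] at key
    exact key

end Pool.Agent.Work.MP_0f91f8_co.Df
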