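import Pool.Agent.Work.MP_0f91f8_co.Df.Stmts

/-!
Block [0f91f8 DF], item LAWK: the law for one twist.
-/

set_option linter.unusedSectionVars false
set_option linter.unusedVariables false

open Filter Topology

universe u

namespace Pool.Agent.Work.MP_0f91f8_co.Df

open Pool.Agent.Work.MP_0f91f8_co.Cge (L LL sd op aa cc bnd L_map L_sd L_congr L_const L_pure
  one_add_sq_pos aa_zero aa_one aa_op eventually_sd map_fst_sd)

namespace I_LAWK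

variable {E : Type u} [Group E] [TopologicalSpace E] [CompactSpace E] [T2Space E]

lemma cc_ne {V : ℚ} (h1 : V ≠ 1) (h2 : V ≠ -1) : cc V ≠ 0 := by
  unfold cc
  refine div_ne_zero ?_ ?_
  · intro h
    apply h2
    linarith
  · intro h
    apply h1
    linarith

lemma aa_eq (c W : ℚ) : aa c W = (1 + (-c) * W) * (1 + (1 / c) * W) / (1 + W ^ 2) := by
  unfold aa
  congr 1
  ring

lemma aa_ne {c W : ℚ} (h1 : 1 + (-c) * W ≠ 0) (h2 : 1 + (1 / c) * W ≠ 0) : aa c W ≠ 0 := by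
  rw [aa_eq]
  exact div_ne_zero (mul_ne_zero h1 h2) (one_add_sq_pos W).ne'

lemma un_aa {c W : ℚ} (h1 : 1 + (-c) * W ≠ 0) (h2 : 1 + (1 / c) * W ≠ 0) :
    un (aa c W) = un (1 + (-c) * W) * un (1 + (1 / c) * W) * (un (1 + W ^ 2))⁻¹ := by
  rw [aa_eq, un_div (mul_ne_zero h1 h2) (one_add_sq_pos W).ne', un_mul h1 h2]

/-- position independence of the increments -/
lemma pos_aa (hPG : POSG E) (hPO : POS E) {θ : ℚˣ →* E} (h : RT θ) {Ω : Type}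
    {𝔬 : Ultrafilter Ω} {W : Ω → ℚ} (hW : 𝔬.map W ∈ WW θ) (c : ℚ) :
    Pos θ (A0 θ) 𝔬 (fun ω => un (aa c (W ω))) := by
  obtain ⟨-, hcongr, hmul, hinv, -⟩ := hPG θ h (A0 θ) Ω 𝔬
  obtain ⟨hlin, hnrm⟩ := hPO θ h Ω 𝔬 W
  have p1 := hlin hW.1 (-c)
  have p2 := hlin hW.1 (1 / c)
  have p3 := hnrm hW
  refine hcongr _ _ (hmul _ _ (hmul _ _ p1 p2) (hinv _ p3)) ?_
  have n1 : ∀ᶠ ω in (𝔬 : Filter Ω), 1 + (-c) * W ω ≠ 0 := hW.1.ne (-c)
  have n2 : ∀ᶠ ω in (𝔬 : Filter Ω), 1 + (1 / c) * W ω ≠ 0 := hW.1.ne (1 / c)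
  filter_upwards [n1, n2] with ω h1 h2
  exact (un_aa h1 h2).symm

/-- laws in `𝓔₁` avoid `1` and `-1` -/
lemma E1_ne_one {θ : ℚˣ →* E} {𝔲 : Ultrafilter ℚ} (h : E1 θ 𝔲) :
    ∀ᶠ W in (𝔲 : Filter ℚ), W ≠ 1 ∧ W ≠ -1 := by
  filter_upwards [h.ne (-1), h.ne 1] with W h1 h2
  constructor
  · rintro rfl
    norm_num at h1
  · rintro rfl
    norm_num at h2

end I_LAWK

variable (E : Type u) [Group E] [TopologicalSpace E] [CompactSpace E] [T2Space E]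

open Classical in
theorem LAWK_pf (hTW : TWIST E) (hEK : EKBND E) (hPG : POSG E) (hPO : POS E) : LAWK E := by
  intro θ h hFL κ
  obtain ⟨𝔲, hu, huW⟩ := hTW θ h κ
  -- the value `x2`
  set x2 : E := L 𝔲 (fun V => θ (un (aa 1 V))) with hx2
  have hx2A : x2 ∈ A0 θ := by
    have hid : 𝔲.map (fun V : ℚ => V) ∈ WW θ := by
      have : 𝔲.map (fun V : ℚ => V) = 𝔲 := Ultrafilter.map_id' 𝔲
      rw [this]
      exact huW
    exact (hPG θ h (A0 θ) ℚ 𝔲).2.2.2.2 _ (I_LAWK.pos_aa hPG hPO h hid 1)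
  -- states
  have hS : ∀ᶠ V in (𝔲 : Filter ℚ), V ≠ 0 ∧ V ≠ 1 ∧ V ≠ -1 := by
    filter_upwards [hu.ne_zero, I_LAWK.E1_ne_one hu.e1] with V h1 h2
    exact ⟨h1, h2.1, h2.2⟩
  -- the moves
  have hm : ∀ V : ℚ, ∃ m : Ultrafilter (ℚ × ℚˣ), (V ≠ 0 ∧ V ≠ 1 ∧ V ≠ -1) →
      (m.map Prod.fst ∈ WW θ ∧ L m (fun p => θ p.2) = 1 ∧
        L m (fun p => θ (p.2 * un (aa (cc V) p.1))) = x2⁻¹) := by
    intro V
    by_cases hV : V ≠ 0 ∧ V ≠ 1 ∧ V ≠ -1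
    · obtain ⟨u, hu', hall⟩ := hFL V hV
      obtain ⟨m, hmM, -, h1, h2⟩ := hall 1 (A0 θ).one_mem x2⁻¹ ((A0 θ).inv_mem hx2A)
      refine ⟨m, fun _ => ⟨hmM.1, ?_, ?_⟩⟩
      · rw [Subgroup.mem_bot] at h1
        rw [inv_one, one_mul] at h1
        exact h1
      · rw [Subgroup.mem_bot, inv_mul_eq_one] at h2
        exact h2.symm
    · exact ⟨pure (0, 1), fun hV' => absurd hV' hV⟩
  choose m hm using hm
  have hmE : ∀ᶠ V in (𝔲 : Filter ℚ), (m V).map Prod.fst ∈ WW θ ∧ L (m V) (fun p => θ p.2) = 1 ∧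
      L (m V) (fun p => θ (p.2 * un (aa (cc V) p.1))) = x2⁻¹ := by
    filter_upwards [hS] with V hV
    exact hm V hV
  set 𝔬 : Ultrafilter (ℚ × ℚˣ) :=
    (sd 𝔲 m).map (fun P : ℚ × (ℚ × ℚˣ) => (op P.1 P.2.1, P.2.2)) with h𝔬
  have hmarg : 𝔬.map Prod.fst = bnd 𝔲 (fun V => (m V).map Prod.fst) := by
    apply Ultrafilter.coe_injective
    ext s
    rfl
  have hE : EK θ κ (𝔬.map Prod.fst) := by
    rw [hmarg]
    exact hEK θ h κ 𝔲 _ hu (hmE.mono fun V hV => hV.1.1)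
  refine ⟨𝔬, hE, ?_, ?_, ?_⟩
  · have h1 : ∀ᶠ W in (𝔬.map Prod.fst : Filter ℚ), W ≠ 0 ∧ W ≠ 1 ∧ W ≠ -1 := by
      filter_upwards [hE.ne_zero, I_LAWK.E1_ne_one hE.e1] with V h1 h2
      exact ⟨h1, h2.1, h2.2⟩
    exact h1
  · rw [h𝔬, L_map, L_sd]
    unfold LL
    rw [← L_const 𝔲 (1 : E)]
    apply L_congr
    filter_upwards [hmE] with V hV
    exact hV.2.1
  · rw [h𝔬, L_map]
    have e1 : L (sd 𝔲 m) (fun P : ℚ × (ℚ × ℚˣ) => θ (P.2.2 * un (aa 1 (op P.1 P.2.1)))) =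
        L (sd 𝔲 m) (fun P : ℚ × (ℚ × ℚˣ) =>
          θ (un (aa 1 P.1)) * θ (P.2.2 * un (aa (cc P.1) P.2.1))) := by
      apply L_congr
      rw [eventually_sd]
      filter_upwards [hS, hmE] with V hV hV'
      have n1 : ∀ᶠ p in (m V : Filter (ℚ × ℚˣ)), 1 + (-V) * p.1 ≠ 0 := hV'.1.1.ne (-V)
      have n2 : ∀ᶠ p in (m V : Filter (ℚ × ℚˣ)), 1 + (-cc V) * p.1 ≠ 0 := hV'.1.1.ne (-cc V)
      have n3 : ∀ᶠ p in (m V : Filter (ℚ × ℚˣ)), 1 + (1 / cc V) * p.1 ≠ 0 :=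
        hV'.1.1.ne (1 / cc V)
      filter_upwards [n1, n2, n3] with p p1 p2 p3
      have a1 : (1 : ℚ) - V ≠ 0 := fun h0 => hV.2.1 (by linarith)
      have a2 : (1 : ℚ) + V ≠ 0 := fun h0 => hV.2.2 (by linarith)
      have a3 : (1 : ℚ) - V * p.1 ≠ 0 := fun h0 => p1 (by linarith)
      have a4 : aa 1 V ≠ 0 := by
        apply I_LAWK.aa_ne
        · intro h0
          exact a1 (by linarith)
        · intro h0
          exact a2 (by linarith)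
      have a5 : aa (cc V) p.1 ≠ 0 := I_LAWK.aa_ne p2 p3
      show θ (p.2 * un (aa 1 (op V p.1))) = θ (un (aa 1 V)) * θ (p.2 * un (aa (cc V) p.1))
      rw [aa_op a1 a2 a3, un_mul a4 a5, ← map_mul]
      congr 1
      rw [mul_left_comm]
    rw [e1, h.L_sd_mul 𝔲 m (fun V => un (aa 1 V))
      (fun V p => θ (p.2 * un (aa (cc V) p.1))) x2⁻¹ (hmE.mono fun V hV => hV.2.2), ← hx2,
      mul_inv_cancel]

end Pool.Agent.Work.MP_0f91f8_co.Df
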