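import Pool.Agent.Work.MP_0f91f8_co.Df.Stmts

open Filter Topology

universe u

namespace Pool.Agent.Work.MP_0f91f8_co.Df

open Pool.Agent.Work.MP_0f91f8_co.Cge

/-- the machine of the twist is a machine -/
theorem MKOK_pf : MKOK := by
  intro G _
  refine ⟨isClosed_univ, Set.mem_univ _, ?_, ?_, ?_, ?_, ?_, ?_⟩
  · intro s _
    exact mul_one s
  · intro s _
    rfl
  · intro u _ w _
    exact Set.mem_univ _
  · intro s _ u _
    exact Filter.Eventually.of_forall fun t => Set.mem_univ _
  · intro s _ u _
    refine Filter.Eventually.of_forall fun t w _ => Filter.Eventually.of_forall fun t' => ⟨?_, ?_⟩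
    · exact (mul_assoc s t t').symm
    · rfl
  · intro s _ u _ u' _ h
    have key : ∀ v : Ultrafilter G, (v.map ((MK G).act s)).map (fun t => s⁻¹ * t) = v := by
      intro v
      rw [Ultrafilter.map_map]
      have : ((fun t => s⁻¹ * t) ∘ (MK G).act s) = id := by
        funext t
        exact inv_mul_cancel_left s t
      rw [this, Ultrafilter.map_id]
    rw [← key u, h, key u']

end Pool.Agent.Work.MP_0f91f8_co.Df
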