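import Pool.Agent.Work.MP_0f91f8_co.Df.Stmts

/-!
Block [0f91f8 DF], item MOB: Moebius invariance and closedness of the laws `E1`.  Author helper31.
-/

set_option linter.unusedSectionVars false

open Filter Topology

universe u

namespace Pool.Agent.Work.MP_0f91f8_co.Df

open Pool.Agent.Work.MP_0f91f8_co.Cge (L LL sd continuous_L continuous_map L_pure L_map L_congr)

variable (E : Type u) [Group E] [TopologicalSpace E] [CompactSpace E] [T2Space E]

theorem MOB_pf : MOB E := by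
  intro θ h
  refine ⟨⟨pure (0, 1), ?_, fun x => ⟨?_, ?_⟩⟩, ?_, ?_⟩
  · apply Ultrafilter.coe_injective
    simp
  · simp only [Ultrafilter.coe_pure]
    rw [eventually_pure]
    norm_num
  · rw [L_pure]
    have h1 : (1 : ℚ) + x * 0 = 1 := by ring
    simp only [h1, un_one, mul_one, map_one]
  · set C : Set (Ultrafilter (ℚ × ℚˣ)) := {𝔮 | ∀ x : ℚ,
      (∀ᶠ p in (𝔮 : Filter (ℚ × ℚˣ)), 1 + x * p.1 ≠ 0) ∧
      L 𝔮 (fun p => θ (p.2 * un (1 + x * p.1))) = 1} with hC
    have hcl : IsClosed C := by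
      have e : C = ⋂ x : ℚ, ({𝔮 : Ultrafilter (ℚ × ℚˣ) | {p : ℚ × ℚˣ | 1 + x * p.1 ≠ 0} ∈ 𝔮} ∩
          {𝔮 | L 𝔮 (fun p => θ (p.2 * un (1 + x * p.1))) = 1}) := by
        ext 𝔮
        simp only [hC, Set.mem_ofPred_eq, Set.mem_iInter, Set.mem_inter_iff]
        exact Iff.rfl
      rw [e]
      exact isClosed_iInter fun x => (ultrafilter_isClosed_basic _).inter
        (isClosed_eq (continuous_L _) continuous_const)
    have e2 : {𝔲 | E1 θ 𝔲} = (fun 𝔮 : Ultrafilter (ℚ × ℚˣ) => 𝔮.map Prod.fst) '' C := by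
      ext 𝔲
      simp only [Set.mem_ofPred_eq, Set.mem_image]
      constructor
      · rintro ⟨𝔮, h1, h2⟩
        exact ⟨𝔮, h2, h1⟩
      · rintro ⟨𝔮, h2, h1⟩
        exact ⟨𝔮, h1, h2⟩
    rw [e2]
    exact (hcl.isCompact.image (continuous_map _)).isClosed
  · rintro 𝔲 ⟨𝔮, rfl, hq⟩ l m
    have hne : ∀ᶠ p in (𝔮 : Filter (ℚ × ℚˣ)), 1 + l * p.1 ≠ 0 := (hq l).1
    refine ⟨𝔮.map (fun p => (m * p.1 / (1 + l * p.1), p.2 * un (1 + l * p.1))), ?_, fun x => ?_⟩
    · rw [Ultrafilter.map_map, Ultrafilter.map_map]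
      rfl
    · have h1 := hq (l + x * m)
      constructor
      · rw [Ultrafilter.coe_map, eventually_map]
        filter_upwards [hne, h1.1] with p hp1 hp2
        have e : 1 + x * (m * p.1 / (1 + l * p.1)) = (1 + (l + x * m) * p.1) / (1 + l * p.1) := by
          rw [eq_div_iff hp1, add_mul, mul_assoc x, div_mul_cancel₀ _ hp1]
          ring
        show 1 + x * (m * p.1 / (1 + l * p.1)) ≠ 0
        rw [e]
        exact div_ne_zero hp2 hp1
      · rw [L_map, ← h1.2]
        apply L_congr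
        filter_upwards [hne, h1.1] with p hp1 hp2
        have e : 1 + x * (m * p.1 / (1 + l * p.1)) = (1 + (l + x * m) * p.1) / (1 + l * p.1) := by
          rw [eq_div_iff hp1, add_mul, mul_assoc x, div_mul_cancel₀ _ hp1]
          ring
        show θ (p.2 * un (1 + l * p.1) * un (1 + x * (m * p.1 / (1 + l * p.1)))) = _
        rw [e, mul_assoc, ← un_mul hp1 (div_ne_zero hp2 hp1), mul_div_cancel₀ _ hp1]

end Pool.Agent.Work.MP_0f91f8_co.Df
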