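import Pool.Agent.Work.MP_0f91f8_co.Df.Stmts

/-!
Item NUB of block [0f91f8 DF]: norms of adaptive compositions.
-/

set_option linter.unusedSectionVars false

open Filter Topology

universe u

namespace Pool.Agent.Work.MP_0f91f8_co.Df

open Pool.Agent.Work.MP_0f91f8_co.Cge (L LL sd tendsto_L L_eq L_congr L_const
  L_map L_comp L_mem eventually_sd L_sd LL_congr op bnd one_add_sq_pos norm_op)

namespace I_NUB

variable {E : Type u} [Group E] [TopologicalSpace E] [CompactSpace E] [T2Space E]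

/-- the limit of the norm at the second step -/
noncomputable def Lam (θ : ℚˣ →* E) (m : ℚ → Ultrafilter ℚ) (V : ℚ) : E :=
  L (m V) (fun W => θ (un (1 + W ^ 2) * ((un (1 + (-V) * W))⁻¹ * (un (1 + (-V) * W))⁻¹)))

lemma un_norm {V W : ℚ} (h : 1 - V * W ≠ 0) :
    un (1 + (op V W) ^ 2) =
      un (1 + V ^ 2) * (un (1 + W ^ 2) * ((un (1 + (-V) * W))⁻¹ * (un (1 + (-V) * W))⁻¹)) := by
  have hV : (1 : ℚ) + V ^ 2 ≠ 0 := (one_add_sq_pos V).ne'
  have hW : (1 : ℚ) + W ^ 2 ≠ 0 := (one_add_sq_pos W).ne'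
  have h' : (1 : ℚ) + (-V) * W ≠ 0 := by
    intro h0
    apply h
    linarith
  have e : 1 + (op V W) ^ 2 =
      (1 + V ^ 2) * ((1 + W ^ 2) * ((1 + (-V) * W)⁻¹ * (1 + (-V) * W)⁻¹)) := by
    rw [norm_op h]
    have : (1 : ℚ) - V * W = 1 + (-V) * W := by ring
    rw [this]
    field_simp
  rw [e, un_mul hV (mul_ne_zero hW (mul_ne_zero (inv_ne_zero h') (inv_ne_zero h'))),
    un_mul hW (mul_ne_zero (inv_ne_zero h') (inv_ne_zero h')),
    un_mul (inv_ne_zero h') (inv_ne_zero h'), un_inv h']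

lemma nu_bnd {θ : ℚˣ →* E} (h : RT θ) {𝔲 : Ultrafilter ℚ} {m : ℚ → Ultrafilter ℚ}
    (hm : ∀ᶠ V in (𝔲 : Filter ℚ), E1 θ (m V)) :
    nu θ (bnd 𝔲 m) = L 𝔲 (fun V => θ (un (1 + V ^ 2)) * Lam θ m V) := by
  unfold nu bnd
  rw [L_map, L_sd]
  unfold Lam
  rw [← h.LL_mul_left 𝔲 m (fun V => un (1 + V ^ 2))
    (fun V W => θ (un (1 + W ^ 2) * ((un (1 + (-V) * W))⁻¹ * (un (1 + (-V) * W))⁻¹)))]
  apply LL_congr
  filter_upwards [hm] with V hV
  filter_upwards [hV.ne (-V)] with W hW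
  have hW' : 1 - V * W ≠ 0 := by
    intro h0
    apply hW
    linarith
  rw [← map_mul, ← un_norm hW']

end I_NUB

variable (E : Type u) [Group E] [TopologicalSpace E] [CompactSpace E] [T2Space E]

theorem NUB_pf (hJ : JJ E) (hR : RIG E) (hPG : POSG E) (hPO : POS E) : NUB E := by
  intro θ h 𝔲 m _ hm
  obtain ⟨hrig, -⟩ := hR θ h
  have hz : ∀ᶠ V in (𝔲 : Filter ℚ), (nu θ (m V))⁻¹ * I_NUB.Lam θ m V ∈ A0 θ := by
    filter_upwards [hm] with V hV
    obtain ⟨-, -, hmul, hinv, -⟩ := hPG θ h (A0 θ) ℚ (m V)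
    have h1 : Pos θ (A0 θ) (m V) (fun W => un (1 + (-V) * W)) := by
      have := (hPO θ h ℚ (m V) id).1 (by rw [Ultrafilter.map_id]; exact hV) (-V)
      simpa only [id] using this
    have h2 := hinv _ h1
    have h3 := hmul _ _ h2 h2
    have h4 := h3 ((m V).map (fun W => (W, un (1 + W ^ 2)))) (by
      rw [Ultrafilter.map_map]
      exact Ultrafilter.map_id _)
    simpa only [L_map, nu, I_NUB.Lam] using h4
  rw [I_NUB.nu_bnd h hm]
  obtain ⟨q, hq, hL⟩ := hJ ℚˣ θ h (A0 θ) hrig.closed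
    (𝔲.map fun V => (θ (un (1 + V ^ 2)) * nu θ (m V), (nu θ (m V))⁻¹ * I_NUB.Lam θ m V)) hz
  simp only [L_map] at hL
  have h5 : L 𝔲 (fun V => θ (un (1 + V ^ 2)) * I_NUB.Lam θ m V) =
      L 𝔲 (fun V => θ (un (1 + V ^ 2)) * nu θ (m V)) * q *
        L 𝔲 (fun V => (nu θ (m V))⁻¹ * I_NUB.Lam θ m V) := by
    rw [← hL]
    congr 1
    funext V
    group
  rw [h5, mul_assoc, inv_mul_cancel_left]
  exact (A0 θ).mul_mem (hrig.qq q hq) (L_mem hrig.closed hz)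

end Pool.Agent.Work.MP_0f91f8_co.Df
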