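import Pool.Agent.Work.MP_0f91f8_co.Df.Stmts

/-!
Block [0f91f8 DF], item POS: position independence of linear factors and of norms.
-/

set_option linter.unusedSectionVars false

open Filter Topology

universe u

namespace Pool.Agent.Work.MP_0f91f8_co.Df

open Pool.Agent.Work.MP_0f91f8_co.Cge (L LL sd L_map L_const map_fst_sd)

variable (E : Type u) [Group E] [TopologicalSpace E] [CompactSpace E] [T2Space E]

namespace I_POS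

variable {E} {Ω : Type}

/-- the shifted law -/
noncomputable def q2 (𝔮 : Ultrafilter (Ω × ℚˣ)) (𝔨 : Ultrafilter ℚˣ) (W : Ω → ℚ) :
    Ultrafilter (ℚ × ℚˣ) :=
  (sd 𝔮 (fun _ => 𝔨)).map (fun P => (W P.1.1, P.1.2 * P.2))

lemma q2_fst (𝔮 : Ultrafilter (Ω × ℚˣ)) (𝔨 : Ultrafilter ℚˣ) (W : Ω → ℚ) :
    (q2 𝔮 𝔨 W).map Prod.fst = (𝔮.map Prod.fst).map W := by
  unfold q2
  rw [Ultrafilter.map_map, Ultrafilter.map_map]
  conv_rhs => rw [← map_fst_sd 𝔮 (fun _ => 𝔨), Ultrafilter.map_map]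
  rfl

lemma q2_L {θ : ℚˣ →* E} (h : RT θ) (𝔮 : Ultrafilter (Ω × ℚˣ)) (𝔨 : Ultrafilter ℚˣ)
    (W : Ω → ℚ) (f : ℚ → ℚˣ) :
    L (q2 𝔮 𝔨 W) (fun p => θ (p.2 * f p.1)) =
      L 𝔮 (fun p => θ (p.2 * f (W p.1))) * L 𝔨 (fun g => θ g) := by
  unfold q2
  rw [L_map, ← h.L_sd_mul 𝔮 (fun _ => 𝔨) (fun p => p.2 * f (W p.1)) (fun _ g => θ g) _
    (Eventually.of_forall fun _ => rfl)]
  congr 1
  funext P
  rw [← map_mul]
  congr 1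
  rw [mul_right_comm]

end I_POS

open I_POS in
theorem POS_pf (hR : RIG E) : POS E := by
  intro θ h Ω 𝔬 W
  obtain ⟨hA, hN⟩ := hR θ h
  -- the common end
  have key : ∀ (𝔮 : Ultrafilter (Ω × ℚˣ)) (𝔨 : Ultrafilter ℚˣ) (f : ℚ → ℚˣ),
      L 𝔨 (fun g => θ g) = (L 𝔮 (fun p => θ p.2))⁻¹ →
      L (q2 𝔮 𝔨 W) (fun p => θ (p.2 * f p.1)) ∈ A0 θ →
      (L 𝔮 (fun p => θ p.2))⁻¹ * L 𝔮 (fun p => θ (p.2 * f (W p.1))) ∈ A0 θ := by
    intro 𝔮 𝔨 f hk hm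
    rw [q2_L h, hk] at hm
    have := hN (L 𝔮 (fun p => θ p.2)) _ hm
    rw [mul_assoc, mul_assoc, inv_mul_cancel, mul_one] at this
    exact this
  have one : ∀ (𝔮 : Ultrafilter (Ω × ℚˣ)) (𝔨 : Ultrafilter ℚˣ),
      L 𝔨 (fun g => θ g) = (L 𝔮 (fun p => θ p.2))⁻¹ →
      L (q2 𝔮 𝔨 W) (fun p => θ p.2) ∈ A0 θ := by
    intro 𝔮 𝔨 hk
    have h1 := q2_L h 𝔮 𝔨 W (fun _ => 1)
    simp only [mul_one] at h1
    rw [h1, hk, mul_inv_cancel]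
    exact (A0 θ).one_mem
  constructor
  · intro hE x 𝔮 hq
    obtain ⟨𝔨, hk⟩ := h.exists_law (L 𝔮 (fun p => θ p.2))⁻¹
    refine key 𝔮 𝔨 (fun w => un (1 + x * w)) hk ?_
    refine hA.lin _ ?_ (one 𝔮 𝔨 hk) x
    rw [q2_fst, hq]
    exact hE
  · rintro ⟨hE, hnu⟩ 𝔮 hq
    obtain ⟨𝔨, hk⟩ := h.exists_law (L 𝔮 (fun p => θ p.2))⁻¹
    refine key 𝔮 𝔨 (fun w => un (1 + w ^ 2)) hk ?_
    have hm : (𝔬.map fun w => (W w, (1 : ℚˣ))).map Prod.fst = 𝔬.map W := by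
      rw [Ultrafilter.map_map]
      rfl
    refine hA.nrm (𝔬.map fun w => (W w, (1 : ℚˣ))) _ ?_ ?_ ?_ (one 𝔮 𝔨 hk) ?_
    · rw [hm, q2_fst, hq]
    · rw [hm]
      exact hE
    · rw [L_map]
      simp only [map_one, L_const]
      exact (A0 θ).one_mem
    · rw [L_map]
      unfold nu at hnu
      rw [L_map] at hnu
      simpa only [one_mul] using hnu

end Pool.Agent.Work.MP_0f91f8_co.Df
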