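import Pool.Agent.Work.MP_0f91f8_co.Df.Stmts

set_option linter.unusedSectionVars false

open Filter Topology

universe u

namespace Pool.Agent.Work.MP_0f91f8_co.Df

open Pool.Agent.Work.MP_0f91f8_co.Cge (L L_map L_congr L_const)

variable (E : Type u) [Group E] [TopologicalSpace E] [CompactSpace E] [T2Space E]

theorem POSG_pf : POSG E := by
  intro θ hθ A Ω 𝔬
  refine ⟨?_, ?_, ?_, ?_, ?_⟩
  · intro 𝔮 h𝔮
    simp only [mul_one, inv_mul_cancel]
    exact A.one_mem
  · intro r r' hr hrr 𝔮 h𝔮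
    have h1 := hr 𝔮 h𝔮
    have h2 : L 𝔮 (fun p => θ (p.2 * r' p.1)) = L 𝔮 (fun p => θ (p.2 * r p.1)) := by
      apply L_congr
      have h3 : ∀ᶠ ω in ((𝔮.map Prod.fst : Ultrafilter Ω) : Filter Ω), r ω = r' ω := by
        rw [h𝔮]; exact hrr
      have h4 : ∀ᶠ p in (𝔮 : Filter (Ω × ℚˣ)), r p.1 = r' p.1 := h3
      filter_upwards [h4] with p hp
      rw [hp]
    rw [h2]
    exact h1
  · intro r r' hr hr' 𝔮 h𝔮
    have h1 := hr 𝔮 h𝔮
    have h2 := hr' (𝔮.map (fun p => (p.1, p.2 * r p.1))) (by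
      rw [← h𝔮]
      apply Ultrafilter.coe_injective
      ext t
      exact Iff.rfl)
    rw [L_map, L_map] at h2
    have h3 := A.mul_mem h1 h2
    simp only [mul_assoc, mul_inv_cancel_left] at h3 ⊢
    exact h3
  · intro r hr 𝔮 h𝔮
    have h2 := hr (𝔮.map (fun p => (p.1, p.2 * (r p.1)⁻¹))) (by
      rw [← h𝔮]
      apply Ultrafilter.coe_injective
      ext t
      exact Iff.rfl)
    rw [L_map, L_map] at h2
    simp only [inv_mul_cancel_right] at h2
    have h3 := A.inv_mem h2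
    rw [mul_inv_rev, inv_inv] at h3
    exact h3
  · intro r hr
    have h2 := hr (𝔬.map (fun ω => (ω, 1))) (by
      apply Ultrafilter.coe_injective
      ext t
      exact Iff.rfl)
    rw [L_map, L_map] at h2
    simp only [map_one, one_mul, L_const, inv_one] at h2
    exact h2

end Pool.Agent.Work.MP_0f91f8_co.Df
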