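import Pool.Agent.Work.MP_0f91f8_co.Df.Stmts

/-!
Block [0f91f8 DF], item QUO: the quotient by `DD` is a compact topological group.
-/

set_option linter.unusedSectionVars false

open Filter Topology

universe u

namespace Pool.Agent.Work.MP_0f91f8_co.Df

open Pool.Agent.Work.MP_0f91f8_co.Cge (L LL sd tendsto_L L_eq L_eq_iff L_congr L_const L_map L_comp
  L_mem)

namespace I_QUO

section Abstract

variable {A : Type u} [Group A] [TopologicalSpace A] [CompactSpace A] [T2Space A]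
  (D : Subgroup A)

lemma isOpenMap_mk (cr : ∀ q : A, Continuous (fun x : A => x * q)) :
    IsOpenMap (QuotientGroup.mk : A → A ⧸ D) := by
  intro U hU
  have hq : IsQuotientMap (QuotientGroup.mk : A → A ⧸ D) := isQuotientMap_quot_mk
  rw [← hq.isOpen_preimage]
  have h1 : (QuotientGroup.mk : A → A ⧸ D) ⁻¹' ((QuotientGroup.mk : A → A ⧸ D) '' U) =
      ⋃ d : D, (fun x : A => x * (d : A)) ⁻¹' U := by
    ext x
    simp only [Set.mem_preimage, Set.mem_image, Set.mem_iUnion]
    constructor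
    · rintro ⟨y, hy, hyx⟩
      refine ⟨⟨x⁻¹ * y, QuotientGroup.eq.1 hyx.symm⟩, ?_⟩
      simpa using hy
    · rintro ⟨d, hd⟩
      refine ⟨x * d, hd, ?_⟩
      rw [QuotientGroup.eq]
      have : (x * (d : A))⁻¹ * x = (d : A)⁻¹ := by group
      rw [this]
      exact D.inv_mem d.2
  rw [h1]
  exact isOpen_iUnion fun d => hU.preimage (cr d)

lemma isOpenQuotientMap_mk (cr : ∀ q : A, Continuous (fun x : A => x * q)) :
    IsOpenQuotientMap (QuotientGroup.mk : A → A ⧸ D) :=
  ⟨QuotientGroup.mk_surjective, continuous_quot_mk, isOpenMap_mk D cr⟩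

lemma L_of_le {Y Z : Type u} [TopologicalSpace Y] [CompactSpace Y] [T2Space Y]
    [TopologicalSpace Z] {u : Ultrafilter Z} {z : Z} (hu : (u : Filter Z) ≤ 𝓝 z) {f : Z → Y}
    (hf : Continuous f) : L u f = f z :=
  L_eq ((hf.tendsto z).mono_left hu)

lemma t2 (cr : ∀ q : A, Continuous (fun x : A => x * q)) (hc : IsClosed (D : Set A))
    (hJ : ∀ 𝔬 : Ultrafilter (A × A),
      (L 𝔬 (fun p => p.1) * L 𝔬 (fun p => p.2))⁻¹ * L 𝔬 (fun p => p.1 * p.2) ∈ D) :
    T2Space (A ⧸ D) := by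
  rw [t2Space_iff_of_isOpenQuotientMap (isOpenQuotientMap_mk D cr), isClosed_iff_ultrafilter]
  rintro ⟨a, b⟩ u hu hs
  have hs' : ∀ᶠ p in (u : Filter (A × A)), p.1⁻¹ * p.2 ∈ D := by
    filter_upwards [hs] with p hp
    exact QuotientGroup.eq.1 hp
  have h1 := hJ (u.map fun p => (p.1, p.1⁻¹ * p.2))
  simp only [L_map, mul_inv_cancel_left] at h1
  have h2 : L u (fun p : A × A => p.1) = a := L_of_le hu continuous_fst
  have h3 : L u (fun p : A × A => p.2) = b := L_of_le hu continuous_snd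
  have h4 : L u (fun p : A × A => p.1⁻¹ * p.2) ∈ D := L_mem hc hs'
  rw [h2, h3] at h1
  show (QuotientGroup.mk a : A ⧸ D) = QuotientGroup.mk b
  rw [QuotientGroup.eq]
  have h5 := D.mul_mem h4 h1
  have h6 : ∀ d : A, d * ((a * d)⁻¹ * b) = a⁻¹ * b := by
    intro d
    group
  rwa [h6] at h5

lemma cmul [D.Normal] (cr : ∀ q : A, Continuous (fun x : A => x * q))
    (hJ : ∀ 𝔬 : Ultrafilter (A × A),
      (L 𝔬 (fun p => p.1) * L 𝔬 (fun p => p.2))⁻¹ * L 𝔬 (fun p => p.1 * p.2) ∈ D) :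
    ContinuousMul (A ⧸ D) := by
  constructor
  have hq := (isOpenQuotientMap_mk D cr).prodMap (isOpenQuotientMap_mk D cr)
  rw [hq.isQuotientMap.continuous_iff, continuous_iff_ultrafilter]
  rintro ⟨a, b⟩ u hu
  have h1 := hJ u
  have h2 : L u (fun p : A × A => p.1) = a := L_of_le hu continuous_fst
  have h3 : L u (fun p : A × A => p.2) = b := L_of_le hu continuous_snd
  rw [h2, h3, ← QuotientGroup.eq] at h1
  have h4 : Tendsto (fun p : A × A => (QuotientGroup.mk (p.1 * p.2) : A ⧸ D)) (u : Filter (A × A))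
      (𝓝 (QuotientGroup.mk (L u (fun p : A × A => p.1 * p.2)) : A ⧸ D)) :=
    ((continuous_quot_mk (r := (QuotientGroup.leftRel D).r)).tendsto _).comp
      (tendsto_L u (fun p : A × A => p.1 * p.2))
  rw [← h1] at h4
  exact h4

lemma cinv {Γ : Type u} [Group Γ] [TopologicalSpace Γ] [CompactSpace Γ] [T2Space Γ]
    [ContinuousMul Γ] : ContinuousInv Γ := by
  constructor
  rw [continuous_iff_ultrafilter]
  intro x u hu
  have h1 : Tendsto (fun y : Γ => y * y⁻¹) (u : Filter Γ)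
      (𝓝 (x * L u (fun y : Γ => y⁻¹))) :=
    (tendsto_id'.2 hu).mul (tendsto_L u (fun y : Γ => y⁻¹))
  have h2 : Tendsto (fun y : Γ => y * y⁻¹) (u : Filter Γ) (𝓝 1) := by
    simp only [mul_inv_cancel]
    exact tendsto_const_nhds
  have h3 := tendsto_nhds_unique h1 h2
  have h4 : L u (fun y : Γ => y⁻¹) = x⁻¹ := eq_inv_of_mul_eq_one_right h3
  rw [← h4]
  exact tendsto_L u (fun y : Γ => y⁻¹)

end Abstract

end I_QUO

open I_QUO in
/-- the quotient by `DD` is a compact topological group -/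
theorem QUO_pf (E : Type u) [Group E] [TopologicalSpace E] [CompactSpace E] [T2Space E]
    (hD : DDP E) : QUO E := by
  intro G _ θ h A hA
  obtain ⟨hn, hJ⟩ := hD G θ h A hA
  haveI hcA : CompactSpace A := isCompact_iff_compactSpace.1 hA.closed.isCompact
  set D : Subgroup A := (DD θ A).subgroupOf A with hDdef
  haveI hN : D.Normal := by
    constructor
    intro n hn' g
    rw [hDdef, Subgroup.mem_subgroupOf] at hn' ⊢
    have := hn ((g⁻¹ : A) : E) (g⁻¹).2 (n : E) hn'
    simpa using this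
  have cr : ∀ q : A, Continuous (fun x : A => x * q) := by
    intro q
    refine Continuous.subtype_mk ((h.cr (q : E)).comp continuous_subtype_val) _
  have hc : IsClosed (D : Set A) := (isClosed_DD θ A).preimage continuous_subtype_val
  have hJ' : ∀ 𝔬 : Ultrafilter (A × A),
      (L 𝔬 (fun p => p.1) * L 𝔬 (fun p => p.2))⁻¹ * L 𝔬 (fun p => p.1 * p.2) ∈ D := by
    intro 𝔬
    have h0 : ∀ᶠ p in (𝔬 : Filter (A × A)), (p.2 : E) ∈ A := Eventually.of_forall fun p => p.2.2
    have h1 := hJ (𝔬.map fun p : A × A => ((p.1 : E), (p.2 : E))) h0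
    simp only [L_map] at h1
    rw [hDdef, Subgroup.mem_subgroupOf]
    have h2 : ∀ f : A × A → A, L 𝔬 (fun p => (f p : E)) = (L 𝔬 f : A) := fun f =>
      L_comp continuous_subtype_val 𝔬 f
    rw [h2 (fun p => p.1), h2 (fun p => p.2)] at h1
    have h3 := h2 (fun p => p.1 * p.2)
    simp only [Subgroup.coe_mul] at h3
    rw [h3] at h1
    simpa using h1
  haveI i1 : T2Space (A ⧸ D) := t2 D cr hc hJ'
  haveI i2 : CompactSpace (A ⧸ D) := Quotient.compactSpace
  haveI i3 : ContinuousMul (A ⧸ D) := cmul D cr hJ'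
  haveI i4 : ContinuousInv (A ⧸ D) := cinv
  haveI i5 : IsTopologicalGroup (A ⧸ D) := ⟨⟩
  classical
  refine ⟨A ⧸ D, inferInstance, inferInstance, i5, i2, i1,
    fun e => if he : e ∈ A then ((⟨e, he⟩ : A) : A ⧸ D) else 1, ?_⟩
  refine ⟨hA.closed, hA.DD_le, ?_, ?_, ?_, ?_, hJ⟩
  · intro a ha b hb
    simp only [ha, hb, A.mul_mem ha hb, dif_pos]
    rfl
  · rw [continuousOn_iff_continuous_domRestrict]
    have h1 : (A : Set E).domRestrict (fun e => if he : e ∈ A then ((⟨e, he⟩ : A) : A ⧸ D) else 1) =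
        (QuotientGroup.mk : A → A ⧸ D) := by
      funext x
      obtain ⟨x, hx⟩ := x
      have hx' : x ∈ A := hx
      show (if he : x ∈ A then ((⟨x, he⟩ : A) : A ⧸ D) else 1) = _
      rw [dif_pos hx']
    rw [h1]
    exact continuous_quot_mk
  · intro a ha
    simp only [ha, dif_pos]
    rw [QuotientGroup.eq_one_iff, hDdef, Subgroup.mem_subgroupOf]
  · intro γ
    obtain ⟨⟨a, ha⟩, rfl⟩ := QuotientGroup.mk_surjective γ
    refine ⟨a, ha, ?_⟩
    simp only [ha, dif_pos]

end Pool.Agent.Work.MP_0f91f8_co.Df
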