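import Pool.Agent.Work.MP_0f91f8_co.Df.Stmts

/-!
Block [0f91f8 DF], item RCH: the set of reachable states is closed, nonempty and invariant,
and the moves on states are continuous.
-/

set_option linter.unusedSectionVars false
set_option linter.unusedVariables false

open Filter Topology

universe u

namespace Pool.Agent.Work.MP_0f91f8_co.Df

open Pool.Agent.Work.MP_0f91f8_co.Cge (L LL sd continuous_L L_congr L_map L_pure L_sd LL_congr
  eventually_sd continuous_bind continuous_map)

namespace I_RCH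

section

variable {S T G : Type} [CommGroup G] {E : Type u} [Group E] [TopologicalSpace E] [CompactSpace E]
  [T2Space E] {θ : G →* E}

/-- the set of moves is closed -/
lemma isClosed_MM {K : Mach S T G} (hK : MOK K) {A : Subgroup E} (hA : IsClosed (A : Set E))
    (s : S) : IsClosed (MM θ K A s) := by
  have h1 : IsClosed {m : Ultrafilter (T × G) | m.map Prod.fst ∈ K.W} :=
    hK.closed.preimage (continuous_map Prod.fst)
  have h2 : IsClosed {m : Ultrafilter (T × G) | P1 θ m ∈ A} :=
    hA.preimage (continuous_L (fun p : T × G => θ p.2))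
  have h3 : IsClosed {m : Ultrafilter (T × G) | P2 θ K s m ∈ A} :=
    hA.preimage (continuous_L (fun p : T × G => θ (p.2 * K.r s p.1)))
  exact h1.inter (h2.inter h3)

/-- the trivial move -/
lemma one_mem_MM {K : Mach S T G} (hK : MOK K) (A : Subgroup E) {s : S} (hs : s ∈ K.S₀) :
    (pure (K.one, 1) : Ultrafilter (T × G)) ∈ MM θ K A s := by
  refine ⟨?_, ?_, ?_⟩
  · have h1 : (pure (K.one, 1) : Ultrafilter (T × G)).map Prod.fst =
        (pure K.one : Ultrafilter T) := by
      apply Ultrafilter.coe_injective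
      ext t
      exact Iff.rfl
    rw [h1]
    exact hK.one_mem
  · have h2 : P1 θ (pure (K.one, 1) : Ultrafilter (T × G)) = 1 := by
      unfold P1
      rw [L_pure]
      exact map_one θ
    rw [h2]
    exact A.one_mem
  · have h3 : P2 θ K s (pure (K.one, 1) : Ultrafilter (T × G)) = 1 := by
      unfold P2
      rw [L_pure]
      show θ (1 * K.r s K.one) = 1
      rw [hK.r_one s hs, mul_one, map_one]
    rw [h3]
    exact A.one_mem

variable {Γ : Type u} [Group Γ] [TopologicalSpace Γ] [IsTopologicalGroup Γ]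
  [CompactSpace Γ] [T2Space Γ]

/-- the state of a move -/
noncomputable def stm (θ : G →* E) (K : Mach S T G) (π : E → Γ) (s : S)
    (m : Ultrafilter (T × G)) : Ultrafilter S × (Γ × Γ) :=
  ((m.map Prod.fst).map (K.act s), (π (P1 θ m), π (P2 θ K s m)))

lemma continuousOn_stm {K : Mach S T G} {A D : Subgroup E} {π : E → Γ} (hP : Pr A D π) (s : S) :
    ContinuousOn (stm θ K π s) (MM θ K A s) := by
  have h1 : Continuous (fun m : Ultrafilter (T × G) => (m.map Prod.fst).map (K.act s)) :=
    (continuous_map (K.act s)).comp (continuous_map Prod.fst)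
  have h2 : ContinuousOn (fun m : Ultrafilter (T × G) => π (P1 θ m)) (MM θ K A s) :=
    hP.cont.comp (continuous_L (fun p : T × G => θ p.2)).continuousOn fun m hm => hm.2.1
  have h3 : ContinuousOn (fun m : Ultrafilter (T × G) => π (P2 θ K s m)) (MM θ K A s) :=
    hP.cont.comp (continuous_L (fun p : T × G => θ (p.2 * K.r s p.1))).continuousOn
      fun m hm => hm.2.2
  exact h1.continuousOn.prodMk (h2.prodMk h3)

lemma Rch_eq (K : Mach S T G) (A : Subgroup E) (π : E → Γ) (s : S) :
    Rch θ K A π s = stm θ K π s '' MM θ K A s := by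
  ext x
  constructor
  · rintro ⟨m, hm, rfl⟩
    exact ⟨m, hm, rfl⟩
  · rintro ⟨m, hm, rfl⟩
    exact ⟨m, hm, rfl⟩

lemma isClosed_Rch {K : Mach S T G} (hK : MOK K) {A D : Subgroup E} {π : E → Γ}
    (hP : Pr A D π) (s : S) : IsClosed (Rch θ K A π s) := by
  rw [Rch_eq]
  exact ((isClosed_MM hK hP.closed s).isCompact.image_of_continuousOn
    (continuousOn_stm hP s)).isClosed

lemma continuous_Mv (K : Mach S T G) (π : E → Γ) (F : S → Ultrafilter (T × G)) :
    Continuous (Mv θ K π F) := by
  have h1 : Continuous (fun x : Ultrafilter S × (Γ × Γ) =>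
      (sd x.1 (fun s => (F s).map Prod.fst)).map (fun p => K.act p.1 p.2)) := by
    have h : Continuous (fun v : Ultrafilter S =>
        (sd v (fun s => (F s).map Prod.fst)).map (fun p => K.act p.1 p.2)) :=
      (continuous_map (fun p : S × T => K.act p.1 p.2)).comp
        (continuous_bind (fun s => ((F s).map Prod.fst).map (Prod.mk s)))
    exact h.comp continuous_fst
  have h2 : Continuous (fun x : Ultrafilter S × (Γ × Γ) => I1 θ π x.1 F) :=
    (continuous_L (fun s => π (P1 θ (F s)))).comp continuous_fst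
  have h3 : Continuous (fun x : Ultrafilter S × (Γ × Γ) => I2 θ K π x.1 F) :=
    (continuous_L (fun s => π (P2 θ K s (F s)))).comp continuous_fst
  exact h1.prodMk (((continuous_fst.comp continuous_snd).mul h2).prodMk
    ((continuous_snd.comp continuous_snd).mul h3))

end

end I_RCH

variable (E : Type u) [Group E] [TopologicalSpace E] [CompactSpace E] [T2Space E]
  (Γ : Type u) [Group Γ] [TopologicalSpace Γ] [IsTopologicalGroup Γ] [CompactSpace Γ]
  [T2Space Γ]

/-- the set of reachable states -/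
theorem RCH_pf (hC : CMPS E) : RCH E Γ := by
  intro S T G _ θ hθ K hK A D π hP s₀ hs₀
  refine ⟨I_RCH.isClosed_Rch hK hP s₀, ?_, ?_, I_RCH.continuous_Mv K π⟩
  · exact ⟨_, _, I_RCH.one_mem_MM hK A hs₀, rfl⟩
  · rintro F hF x ⟨m, hm, rfl⟩
    obtain ⟨c1, c2, c3, -, c5⟩ := hC S T G θ hθ K hK s₀ hs₀ m hm.1 F (fun s' hs' => (hF s' hs').1)
    have hev : ∀ᶠ p in (m : Filter (T × G)), K.act s₀ p.1 ∈ K.S₀ :=
      (hK.mem s₀ hs₀ _ hm.1 : ∀ᶠ t in (m.map Prod.fst : Filter T), K.act s₀ t ∈ K.S₀)
    have e1 := hP.L_mul (x := fun p : T × G => θ p.2)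
      (z := fun p : T × G => P1 θ (F (K.act s₀ p.1))) (𝔬 := m) hm.2.1
      (hev.mono fun p hp => (hF _ hp).2.1)
    have e2 := hP.L_mul (x := fun p : T × G => θ (p.2 * K.r s₀ p.1))
      (z := fun p : T × G => P2 θ K (K.act s₀ p.1) (F (K.act s₀ p.1))) (𝔬 := m) hm.2.2
      (hev.mono fun p hp => (hF _ hp).2.2)
    refine ⟨cps K s₀ m F, ⟨c1, ?_, ?_⟩, ?_⟩
    · rw [c2]
      exact e1.1
    · rw [c3]
      exact e2.1
    · unfold Mv
      rw [← c5, c2, c3, e1.2, e2.2]
      unfold I1 I2
      simp only [L_map]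
      rfl

end Pool.Agent.Work.MP_0f91f8_co.Df
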