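import Pool.Agent.Work.MP_0f91f8_co.Df.Stmts

/-!
Item RIG of block [0f91f8 DF]: the smallest rigid subgroup is rigid and normal.
-/

set_option linter.unusedSectionVars false
set_option linter.unusedVariables false

open Filter Topology

universe u

namespace Pool.Agent.Work.MP_0f91f8_co.Df

open Pool.Agent.Work.MP_0f91f8_co.Cge (L LL sd L_eq L_congr L_const L_map L_mem L_sd
  eventually_sd)

namespace I_RIG

variable {E : Type u} [Group E] [TopologicalSpace E] [CompactSpace E] [T2Space E]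

/-- Lemma J for functions -/
lemma jj (hJ : JJ E) {G : Type} [CommGroup G] {θ : G →* E} (h : RT θ) {A : Subgroup E}
    (hA : IsClosed (A : Set E)) {Ω : Type*} (𝔬 : Ultrafilter Ω) (x z : Ω → E)
    (hz : ∀ᶠ ω in (𝔬 : Filter Ω), z ω ∈ A) :
    ∃ q ∈ QQ θ A, L 𝔬 (fun ω => x ω * z ω) = L 𝔬 x * q * L 𝔬 z := by
  have := hJ G θ h A hA (𝔬.map fun ω => (x ω, z ω)) hz
  simpa only [L_map] using this

/-- the preimage of `A` under the conjugation by `b` -/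
def B (b : E) (A : Subgroup E) : Subgroup E := A.comap (MulAut.conj b).toMonoidHom

lemma mem_B {b : E} {A : Subgroup E} {e : E} : e ∈ B b A ↔ b * e * b⁻¹ ∈ A := Iff.rfl

/-- conjugation of laws -/
lemma conj_law {θ : ℚˣ →* E} (h : RT θ) (b : E) (𝔮 : Ultrafilter (ℚ × ℚˣ)) :
    ∃ 𝔮' : Ultrafilter (ℚ × ℚˣ), 𝔮'.map Prod.fst = 𝔮.map Prod.fst ∧
      ∀ r : ℚ → ℚˣ, L 𝔮' (fun p => θ (p.2 * r p.1)) =
        b * L 𝔮 (fun p => θ (p.2 * r p.1)) * b⁻¹ := by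
  obtain ⟨𝔨, hk⟩ := h.exists_law b
  obtain ⟨𝔩, hl⟩ := h.exists_law b⁻¹
  refine ⟨(sd 𝔨 (fun _ => sd 𝔮 (fun _ => 𝔩))).map
    (fun p : ℚˣ × ((ℚ × ℚˣ) × ℚˣ) => (p.2.1.1, p.1 * p.2.1.2 * p.2.2)), ?_, ?_⟩
  · apply Ultrafilter.coe_injective
    ext s
    show (∀ᶠ p in (sd 𝔨 (fun _ => sd 𝔮 (fun _ => 𝔩)) :
      Filter (ℚˣ × ((ℚ × ℚˣ) × ℚˣ))), p.2.1.1 ∈ s) ↔ ∀ᶠ p in (𝔮 : Filter (ℚ × ℚˣ)), p.1 ∈ s
    rw [eventually_sd]
    constructor
    · intro h1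
      obtain ⟨k, hk1⟩ := h1.exists
      rw [eventually_sd] at hk1
      filter_upwards [hk1] with p hp
      exact hp.exists.choose_spec
    · intro h1
      refine Eventually.of_forall fun k => ?_
      rw [eventually_sd]
      filter_upwards [h1] with p hp
      exact Eventually.of_forall fun _ => hp
  · intro r
    rw [L_map, L_sd]
    have h1 : ∀ k : ℚˣ, L (sd 𝔮 (fun _ => 𝔩)) (fun p : (ℚ × ℚˣ) × ℚˣ =>
        θ (k * p.1.2 * p.2 * r p.1.1)) =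
        θ k * (L 𝔮 (fun p => θ (p.2 * r p.1)) * b⁻¹) := by
      intro k
      rw [L_sd]
      have h2 : ∀ p : ℚ × ℚˣ, L 𝔩 (fun l => θ (k * p.2 * l * r p.1)) =
          θ k * (θ (p.2 * r p.1) * b⁻¹) := by
        intro p
        have h3 : (fun l : ℚˣ => θ (k * p.2 * l * r p.1)) =
            fun l => θ (k * (p.2 * r p.1)) * θ l := by
          funext l
          rw [← map_mul]
          congr 1
          rw [mul_assoc (k * p.2), mul_comm l, ← mul_assoc, mul_assoc k]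
        rw [h3, h.L_mul_left, hl, map_mul, mul_assoc]
      unfold LL
      simp only [h2]
      rw [h.L_mul_left, h.L_mul_right]
    unfold LL
    show L 𝔨 (fun k => L (sd 𝔮 (fun _ => 𝔩)) (fun p : (ℚ × ℚˣ) × ℚˣ =>
        θ (k * p.1.2 * p.2 * r p.1.1))) = _
    simp only [h1]
    rw [h.L_mul_right, hk, mul_assoc]

lemma rig_B (hJ : JJ E) {θ : ℚˣ →* E} (h : RT θ) {A : Subgroup E} (hA : Rig θ A) (b : E) :
    Rig θ (B b A) := by
  refine ⟨?_, ?_, ?_, ?_⟩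
  · -- closed
    rw [← closure_subset_iff_isClosed]
    intro e he
    obtain ⟨𝔬, ho, hoe⟩ := mem_closure_iff_ultrafilter.1 he
    have ho' : ∀ᶠ x in (𝔬 : Filter E), b * x * b⁻¹ ∈ A := ho
    obtain ⟨q, hq, h1⟩ := jj hJ h hA.closed 𝔬 (fun _ => b⁻¹) (fun x => b * x * b⁻¹) ho'
    have h2 : (fun x : E => b⁻¹ * (b * x * b⁻¹)) = fun x => x * b⁻¹ := by
      funext x; group
    have h3 : L 𝔬 (fun x : E => x) = e := L_eq hoe
    rw [h2, h.L_mul_right, h3, L_const] at h1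
    show b * e * b⁻¹ ∈ A
    rw [mul_assoc, h1, mul_assoc, mul_inv_cancel_left]
    exact A.mul_mem (hA.qq q hq) (L_mem hA.closed ho')
  · rintro q ⟨𝔬, ho, h1, h2, h3⟩
    have ho' : ∀ᶠ p in (𝔬 : Filter (ℚˣ × E)), b * p.2 * b⁻¹ ∈ A := ho
    obtain ⟨q', hq', h4⟩ := jj hJ h hA.closed 𝔬 (fun p => θ p.1 * b⁻¹)
      (fun p => b * p.2 * b⁻¹) ho'
    have h5 : (fun p : ℚˣ × E => θ p.1 * b⁻¹ * (b * p.2 * b⁻¹)) =
        fun p => (θ p.1 * p.2) * b⁻¹ := by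
      funext p; group
    rw [h5, h.L_mul_right, h3, h.L_mul_right, h1, one_mul] at h4
    show b * q * b⁻¹ ∈ A
    rw [mul_assoc, h4, mul_assoc, mul_inv_cancel_left]
    exact A.mul_mem (hA.qq q' hq') (L_mem hA.closed ho')
  · intro 𝔮 h1 h2 x
    obtain ⟨𝔮', h3, h4⟩ := conj_law h b 𝔮
    show b * _ * b⁻¹ ∈ A
    rw [← h4 (fun w => un (1 + x * w))]
    refine hA.lin 𝔮' (by rw [h3]; exact h1) ?_ x
    have h5 := h4 (fun _ => 1)
    simp only [mul_one] at h5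
    rw [h5]
    exact h2
  · intro 𝔮 𝔭 h1 h2 h3 h4 h5
    obtain ⟨𝔮', h6, h7⟩ := conj_law h b 𝔮
    obtain ⟨𝔭', h8, h9⟩ := conj_law h b 𝔭
    show b * _ * b⁻¹ ∈ A
    rw [← h9 (fun w => un (1 + w ^ 2))]
    refine hA.nrm 𝔮' 𝔭' (by rw [h6, h8, h1]) (by rw [h6]; exact h2) ?_ ?_ ?_
    · have h10 := h7 (fun _ => 1)
      simp only [mul_one] at h10
      rw [h10]
      exact h3
    · have h10 := h9 (fun _ => 1)
      simp only [mul_one] at h10
      rw [h10]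
      exact h4
    · rw [h7 (fun w => un (1 + w ^ 2))]
      exact h5

lemma rig_A0 (θ : ℚˣ →* E) : Rig θ (A0 θ) := by
  have hle : ∀ A : Subgroup E, Rig θ A → A0 θ ≤ A := fun A hA => sInf_le hA
  have hmem : ∀ e : E, (∀ A : Subgroup E, Rig θ A → e ∈ A) → e ∈ A0 θ := by
    intro e he
    unfold A0
    rw [Subgroup.mem_sInf]
    exact fun A hA => he A hA
  refine ⟨?_, ?_, ?_, ?_⟩
  · unfold A0
    rw [Subgroup.coe_sInf]
    exact isClosed_biInter fun A hA => hA.closed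
  · intro q hq
    exact hmem q fun A hA => hA.qq q (QQ_mono (hle A hA) hq)
  · intro 𝔮 h1 h2 x
    exact hmem _ fun A hA => hA.lin 𝔮 h1 (hle A hA h2) x
  · intro 𝔮 𝔮' h1 h2 h3 h4 h5
    exact hmem _ fun A hA => hA.nrm 𝔮 𝔮' h1 h2 (hle A hA h3) (hle A hA h4) (hle A hA h5)

end I_RIG

open I_RIG in
theorem RIG_pf (E : Type u) [Group E] [TopologicalSpace E] [CompactSpace E] [T2Space E]
    (hJ : JJ E) : RIG E := by
  intro θ h
  refine ⟨rig_A0 θ, fun b a ha => ?_⟩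
  have h1 : Rig θ (B b⁻¹ (A0 θ)) := rig_B hJ h (rig_A0 θ) b⁻¹
  have h2 : A0 θ ≤ B b⁻¹ (A0 θ) := sInf_le h1
  have h3 := mem_B.1 (h2 ha)
  rwa [inv_inv] at h3

end Pool.Agent.Work.MP_0f91f8_co.Df
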