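import Pool.Agent.Work.MP_0f91f8_co.Df.Stmts

/-!
[0f91f8 DF RPL]: elements of `DD A` are relatively regionally proximal to `1`.
-/

set_option linter.unusedSectionVars false

open Filter Topology

universe u

namespace Pool.Agent.Work.MP_0f91f8_co.Df

open Pool.Agent.Work.MP_0f91f8_co.Cge (L LL sd tendsto_L L_eq L_eq_iff continuous_L L_congr L_const
  L_map L_comp L_mem eventually_sd L_sd)

variable (E : Type u) [Group E] [TopologicalSpace E] [CompactSpace E] [T2Space E]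

namespace I_RPL

variable {E} {G : Type} [CommGroup G] {θ : G →* E}

/-- the local step -/
lemma local_step (hT : TCL E) (hH : DHH E) (h : RT θ) {A : Subgroup E} (hA : CA θ A) {d : E}
    (hd : d ∈ DD θ A) {W : Set E} {b : E} (hbA : b ∈ A)
    (hb : b ∉ tcl θ ((A : Set E) \ tcl θ (W ∩ A))) : b * d ∈ tcl θ (W ∩ (A : Set E)) := by
  obtain ⟨-, hcl, hmono, htt, -, -, hleft, -, hCA⟩ := hT G θ h
  set F : Set E := tcl θ (W ∩ (A : Set E)) with hF
  have hsub : ∀ S : Set E, S ⊆ tcl θ S := fun S => subset_closure.trans (hcl S)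
  have hFA : F ⊆ (A : Set E) := (hmono _ _ Set.inter_subset_right).trans (hCA A hA)
  have hCA' : tcl θ ((A : Set E) \ F) ⊆ (A : Set E) :=
    (hmono _ _ Set.sdiff_subset).trans (hCA A hA)
  set C : Set E := tcl θ ((A : Set E) \ F) with hC
  set V : Set E := {x | x ∈ A ∧ b * x ∉ C} with hV
  have hVA : V ⊆ (A : Set E) := fun x hx => hx.1
  have h1V : (1 : E) ∈ V := ⟨A.one_mem, by rw [mul_one]; exact hb⟩
  have hdiff : (A : Set E) \ V = (fun x => b⁻¹ * x) '' C := by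
    ext x
    constructor
    · rintro ⟨hx, hxV⟩
      have hbx : b * x ∈ C := by
        by_contra hne
        exact hxV ⟨hx, hne⟩
      exact ⟨b * x, hbx, by simp⟩
    · rintro ⟨y, hy, rfl⟩
      refine ⟨A.mul_mem (A.inv_mem hbA) (hCA' hy), fun hyV => hyV.2 ?_⟩
      simpa using hy
  have hVo : tcl θ ((A : Set E) \ V) ⊆ (A : Set E) \ V := by
    rw [hdiff, hleft]
    exact Set.image_mono (htt _)
  have hdV : d ∈ tcl θ V := hH G θ h A hA d hd V hVA h1V hVo
  have hVF : V ⊆ (fun x => b⁻¹ * x) '' F := by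
    rintro x ⟨hx, hxC⟩
    refine ⟨b * x, ?_, by simp⟩
    by_contra hne
    exact hxC (hsub _ ⟨A.mul_mem hbA hx, hne⟩)
  have h2 : d ∈ (fun x => b⁻¹ * x) '' tcl θ F := by
    rw [← hleft]
    exact hmono _ _ hVF hdV
  obtain ⟨y, hy, hyd⟩ := h2
  have h3 : b * d = y := by
    rw [← hyd]
    simp
  rw [h3]
  exact htt _ hy

end I_RPL

open I_RPL in
theorem RPL_pf (hT : TCL E) (hH : DHH E) (hCov : COV E) : RPL E := by
  intro G _ θ h A hA d hd
  set K : Set (Ultrafilter (G × (E × E))) := {𝔬 |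
    (∀ᶠ p in (𝔬 : Filter (G × (E × E))), p.2.1⁻¹ * p.2.2 ∈ A) ∧
      L 𝔬 (fun p => p.2.1) = 1 ∧ L 𝔬 (fun p => p.2.2) = d} with hK
  have hKc : IsClosed K := by
    refine IsClosed.and (ultrafilter_isClosed_basic _) (IsClosed.and ?_ ?_)
    · exact isClosed_eq (continuous_L _) continuous_const
    · exact isClosed_eq (continuous_L _) continuous_const
  set Φ : Ultrafilter (G × (E × E)) → E × E := fun 𝔬 =>
    (L 𝔬 (fun p => θ p.1 * p.2.1), L 𝔬 (fun p => θ p.1 * p.2.2)) with hΦ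
  have hΦc : Continuous Φ := (continuous_L _).prodMk (continuous_L _)
  have hPc : IsClosed (Φ '' K) := (hKc.isCompact.image hΦc).isClosed
  by_contra hcon
  have hdisj : ∀ e : E, (e, e) ∉ Φ '' K := by
    rintro e ⟨𝔬, h𝔬, he⟩
    apply hcon
    refine ⟨𝔬, h𝔬.1, h𝔬.2.1, h𝔬.2.2, ?_⟩
    have h1 := congrArg Prod.fst he
    have h2 := congrArg Prod.snd he
    exact h1.trans h2.symm
  -- a neighbourhood of every point
  have hW : ∀ e : E, ∃ W : Set E, IsOpen W ∧ e ∈ W ∧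
      ∀ x ∈ closure W, ∀ y ∈ closure W, (x, y) ∉ Φ '' K := by
    intro e
    have h1 : (Φ '' K)ᶜ ∈ 𝓝 (e, e) := hPc.isOpen_compl.mem_nhds (hdisj e)
    rw [nhds_prod_eq, mem_prod_self_iff] at h1
    obtain ⟨t, ht, htt⟩ := h1
    obtain ⟨s, hs, hsc, hst⟩ := exists_mem_nhds_isClosed_subset ht
    refine ⟨interior s, isOpen_interior, mem_interior_iff_mem_nhds.2 hs, ?_⟩
    intro x hx y hy
    have hx' : x ∈ t := hst (closure_minimal interior_subset hsc hx)
    have hy' : y ∈ t := hst (closure_minimal interior_subset hsc hy)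
    exact htt (Set.mk_mem_prod hx' hy')
  choose W hWo hWe hWd using hW
  obtain ⟨t, ht⟩ := isCompact_univ.elim_finite_subcover W hWo
    (fun e _ => Set.mem_iUnion.2 ⟨e, hWe e⟩)
  classical
  obtain ⟨W', hW't, b, hbA, hbW, hb⟩ := hCov G θ h A hA (t.image W) (fun a _ => by
    obtain ⟨i, hi, hai⟩ := Set.mem_iUnion₂.1 (ht (Set.mem_univ a))
    exact ⟨W i, Finset.mem_image_of_mem W hi, hai⟩)
  obtain ⟨i, -, rfl⟩ := Finset.mem_image.1 hW't
  obtain ⟨𝔬, h0, h1, h2⟩ := local_step hT hH h hA hd hbA hb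
  obtain ⟨𝔨, hk⟩ := h.exists_law b⁻¹
  -- the law
  set 𝔭 : Ultrafilter (G × (E × E)) :=
    (sd 𝔨 (fun _ => 𝔬)).map
      (fun P => ((P.1 * P.2.1)⁻¹, (θ (P.1 * P.2.1) * b, θ (P.1 * P.2.1) * P.2.2))) with h𝔭
  have e0 : ∀ f : G × E → E, L (sd 𝔨 (fun _ => 𝔬)) (fun P => θ (P.1 * P.2.1) * f P.2) =
      b⁻¹ * L 𝔬 (fun p => θ p.1 * f p) := by
    intro f
    have e1 : (fun P : G × (G × E) => θ (P.1 * P.2.1) * f P.2) =
        fun P => θ P.1 * (θ P.2.1 * f P.2) := by
      funext P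
      rw [map_mul, mul_assoc]
    rw [e1, L_sd, h.LL_mul_left]
    exact (h.L_mul_right 𝔨 (fun v => θ v) (L 𝔬 fun p => θ p.1 * f p)).trans (by rw [hk])
  have hpK : 𝔭 ∈ K := by
    refine ⟨?_, ?_, ?_⟩
    · show ∀ᶠ P in (sd 𝔨 (fun _ => 𝔬) : Filter (G × (G × E))),
        (θ (P.1 * P.2.1) * b)⁻¹ * (θ (P.1 * P.2.1) * P.2.2) ∈ A
      rw [eventually_sd]
      refine Eventually.of_forall fun k => ?_
      filter_upwards [h0] with p hp
      have e1 : (θ (k * p.1) * b)⁻¹ * (θ (k * p.1) * p.2) = b⁻¹ * p.2 := by group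
      rw [e1]
      exact A.mul_mem (A.inv_mem hbA) hp.2
    · rw [h𝔭, L_map]
      have := e0 (fun _ => b)
      have e2 : L 𝔬 (fun p : G × E => θ p.1 * b) = b := by
        rw [h.L_mul_right, h1, one_mul]
      rw [e2, inv_mul_cancel] at this
      exact this
    · rw [h𝔭, L_map]
      have := e0 (fun p => p.2)
      rw [h2, inv_mul_cancel_left] at this
      exact this
  refine hWd i (L 𝔭 (fun p => θ p.1 * p.2.1)) ?_ (L 𝔭 (fun p => θ p.1 * p.2.2)) ?_
    ⟨𝔭, hpK, rfl⟩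
  · rw [h𝔭, L_map]
    have e1 : (fun P : G × (G × E) =>
        θ (P.1 * P.2.1)⁻¹ * (θ (P.1 * P.2.1) * b)) = fun _ => b := by
      funext P
      rw [map_inv, inv_mul_cancel_left]
    rw [e1, L_const]
    exact subset_closure hbW
  · rw [h𝔭, L_map]
    have e1 : (fun P : G × (G × E) =>
        θ (P.1 * P.2.1)⁻¹ * (θ (P.1 * P.2.1) * P.2.2)) = fun P => P.2.2 := by
      funext P
      rw [map_inv, inv_mul_cancel_left]
    rw [e1]
    refine mem_closure_of_tendsto (tendsto_L _ _) ?_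
    rw [eventually_sd]
    refine Eventually.of_forall fun k => ?_
    filter_upwards [h0] with p hp
    exact hp.1

end Pool.Agent.Work.MP_0f91f8_co.Df
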