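import Pool.Agent.Work.MP_0f91f8_co.Df.Stmts

/-!
Block [0f91f8 DF], item STEP1: step (I).
-/

set_option linter.unusedSectionVars false
set_option linter.unusedVariables false

open Filter Topology

universe u

namespace Pool.Agent.Work.MP_0f91f8_co.Df

open Pool.Agent.Work.MP_0f91f8_co.Cge (L LL sd op aa cc bnd L_map L_congr L_const
  one_add_sq_pos)

namespace I_STEP1

variable {E : Type u} [Group E] [TopologicalSpace E] [CompactSpace E] [T2Space E] {θ : ℚˣ →* E}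
  {Γ : Type u} [Group Γ] [TopologicalSpace Γ] [IsTopologicalGroup Γ] [CompactSpace Γ] [T2Space Γ]

/-- the preimage of `N` in `A` -/
def Nh {A D : Subgroup E} {π : E → Γ} (h : Pr A D π) (N : Subgroup Γ) : Subgroup E where
  carrier := {a | a ∈ A ∧ π a ∈ N}
  mul_mem' := by
    rintro a b ⟨ha, ha'⟩ ⟨hb, hb'⟩
    exact ⟨A.mul_mem ha hb, by rw [h.mul a ha b hb]; exact N.mul_mem ha' hb'⟩
  one_mem' := ⟨A.one_mem, by rw [h.one]; exact N.one_mem⟩
  inv_mem' := by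
    rintro a ⟨ha, ha'⟩
    exact ⟨A.inv_mem ha, by rw [h.inv ha]; exact N.inv_mem ha'⟩

lemma mem_Nh {A D : Subgroup E} {π : E → Γ} (h : Pr A D π) (N : Subgroup Γ) {a : E} :
    a ∈ Nh h N ↔ a ∈ A ∧ π a ∈ N := Iff.rfl

/-- constant families -/
lemma static {A : Subgroup E} {π : E → Γ} {N : Subgroup Γ} {v : Ultrafilter ℚ} {Ω : Type}
    {𝔬 : Ultrafilter Ω} {r : Ω → ℚˣ} (h : Ind θ A π N v (fun _ => 𝔬) (fun _ => r))
    (𝔮 : Ultrafilter (Ω × ℚˣ)) (h1 : 𝔮.map Prod.fst = 𝔬) (h2 : L 𝔮 (fun p => θ p.2) ∈ A) :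
    (π (L 𝔮 (fun p => θ p.2)))⁻¹ * π (L 𝔮 (fun p => θ (p.2 * r p.1))) *
      (π (L 𝔬 (fun ω => θ (r ω))))⁻¹ ∈ N := by
  have := h.2 (fun _ => 𝔮) (Eventually.of_forall fun _ => ⟨h1, h2⟩)
  simpa only [L_const] using this

lemma mem_of_mem {N : Subgroup Γ} {a b c : Γ} (h : a⁻¹ * b * c⁻¹ ∈ N) (ha : a ∈ N)
    (hc : c ∈ N) : b ∈ N := by
  have h1 := N.mul_mem (N.mul_mem ha h) hc
  have h2 : a * (a⁻¹ * b * c⁻¹) * c = b := by group
  rwa [h2] at h1

lemma mem_of_mem' {N : Subgroup Γ} {a b c : Γ} (h : a⁻¹ * b * c⁻¹ ∈ N) (ha : a ∈ N)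
    (hb : b ∈ N) : c ∈ N := by
  have h1 := N.mul_mem (N.inv_mem h) (N.mul_mem (N.inv_mem ha) hb)
  have h2 : (a⁻¹ * b * c⁻¹)⁻¹ * (a⁻¹ * b) = c := by group
  rwa [h2] at h1

/-- the pointwise identity -/
lemma point {c w : ℚ} (h1 : 1 + (-c) * w ≠ 0) (h2 : 1 + (1 / c) * w ≠ 0) :
    un (1 + (-c) * w) * un (1 + (1 / c) * w) * (un (aa c w))⁻¹ = un (1 + w ^ 2) := by
  have h3 : (1 : ℚ) + w ^ 2 ≠ 0 := (one_add_sq_pos w).ne'
  have e : aa c w = (1 + (-c) * w) * (1 + (1 / c) * w) / (1 + w ^ 2) := by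
    unfold aa
    have e1 : 1 - c * w = 1 + (-c) * w := by ring
    have e2 : 1 + w / c = 1 + (1 / c) * w := by ring
    rw [e1, e2]
  rw [e, un_div (mul_ne_zero h1 h2) h3, un_mul h1 h2]
  rw [mul_inv, inv_inv, ← mul_assoc, mul_inv_cancel, one_mul]

end I_STEP1

variable (E : Type u) [Group E] [TopologicalSpace E] [CompactSpace E] [T2Space E]
variable (Γ : Type u) [Group Γ] [TopologicalSpace Γ] [IsTopologicalGroup Γ] [CompactSpace Γ]
  [T2Space Γ]

open I_STEP1 in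
theorem STEP1_pf (hR : RIG E) (hPG : POSG E) (hPO : POS E) (hI : INDG E Γ) (hK : KIND E Γ)
    (hL : LIN E Γ) : STEP1 E Γ := by
  intro θ hθ π hπ N hNc hN v hv hC
  obtain ⟨hRig, -⟩ := hR θ hθ
  -- membership in `A0`
  have posA : ∀ (𝔮 : Ultrafilter (ℚ × ℚˣ)) (r : ℚ → ℚˣ), Pos θ (A0 θ) (𝔮.map Prod.fst) r →
      L 𝔮 (fun p => θ p.2) ∈ A0 θ → L 𝔮 (fun p => θ (p.2 * r p.1)) ∈ A0 θ := by
    intro 𝔮 r hr h1
    have h2 := (A0 θ).mul_mem h1 (hr 𝔮 rfl)
    rwa [mul_inv_cancel_left] at h2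
  have key : Rig θ (Nh hπ N) := by
    refine ⟨?_, ?_, ?_, ?_⟩
    · exact hπ.cont.preimage_isClosed_of_isClosed hπ.closed hNc
    · intro q hq
      have hq' : q ∈ QQ θ (A0 θ) := QQ_mono (fun a ha => ((mem_Nh hπ N).1 ha).1) hq
      have h1 : q ∈ A0 θ := hRig.qq q hq'
      have h2 : q ∈ DD θ (A0 θ) := by
        have := mem_DD (θ := θ) (A0 θ).one_mem hq'
        simpa using this
      refine (mem_Nh hπ N).2 ⟨h1, ?_⟩
      rw [(hπ.ker q h1).2 h2]
      exact N.one_mem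
    · intro 𝔮 hE hg x
      obtain ⟨hgA, hgN⟩ := (mem_Nh hπ N).1 hg
      clear hg
      have hInd := hL θ hθ _ π hπ N hN v hv hC (fun _ => 𝔮.map Prod.fst)
        (Eventually.of_forall fun _ => hE) (fun _ => x)
      have hr : π (L (𝔮.map Prod.fst) (fun w => θ (un (1 + x * w)))) ∈ N := by
        obtain ⟨𝔮₁, h1, h2⟩ := hE
        have h3 : L 𝔮₁ (fun p => θ p.2) = 1 := by
          have := (h2 0).2
          simpa only [zero_mul, add_zero, un_one, mul_one] using this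
        have h4 := static hInd 𝔮₁ h1 (by rw [h3]; exact (A0 θ).one_mem)
        rw [h3, (h2 x).2] at h4
        rw [inv_mul_cancel, one_mul] at h4
        exact (Subgroup.inv_mem_iff N).1 h4
      have hpos := (hPO θ hθ ℚ (𝔮.map Prod.fst) (fun w => w)).1
        (by rw [show (fun w : ℚ => w) = id from rfl, Ultrafilter.map_id]; exact hE) x
      refine (mem_Nh hπ N).2 ⟨posA 𝔮 (fun w => un (1 + x * w)) hpos hgA, ?_⟩
      exact mem_of_mem (static hInd 𝔮 rfl hgA) hgN hr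
    · intro 𝔮 𝔮' he hE hg hg' hn
      obtain ⟨hgA, hgN⟩ := (mem_Nh hπ N).1 hg
      obtain ⟨hgA', hgN'⟩ := (mem_Nh hπ N).1 hg'
      obtain ⟨hnA, hnN⟩ := (mem_Nh hπ N).1 hn
      clear hg hg' hn
      set 𝔲 : Ultrafilter ℚ := 𝔮.map Prod.fst with h𝔲
      -- the law of `W` is in `WW`
      have hW : 𝔲 ∈ WW θ := by
        refine ⟨hE, ?_⟩
        have h1 := hRig.nrm 𝔮 (𝔲.map (fun w => (w, (1 : ℚˣ)))) (by
            rw [Ultrafilter.map_map]
            exact (Ultrafilter.map_id 𝔲).symm) hE hgA (by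
            rw [L_map]
            simp only [map_one, L_const]
            exact (A0 θ).one_mem) hnA
        rw [L_map] at h1
        simp only [one_mul] at h1
        exact h1
      have hW' : (𝔲.map (fun w : ℚ => w)) ∈ WW θ := by
        rw [show (fun w : ℚ => w) = id from rfl, Ultrafilter.map_id]
        exact hW
      have i1 := hK θ hθ _ π hπ N hN v hv hC ℚ (fun _ => 𝔲) (fun _ w => w)
        (Eventually.of_forall fun _ => hW')
      have i2 := hL θ hθ _ π hπ N hN v hv hC (fun _ => 𝔲)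
        (Eventually.of_forall fun _ => hE) (fun V => -cc V)
      have i3 := hL θ hθ _ π hπ N hN v hv hC (fun _ => 𝔲)
        (Eventually.of_forall fun _ => hE) (fun V => 1 / cc V)
      obtain ⟨-, g2, g3, g4⟩ := hI θ hθ _ _ π hπ N hN v ℚ (fun _ => 𝔲)
      have i4 := g3 _ _ (g3 _ _ i2 i3) (g4 _ i1)
      have i5 : Ind θ (A0 θ) π N v (fun _ => 𝔲) (fun _ w => un (1 + w ^ 2)) := by
        refine g2 _ _ i4 (Eventually.of_forall fun V => ?_)
        filter_upwards [hE.ne (-cc V), hE.ne (1 / cc V)] with w h1 h2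
        exact point h1 h2
      have hnu : π (L 𝔲 (fun w => θ (un (1 + w ^ 2)))) ∈ N :=
        mem_of_mem' (static i5 𝔮 rfl hgA) hgN hnN
      have hpos := (hPO θ hθ ℚ 𝔲 (fun w => w)).2 hW'
      have hpos' : Pos θ (A0 θ) (𝔮'.map Prod.fst) (fun w => un (1 + w ^ 2)) := by
        rw [← he]
        exact hpos
      refine (mem_Nh hπ N).2 ⟨posA 𝔮' (fun w => un (1 + w ^ 2)) hpos' hgA', ?_⟩
      exact mem_of_mem (static i5 𝔮' he.symm hgA') hgN' hnu
  have hle : A0 θ ≤ Nh hπ N := sInf_le key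
  rw [eq_top_iff]
  intro γ _
  obtain ⟨a, ha, rfl⟩ := hπ.surj γ
  exact ((mem_Nh hπ N).1 (hle ha)).2

end Pool.Agent.Work.MP_0f91f8_co.Df
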