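import Pool.Agent.Work.MP_0f91f8_co.Df.Stmts

/-!
Block [0f91f8 DF]: step (II').
-/

set_option linter.unusedSectionVars false
set_option linter.unusedVariables false

open Filter Topology

universe u

namespace Pool.Agent.Work.MP_0f91f8_co.Df

open Pool.Agent.Work.MP_0f91f8_co.Cge (L LL sd tendsto_L L_eq L_eq_iff L_congr L_const L_map L_comp
  L_mem eventually_bind eventually_sd L_bind L_sd LL_congr LL_fst LL_const map_fst_sd L_mul)

namespace I_STEP2

lemma sd_congr {Ω Ω' : Type*} {𝔳 : Ultrafilter Ω} {𝔬 𝔬' : Ω → Ultrafilter Ω'}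
    (H : ∀ᶠ v in (𝔳 : Filter Ω), 𝔬 v = 𝔬' v) : sd 𝔳 𝔬 = sd 𝔳 𝔬' := by
  apply Ultrafilter.coe_injective
  ext s
  show (∀ᶠ p in (sd 𝔳 𝔬 : Filter (Ω × Ω')), p ∈ s) ↔ ∀ᶠ p in (sd 𝔳 𝔬' : Filter (Ω × Ω')), p ∈ s
  rw [eventually_sd, eventually_sd]
  constructor
  · intro h
    filter_upwards [h, H] with v hv hv'
    rwa [← hv']
  · intro h
    filter_upwards [h, H] with v hv hv'
    rwa [hv']

section

variable {E : Type u} [Group E] [TopologicalSpace E] [CompactSpace E] [T2Space E]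
  {S T G : Type} [CommGroup G] {θ : G →* E}

/-- the second stage -/
noncomputable def F2 (o : Ultrafilter (G × (E × E))) (k : E → Ultrafilter G)
    (mm : E → Ultrafilter (T × G)) (w : G × (E × E) → G) : Ultrafilter (T × G) :=
  (sd o (fun p => sd (k p.2.1) (fun _ => mm (p.2.1⁻¹ * p.2.2)))).map
    (fun P => (P.2.2.1, w P.1 * P.2.1 * P.2.2.2))

/-- the first stage -/
noncomputable def F1 (M : Ultrafilter (T × G)) (k : Ultrafilter G) : Ultrafilter (T × G) :=
  (sd M (fun _ => k)).map (fun P => (P.1.1, P.1.2 * P.2))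

lemma F2_fst {o : Ultrafilter (G × (E × E))} {k : E → Ultrafilter G}
    {mm : E → Ultrafilter (T × G)} {w : G × (E × E) → G} {u : Ultrafilter T}
    (H : ∀ᶠ p in (o : Filter (G × (E × E))), (mm (p.2.1⁻¹ * p.2.2)).map Prod.fst = u) :
    (F2 o k mm w).map Prod.fst = u := by
  apply Ultrafilter.coe_injective
  ext s
  have h1 : (∀ᶠ t in ((F2 o k mm w).map Prod.fst : Filter T), t ∈ s) ↔
      ∀ᶠ p in (o : Filter (G × (E × E))), ∀ᶠ g in (k p.2.1 : Filter G),
        ∀ᶠ q in (mm (p.2.1⁻¹ * p.2.2) : Filter (T × G)), q.1 ∈ s := Iff.rfl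
  show (∀ᶠ t in ((F2 o k mm w).map Prod.fst : Filter T), t ∈ s) ↔ ∀ᶠ t in (u : Filter T), t ∈ s
  rw [h1]
  constructor
  · intro h
    obtain ⟨p, hp, hp'⟩ := (h.and H).exists
    obtain ⟨g, hg⟩ := hp.exists
    rw [← hp']
    exact hg
  · intro h
    filter_upwards [H] with p hp
    refine Eventually.of_forall fun g => ?_
    rw [← hp] at h
    exact h

lemma F2_L (hθ : RT θ) {o : Ultrafilter (G × (E × E))} {k : E → Ultrafilter G}
    (hk : ∀ e, L (k e) (fun g => θ g) = e)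
    {mm : E → Ultrafilter (T × G)} {w : G × (E × E) → G} (r : T → G) :
    L (F2 o k mm w) (fun q => θ (q.2 * r q.1)) =
      L o (fun p => θ (w p) * (p.2.1 *
        L (mm (p.2.1⁻¹ * p.2.2)) (fun q => θ (q.2 * r q.1)))) := by
  unfold F2
  rw [L_map, L_sd]
  unfold LL
  congr 1
  funext p
  rw [L_sd]
  unfold LL
  have h1 : ∀ g : G, L (mm (p.2.1⁻¹ * p.2.2)) (fun q : T × G =>
      θ (w p * g * q.2 * r q.1)) = θ (w p) * (θ g * L (mm (p.2.1⁻¹ * p.2.2))
        (fun q : T × G => θ (q.2 * r q.1))) := by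
    intro g
    rw [← hθ.L_mul_left, ← hθ.L_mul_left]
    congr 1
    funext q
    rw [← map_mul, ← map_mul]
    congr 1
    simp only [mul_assoc]
  simp only [h1]
  rw [hθ.L_mul_left, hθ.L_mul_right, hk]

lemma F1_fst (M : Ultrafilter (T × G)) (k : Ultrafilter G) :
    (F1 M k).map Prod.fst = M.map Prod.fst := by
  apply Ultrafilter.coe_injective
  ext s
  have h1 : (∀ᶠ t in ((F1 M k).map Prod.fst : Filter T), t ∈ s) ↔
      ∀ᶠ q in (M : Filter (T × G)), ∀ᶠ g in (k : Filter G), q.1 ∈ s := Iff.rfl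
  have h2 : (∀ᶠ t in (M.map Prod.fst : Filter T), t ∈ s) ↔
      ∀ᶠ q in (M : Filter (T × G)), q.1 ∈ s := Iff.rfl
  show (∀ᶠ t in ((F1 M k).map Prod.fst : Filter T), t ∈ s) ↔
    ∀ᶠ t in (M.map Prod.fst : Filter T), t ∈ s
  rw [h1, h2]
  constructor
  · intro h
    filter_upwards [h] with q hq
    exact hq.exists.choose_spec
  · intro h
    filter_upwards [h] with q hq
    exact Eventually.of_forall fun _ => hq

variable {Γ : Type u} [Group Γ] [TopologicalSpace Γ] [IsTopologicalGroup Γ] [CompactSpace Γ]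
  [T2Space Γ] {A D : Subgroup E} {π : E → Γ}

/-- the second stage modulo `D` -/
lemma st2 {Ω : Type*} (h : Pr A D π) {o : Ultrafilter Ω} {x ρ : Ω → E} {y : E}
    (hy : L o x = y) (hρ : ∀ᶠ p in (o : Filter Ω), ρ p ∈ A) :
    y⁻¹ * L o (fun p => x p * ρ p) ∈ A ∧
      π (y⁻¹ * L o (fun p => x p * ρ p)) = π (L o ρ) := by
  have h1 := h.J' (x := x) hρ
  rw [hy] at h1
  have h2 : L o ρ ∈ A := h.L_mem hρ
  have h3 : y⁻¹ * L o (fun p => x p * ρ p) =
      L o ρ * ((y * L o ρ)⁻¹ * L o (fun p => x p * ρ p)) := by group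
  have h4 : y⁻¹ * L o (fun p => x p * ρ p) ∈ A := by
    rw [h3]
    exact A.mul_mem h2 (h.le h1)
  refine ⟨h4, ?_⟩
  symm
  rw [h.eq_iff h2 h4]
  have h5 : (L o ρ)⁻¹ * (y⁻¹ * L o (fun p => x p * ρ p)) =
      (y * L o ρ)⁻¹ * L o (fun p => x p * ρ p) := by group
  rw [h5]
  exact h1

/-- first stage with a shift by `y⁻¹` -/
lemma key1 (hθ : RT θ) (h : Pr A D π) {M : Ultrafilter (T × G)} {k : Ultrafilter G} {y : E}
    (hk : L k (fun g => θ g) = y⁻¹) {x : T → G}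
    (hx : L M (fun q => θ (q.2 * x q.1)) ∈ A) {f z : T → E}
    (hf : ∀ᶠ q in (M : Filter (T × G)), f q.1 = y * z q.1)
    (hz : ∀ᶠ q in (M : Filter (T × G)), z q.1 ∈ A) :
    L (F1 M k) (fun q => θ (q.2 * x q.1) * f q.1) ∈ A ∧
      π (L (F1 M k) (fun q => θ (q.2 * x q.1) * f q.1)) =
        π (L M (fun q => θ (q.2 * x q.1))) * L M (fun q => π (z q.1)) := by
  have e1 : L (F1 M k) (fun q => θ (q.2 * x q.1) * f q.1) =
      L (sd M (fun _ => k)) (fun P => (θ (P.1.2 * P.2 * x P.1.1) * y) * z P.1.1) := by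
    unfold F1
    rw [L_map]
    apply L_congr
    rw [eventually_sd]
    filter_upwards [hf] with q hq
    refine Eventually.of_forall fun g => ?_
    show θ (q.2 * g * x q.1) * f q.1 = θ (q.2 * g * x q.1) * y * z q.1
    rw [hq, ← mul_assoc]
  have e2 : L (sd M (fun _ => k)) (fun P => θ (P.1.2 * P.2 * x P.1.1) * y) =
      L M (fun q => θ (q.2 * x q.1)) := by
    rw [hθ.L_mul_right, L_sd]
    unfold LL
    have h1 : ∀ q : T × G, L k (fun g => θ (q.2 * g * x q.1)) = θ (q.2 * x q.1) * y⁻¹ := by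
      intro q
      rw [← hk, ← hθ.L_mul_left]
      congr 1
      funext g
      rw [← map_mul]
      congr 1
      rw [mul_right_comm]
    simp only [h1]
    rw [hθ.L_mul_right, mul_assoc, inv_mul_cancel, mul_one]
  have hz' : ∀ᶠ P in (sd M (fun _ => k) : Filter ((T × G) × G)), z P.1.1 ∈ A := by
    rw [eventually_sd]
    filter_upwards [hz] with q hq
    exact Eventually.of_forall fun _ => hq
  have h2 := h.L_mul (x := fun P : (T × G) × G => θ (P.1.2 * P.2 * x P.1.1) * y)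
    (z := fun P : (T × G) × G => z P.1.1) (by rw [e2]; exact hx) hz'
  rw [e1]
  refine ⟨h2.1, ?_⟩
  rw [h2.2, e2, L_sd, LL_fst M (fun _ => k) (fun q : T × G => π (z q.1))]

/-- first stage without shift -/
lemma key2 (hθ : RT θ) (h : Pr A D π) {M : Ultrafilter (T × G)} {c : E} (hc : c ∈ A)
    {x : T → G} (hx : L M (fun q => θ (q.2 * x q.1)) ∈ A) {f z : T → E}
    (hf : ∀ᶠ q in (M : Filter (T × G)), f q.1 = c * z q.1)
    (hz : ∀ᶠ q in (M : Filter (T × G)), z q.1 ∈ A) :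
    L M (fun q => θ (q.2 * x q.1) * f q.1) ∈ A ∧
      π (L M (fun q => θ (q.2 * x q.1) * f q.1)) =
        π (L M (fun q => θ (q.2 * x q.1))) * π c * L M (fun q => π (z q.1)) := by
  have e1 : L M (fun q => θ (q.2 * x q.1) * f q.1) =
      L M (fun q => (θ (q.2 * x q.1) * c) * z q.1) := by
    apply L_congr
    filter_upwards [hf] with q hq
    rw [hq, mul_assoc]
  have e2 : L M (fun q => θ (q.2 * x q.1) * c) = L M (fun q => θ (q.2 * x q.1)) * c :=
    hθ.L_mul_right _ _ _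
  have h2 := h.L_mul (x := fun q : T × G => θ (q.2 * x q.1) * c)
    (z := fun q : T × G => z q.1) (by rw [e2]; exact A.mul_mem hx hc) hz
  rw [e1]
  refine ⟨h2.1, ?_⟩
  rw [h2.2, e2, h.mul _ hx _ hc]

end

end I_STEP2

open I_STEP2

variable (E : Type u) [Group E] [TopologicalSpace E] [CompactSpace E] [T2Space E]
variable (Γ : Type u) [Group Γ] [TopologicalSpace Γ] [IsTopologicalGroup Γ] [CompactSpace Γ]
  [T2Space Γ]

theorem STEP2_pf (hR : RPL E) (hC : CMPS E) : STEP2 E Γ := by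
  intro S T G _ θ hθ K hK B A D π hB hA hAB h hFL v N hN hv hcmp
  classical
  -- enough: `π d ∈ N`
  suffices H : ∀ d ∈ A, π d ∈ N by
    rw [eq_top_iff]
    intro γ _
    obtain ⟨a, ha, rfl⟩ := h.surj γ
    exact H a ha
  intro d hd
  obtain ⟨o, ho, ho1, ho2, ho3⟩ := hR G θ hθ B hB d (hAB hd)
  set y : E := L o (fun p => θ p.1 * p.2.1) with hy
  -- choices
  have i1 : Nonempty (Ultrafilter T) := ⟨pure K.one⟩
  have i2 : Nonempty (Ultrafilter (T × G)) := ⟨pure (K.one, 1)⟩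
  choose k hk using fun e => hθ.exists_law e
  choose! u hu m hm using hFL
  have hB1 : (1 : E) ∈ B := B.one_mem
  -- second stages
  set Fa' : S → Ultrafilter (T × G) := fun s' => F2 o k (m s' 1) (fun p => p.1) with hFa'
  set Fb' : S → Ultrafilter (T × G) := fun s' => F2 o k (m s' 1) (fun _ => 1) with hFb'
  set ρ1 : S → G × (E × E) → E := fun s' p => P1 θ (m s' 1 (p.2.1⁻¹ * p.2.2)) with hρ1
  set ρ2 : S → G × (E × E) → E := fun s' p =>
    (p.2.1⁻¹ * p.2.2)⁻¹ * P2 θ K s' (m s' 1 (p.2.1⁻¹ * p.2.2)) with hρ2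
  have hρ1A : ∀ s' ∈ K.S₀, ∀ᶠ p in (o : Filter (G × (E × E))), ρ1 s' p ∈ A := by
    intro s' hs'
    filter_upwards [ho] with p hp
    have := (hm s' hs' 1 hB1 _ hp).2.2.1
    rwa [inv_one, one_mul] at this
  have hρ2A : ∀ s' ∈ K.S₀, ∀ᶠ p in (o : Filter (G × (E × E))), ρ2 s' p ∈ A := by
    intro s' hs'
    filter_upwards [ho] with p hp
    exact (hm s' hs' 1 hB1 _ hp).2.2.2
  have hfst : ∀ s' ∈ K.S₀, ∀ w : G × (E × E) → G,
      (F2 o k (m s' 1) w).map Prod.fst = u s' := by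
    intro s' hs' w
    apply F2_fst
    filter_upwards [ho] with p hp
    exact (hm s' hs' 1 hB1 _ hp).2.1
  have eP1 : ∀ (s' : S) (w : G × (E × E) → G), P1 θ (F2 o k (m s' 1) w) =
      L o (fun p => (θ (w p) * p.2.1) * ρ1 s' p) := by
    intro s' w
    have := F2_L hθ (o := o) hk (mm := m s' 1) (w := w) (fun _ => 1)
    simp only [mul_one] at this
    unfold P1
    rw [this]
    congr 1
    funext p
    rw [hρ1]
    simp only [P1, mul_assoc]
  have eP2 : ∀ (s' : S) (w : G × (E × E) → G), P2 θ K s' (F2 o k (m s' 1) w) =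
      L o (fun p => (θ (w p) * p.2.2) * ρ2 s' p) := by
    intro s' w
    have := F2_L hθ (o := o) hk (mm := m s' 1) (w := w) (K.r s')
    unfold P2
    rw [this]
    congr 1
    funext p
    rw [hρ2]
    simp only [P2]
    group
  -- second stages modulo `D`
  have za1 : ∀ s' ∈ K.S₀, y⁻¹ * P1 θ (Fa' s') ∈ A ∧
      π (y⁻¹ * P1 θ (Fa' s')) = π (L o (ρ1 s')) := by
    intro s' hs'
    rw [hFa']
    simp only
    rw [eP1]
    exact st2 h hy.symm (hρ1A s' hs')
  have za2 : ∀ s' ∈ K.S₀, y⁻¹ * P2 θ K s' (Fa' s') ∈ A ∧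
      π (y⁻¹ * P2 θ K s' (Fa' s')) = π (L o (ρ2 s')) := by
    intro s' hs'
    rw [hFa']
    simp only
    rw [eP2]
    exact st2 h ho3.symm (hρ2A s' hs')
  have zb1 : ∀ s' ∈ K.S₀, P1 θ (Fb' s') ∈ A ∧
      π (P1 θ (Fb' s')) = π (L o (ρ1 s')) := by
    intro s' hs'
    rw [hFb']
    simp only
    rw [eP1]
    have := st2 (x := fun p : G × (E × E) => θ (1 : G) * p.2.1) (y := 1) h
      (by simpa only [map_one, one_mul] using ho1) (hρ1A s' hs')
    rwa [inv_one, one_mul] at this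
  have zb2 : ∀ s' ∈ K.S₀, d⁻¹ * P2 θ K s' (Fb' s') ∈ A ∧
      π (d⁻¹ * P2 θ K s' (Fb' s')) = π (L o (ρ2 s')) := by
    intro s' hs'
    rw [hFb']
    simp only
    rw [eP2]
    exact st2 (x := fun p : G × (E × E) => θ (1 : G) * p.2.2) h
      (by simpa only [map_one, one_mul] using ho2) (hρ2A s' hs')
  -- first stages
  have hM : ∀ s ∈ K.S₀, (m s 1 1).map Prod.fst = u s ∧
      L (m s 1 1) (fun q => θ (q.2 * (fun _ : T => (1 : G)) q.1)) ∈ A ∧
      L (m s 1 1) (fun q => θ (q.2 * K.r s q.1)) ∈ A := by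
    intro s hs
    obtain ⟨-, h2, h3, h4⟩ := hm s hs 1 hB1 1 hB1
    rw [inv_one, one_mul] at h3 h4
    refine ⟨h2, ?_, h4⟩
    simp only [mul_one]
    exact h3
  have hmem : ∀ s ∈ K.S₀, ∀ᶠ q in (m s 1 1 : Filter (T × G)), K.act s q.1 ∈ K.S₀ := by
    intro s hs
    have h1 := hK.mem s hs (u s) (hu s hs)
    rw [← (hM s hs).1] at h1
    exact h1
  have hFaW : ∀ s' ∈ K.S₀, (Fa' s').map Prod.fst ∈ K.W := fun s' hs' => by
    rw [hFa']
    simp only
    rw [hfst s' hs']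
    exact hu s' hs'
  have hFbW : ∀ s' ∈ K.S₀, (Fb' s').map Prod.fst ∈ K.W := fun s' hs' => by
    rw [hFb']
    simp only
    rw [hfst s' hs']
    exact hu s' hs'
  have hMaW : ∀ s ∈ K.S₀, (F1 (m s 1 1) (k y⁻¹)).map Prod.fst ∈ K.W := fun s hs => by
    rw [F1_fst, (hM s hs).1]
    exact hu s hs
  have hMbW : ∀ s ∈ K.S₀, (m s 1 1).map Prod.fst ∈ K.W := fun s hs => by
    rw [(hM s hs).1]
    exact hu s hs
  set Fa : S → Ultrafilter (T × G) := fun s => cps K s (F1 (m s 1 1) (k y⁻¹)) Fa' with hFa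
  set Fb : S → Ultrafilter (T × G) := fun s => cps K s (m s 1 1) Fb' with hFb
  have hCa := fun s (hs : s ∈ K.S₀) =>
    hC S T G θ hθ K hK s hs (F1 (m s 1 1) (k y⁻¹)) (hMaW s hs) Fa' hFaW
  have hCb := fun s (hs : s ∈ K.S₀) =>
    hC S T G θ hθ K hK s hs (m s 1 1) (hMbW s hs) Fb' hFbW
  have ea1 : ∀ s ∈ K.S₀, P1 θ (Fa s) ∈ A ∧ π (P1 θ (Fa s)) =
      π (P1 θ (m s 1 1)) * L (m s 1 1) (fun q => π (L o (ρ1 (K.act s q.1)))) := by
    intro s hs
    have h1 := key1 hθ h (hk y⁻¹) (x := fun _ => 1) (hM s hs).2.1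
      (f := fun t => P1 θ (Fa' (K.act s t)))
      (z := fun t => y⁻¹ * P1 θ (Fa' (K.act s t)))
      (Eventually.of_forall fun q => by simp only [mul_inv_cancel_left])
      ((hmem s hs).mono fun q hq => (za1 _ hq).1)
    simp only [mul_one] at h1
    rw [hFa]
    simp only
    rw [(hCa s hs).2.1]
    refine ⟨h1.1, h1.2.trans ?_⟩
    congr 1
    exact L_congr ((hmem s hs).mono fun q hq => (za1 _ hq).2)
  have ea2 : ∀ s ∈ K.S₀, P2 θ K s (Fa s) ∈ A ∧ π (P2 θ K s (Fa s)) =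
      π (P2 θ K s (m s 1 1)) * L (m s 1 1) (fun q => π (L o (ρ2 (K.act s q.1)))) := by
    intro s hs
    have h1 := key1 hθ h (hk y⁻¹) (x := K.r s) (hM s hs).2.2
      (f := fun t => P2 θ K (K.act s t) (Fa' (K.act s t)))
      (z := fun t => y⁻¹ * P2 θ K (K.act s t) (Fa' (K.act s t)))
      (Eventually.of_forall fun q => by simp only [mul_inv_cancel_left])
      ((hmem s hs).mono fun q hq => (za2 _ hq).1)
    rw [hFa]
    simp only
    rw [(hCa s hs).2.2.1]
    refine ⟨h1.1, h1.2.trans ?_⟩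
    congr 1
    exact L_congr ((hmem s hs).mono fun q hq => (za2 _ hq).2)
  have eb1 : ∀ s ∈ K.S₀, P1 θ (Fb s) ∈ A ∧ π (P1 θ (Fb s)) =
      π (P1 θ (m s 1 1)) * L (m s 1 1) (fun q => π (L o (ρ1 (K.act s q.1)))) := by
    intro s hs
    have h1 := key2 hθ h A.one_mem (x := fun _ => 1) (hM s hs).2.1
      (f := fun t => P1 θ (Fb' (K.act s t)))
      (z := fun t => P1 θ (Fb' (K.act s t)))
      (Eventually.of_forall fun q => by simp only [one_mul])
      ((hmem s hs).mono fun q hq => (zb1 _ hq).1)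
    simp only [mul_one, h.one] at h1
    rw [hFb]
    simp only
    rw [(hCb s hs).2.1]
    refine ⟨h1.1, h1.2.trans ?_⟩
    congr 1
    exact L_congr ((hmem s hs).mono fun q hq => (zb1 _ hq).2)
  have eb2 : ∀ s ∈ K.S₀, P2 θ K s (Fb s) ∈ A ∧ π (P2 θ K s (Fb s)) =
      π (P2 θ K s (m s 1 1)) * π d * L (m s 1 1) (fun q => π (L o (ρ2 (K.act s q.1)))) := by
    intro s hs
    have h1 := key2 hθ h hd (x := K.r s) (hM s hs).2.2
      (f := fun t => P2 θ K (K.act s t) (Fb' (K.act s t)))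
      (z := fun t => d⁻¹ * P2 θ K (K.act s t) (Fb' (K.act s t)))
      (Eventually.of_forall fun q => by simp only [mul_inv_cancel_left])
      ((hmem s hs).mono fun q hq => (zb2 _ hq).1)
    rw [hFb]
    simp only
    rw [(hCb s hs).2.2.1]
    refine ⟨h1.1, h1.2.trans ?_⟩
    congr 1
    exact L_congr ((hmem s hs).mono fun q hq => (zb2 _ hq).2)
  -- the two selections
  have hselA : Sel θ K A Fa := fun s hs => ⟨(hCa s hs).1, (ea1 s hs).1, (ea2 s hs).1⟩
  have hselB : Sel θ K A Fb := fun s hs => ⟨(hCb s hs).1, (eb1 s hs).1, (eb2 s hs).1⟩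
  have hsame : ∀ s ∈ K.S₀, (Fb s).map Prod.fst = (Fa s).map Prod.fst := by
    intro s hs
    rw [hFa, hFb]
    simp only
    rw [(hCa s hs).2.2.2.1, (hCb s hs).2.2.2.1, F1_fst, (hM s hs).1]
    have e : sd (u s) (fun t => (Fb' (K.act s t)).map Prod.fst) =
        sd (u s) (fun t => (Fa' (K.act s t)).map Prod.fst) := by
      apply sd_congr
      filter_upwards [hK.mem s hs (u s) (hu s hs)] with t ht
      rw [hFa', hFb']
      simp only
      rw [hfst _ ht, hfst _ ht]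
    rw [e]
  have hfin := hcmp Fb Fa hselB hselA hsame
  have i1eq : I1 θ π v Fb = I1 θ π v Fa := by
    unfold I1
    apply L_congr
    filter_upwards [hv] with s hs
    rw [(ea1 s hs).2, (eb1 s hs).2]
  set α : Γ := L v (fun s => π (P2 θ K s (m s 1 1))) with hα
  set β : Γ := L v (fun s => L (m s 1 1) (fun q => π (L o (ρ2 (K.act s q.1))))) with hβ
  have i2a : I2 θ K π v Fa = α * β := by
    unfold I2
    rw [hα, hβ, ← Cge.L_mul]
    apply L_congr
    filter_upwards [hv] with s hs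
    exact (ea2 s hs).2
  have i2b : I2 θ K π v Fb = α * π d * β := by
    unfold I2
    have e : α * π d = L v (fun s => π (P2 θ K s (m s 1 1)) * π d) := by
      rw [Cge.L_mul, L_const]
    rw [e, hβ, ← Cge.L_mul]
    apply L_congr
    filter_upwards [hv] with s hs
    exact (eb2 s hs).2
  rw [i1eq, i2a, i2b] at hfin
  have hgr : (I1 θ π v Fa)⁻¹ * (α * π d * β) * ((I1 θ π v Fa)⁻¹ * (α * β))⁻¹ =
      ((I1 θ π v Fa)⁻¹ * α) * π d * ((I1 θ π v Fa)⁻¹ * α)⁻¹ := by group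
  rw [hgr] at hfin
  have := hN ((I1 θ π v Fa)⁻¹ * α)⁻¹ _ hfin
  have e2 : ((I1 θ π v Fa)⁻¹ * α)⁻¹ * ((I1 θ π v Fa)⁻¹ * α * π d * ((I1 θ π v Fa)⁻¹ * α)⁻¹) *
      (((I1 θ π v Fa)⁻¹ * α)⁻¹)⁻¹ = π d := by group
  rwa [e2] at this

end Pool.Agent.Work.MP_0f91f8_co.Df
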