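import Pool.Agent.Work.MP_0f91f8_co.Df.Stmts

/-!
Block [0f91f8 DF], item STEPK: step (I) for the machine of the twist.
-/

set_option linter.unusedSectionVars false

open Filter Topology

universe u

namespace Pool.Agent.Work.MP_0f91f8_co.Df

open Pool.Agent.Work.MP_0f91f8_co.Cge (L LL sd L_map L_sd L_congr L_const LL_fst)

namespace I_STEPK

variable {E : Type u} [Group E] [TopologicalSpace E] [CompactSpace E] [T2Space E]
variable {G : Type} [CommGroup G] {θ : G →* E}

/-- the law of the four independent choices `k₁`, `(h, z)`, `l`, `k₂` -/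
noncomputable def law4 (k : E → Ultrafilter G) (𝔬 : Ultrafilter (G × E)) (b : E) :
    Ultrafilter (G × ((G × E) × (G × G))) :=
  sd (k b⁻¹) (fun _ => sd 𝔬 (fun p => sd (k p.2) (fun _ => k b)))

/-- the move -/
noncomputable def mv (k : E → Ultrafilter G) (𝔬 : Ultrafilter (G × E)) (b : E) :
    Ultrafilter (G × G) :=
  (law4 k 𝔬 b).map (fun P => (P.2.2.1, P.1 * P.2.1.1 * P.2.2.2))

/-- iterated limits along `law4` -/
lemma L_law4 {Y : Type*} [TopologicalSpace Y] [CompactSpace Y] [T2Space Y]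
    (k : E → Ultrafilter G) (𝔬 : Ultrafilter (G × E)) (b : E)
    (f : G × ((G × E) × (G × G)) → Y) :
    L (law4 k 𝔬 b) f = L (k b⁻¹) (fun k₁ => L 𝔬 (fun p => L (k p.2) (fun l =>
      L (k b) (fun k₂ => f (k₁, (p, (l, k₂))))))) := by
  unfold law4
  rw [L_sd]
  unfold LL
  congr 1
  funext k₁
  rw [L_sd]
  unfold LL
  congr 1
  funext p
  rw [L_sd]
  rfl

variable (h : RT θ) {k : E → Ultrafilter G} (hk : ∀ e, L (k e) (fun g => θ g) = e)
  {𝔬 : Ultrafilter (G × E)} {q : E} (h1 : L 𝔬 (fun p => θ p.1) = 1)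
  (h2 : L 𝔬 (fun p => p.2) = 1) (h3 : L 𝔬 (fun p => θ p.1 * p.2) = q) (b : E)

include h hk h1

lemma P1_mv : P1 θ (mv k 𝔬 b) = 1 := by
  unfold P1 mv
  rw [L_map, L_law4]
  have e1 : ∀ (k₁ : G) (p : G × E) (l : G),
      L (k b) (fun k₂ => θ (k₁ * p.1 * k₂)) = θ k₁ * (θ p.1 * b) := by
    intro k₁ p l
    simp only [map_mul θ (k₁ * p.1)]
    rw [h.L_mul_left, hk, map_mul, mul_assoc]
  have e2 : ∀ k₁ : G, L 𝔬 (fun p => L (k p.2) (fun l =>
      L (k b) (fun k₂ => θ (k₁ * p.1 * k₂)))) = θ k₁ * b := by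
    intro k₁
    have : (fun p : G × E => L (k p.2) (fun l : G =>
        L (k b) (fun k₂ => θ (k₁ * p.1 * k₂)))) = fun p => θ k₁ * (θ p.1 * b) := by
      funext p
      have : (fun l : G => L (k b) (fun k₂ => θ (k₁ * p.1 * k₂))) =
          fun _ => θ k₁ * (θ p.1 * b) := by
        funext l
        exact e1 k₁ p l
      rw [this, L_const]
    rw [this, h.L_mul_left, h.L_mul_right, h1, one_mul]
  simp only [e2]
  rw [h.L_mul_right, hk, inv_mul_cancel]

include h3

lemma P2_mv (s : G) : P2 θ (MK G) s (mv k 𝔬 b) = b⁻¹ * q * b := by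
  unfold P2 mv
  rw [L_map, L_law4]
  have e1 : ∀ (k₁ : G) (p : G × E) (l : G),
      L (k b) (fun k₂ => θ (k₁ * p.1 * k₂ * (MK G).r s l)) = θ (k₁ * p.1) * (θ l * b) := by
    intro k₁ p l
    have : (fun k₂ : G => θ (k₁ * p.1 * k₂ * (MK G).r s l)) =
        fun k₂ => θ (k₁ * p.1 * l) * θ k₂ := by
      funext k₂
      rw [← map_mul]
      congr 1
      show k₁ * p.1 * k₂ * l = k₁ * p.1 * l * k₂
      exact mul_right_comm _ _ _
    rw [this, h.L_mul_left, hk, map_mul, mul_assoc]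
  have e2 : ∀ k₁ : G, L 𝔬 (fun p => L (k p.2) (fun l =>
      L (k b) (fun k₂ => θ (k₁ * p.1 * k₂ * (MK G).r s l)))) = θ k₁ * (q * b) := by
    intro k₁
    have : (fun p : G × E => L (k p.2) (fun l : G =>
        L (k b) (fun k₂ => θ (k₁ * p.1 * k₂ * (MK G).r s l)))) =
          fun p => θ k₁ * (θ p.1 * p.2 * b) := by
      funext p
      have : (fun l : G => L (k b) (fun k₂ => θ (k₁ * p.1 * k₂ * (MK G).r s l))) =
          fun l => θ (k₁ * p.1) * (θ l * b) := by
        funext l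
        exact e1 k₁ p l
      rw [this, h.L_mul_left, h.L_mul_right, hk, map_mul]
      simp only [mul_assoc]
    rw [this, h.L_mul_left, h.L_mul_right, h3]
  show L (k b⁻¹) (fun k₁ => L 𝔬 (fun p => L (k p.2) (fun l =>
      L (k b) (fun k₂ => θ (k₁ * p.1 * k₂ * (MK G).r s l))))) = _
  simp only [e2]
  rw [h.L_mul_right, hk, mul_assoc]

omit h1 h3

include h2

lemma L_fst_mv : L (mv k 𝔬 b) (fun p => θ p.1) = 1 := by
  unfold mv
  rw [L_map, L_law4]
  have e2 : ∀ k₁ : G, L 𝔬 (fun p => L (k p.2) (fun l =>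
      L (k b) (fun _ : G => θ l))) = 1 := by
    intro k₁
    have : (fun p : G × E => L (k p.2) (fun l : G => L (k b) (fun _ : G => θ l))) =
        fun p => p.2 := by
      funext p
      have : (fun l : G => L (k b) (fun _ : G => θ l)) = fun l => θ l := by
        funext l
        rw [L_const]
      rw [this, hk]
    rw [this, h2]
  show L (k b⁻¹) (fun k₁ : G => L 𝔬 (fun p => L (k p.2) (fun l =>
      L (k b) (fun _ : G => θ l)))) = 1
  rw [L_const]
  exact e2 1

end I_STEPK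

variable (E : Type u) [Group E] [TopologicalSpace E] [CompactSpace E] [T2Space E]
variable (Γ : Type u) [Group Γ] [TopologicalSpace Γ] [IsTopologicalGroup Γ] [CompactSpace Γ]
  [T2Space Γ]

/-- step (I) for the twist -/
theorem STEPK_pf : STEPK E Γ := by
  intro G _ θ h D π hπ v N hN hNn hC
  classical
  choose k hk using h.exists_law
  have key : ∀ b ∈ (⊤ : Subgroup E), ∀ q ∈ QQ θ (⊤ : Subgroup E), π (b⁻¹ * q * b) ∈ N := by
    intro b hb q hq
    have hA : b⁻¹ * q * b ∈ DD θ ⊤ := mem_DD hb hq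
    obtain ⟨𝔬, -, h1, h2, h3⟩ := hq
    have p1 : P1 θ (I_STEPK.mv k 𝔬 b) = 1 := I_STEPK.P1_mv h hk h1 b
    have p2 : ∀ s, P2 θ (MK G) s (I_STEPK.mv k 𝔬 b) = b⁻¹ * q * b :=
      fun s => I_STEPK.P2_mv h hk h1 h3 b s
    have pf : L (I_STEPK.mv k 𝔬 b) (fun p => θ p.1) = 1 := I_STEPK.L_fst_mv h hk h2 b
    set F : G → Ultrafilter (G × G) := fun _ => I_STEPK.mv k 𝔬 b with hF
    set F' : G → Ultrafilter (G × G) :=
      fun _ => (I_STEPK.mv k 𝔬 b).map (fun p => (p.1, (1 : G))) with hF'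
    have q1 : ∀ s, P1 θ (F' s) = 1 := by
      intro s
      unfold P1
      rw [hF', L_map]
      simp only [map_one]
      rw [L_const]
    have q2 : ∀ s, P2 θ (MK G) s (F' s) = 1 := by
      intro s
      unfold P2
      rw [hF', L_map]
      show L (I_STEPK.mv k 𝔬 b) (fun p => θ (1 * p.1)) = 1
      simp only [one_mul]
      exact pf
    have hS : Sel θ (MK G) (DD θ ⊤) F := by
      intro s _
      refine ⟨Set.mem_univ _, ?_, ?_⟩
      · rw [hF, p1]
        exact (DD θ ⊤).one_mem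
      · rw [hF, p2]
        exact hA
    have hS' : Sel θ (MK G) (DD θ ⊤) F' := by
      intro s _
      refine ⟨Set.mem_univ _, ?_, ?_⟩
      · rw [q1 s]
        exact (DD θ ⊤).one_mem
      · rw [q2 s]
        exact (DD θ ⊤).one_mem
    have hm : ∀ s ∈ (MK G).S₀, (F s).map Prod.fst = (F' s).map Prod.fst := by
      intro s _
      rw [hF, hF']
      show _ = ((I_STEPK.mv k 𝔬 b).map (fun p => (p.1, (1 : G)))).map Prod.fst
      rw [Ultrafilter.map_map]
      rfl
    have hc := hC F F' hS hS' hm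
    have i1 : I1 θ π v F = 1 := by
      unfold I1
      simp only [hF, p1, hπ.one]
      rw [L_const]
    have i2 : I2 θ (MK G) π v F = π (b⁻¹ * q * b) := by
      unfold I2
      simp only [hF, p2]
      rw [L_const]
    have i3 : I1 θ π v F' = 1 := by
      unfold I1
      simp only [q1, hπ.one]
      rw [L_const]
    have i4 : I2 θ (MK G) π v F' = 1 := by
      unfold I2
      simp only [q2, hπ.one]
      rw [L_const]
    rw [i1, i2, i3, i4] at hc
    simpa using hc
  let D' : Subgroup E :=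
    { carrier := {a | a ∈ DD θ ⊤ ∧ π a ∈ N}
      mul_mem' := by
        rintro a b ⟨ha, ha'⟩ ⟨hb, hb'⟩
        refine ⟨(DD θ ⊤).mul_mem ha hb, ?_⟩
        rw [hπ.mul a ha b hb]
        exact N.mul_mem ha' hb'
      one_mem' := ⟨(DD θ ⊤).one_mem, by rw [hπ.one]; exact N.one_mem⟩
      inv_mem' := by
        rintro a ⟨ha, ha'⟩
        refine ⟨(DD θ ⊤).inv_mem ha, ?_⟩
        rw [hπ.inv ha]
        exact N.inv_mem ha' }
  have hD'c : IsClosed (D' : Set E) := by
    have : (D' : Set E) = (DD θ ⊤ : Set E) ∩ π ⁻¹' (N : Set Γ) := rfl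
    rw [this]
    exact hπ.cont.preimage_isClosed_of_isClosed hπ.closed hN
  have hle : DD θ ⊤ ≤ D' :=
    DD_le hD'c fun b hb q hq => ⟨mem_DD hb hq, key b hb q hq⟩
  rw [Subgroup.eq_top_iff']
  intro γ
  obtain ⟨a, ha, rfl⟩ := hπ.surj γ
  exact (hle ha).2

end Pool.Agent.Work.MP_0f91f8_co.Df
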