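import Pool.Agent.Work.MP_0f91f8_co.Df.Stmts

set_option linter.unusedSectionVars false

open Filter Topology

universe u

namespace Pool.Agent.Work.MP_0f91f8_co.Df

open Pool.Agent.Work.MP_0f91f8_co.Cge (L LL sd)

variable (E : Type u) [Group E] [TopologicalSpace E] [CompactSpace E] [T2Space E]

namespace I_SYND

/-- the orbit of every element meets every nonempty open set -/
lemma exists_g {E : Type u} [Group E] [TopologicalSpace E] [CompactSpace E] [T2Space E]
    {θ : ℚˣ →* E} (h : RT θ) (O : Set E) (hO : IsOpen O) (h1 : (1 : E) ∈ O) (e : E) :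
    ∃ g : ℚˣ, θ g * e ∈ O := by
  have h2 : IsOpen ((fun x : E => x * e) ⁻¹' O) := hO.preimage (h.cr e)
  have h3 : ((fun x : E => x * e) ⁻¹' O).Nonempty := ⟨e⁻¹, by simpa using h1⟩
  obtain ⟨g, hg⟩ := h.dense.exists_mem_open h2 h3
  exact ⟨g, hg⟩

end I_SYND

/-- return times are syndetic -/
theorem SYND_pf : SYND E := by
  intro θ h O hO
  have ho : IsOpen (interior O) := isOpen_interior
  have h1 : (1 : E) ∈ interior O := mem_interior_iff_mem_nhds.2 hO
  have hcov : (Set.univ : Set E) ⊆ ⋃ g : ℚˣ, (fun x : E => θ g * x) ⁻¹' interior O := by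
    intro e _
    obtain ⟨g, hg⟩ := I_SYND.exists_g h _ ho h1 e
    exact Set.mem_iUnion.2 ⟨g, hg⟩
  obtain ⟨M, hM⟩ := isCompact_univ.elim_finite_subcover _ (fun g => ho.preimage (h.cl g)) hcov
  refine ⟨M, fun g => ?_⟩
  obtain ⟨m, hm, hg⟩ := Set.mem_iUnion₂.1 (hM (Set.mem_univ (θ g)))
  refine ⟨m, hm, interior_subset ?_⟩
  rw [map_mul]
  exact hg

end Pool.Agent.Work.MP_0f91f8_co.Df
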