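import Pool.Agent.Work.MP_0f91f8_co.Df.Stmts

/-!
Block [0f91f8 DF], item TCL: properties of the `τ`-closure.
-/

set_option linter.unusedSectionVars false

open Filter Topology

universe u

namespace Pool.Agent.Work.MP_0f91f8_co.Df

open Pool.Agent.Work.MP_0f91f8_co.Cge (L LL sd tendsto_L L_eq L_eq_iff L_congr L_const L_map
  L_mem eventually_sd L_sd LL_congr)

section TCLproof

variable {E : Type u} [Group E] [TopologicalSpace E] [CompactSpace E] [T2Space E]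
  {G : Type} [CommGroup G] {θ : G →* E}

private lemma tcl_mono' {S S' : Set E} (hS : S ⊆ S') : tcl θ S ⊆ tcl θ S' := by
  rintro y ⟨𝔬, h0, h1, h2⟩
  exact ⟨𝔬, h0.mono fun p hp => hS hp, h1, h2⟩

private lemma mem_tcl' {Ω : Type*} {S : Set E} {𝔬 : Ultrafilter Ω} {k : Ω → G} {z : Ω → E}
    (h0 : ∀ᶠ ω in (𝔬 : Filter Ω), z ω ∈ S) (h1 : L 𝔬 (fun ω => θ (k ω)) = 1) :
    L 𝔬 (fun ω => θ (k ω) * z ω) ∈ tcl θ S := by
  refine ⟨𝔬.map (fun ω => (k ω, z ω)), ?_, ?_, ?_⟩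
  · rw [Ultrafilter.coe_map, eventually_map]
    exact h0
  · rw [L_map]
    exact h1
  · rw [L_map]

private lemma closure_sub_tcl' (h : RT θ) (S : Set E) : closure S ⊆ tcl θ S := by
  intro y hy
  obtain ⟨𝔣, hf, hfy⟩ := mem_closure_iff_ultrafilter.1 hy
  have h1 := mem_tcl' (θ := θ) (S := S) (𝔬 := 𝔣) (k := fun _ => 1) (z := fun x => x)
    (by
      have : ∀ᶠ x in (𝔣 : Filter E), x ∈ S := hf
      exact this) (by rw [L_const, map_one])
  have h2 : L 𝔣 (fun x : E => θ 1 * x) = y := by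
    rw [h.L_mul_left, map_one, one_mul]
    exact L_eq hfy
  rwa [h2] at h1

private lemma tcl_tcl' (h : RT θ) (S : Set E) : tcl θ (tcl θ S) ⊆ tcl θ S := by
  rintro y ⟨𝔬, h0, h1, h2⟩
  have hch : ∀ z : E, ∃ 𝔬' : Ultrafilter (G × E), z ∈ tcl θ S →
      (∀ᶠ p in (𝔬' : Filter (G × E)), p.2 ∈ S) ∧
        L 𝔬' (fun p => θ p.1) = 1 ∧ L 𝔬' (fun p => θ p.1 * p.2) = z := by
    intro z
    by_cases hz : z ∈ tcl θ S
    · obtain ⟨𝔬', h⟩ := hz
      exact ⟨𝔬', fun _ => h⟩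
    · exact ⟨pure (1, 1), fun h => absurd h hz⟩
  choose 𝔬' h𝔬' using hch
  have key := mem_tcl' (θ := θ) (S := S) (𝔬 := sd 𝔬 (fun p => 𝔬' p.2))
    (k := fun P => P.1.1 * P.2.1) (z := fun P => P.2.2) (by
      rw [eventually_sd]
      filter_upwards [h0] with p hp
      exact (h𝔬' p.2 hp).1) (by
      rw [L_sd]
      unfold LL
      refine Eq.trans (L_congr ?_) h1
      filter_upwards [h0] with p hp
      simp only [map_mul]
      rw [h.L_mul_left, (h𝔬' p.2 hp).2.1, mul_one])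
  have e3 : L (sd 𝔬 (fun p => 𝔬' p.2)) (fun P => θ (P.1.1 * P.2.1) * P.2.2) = y := by
    rw [L_sd]
    unfold LL
    refine Eq.trans (L_congr ?_) h2
    filter_upwards [h0] with p hp
    simp only [map_mul, mul_assoc]
    rw [h.L_mul_left, (h𝔬' p.2 hp).2.2]
  rwa [e3] at key

private lemma tcl_union' (S S' : Set E) : tcl θ (S ∪ S') = tcl θ S ∪ tcl θ S' := by
  apply Set.Subset.antisymm
  · rintro y ⟨𝔬, h0, h1, h2⟩
    have h3 : ∀ᶠ p in (𝔬 : Filter (G × E)), p.2 ∈ S ∨ p.2 ∈ S' := h0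
    rcases Ultrafilter.eventually_or.1 h3 with h | h
    · exact Or.inl ⟨𝔬, h, h1, h2⟩
    · exact Or.inr ⟨𝔬, h, h1, h2⟩
  · exact Set.union_subset (tcl_mono' Set.subset_union_left) (tcl_mono' Set.subset_union_right)

private lemma tcl_mr (h : RT θ) (S : Set E) (a : E) {y : E} (hy : y ∈ tcl θ S) :
    y * a ∈ tcl θ ((fun x => x * a) '' S) := by
  obtain ⟨𝔬, h0, h1, h2⟩ := hy
  have := mem_tcl' (θ := θ) (S := (fun x => x * a) '' S) (𝔬 := 𝔬) (k := fun p => p.1)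
    (z := fun p => p.2 * a) (h0.mono fun p hp => ⟨p.2, hp, rfl⟩) h1
  have e : L 𝔬 (fun p : G × E => θ p.1 * (p.2 * a)) = y * a := by
    rw [← h2, ← h.L_mul_right]
    simp only [mul_assoc]
  rwa [e] at this

private lemma tcl_ml (h : RT θ) (S : Set E) (x : E) {y : E} (hy : y ∈ tcl θ S) :
    x * y ∈ tcl θ ((fun z => x * z) '' S) := by
  obtain ⟨𝔬, h0, h1, h2⟩ := hy
  obtain ⟨𝔨, hk⟩ := h.exists_law x
  obtain ⟨𝔩, hl⟩ := h.exists_law x⁻¹
  -- the composed law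
  have e1 : ∀ f : G × E → E, L (sd 𝔨 (fun _ => sd 𝔬 (fun _ => 𝔩)))
      (fun P => θ (P.1 * (P.2.1.1 * P.2.2)) * f P.2.1) =
        x * L 𝔬 (fun p => θ p.1 * (x⁻¹ * f p)) := by
    intro f
    rw [L_sd]
    unfold LL
    have : L 𝔨 (fun g => L (sd 𝔬 (fun _ => 𝔩)) (fun P => θ (g * (P.1.1 * P.2)) * f P.1)) =
        L 𝔨 (fun g => θ g * L 𝔬 (fun p => θ p.1 * (x⁻¹ * f p))) := by
      congr 1
      funext g
      rw [L_sd, ← h.L_mul_left]
      unfold LL
      congr 1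
      funext p
      simp only [map_mul, mul_assoc]
      rw [h.L_mul_left, h.L_mul_left, h.L_mul_right, hl]
    rw [this, h.L_mul_right, hk]
  have key := mem_tcl' (θ := θ) (S := (fun z => x * z) '' S)
    (𝔬 := sd 𝔨 (fun _ => sd 𝔬 (fun _ => 𝔩)))
    (k := fun P => P.1 * (P.2.1.1 * P.2.2)) (z := fun P => x * P.2.1.2) (by
      rw [eventually_sd]
      refine Eventually.of_forall fun g => ?_
      rw [eventually_sd]
      filter_upwards [h0] with p hp
      exact Eventually.of_forall fun l => ⟨p.2, hp, rfl⟩) (by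
      have := e1 (fun _ => 1)
      simp only [mul_one] at this
      rw [this, h.L_mul_right, h1, one_mul, mul_inv_cancel])
  have e2 : L (sd 𝔨 (fun _ => sd 𝔬 (fun _ => 𝔩)))
      (fun P : G × (G × E) × G => θ (P.1 * (P.2.1.1 * P.2.2)) * (x * P.2.1.2)) = x * y := by
    rw [e1 (fun p => x * p.2)]
    simp only [inv_mul_cancel_left]
    rw [h2]
  rwa [e2] at key

private lemma tcl_inv_one (h : RT θ) (S : Set E) (hy : (1 : E) ∈ tcl θ S) :
    (1 : E) ∈ tcl θ ((fun z => z⁻¹) '' S) := by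
  obtain ⟨𝔬, h0, h1, h2⟩ := hy
  choose 𝔱 h𝔱 using h.exists_law
  have key := mem_tcl' (θ := θ) (S := (fun z => z⁻¹) '' S)
    (𝔬 := sd 𝔬 (fun p => 𝔱 p.2))
    (k := fun P => P.1.1 * P.2) (z := fun P => P.1.2⁻¹) (by
      rw [eventually_sd]
      filter_upwards [h0] with p hp
      exact Eventually.of_forall fun l => ⟨p.2, hp, rfl⟩) (by
      rw [L_sd]
      unfold LL
      refine Eq.trans ?_ h2
      congr 1
      funext p
      simp only [map_mul]
      rw [h.L_mul_left, h𝔱])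
  have e2 : L (sd 𝔬 (fun p => 𝔱 p.2)) (fun P => θ (P.1.1 * P.2) * P.1.2⁻¹) = 1 := by
    rw [L_sd]
    unfold LL
    refine Eq.trans ?_ h1
    congr 1
    funext p
    simp only [map_mul, mul_assoc]
    rw [h.L_mul_left, h.L_mul_right, h𝔱, mul_inv_cancel, mul_one]
  rwa [e2] at key

private lemma tcl_iv (h : RT θ) (S : Set E) {y : E} (hy : y ∈ tcl θ S) :
    y⁻¹ ∈ tcl θ ((fun z => z⁻¹) '' S) := by
  have h1 := tcl_mr h S y⁻¹ hy
  rw [mul_inv_cancel] at h1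
  have h2 := tcl_ml h _ y⁻¹ (tcl_inv_one h _ h1)
  rw [mul_one] at h2
  refine tcl_mono' ?_ h2
  rintro _ ⟨_, ⟨_, ⟨z, hz, rfl⟩, rfl⟩, rfl⟩
  exact ⟨z, hz, by simp⟩

end TCLproof

/-- item TCL -/
theorem TCL_pf (E : Type u) [Group E] [TopologicalSpace E] [CompactSpace E] [T2Space E]
    (hJ : JJ E) : TCL E := by
  intro G _ θ h
  refine ⟨?_, closure_sub_tcl' h, fun S S' => tcl_mono', tcl_tcl' h, tcl_union', ?_, ?_, ?_, ?_⟩
  · refine Set.eq_empty_of_forall_notMem fun y hy => ?_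
    obtain ⟨𝔬, h0, -⟩ := hy
    exact h0.exists.choose_spec
  · intro S a
    apply Set.Subset.antisymm
    · intro y hy
      refine ⟨y * a⁻¹, ?_, by simp⟩
      refine tcl_mono' ?_ (tcl_mr h _ a⁻¹ hy)
      rintro _ ⟨_, ⟨z, hz, rfl⟩, rfl⟩
      simpa using hz
    · rintro _ ⟨y, hy, rfl⟩
      exact tcl_mr h S a hy
  · intro S a
    apply Set.Subset.antisymm
    · intro y hy
      refine ⟨a⁻¹ * y, ?_, by simp⟩
      refine tcl_mono' ?_ (tcl_ml h _ a⁻¹ hy)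
      rintro _ ⟨_, ⟨z, hz, rfl⟩, rfl⟩
      simpa using hz
    · rintro _ ⟨y, hy, rfl⟩
      exact tcl_ml h S a hy
  · intro S
    apply Set.Subset.antisymm
    · intro y hy
      refine ⟨y⁻¹, ?_, by simp⟩
      refine tcl_mono' ?_ (tcl_iv h _ hy)
      rintro _ ⟨_, ⟨z, hz, rfl⟩, rfl⟩
      simpa using hz
    · rintro _ ⟨y, hy, rfl⟩
      exact tcl_iv h S hy
  · rintro A hA y ⟨𝔬, h0, h1, h2⟩
    have hb : L 𝔬 (fun p => p.2) ∈ (A : Set E) := L_mem hA.closed h0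
    set b := L 𝔬 (fun p : G × E => p.2) with hbdef
    have hq : y * b⁻¹ ∈ QQ θ A := by
      refine ⟨𝔬.map (fun p => (p.1, p.2 * b⁻¹)), ?_, ?_, ?_, ?_⟩
      · rw [Ultrafilter.coe_map, eventually_map]
        exact h0.mono fun p hp => A.mul_mem hp (A.inv_mem hb)
      · rw [L_map]
        exact h1
      · rw [L_map]
        rw [h.L_mul_right, ← hbdef, mul_inv_cancel]
      · rw [L_map]
        simp only [← mul_assoc]
        rw [h.L_mul_right, h2]
    have := A.mul_mem (hA.qq _ hq) hb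
    rwa [inv_mul_cancel_right] at this

end Pool.Agent.Work.MP_0f91f8_co.Df
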