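import Pool.Agent.Work.MP_0f91f8_co.Df.Stmts

/-!
Block [0f91f8 DF], item TWIST.
-/

set_option linter.unusedSectionVars false

open Filter Topology

universe u

namespace Pool.Agent.Work.MP_0f91f8_co.Df

open Pool.Agent.Work.MP_0f91f8_co.Cge (L LL sd tendsto_L L_eq L_eq_iff L_congr L_const L_map
  L_mem eventually_sd L_sd LL_congr bnd)

theorem TWIST_pf (E : Type u) [Group E] [TopologicalSpace E] [CompactSpace E] [T2Space E]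
    (hC : CFG E) (hEK : EKBND E) (hCO : COMPEN E) : TWIST E := by
  classical
  intro θ hθ κ
  let ι : Type u := Finset ℚ × {O : Set E // O ∈ 𝓝 (1 : E)}
  let F : ι → Set (ℚ × ℚˣ) := fun i => {p | p.1 ≠ 0 ∧ θ (p.2 * un (2 * p.1 / (κ : ℚ))) ∈
    (i.2 : Set E) ∧ ∀ x ∈ i.1, 1 + x * p.1 ≠ 0 ∧ θ (p.2 * un (1 + x * p.1)) ∈ (i.2 : Set E)}
  have hne : Nonempty ι := ⟨(∅, ⟨Set.univ, univ_mem⟩)⟩
  have hdir : Directed (· ≥ ·) (fun i => 𝓟 (F i)) := by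
    rintro ⟨X₁, ⟨O₁, hO₁⟩⟩ ⟨X₂, ⟨O₂, hO₂⟩⟩
    refine ⟨(X₁ ∪ X₂, ⟨O₁ ∩ O₂, inter_mem hO₁ hO₂⟩), ?_, ?_⟩
    · apply principal_mono.2
      rintro ⟨W, q⟩ ⟨h1, h2, h3⟩
      exact ⟨h1, h2.1, fun x hx => ⟨(h3 x (Finset.mem_union_left _ hx)).1,
        (h3 x (Finset.mem_union_left _ hx)).2.1⟩⟩
    · apply principal_mono.2
      rintro ⟨W, q⟩ ⟨h1, h2, h3⟩
      exact ⟨h1, h2.2, fun x hx => ⟨(h3 x (Finset.mem_union_right _ hx)).1,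
        (h3 x (Finset.mem_union_right _ hx)).2.2⟩⟩
  have hbot : NeBot (⨅ i, 𝓟 (F i)) := by
    apply iInf_neBot_of_directed' hdir
    rintro ⟨X, ⟨O, hO⟩⟩
    rw [principal_neBot_iff]
    obtain ⟨W, q, h⟩ := hC θ hθ κ X O hO
    exact ⟨(W, q), h⟩
  obtain ⟨𝔮, h𝔮⟩ : ∃ 𝔮 : Ultrafilter (ℚ × ℚˣ), (𝔮 : Filter (ℚ × ℚˣ)) ≤ ⨅ i, 𝓟 (F i) :=
    ⟨Ultrafilter.of _, Ultrafilter.of_le _⟩
  have hev : ∀ (X : Finset ℚ) (O : Set E) (hO : O ∈ 𝓝 (1 : E)),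
      ∀ᶠ p : ℚ × ℚˣ in (𝔮 : Filter (ℚ × ℚˣ)), p ∈ F (X, ⟨O, hO⟩) := by
    intro X O hO
    have h1 : (𝔮 : Filter (ℚ × ℚˣ)) ≤ 𝓟 (F (X, ⟨O, hO⟩)) := h𝔮.trans (iInf_le _ _)
    exact le_principal_iff.1 h1
  have hek : EK θ κ (𝔮.map Prod.fst) := by
    refine ⟨𝔮, rfl, fun x => ⟨?_, ?_⟩, ?_, ?_⟩
    · exact (hev {x} Set.univ univ_mem).mono fun p hp =>
        (hp.2.2 x (Finset.mem_singleton_self x)).1
    · apply L_eq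
      intro O hO
      exact (hev {x} O hO).mono fun p hp => (hp.2.2 x (Finset.mem_singleton_self x)).2
    · exact (hev ∅ Set.univ univ_mem).mono fun p hp => hp.1
    · apply L_eq
      intro O hO
      exact (hev ∅ O hO).mono fun p hp => hp.2.1
  obtain ⟨𝔲', h1, h2⟩ := hCO θ hθ _ hek.e1
  exact ⟨bnd (𝔮.map Prod.fst) (fun _ => 𝔲'), hEK θ hθ κ _ _ hek (Eventually.of_forall fun _ => h1),
    h2 _ hek.e1 rfl⟩

end Pool.Agent.Work.MP_0f91f8_co.Df
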