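import Pool.Agent.Work.MP_0f91f8_co.Df.Stmts

/-!
Item WWP of block [0f91f8 DF]: closedness and adaptive closedness of `WW`.
-/

set_option linter.unusedSectionVars false
set_option linter.unusedVariables false

open Filter Topology

universe u

namespace Pool.Agent.Work.MP_0f91f8_co.Df

open Pool.Agent.Work.MP_0f91f8_co.Cge (L LL sd continuous_L L_pure L_map L_mem bnd)

namespace I_WWP

variable {E : Type u} [Group E] [TopologicalSpace E] [CompactSpace E] [T2Space E]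

lemma continuous_nu (θ : ℚˣ →* E) : Continuous (fun 𝔲 : Ultrafilter ℚ => nu θ 𝔲) :=
  continuous_L _

lemma nu_pure_zero (θ : ℚˣ →* E) : nu θ (pure 0) = 1 := by
  unfold nu
  rw [L_pure]
  have : (1 : ℚ) + 0 ^ 2 = 1 := by norm_num
  rw [this, un_one, map_one]

end I_WWP

variable (E : Type u) [Group E] [TopologicalSpace E] [CompactSpace E] [T2Space E]

theorem WWP_pf (hJ : JJ E) (hR : RIG E) (hE : E1BND E) (hM : MOB E) (hN : NUB E) : WWP E := by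
  intro θ h
  obtain ⟨hrig, -⟩ := hR θ h
  obtain ⟨hM0, hMc, -⟩ := hM θ h
  refine ⟨?_, ⟨hM0, ?_⟩, ?_⟩
  · have h1 : WW θ = {𝔲 | E1 θ 𝔲} ∩ (fun 𝔲 : Ultrafilter ℚ => nu θ 𝔲) ⁻¹' (A0 θ : Set E) := by
      ext 𝔲
      rfl
    rw [h1]
    exact hMc.inter (hrig.closed.preimage (I_WWP.continuous_nu θ))
  · rw [I_WWP.nu_pure_zero]
    exact (A0 θ).one_mem
  · intro 𝔲 m hu hm
    have hm1 : ∀ᶠ V in (𝔲 : Filter ℚ), E1 θ (m V) := hm.mono fun _ hV => hV.1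
    have hm2 : ∀ᶠ V in (𝔲 : Filter ℚ), nu θ (m V) ∈ A0 θ := hm.mono fun _ hV => hV.2
    refine ⟨hE θ h 𝔲 m hu.1 hm1, ?_⟩
    have h2 := hN θ h 𝔲 m hu.1 hm1
    obtain ⟨q, hq, hL⟩ := hJ ℚˣ θ h (A0 θ) hrig.closed
      (𝔲.map fun V => (θ (un (1 + V ^ 2)), nu θ (m V))) hm2
    simp only [L_map] at hL
    have h3 : L 𝔲 (fun V => θ (un (1 + V ^ 2)) * nu θ (m V)) ∈ A0 θ := by
      rw [hL]
      exact (A0 θ).mul_mem ((A0 θ).mul_mem hu.2 (hrig.qq q hq)) (L_mem hrig.closed hm2)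
    have h4 := (A0 θ).mul_mem h3 h2
    rwa [mul_inv_cancel_left] at h4

end Pool.Agent.Work.MP_0f91f8_co.Df
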