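import Pool.Agent.Work.MP_0f91f8_co.Df.Stmts

/-!
Block [0f91f8 DF], item YEX: the minimal set and its group.
-/

set_option linter.unusedSectionVars false

open Filter Topology

universe u

namespace Pool.Agent.Work.MP_0f91f8_co.Df

open Pool.Agent.Work.MP_0f91f8_co.Cge (L LL sd tendsto_L L_eq L_eq_iff continuous_L L_congr L_const
  L_pure L_map L_comp L_mem eventually_bind eventually_sd L_bind L_sd)

namespace I_YEX

section

variable {S : Type} {Γ : Type u} [Group Γ]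

/-- states -/
abbrev St (S : Type) (Γ : Type u) : Type u := Ultrafilter S × (Γ × Γ)

/-- the left action on the group components -/
@[reducible] def act (S : Type) (Γ : Type u) [Group Γ] : MulAction (Γ × Γ) (St S Γ) where
  smul h x := (x.1, (h.1 * x.2.1, h.2 * x.2.2))
  one_smul x := by
    show ((x.1, ((1 : Γ) * x.2.1, (1 : Γ) * x.2.2)) : St S Γ) = x
    rw [one_mul, one_mul]
  mul_smul h k x := by
    show ((x.1, (h.1 * k.1 * x.2.1, h.2 * k.2 * x.2.2)) : St S Γ) =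
      (x.1, (h.1 * (k.1 * x.2.1), h.2 * (k.2 * x.2.2)))
    rw [mul_assoc, mul_assoc]

/-- the action as a function -/
def ac (h : Γ × Γ) (x : St S Γ) : St S Γ := (x.1, (h.1 * x.2.1, h.2 * x.2.2))

lemma ac_one (x : St S Γ) : ac (1 : Γ × Γ) x = x := by
  show ((x.1, ((1 : Γ) * x.2.1, (1 : Γ) * x.2.2)) : St S Γ) = x
  rw [one_mul, one_mul]

lemma ac_mul (h k : Γ × Γ) (x : St S Γ) : ac (h * k) x = ac h (ac k x) := by
  show ((x.1, (h.1 * k.1 * x.2.1, h.2 * k.2 * x.2.2)) : St S Γ) =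
      (x.1, (h.1 * (k.1 * x.2.1), h.2 * (k.2 * x.2.2)))
  rw [mul_assoc, mul_assoc]

/-- stabiliser of `Y` -/
def Fs (Y : Set (St S Γ)) : Subgroup (Γ × Γ) where
  carrier := {h | ∀ y ∈ Y, ac h y ∈ Y ∧ ac h⁻¹ y ∈ Y}
  one_mem' := by
    intro y hy
    rw [inv_one, ac_one]
    exact ⟨hy, hy⟩
  mul_mem' := by
    intro a b ha hb y hy
    refine ⟨?_, ?_⟩
    · rw [ac_mul]
      exact (ha _ (hb y hy).1).1
    · rw [mul_inv_rev, ac_mul]
      exact (hb _ (ha y hy).2).2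
  inv_mem' := by
    intro a ha y hy
    refine ⟨(ha y hy).2, ?_⟩
    rw [inv_inv]
    exact (ha y hy).1

lemma mem_Fs {Y : Set (St S Γ)} {h : Γ × Γ} :
    h ∈ Fs Y ↔ ∀ y ∈ Y, ac h y ∈ Y ∧ ac h⁻¹ y ∈ Y := Iff.rfl

/-- the group of the second component -/
def Nn (Y : Set (St S Γ)) : Subgroup Γ := (Fs Y).comap (MonoidHom.inr Γ Γ)

lemma mem_Nn {Y : Set (St S Γ)} {n : Γ} : n ∈ Nn Y ↔ ((1 : Γ), n) ∈ Fs Y := Iff.rfl

lemma isClosed_Nn [TopologicalSpace Γ] [IsTopologicalGroup Γ] {Y : Set (St S Γ)}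
    (hY : IsClosed Y) : IsClosed (Nn Y : Set Γ) := by
  have h1 : (Nn Y : Set Γ) = ⋂ y ∈ Y, ({n | ac ((1 : Γ), n) y ∈ Y} ∩
      {n | ac ((1 : Γ), n)⁻¹ y ∈ Y}) := by
    ext n
    simp only [Set.mem_iInter, Set.mem_inter_iff, Set.mem_ofPred_eq]
    exact Iff.rfl
  rw [h1]
  refine isClosed_biInter fun y _ => ?_
  refine IsClosed.inter (hY.preimage ?_) (hY.preimage ?_)
  · show Continuous (fun n : Γ => ((y.1, ((1 : Γ) * y.2.1, n * y.2.2)) : St S Γ))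
    fun_prop
  · show Continuous (fun n : Γ => ((y.1, ((1 : Γ)⁻¹ * y.2.1, n⁻¹ * y.2.2)) : St S Γ))
    fun_prop

end

section

variable {S T G : Type} [CommGroup G] {E : Type u} [Group E] [TopologicalSpace E] [CompactSpace E]
  [T2Space E] {θ : G →* E} {Γ : Type u} [Group Γ] [TopologicalSpace Γ] [IsTopologicalGroup Γ]
  [CompactSpace Γ] [T2Space Γ]

/-- the constant move -/
noncomputable def cm (K : Mach S T G) (k : Ultrafilter G) : Ultrafilter (T × G) :=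
  k.map (fun g => (K.one, g))

lemma cm_fst (K : Mach S T G) (k : Ultrafilter G) :
    (cm K k).map Prod.fst = (pure K.one : Ultrafilter T) := by
  apply Ultrafilter.coe_injective
  ext t
  show (∀ᶠ _ in (k : Filter G), K.one ∈ t) ↔ K.one ∈ t
  exact ⟨fun h => h.exists.choose_spec, fun h => Eventually.of_forall fun _ => h⟩

lemma P1_cm (K : Mach S T G) (k : Ultrafilter G) : P1 θ (cm K k) = L k (fun g => θ g) := by
  unfold P1 cm
  rw [L_map]

lemma P2_cm {K : Mach S T G} (hK : MOK K) (k : Ultrafilter G) {s : S} (hs : s ∈ K.S₀) :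
    P2 θ K s (cm K k) = L k (fun g => θ g) := by
  unfold P2 cm
  rw [L_map]
  simp only [hK.r_one s hs, mul_one]

lemma sd_pure_act {K : Mach S T G} (hK : MOK K) {v : Ultrafilter S}
    (hv : ∀ᶠ s in (v : Filter S), s ∈ K.S₀) {w : S → Ultrafilter T}
    (hw : ∀ s, w s = pure K.one) :
    (sd v w).map (fun p => K.act p.1 p.2) = v := by
  apply Ultrafilter.coe_injective
  ext t
  show (∀ᶠ s in (v : Filter S), ∀ᶠ r in (w s : Filter T), K.act s r ∈ t) ↔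
    ∀ᶠ s in (v : Filter S), s ∈ t
  have h1 : ∀ s, (∀ᶠ r in (w s : Filter T), K.act s r ∈ t) ↔ K.act s K.one ∈ t := by
    intro s
    rw [hw s]
    exact Iff.rfl
  simp only [h1]
  constructor
  · intro h
    filter_upwards [h, hv] with s hs hs'
    rw [hK.act_one s hs'] at hs
    exact hs
  · intro h
    filter_upwards [h, hv] with s hs hs'
    rw [hK.act_one s hs']
    exact hs

end

end I_YEX

open I_YEX in
theorem YEX_pf (E : Type u) [Group E] [TopologicalSpace E] [CompactSpace E] [T2Space E]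
    (Γ : Type u) [Group Γ] [TopologicalSpace Γ] [IsTopologicalGroup Γ] [CompactSpace Γ]
    [T2Space Γ] (hMIN : Cge.MIN.{u, u, 0}) (hR : RCH E Γ) : YEX E Γ := by
  classical
  intro S T G _ θ hθ K hK A D π hπ s₀ hs₀
  obtain ⟨hXc, hXne, hXI, hMV⟩ := hR S T G θ hθ K hK A D π hπ s₀ hs₀
  let _inst : MulAction (Γ × Γ) (St S Γ) := act S Γ
  obtain ⟨Y, hYX, hYc, hYne, hYinv, hYgrp⟩ := hMIN (St S Γ) (Γ × Γ)
    {F : S → Ultrafilter (T × G) // Sel θ K A F}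
    (fun h => by
      show Continuous (fun x : St S Γ => ((x.1, (h.1 * x.2.1, h.2 * x.2.2)) : St S Γ))
      fun_prop)
    (fun F x => Mv θ K π F.1 x) (fun F => hMV F.1)
    (fun F h x => by
      show Mv θ K π F.1 (ac h x) = ac h (Mv θ K π F.1 x)
      unfold Mv ac
      simp only [mul_assoc])
    (Rch θ K A π s₀) hXc hXne (fun F x hx => hXI F.1 F.2 x hx)
  have hFs : ∀ (h : Γ × Γ) (x : St S Γ), x ∈ Y → ac h x ∈ Y → h ∈ Fs Y := fun h x hx hhx =>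
    fun y hy => hYgrp h x hx hhx y hy
  have hinv : ∀ F : S → Ultrafilter (T × G), Sel θ K A F → ∀ x ∈ Y, Mv θ K π F x ∈ Y :=
    fun F hF x hx => hYinv ⟨F, hF⟩ x hx
  obtain ⟨x, hx⟩ := hYne
  obtain ⟨m, hm, hxm⟩ := hYX hx
  have hx1 : x.1 = (m.map Prod.fst).map (K.act s₀) := by rw [hxm]
  have hv : ∀ᶠ s in (x.1 : Filter S), s ∈ K.S₀ := by
    rw [hx1]
    exact hK.mem s₀ hs₀ _ hm.1
  -- diagonal elements
  have hdiag : ∀ γ : Γ, (x.2.1 * γ * x.2.1⁻¹, x.2.2 * γ * x.2.2⁻¹) ∈ Fs Y := by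
    intro γ
    obtain ⟨e, he, rfl⟩ := hπ.surj γ
    obtain ⟨k, hk⟩ := hθ.exists_law e
    have hSel : Sel θ K A (fun _ => cm K k) := by
      intro s hs
      refine ⟨?_, ?_, ?_⟩
      · rw [cm_fst]
        exact hK.one_mem
      · rw [P1_cm, hk]
        exact he
      · rw [P2_cm hK k hs, hk]
        exact he
    have h1 := hinv _ hSel x hx
    have h2 : Mv θ K π (fun _ => cm K k) x = (x.1, (x.2.1 * π e, x.2.2 * π e)) := by
      unfold Mv
      have ha : (sd x.1 (fun _ : S => (cm K k).map Prod.fst)).map (fun p => K.act p.1 p.2) =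
          x.1 := sd_pure_act hK hv (fun _ => cm_fst K k)
      have hb : I1 θ π x.1 (fun _ : S => cm K k) = π e := by
        unfold I1
        simp only [P1_cm, hk]
        exact L_const _ _
      have hc : I2 θ K π x.1 (fun _ : S => cm K k) = π e := by
        unfold I2
        rw [← L_const x.1 (π e)]
        apply L_congr
        filter_upwards [hv] with s hs
        rw [P2_cm hK k hs, hk]
      rw [ha, hb, hc]
    rw [h2] at h1
    refine hFs _ x hx ?_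
    have h3 : ac (x.2.1 * π e * x.2.1⁻¹, x.2.2 * π e * x.2.2⁻¹) x =
        (x.1, (x.2.1 * π e, x.2.2 * π e)) := by
      unfold ac
      simp only [inv_mul_cancel_right]
    rw [h3]
    exact h1
  -- normality
  have hnor : ∀ γ : Γ, ∀ n ∈ Nn Y, γ * n * γ⁻¹ ∈ Nn Y := by
    intro γ n hn
    have h2 := hdiag (x.2.2⁻¹ * γ * x.2.2)
    have h3 : x.2.2 * (x.2.2⁻¹ * γ * x.2.2) * x.2.2⁻¹ = γ := by group
    rw [h3] at h2
    rw [mem_Nn] at hn ⊢
    have h4 := (Fs Y).mul_mem ((Fs Y).mul_mem h2 hn) ((Fs Y).inv_mem h2)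
    have h5 : (x.2.1 * (x.2.2⁻¹ * γ * x.2.2) * x.2.1⁻¹, γ) * ((1 : Γ), n) *
        (x.2.1 * (x.2.2⁻¹ * γ * x.2.2) * x.2.1⁻¹, γ)⁻¹ = ((1 : Γ), γ * n * γ⁻¹) := by
      simp only [Prod.mk_mul_mk, Prod.inv_mk, mul_one, mul_inv_cancel]
    rw [h5] at h4
    exact h4
  refine ⟨x.1, Nn Y, isClosed_Nn hYc, hnor, hv, ?_, ?_⟩
  · -- comparison
    intro F F' hF hF' hFF
    have hM : Mv θ K π F x ∈ Y := hinv F hF x hx
    have hM' : Mv θ K π F' x ∈ Y := hinv F' hF' x hx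
    have hfst : (Mv θ K π F x).1 = (Mv θ K π F' x).1 := by
      unfold Mv
      apply Ultrafilter.coe_injective
      ext t
      show (∀ᶠ s in (x.1 : Filter S), ∀ᶠ r in ((F s).map Prod.fst : Filter T), K.act s r ∈ t) ↔
        (∀ᶠ s in (x.1 : Filter S), ∀ᶠ r in ((F' s).map Prod.fst : Filter T), K.act s r ∈ t)
      constructor
      · intro h
        filter_upwards [h, hv] with s hs hs'
        have := hFF s hs'
        rw [← this]
        exact hs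
      · intro h
        filter_upwards [h, hv] with s hs hs'
        have := hFF s hs'
        rw [this]
        exact hs
    set i := I1 θ π x.1 F with hi
    set j := I2 θ K π x.1 F with hj
    set i' := I1 θ π x.1 F' with hi'
    set j' := I2 θ K π x.1 F' with hj'
    have f1 : (x.2.1 * (i * i'⁻¹) * x.2.1⁻¹, x.2.2 * (j * j'⁻¹) * x.2.2⁻¹) ∈ Fs Y := by
      refine hFs _ _ hM' ?_
      have h3 : ac (x.2.1 * (i * i'⁻¹) * x.2.1⁻¹, x.2.2 * (j * j'⁻¹) * x.2.2⁻¹)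
          (Mv θ K π F' x) = Mv θ K π F x := by
        refine Prod.ext hfst.symm (Prod.ext ?_ ?_)
        · show x.2.1 * (i * i'⁻¹) * x.2.1⁻¹ * (x.2.1 * i') = x.2.1 * i
          group
        · show x.2.2 * (j * j'⁻¹) * x.2.2⁻¹ * (x.2.2 * j') = x.2.2 * j
          group
      rw [h3]
      exact hM
    have f2 := hdiag (i * i'⁻¹)
    have f3 := (Fs Y).mul_mem ((Fs Y).inv_mem f2) f1
    have f4 : (x.2.1 * (i * i'⁻¹) * x.2.1⁻¹, x.2.2 * (i * i'⁻¹) * x.2.2⁻¹)⁻¹ *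
        (x.2.1 * (i * i'⁻¹) * x.2.1⁻¹, x.2.2 * (j * j'⁻¹) * x.2.2⁻¹) =
        ((1 : Γ), x.2.2 * (i' * (i⁻¹ * j * j'⁻¹)) * x.2.2⁻¹) := by
      refine Prod.ext ?_ ?_
      · show (x.2.1 * (i * i'⁻¹) * x.2.1⁻¹)⁻¹ * (x.2.1 * (i * i'⁻¹) * x.2.1⁻¹) = 1
        group
      · show (x.2.2 * (i * i'⁻¹) * x.2.2⁻¹)⁻¹ * (x.2.2 * (j * j'⁻¹) * x.2.2⁻¹) =
          x.2.2 * (i' * (i⁻¹ * j * j'⁻¹)) * x.2.2⁻¹
        group
    rw [f4] at f3
    have f5 := hnor (i'⁻¹ * x.2.2⁻¹) _ (mem_Nn.2 f3)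
    have f6 : i'⁻¹ * x.2.2⁻¹ * (x.2.2 * (i' * (i⁻¹ * j * j'⁻¹)) * x.2.2⁻¹) *
        (i'⁻¹ * x.2.2⁻¹)⁻¹ = i⁻¹ * j * (i'⁻¹ * j')⁻¹ := by
      group
    rw [f6] at f5
    exact f5
  · -- landing
    intro hN
    have hall : ∀ γ₁ γ₂ : Γ, (γ₁, γ₂) ∈ Fs Y := by
      intro γ₁ γ₂
      have h1 : ∀ n : Γ, ((1 : Γ), n) ∈ Fs Y := fun n => by
        rw [← mem_Nn, hN]
        exact Subgroup.mem_top _
      have h2 := hdiag (x.2.1⁻¹ * γ₁ * x.2.1)
      have h3 := (Fs Y).mul_mem h2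
        (h1 ((x.2.2 * (x.2.1⁻¹ * γ₁ * x.2.1) * x.2.2⁻¹)⁻¹ * γ₂))
      have h4 : (x.2.1 * (x.2.1⁻¹ * γ₁ * x.2.1) * x.2.1⁻¹,
          x.2.2 * (x.2.1⁻¹ * γ₁ * x.2.1) * x.2.2⁻¹) *
          ((1 : Γ), (x.2.2 * (x.2.1⁻¹ * γ₁ * x.2.1) * x.2.2⁻¹)⁻¹ * γ₂) = (γ₁, γ₂) := by
        refine Prod.ext ?_ ?_
        · show x.2.1 * (x.2.1⁻¹ * γ₁ * x.2.1) * x.2.1⁻¹ * 1 = γ₁
          group
        · show x.2.2 * (x.2.1⁻¹ * γ₁ * x.2.1) * x.2.2⁻¹ *
            ((x.2.2 * (x.2.1⁻¹ * γ₁ * x.2.1) * x.2.2⁻¹)⁻¹ * γ₂) = γ₂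
          group
      rw [h4] at h3
      exact h3
    have hreach : ∀ γ₁ γ₂ : Γ, ((x.1, (γ₁, γ₂)) : St S Γ) ∈ Y := by
      intro γ₁ γ₂
      have h1 := (mem_Fs.1 (hall (γ₁ * x.2.1⁻¹) (γ₂ * x.2.2⁻¹)) x hx).1
      have h2 : ac (γ₁ * x.2.1⁻¹, γ₂ * x.2.2⁻¹) x = (x.1, (γ₁, γ₂)) := by
        unfold ac
        simp only [inv_mul_cancel_right]
      rw [h2] at h1
      exact h1
    refine ⟨m.map Prod.fst, hm.1, ?_⟩
    intro e₁ he₁ e₂ he₂
    obtain ⟨m', hm', he⟩ := hYX (hreach (π e₁) (π e₂))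
    have g1 : x.1 = (m'.map Prod.fst).map (K.act s₀) := congrArg (fun z => z.1) he
    have g2 : π e₁ = π (P1 θ m') := congrArg (fun z => z.2.1) he
    have g3 : π e₂ = π (P2 θ K s₀ m') := congrArg (fun z => z.2.2) he
    refine ⟨m', hm', ?_, (hπ.eq_iff he₁ hm'.2.1).1 g2, (hπ.eq_iff he₂ hm'.2.2).1 g3⟩
    exact hK.inj s₀ hs₀ _ hm'.1 _ hm.1 (by rw [← g1, ← hx1])

end Pool.Agent.Work.MP_0f91f8_co.Df
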