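import Pool.Agent.Work.MP_0f91f8_co.Df.Stmts

/-!
Item YK of block [0f91f8 DF]: the third limit is in `DD ⊤`.
-/

set_option linter.unusedSectionVars false

open Filter Topology

universe u

namespace Pool.Agent.Work.MP_0f91f8_co.Df

open Pool.Agent.Work.MP_0f91f8_co.Cge (L LL sd tendsto_L L_eq L_congr L_const
  L_map L_comp L_mem eventually_sd L_sd LL_congr op bnd one_add_sq_pos L_inv aa)

namespace I_YK

variable {E : Type u} [Group E] [TopologicalSpace E] [CompactSpace E] [T2Space E]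
variable {Γ : Type u} [Group Γ] [TopologicalSpace Γ] [IsTopologicalGroup Γ]
  [CompactSpace Γ] [T2Space Γ]

/-- the homomorphism to the compact group -/
def f (θ : ℚˣ →* E) (π : E → Γ) (g : ℚˣ) : Γ := π (θ g)

variable {θ : ℚˣ →* E} {π : E → Γ}

lemma f_mul (h : Pr ⊤ (DD θ ⊤) π) (a b : ℚˣ) : f θ π (a * b) = f θ π a * f θ π b := by
  unfold f
  rw [map_mul, h.mul _ (Subgroup.mem_top _) _ (Subgroup.mem_top _)]

lemma f_one (h : Pr ⊤ (DD θ ⊤) π) : f θ π 1 = 1 := by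
  unfold f
  rw [map_one, h.one]

lemma f_inv (h : Pr ⊤ (DD θ ⊤) π) (a : ℚˣ) : f θ π a⁻¹ = (f θ π a)⁻¹ := by
  unfold f
  rw [map_inv, h.inv (Subgroup.mem_top _)]

lemma L_f (h : Pr ⊤ (DD θ ⊤) π) {Ω : Type} (𝔬 : Ultrafilter Ω) (g : Ω → ℚˣ) :
    L 𝔬 (fun p => f θ π (g p)) = π (L 𝔬 (fun p => θ (g p))) :=
  h.L_pi (Eventually.of_forall fun _ => Subgroup.mem_top _)

/-- limits equal to one pass to the compact group -/
lemma L_f_one (h : Pr ⊤ (DD θ ⊤) π) {Ω : Type} {𝔬 : Ultrafilter Ω} {g : Ω → ℚˣ}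
    (hg : L 𝔬 (fun p => θ (g p)) = 1) : L 𝔬 (fun p => f θ π (g p)) = 1 := by
  rw [L_f h, hg, h.one]

/-- cancelling the first factor -/
lemma L_f_cancel (h : Pr ⊤ (DD θ ⊤) π) {Ω : Type} {𝔬 : Ultrafilter Ω} {g r : Ω → ℚˣ}
    (hg : L 𝔬 (fun p => f θ π (g p)) = 1) (hgr : L 𝔬 (fun p => θ (g p * r p)) = 1) :
    L 𝔬 (fun p => f θ π (r p)) = 1 := by
  have h1 := L_f_one h hgr
  simp only [f_mul h] at h1
  rw [Cge.L_mul, hg, one_mul] at h1
  exact h1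

/-- moving from one coupling to another one with the same marginal -/
lemma L_f_marg {𝔮 𝔬 : Ultrafilter (ℚ × ℚˣ)}
    (hm : 𝔮.map Prod.fst = 𝔬.map Prod.fst) {r : ℚ → ℚˣ}
    (hr : L 𝔮 (fun p => f θ π (r p.1)) = 1) : L 𝔬 (fun p => f θ π (r p.1)) = 1 := by
  have h1 := L_map 𝔮 Prod.fst (fun V => f θ π (r V))
  have h2 := L_map 𝔬 Prod.fst (fun V => f θ π (r V))
  rw [← h2, ← hm, h1, hr]

end I_YK

variable (E : Type u) [Group E] [TopologicalSpace E] [CompactSpace E] [T2Space E]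

open I_YK in
theorem YK_pf (hQ : QUO E) : YK E := by
  intro θ hθ κ 𝔬 hE hne h1 h2
  obtain ⟨Γ, i1, i2, i3, i4, i5, π, h⟩ := hQ ℚˣ θ hθ ⊤ (CA_top θ)
  obtain ⟨𝔮, hm, hx, hq0, hq2⟩ := hE
  -- the coupling of the law
  have q0 : L 𝔮 (fun p => f θ π p.2) = 1 := by
    have := L_f_one h (hx 0).2
    simp only [zero_mul, add_zero, un_one, mul_one] at this
    exact this
  have qx : ∀ x : ℚ, L 𝔬 (fun p => f θ π (un (1 + x * p.1))) = 1 := fun x =>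
    L_f_marg hm (r := fun V => un (1 + x * V)) (L_f_cancel h q0 (hx x).2)
  have q2 : L 𝔬 (fun p => f θ π (un (2 * p.1 / (κ : ℚ)))) = 1 :=
    L_f_marg hm (r := fun V => un (2 * V / (κ : ℚ))) (L_f_cancel h q0 hq2)
  have o0 : L 𝔬 (fun p => f θ π p.2) = 1 := L_f_one h h1
  have oa : L 𝔬 (fun p => f θ π (un (aa 1 p.1))) = 1 := L_f_cancel h o0 h2
  have e1 : L 𝔬 (fun p => f θ π (un (aa 1 p.1))) =
      L 𝔬 (fun p => f θ π (un (1 + 1 * p.1)) * f θ π (un (1 + (-1) * p.1)) *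
        (f θ π (un (1 + p.1 ^ 2)))⁻¹) := by
    apply L_congr
    filter_upwards [hne] with p hp
    obtain ⟨hp0, hp1, hp2⟩ := hp
    have a1 : (1 : ℚ) + 1 * p.1 ≠ 0 := by
      intro h0
      apply hp2
      linarith
    have a2 : (1 : ℚ) + (-1) * p.1 ≠ 0 := by
      intro h0
      apply hp1
      linarith
    have a3 : (1 : ℚ) + p.1 ^ 2 ≠ 0 := (one_add_sq_pos p.1).ne'
    have e : aa 1 p.1 = (1 + 1 * p.1) * (1 + (-1) * p.1) / (1 + p.1 ^ 2) := by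
      unfold aa
      ring
    rw [e, un_div (mul_ne_zero a1 a2) a3, un_mul a1 a2, f_mul h, f_mul h, f_inv h]
  have on : L 𝔬 (fun p => f θ π (un (1 + p.1 ^ 2))) = 1 := by
    rw [e1, Cge.L_mul, Cge.L_mul, L_inv, qx 1, qx (-1), one_mul, one_mul, inv_eq_one] at oa
    exact oa
  have e2 : L 𝔬 (fun p => f θ π (p.2 * un (2 * p.1 / (κ : ℚ) / (1 + p.1 ^ 2)))) = 1 := by
    have e3 : L 𝔬 (fun p => f θ π (p.2 * un (2 * p.1 / (κ : ℚ) / (1 + p.1 ^ 2)))) =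
        L 𝔬 (fun p => f θ π p.2 * (f θ π (un (2 * p.1 / (κ : ℚ))) *
          (f θ π (un (1 + p.1 ^ 2)))⁻¹)) := by
      apply L_congr
      filter_upwards [hne] with p hp
      have a1 : 2 * p.1 / (κ : ℚ) ≠ 0 :=
        div_ne_zero (mul_ne_zero two_ne_zero hp.1) κ.ne_zero
      have a3 : (1 : ℚ) + p.1 ^ 2 ≠ 0 := (one_add_sq_pos p.1).ne'
      rw [un_div a1 a3, f_mul h, f_mul h, f_inv h]
    rw [e3, Cge.L_mul, Cge.L_mul, L_inv, o0, q2, on, inv_one, one_mul, one_mul]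
  rw [L_f h] at e2
  exact (h.ker _ (Subgroup.mem_top _)).1 e2

end Pool.Agent.Work.MP_0f91f8_co.Df
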