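import Pool.Agent.Work.MP_0f91f8_co.Df.Fin
import Pool.Agent.Work.MP_0f91f8_co.Df.I_STEP2
import Pool.Agent.Work.MP_0f91f8_co.Df.I_YEX
import Pool.Agent.Work.MP_0f91f8_co.Df.I_RPL
import Pool.Agent.Work.MP_0f91f8_co.Df.I_CLO
import Pool.Agent.Work.MP_0f91f8_co.Df.I_RIG
import Pool.Agent.Work.MP_0f91f8_co.Df.I_TCL
import Pool.Agent.Work.MP_0f91f8_co.Df.I_QUO
import Pool.Agent.Work.MP_0f91f8_co.Df.I_STEP1
import Pool.Agent.Work.MP_0f91f8_co.Df.I_LIN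
import Pool.Agent.Work.MP_0f91f8_co.Df.I_RCH
import Pool.Agent.Work.MP_0f91f8_co.Df.I_DHH
import Pool.Agent.Work.MP_0f91f8_co.Df.I_COV
import Pool.Agent.Work.MP_0f91f8_co.Df.I_CMPS
import Pool.Agent.Work.MP_0f91f8_co.Df.I_COMPEN
import Pool.Agent.Work.MP_0f91f8_co.Df.I_INDG
import Pool.Agent.Work.MP_0f91f8_co.Df.I_KIND
import Pool.Agent.Work.MP_0f91f8_co.Df.I_MQOK
import Pool.Agent.Work.MP_0f91f8_co.Df.I_FLC
import Pool.Agent.Work.MP_0f91f8_co.Df.I_FLS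
import Pool.Agent.Work.MP_0f91f8_co.Df.I_DDP
import Pool.Agent.Work.MP_0f91f8_co.Df.I_NUB
import Pool.Agent.Work.MP_0f91f8_co.Df.I_LAWK
import Pool.Agent.Work.MP_0f91f8_co.Df.I_FIN
import Pool.Agent.Work.MP_0f91f8_co.Df.I_AFS
import Pool.Agent.Work.MP_0f91f8_co.Df.I_STEPK
import Pool.Agent.Work.MP_0f91f8_co.Df.I_AFC
import Pool.Agent.Work.MP_0f91f8_co.Df.I_CFG
import Pool.Agent.Work.MP_0f91f8_co.Df.I_TWIST
import Pool.Agent.Work.MP_0f91f8_co.Df.I_E1BND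
import Pool.Agent.Work.MP_0f91f8_co.Df.I_EKBND
import Pool.Agent.Work.MP_0f91f8_co.Df.I_MOB
import Pool.Agent.Work.MP_0f91f8_co.Df.I_POS
import Pool.Agent.Work.MP_0f91f8_co.Df.I_WWP
import Pool.Agent.Work.MP_0f91f8_co.Df.I_YK
import Pool.Agent.Work.MP_0f91f8_co.Df.I_JJ
import Pool.Agent.Work.MP_0f91f8_co.Df.I_ZOR
import Pool.Agent.Work.MP_0f91f8_co.Df.I_POSG
import Pool.Agent.Work.MP_0f91f8_co.Df.I_SYND
import Pool.Agent.Work.MP_0f91f8_co.Df.I_CSE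
import Pool.Agent.Work.MP_0f91f8_co.Df.I_MKOK
import Pool.Agent.Work.MP_0f91f8_co.Cge.I_TOOL
import Pool.Agent.Work.MP_0f91f8_co.Cge.I_MIN
import Pool.Agent.Work.MP_0f91f8_co.Cge.I_BRAUER

/-!
Block [0f91f8 DF]: all items together.
-/

open Filter Topology

universe u

namespace Pool.Agent.Work.MP_0f91f8_co.Df

/-- the theorem on the rationals -/
theorem rat_all {E : Type u} [Group E] [TopologicalSpace E] [CompactSpace E] [T2Space E]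
    {θ : ℚˣ →* E} (hθ : RT θ) (hD : Dst θ) {O : Set E} (hO : O ∈ 𝓝 (1 : E)) :
    ∃ X Y Z : ℚˣ, (X : ℚ) ^ 2 + (Y : ℚ) ^ 2 = (Z : ℚ) ^ 2 ∧ θ X ∈ O ∧ θ Y ∈ O ∧ θ Z ∈ O := by
  have hJ : JJ E := JJ_pf E
  have hCSE : CSE E := CSE_pf E
  have hDDP : DDP E := DDP_pf E hJ
  have hQUO : QUO E := QUO_pf E hDDP
  have hTCL : TCL E := TCL_pf E hJ
  have hDHH : DHH E := DHH_pf E hTCL
  have hCOV : COV E := COV_pf E hTCL
  have hRPL : RPL E := RPL_pf E hTCL hDHH hCOV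
  have hZOR : ZOR E := ZOR_pf E
  have hCMPS : CMPS E := CMPS_pf E
  have hFLS : FLS E := FLS_pf E hCMPS hDDP
  have hFLC : FLC E := FLC_pf E hJ
  have hRCH : ∀ (Γ : Type u) [Group Γ] [TopologicalSpace Γ] [IsTopologicalGroup Γ]
      [CompactSpace Γ] [T2Space Γ], RCH E Γ := fun Γ _ _ _ _ _ => RCH_pf E Γ hCMPS
  have hYEX : ∀ (Γ : Type u) [Group Γ] [TopologicalSpace Γ] [IsTopologicalGroup Γ]
      [CompactSpace Γ] [T2Space Γ], YEX E Γ := fun Γ _ _ _ _ _ =>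
    YEX_pf E Γ Cge.MIN_pf (hRCH Γ)
  have hSTEP2 : ∀ (Γ : Type u) [Group Γ] [TopologicalSpace Γ] [IsTopologicalGroup Γ]
      [CompactSpace Γ] [T2Space Γ], STEP2 E Γ := fun Γ _ _ _ _ _ =>
    STEP2_pf E Γ hRPL hCMPS
  have hSTEPK : ∀ (Γ : Type u) [Group Γ] [TopologicalSpace Γ] [IsTopologicalGroup Γ]
      [CompactSpace Γ] [T2Space Γ], STEPK E Γ := fun Γ _ _ _ _ _ => STEPK_pf E Γ
  have hAFS : AFS E := AFS_pf E hDDP
  have hAFC : AFC E := AFC_pf E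
  have hE1 : E1BND E := E1BND_pf E
  have hEK : EKBND E := EKBND_pf E
  have hMOB : MOB E := MOB_pf E
  have hRIG : RIG E := RIG_pf E hJ
  have hPG : POSG E := POSG_pf E
  have hPO : POS E := POS_pf E hRIG
  have hNUB : NUB E := NUB_pf E hJ hRIG hPG hPO
  have hCO : COMPEN E := COMPEN_pf E hJ hCSE hRIG hE1 hMOB hNUB
  have hWW : WWP E := WWP_pf E hJ hRIG hE1 hMOB hNUB
  have hMQ : MQOK E := MQOK_pf E hWW
  have hSY : SYND E := SYND_pf E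
  have hCFG : CFG E := CFG_pf E hSY Cge.BRAUER_pf
  have hTW : TWIST E := TWIST_pf E hCFG hEK hCO
  have hSTEP1 : ∀ (Γ : Type u) [Group Γ] [TopologicalSpace Γ] [IsTopologicalGroup Γ]
      [CompactSpace Γ] [T2Space Γ], STEP1 E Γ := fun Γ _ _ _ _ _ => by
    have hI : INDG E Γ := INDG_pf E Γ hPG
    have hK : KIND E Γ := KIND_pf E Γ hPG hPO hWW
    have hC : CLO E Γ := CLO_pf E Γ hE1 hMOB hCO hPG hPO hI hK
    have hL : LIN E Γ := LIN_pf E Γ hC Cge.TOOL_pf hI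
    exact STEP1_pf E Γ hRIG hPG hPO hI hK hL
  have hLAWK : LAWK E := LAWK_pf E hTW hEK hPG hPO
  have hYK : YK E := YK_pf E hQUO
  have hFIN : FIN E := FIN_pf E hLAWK hYK
  exact rat_main hQUO hYEX hSTEP2 hSTEPK hSTEP1 hFLS hFLC hZOR MKOK_pf hAFS hAFC hRIG hMQ hFIN
    hθ hD hO

end Pool.Agent.Work.MP_0f91f8_co.Df
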