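import Pool.Agent.Work.MP_0f91f8_co.Cge.Stmts

/-!
Block [0f91f8 DF]: Pythagorean triples in distal systems.  Definitions and basic lemmas.
Captain helper40.  Paper proof: notes S1-40-3 (id 3465) and S1-40-4 (id 3480) of MP_0f91f8_co.
The calculus of limits `L`, `LL`, `sd` is in `Cge/Basic.lean`.
-/

set_option linter.unusedSectionVars false
set_option linter.deprecated false

open Filter Topology

universe u

namespace Pool.Agent.Work.MP_0f91f8_co.Df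

open Pool.Agent.Work.MP_0f91f8_co.Cge (L LL sd tendsto_L L_eq L_eq_iff continuous_L L_congr L_const
  L_pure L_map L_comp L_mem eventually_bind eventually_sd L_bind L_sd LL_congr LL_fst LL_const
  LL_map map_fst_sd map_snd_sd sd_const_map_snd continuous_bind continuous_map isClosed_tendsto
  L_mul L_inv LL_mul LL_inv op aa cc bnd aa_one op_zero zero_op aa_zero one_add_sq_pos)

/-! ### Part A: compact right topological groups -/

section RTG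

variable {G : Type*} [CommGroup G] {E : Type*} [Group E] [TopologicalSpace E] [CompactSpace E]
  [T2Space E]

/-- `E` is a right topological group (all `x ↦ x * q` are continuous), `θ : G → E` is a
homomorphism with dense image, and multiplication on the left by `θ g` is continuous -/
structure RT (θ : G →* E) : Prop where
  cr : ∀ q : E, Continuous (fun x : E => x * q)
  cl : ∀ g : G, Continuous (fun x : E => θ g * x)
  dense : DenseRange θ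

namespace RT

variable {θ : G →* E} (h : RT θ) {Ω Ω' : Type*}

include h

lemma L_mul_right (𝔬 : Ultrafilter Ω) (x : Ω → E) (q : E) :
    L 𝔬 (fun ω => x ω * q) = L 𝔬 x * q :=
  L_comp (h.cr q) 𝔬 x

lemma L_mul_left (𝔬 : Ultrafilter Ω) (g : G) (x : Ω → E) :
    L 𝔬 (fun ω => θ g * x ω) = θ g * L 𝔬 x :=
  L_comp (h.cl g) 𝔬 x

/-- every element is a limit of `θ` -/
lemma exists_law (e : E) : ∃ 𝔨 : Ultrafilter G, L 𝔨 (fun g => θ g) = e := by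
  have h1 : e ∈ closure (Set.range θ) := h.dense e
  obtain ⟨u, hu, hue⟩ := mem_closure_iff_ultrafilter.1 h1
  have h2 : Set.range θ ∈ (u : Filter E) := hu
  have h3 : ((u : Filter E).comap θ).NeBot := by
    rw [comap_neBot_iff]
    intro t ht
    obtain ⟨y, hy1, g, rfl⟩ := (nonempty_of_mem (inter_mem ht h2) : (t ∩ Set.range θ).Nonempty)
    exact ⟨g, hy1⟩
  refine ⟨@Ultrafilter.of G ((u : Filter E).comap θ) h3, ?_⟩
  apply L_eq
  have h4 : Tendsto θ ((u : Filter E).comap θ) (u : Filter E) := tendsto_comap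
  exact (h4.mono_left (@Ultrafilter.of_le G _ h3)).trans hue

/-- inner and outer limits -/
lemma LL_mul_left (𝔳 : Ultrafilter Ω) (𝔬 : Ω → Ultrafilter Ω') (k : Ω → G) (x : Ω → Ω' → E) :
    LL 𝔳 𝔬 (fun v ω => θ (k v) * x v ω) = L 𝔳 (fun v => θ (k v) * L (𝔬 v) (x v)) := by
  unfold LL
  congr 1
  funext v
  exact h.L_mul_left _ _ _

/-- the limit of a product, the inner limit being constant -/
lemma L_sd_mul (𝔳 : Ultrafilter Ω) (𝔬 : Ω → Ultrafilter Ω') (k : Ω → G) (x : Ω → Ω' → E) (e : E)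
    (hx : ∀ᶠ v in (𝔳 : Filter Ω), L (𝔬 v) (x v) = e) :
    L (sd 𝔳 𝔬) (fun p : Ω × Ω' => θ (k p.1) * x p.1 p.2) = L 𝔳 (fun v => θ (k v)) * e := by
  rw [L_sd, h.LL_mul_left, ← h.L_mul_right]
  apply L_congr
  filter_upwards [hx] with v hv
  rw [hv]

/-- `θ g` is central -/
lemma central (g : G) (e : E) : θ g * e = e * θ g := by
  obtain ⟨𝔨, hk⟩ := h.exists_law e
  rw [← hk, ← h.L_mul_left, ← h.L_mul_right]
  congr 1
  funext x
  rw [← map_mul, ← map_mul, mul_comm]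

end RT

/-- the elements measuring the failure of joint continuity on `A` -/
def QQ (θ : G →* E) (A : Subgroup E) : Set E :=
  {q | ∃ 𝔬 : Ultrafilter (G × E), (∀ᶠ p in (𝔬 : Filter (G × E)), p.2 ∈ A) ∧
    L 𝔬 (fun p => θ p.1) = 1 ∧ L 𝔬 (fun p => p.2) = 1 ∧ L 𝔬 (fun p => θ p.1 * p.2) = q}

/-- the closed subgroup generated by the conjugates `b⁻¹ q b`, `b ∈ A`, `q ∈ QQ A` -/
def DD (θ : G →* E) (A : Subgroup E) : Subgroup E :=
  sInf {D : Subgroup E | IsClosed (D : Set E) ∧ ∀ b ∈ A, ∀ q ∈ QQ θ A, b⁻¹ * q * b ∈ D}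

/-- closed subgroups `A` with `QQ A ⊆ A` -/
structure CA (θ : G →* E) (A : Subgroup E) : Prop where
  closed : IsClosed (A : Set E)
  qq : ∀ q ∈ QQ θ A, q ∈ A

lemma QQ_mono {θ : G →* E} {A B : Subgroup E} (h : A ≤ B) : QQ θ A ⊆ QQ θ B := by
  rintro q ⟨𝔬, h1, h2⟩
  exact ⟨𝔬, h1.mono fun _ hp => h hp, h2⟩

lemma isClosed_DD (θ : G →* E) (A : Subgroup E) : IsClosed (DD θ A : Set E) := by
  unfold DD
  rw [Subgroup.coe_sInf]
  exact isClosed_biInter fun D hD => hD.1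

lemma mem_DD {θ : G →* E} {A : Subgroup E} {b q : E} (hb : b ∈ A) (hq : q ∈ QQ θ A) :
    b⁻¹ * q * b ∈ DD θ A := by
  unfold DD
  rw [Subgroup.mem_sInf]
  exact fun D hD => hD.2 b hb q hq

lemma DD_le {θ : G →* E} {A D : Subgroup E} (hD : IsClosed (D : Set E))
    (h : ∀ b ∈ A, ∀ q ∈ QQ θ A, b⁻¹ * q * b ∈ D) : DD θ A ≤ D :=
  sInf_le ⟨hD, h⟩

lemma DD_mono {θ : G →* E} {A B : Subgroup E} (h : A ≤ B) : DD θ A ≤ DD θ B :=
  DD_le (isClosed_DD θ B) fun _ hb _ hq => mem_DD (h hb) (QQ_mono h hq)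

lemma CA.DD_le {θ : G →* E} {A : Subgroup E} (h : CA θ A) : DD θ A ≤ A :=
  Df.DD_le h.closed fun _ hb _ hq => A.mul_mem (A.mul_mem (A.inv_mem hb) (h.qq _ hq)) hb

lemma CA.DD {θ : G →* E} {A : Subgroup E} (h : CA θ A) : CA θ (DD θ A) :=
  ⟨isClosed_DD θ A, fun q hq => by
    have := mem_DD (θ := θ) A.one_mem (QQ_mono h.DD_le hq)
    simpa using this⟩

lemma CA_top (θ : G →* E) : CA θ (⊤ : Subgroup E) :=
  ⟨by rw [Subgroup.coe_top]; exact isClosed_univ, fun _ _ => Subgroup.mem_top _⟩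

/-- the `τ`-closure -/
def tcl (θ : G →* E) (S : Set E) : Set E :=
  {a | ∃ 𝔬 : Ultrafilter (G × E), (∀ᶠ p in (𝔬 : Filter (G × E)), p.2 ∈ S) ∧
    L 𝔬 (fun p => θ p.1) = 1 ∧ L 𝔬 (fun p => θ p.1 * p.2) = a}

/-- the intersection of the `τ`-closures of the `τ`-open neighbourhoods of `1` in `A` -/
def HH (θ : G →* E) (A : Subgroup E) : Set E :=
  {a | ∀ V : Set E, V ⊆ A → (1 : E) ∈ V → tcl θ ((A : Set E) \ V) ⊆ (A : Set E) \ V → a ∈ tcl θ V}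

/-- every closed subgroup `A` with `QQ A ⊆ A` and `DD A = A` is trivial -/
def Dst (θ : G →* E) : Prop := ∀ A : Subgroup E, CA θ A → DD θ A = A → A = ⊥

/-- `π` is the quotient map of `A` onto the compact group `Γ`, with kernel `D`, and limits of
products with the second factor in `A` are multiplicative modulo `D` -/
structure Pr (A D : Subgroup E) {Γ : Type*} [Group Γ] [TopologicalSpace Γ] (π : E → Γ) :
    Prop where
  closed : IsClosed (A : Set E)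
  le : D ≤ A
  mul : ∀ a ∈ A, ∀ b ∈ A, π (a * b) = π a * π b
  cont : ContinuousOn π A
  ker : ∀ a ∈ A, (π a = 1 ↔ a ∈ D)
  surj : ∀ γ : Γ, ∃ a ∈ A, π a = γ
  J : ∀ 𝔬 : Ultrafilter (E × E), (∀ᶠ p in (𝔬 : Filter (E × E)), p.2 ∈ A) →
    (L 𝔬 (fun p => p.1) * L 𝔬 (fun p => p.2))⁻¹ * L 𝔬 (fun p => p.1 * p.2) ∈ D

namespace Pr

variable {A D : Subgroup E} {Γ : Type*} [Group Γ] [TopologicalSpace Γ] {π : E → Γ}
  (h : Pr A D π) {Ω : Type*}

include h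

lemma one : π 1 = 1 := (h.ker 1 A.one_mem).2 D.one_mem

lemma inv {a : E} (ha : a ∈ A) : π a⁻¹ = (π a)⁻¹ := by
  rw [eq_inv_iff_mul_eq_one, ← h.mul _ (A.inv_mem ha) _ ha, inv_mul_cancel, h.one]

lemma eq_iff {a b : E} (ha : a ∈ A) (hb : b ∈ A) : π a = π b ↔ a⁻¹ * b ∈ D := by
  rw [← h.ker _ (A.mul_mem (A.inv_mem ha) hb), h.mul _ (A.inv_mem ha) _ hb, h.inv ha,
    inv_mul_eq_one]

lemma L_mem {𝔬 : Ultrafilter Ω} {x : Ω → E} (hx : ∀ᶠ ω in (𝔬 : Filter Ω), x ω ∈ A) :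
    L 𝔬 x ∈ A :=
  Cge.L_mem h.closed hx

lemma J' {𝔬 : Ultrafilter Ω} {x z : Ω → E} (hz : ∀ᶠ ω in (𝔬 : Filter Ω), z ω ∈ A) :
    (L 𝔬 x * L 𝔬 z)⁻¹ * L 𝔬 (fun ω => x ω * z ω) ∈ D := by
  have := h.J (𝔬.map fun ω => (x ω, z ω)) hz
  simpa only [L_map] using this

variable [CompactSpace Γ] [T2Space Γ]

lemma L_pi {𝔬 : Ultrafilter Ω} {x : Ω → E} (hx : ∀ᶠ ω in (𝔬 : Filter Ω), x ω ∈ A) :
    L 𝔬 (fun ω => π (x ω)) = π (L 𝔬 x) := by
  apply L_eq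
  have h1 : Tendsto x (𝔬 : Filter Ω) (𝓝[A] (L 𝔬 x)) :=
    tendsto_nhdsWithin_iff.2 ⟨tendsto_L 𝔬 x, hx⟩
  exact (h.cont _ (h.L_mem hx)).tendsto.comp h1

/-- limit of a product whose second factor is in `A` -/
lemma L_mul {𝔬 : Ultrafilter Ω} {x z : Ω → E} (hx : L 𝔬 x ∈ A)
    (hz : ∀ᶠ ω in (𝔬 : Filter Ω), z ω ∈ A) :
    L 𝔬 (fun ω => x ω * z ω) ∈ A ∧
      π (L 𝔬 (fun ω => x ω * z ω)) = π (L 𝔬 x) * L 𝔬 (fun ω => π (z ω)) := by
  have h1 := h.J' (x := x) hz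
  have h2 : L 𝔬 x * L 𝔬 z ∈ A := A.mul_mem hx (h.L_mem hz)
  have h3 : L 𝔬 (fun ω => x ω * z ω) ∈ A := by
    have := A.mul_mem h2 (h.le h1)
    rwa [mul_inv_cancel_left] at this
  refine ⟨h3, ?_⟩
  rw [h.L_pi hz, ← h.mul _ hx _ (h.L_mem hz)]
  exact ((h.eq_iff h2 h3).2 h1).symm

end Pr

end RTG

/-! ### Part B: machines -/

section Machines

/-- a machine: states `S`, moves `T`, increments `r` in the group `G` -/
structure Mach (S T G : Type) where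
  act : S → T → S
  cmp : T → T → T
  one : T
  r : S → T → G
  S₀ : Set S
  W : Set (Ultrafilter T)

/-- the axioms of a machine -/
structure MOK {S T G : Type} [CommGroup G] (K : Mach S T G) : Prop where
  closed : IsClosed K.W
  one_mem : (pure K.one : Ultrafilter T) ∈ K.W
  act_one : ∀ s ∈ K.S₀, K.act s K.one = s
  r_one : ∀ s ∈ K.S₀, K.r s K.one = 1
  cmp : ∀ u ∈ K.W, ∀ w : T → Ultrafilter T, (∀ᶠ t in (u : Filter T), w t ∈ K.W) →
    (sd u w).map (fun p => K.cmp p.1 p.2) ∈ K.W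
  mem : ∀ s ∈ K.S₀, ∀ u ∈ K.W, ∀ᶠ t in (u : Filter T), K.act s t ∈ K.S₀
  coc : ∀ s ∈ K.S₀, ∀ u ∈ K.W, ∀ᶠ t in (u : Filter T), ∀ w ∈ K.W, ∀ᶠ t' in (w : Filter T),
    K.act s (K.cmp t t') = K.act (K.act s t) t' ∧
      K.r s (K.cmp t t') = K.r s t * K.r (K.act s t) t'
  inj : ∀ s ∈ K.S₀, ∀ u ∈ K.W, ∀ u' ∈ K.W, u.map (K.act s) = u'.map (K.act s) → u = u'

variable {S T G : Type} [CommGroup G] {E : Type*} [Group E] [TopologicalSpace E] [CompactSpace E]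
  [T2Space E]

/-- first limit of a move -/
noncomputable def P1 (θ : G →* E) (m : Ultrafilter (T × G)) : E := L m (fun p => θ p.2)

/-- second limit of a move at the state `s` -/
noncomputable def P2 (θ : G →* E) (K : Mach S T G) (s : S) (m : Ultrafilter (T × G)) : E :=
  L m (fun p => θ (p.2 * K.r s p.1))

/-- the moves with values in `A` -/
def MM (θ : G →* E) (K : Mach S T G) (A : Subgroup E) (s : S) : Set (Ultrafilter (T × G)) :=
  {m | m.map Prod.fst ∈ K.W ∧ P1 θ m ∈ A ∧ P2 θ K s m ∈ A}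

/-- full landing from `B` to `A` at the state `s` -/
def FLat (θ : G →* E) (K : Mach S T G) (B A : Subgroup E) (s : S) : Prop :=
  ∃ u ∈ K.W, ∀ e₁ ∈ B, ∀ e₂ ∈ B, ∃ m ∈ MM θ K B s, m.map Prod.fst = u ∧
    e₁⁻¹ * P1 θ m ∈ A ∧ e₂⁻¹ * P2 θ K s m ∈ A

/-- full landing from `B` to `A` -/
def FL (θ : G →* E) (K : Mach S T G) (B A : Subgroup E) : Prop := ∀ s ∈ K.S₀, FLat θ K B A s

/-- the composition of the move `m` at `s` with the selection `F` of moves -/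
noncomputable def cps (K : Mach S T G) (s : S) (m : Ultrafilter (T × G))
    (F : S → Ultrafilter (T × G)) : Ultrafilter (T × G) :=
  (sd m (fun p => F (K.act s p.1))).map (fun q => (K.cmp q.1.1 q.2.1, q.1.2 * q.2.2))

/-- a selection of moves -/
def Sel (θ : G →* E) (K : Mach S T G) (A : Subgroup E) (F : S → Ultrafilter (T × G)) : Prop :=
  ∀ s ∈ K.S₀, F s ∈ MM θ K A s

variable {Γ : Type*} [Group Γ] [TopologicalSpace Γ] [IsTopologicalGroup Γ] [CompactSpace Γ]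
  [T2Space Γ]

/-- limit of the first limits -/
noncomputable def I1 (θ : G →* E) (π : E → Γ) (v : Ultrafilter S)
    (F : S → Ultrafilter (T × G)) : Γ := L v (fun s => π (P1 θ (F s)))

/-- limit of the second limits -/
noncomputable def I2 (θ : G →* E) (K : Mach S T G) (π : E → Γ) (v : Ultrafilter S)
    (F : S → Ultrafilter (T × G)) : Γ := L v (fun s => π (P2 θ K s (F s)))

/-- the comparison property (K) of `N` at `v` -/
def Cmp (θ : G →* E) (K : Mach S T G) (A : Subgroup E) (π : E → Γ) (v : Ultrafilter S)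
    (N : Subgroup Γ) : Prop :=
  ∀ F F' : S → Ultrafilter (T × G), Sel θ K A F → Sel θ K A F' →
    (∀ s ∈ K.S₀, (F s).map Prod.fst = (F' s).map Prod.fst) →
    (I1 θ π v F)⁻¹ * I2 θ K π v F * ((I1 θ π v F')⁻¹ * I2 θ K π v F')⁻¹ ∈ N

/-- the set of states reachable from `s₀` -/
def Rch (θ : G →* E) (K : Mach S T G) (A : Subgroup E) (π : E → Γ) (s₀ : S) :
    Set (Ultrafilter S × (Γ × Γ)) :=
  {x | ∃ m ∈ MM θ K A s₀, x = ((m.map Prod.fst).map (K.act s₀), (π (P1 θ m), π (P2 θ K s₀ m)))}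

/-- the move on states given by a selection -/
noncomputable def Mv (θ : G →* E) (K : Mach S T G) (π : E → Γ) (F : S → Ultrafilter (T × G))
    (x : Ultrafilter S × (Γ × Γ)) : Ultrafilter S × (Γ × Γ) :=
  ((sd x.1 (fun s => (F s).map Prod.fst)).map (fun p => K.act p.1 p.2),
    (x.2.1 * I1 θ π x.1 F, x.2.2 * I2 θ K π x.1 F))

end Machines

/-- the machine of the twist: multiplication of `κ` -/
def MK (G : Type) [CommGroup G] : Mach G G G where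
  act s t := s * t
  cmp s t := s * t
  one := 1
  r _ t := t
  S₀ := Set.univ
  W := Set.univ

/-- absorption of arbitrary functions `y` modulo `A` -/
def AF {G : Type} [CommGroup G] {E : Type*} [Group E] [TopologicalSpace E] [CompactSpace E]
    [T2Space E] (θ : G →* E) (A : Subgroup E) : Prop :=
  ∃ k : Ultrafilter G, ∀ y : G → E, (∀ κ, y κ ∈ DD θ ⊤) →
    ∃ 𝔬 : Ultrafilter (G × G), 𝔬.map Prod.fst = k ∧
      L 𝔬 (fun p => θ p.2) ∈ A ∧ L 𝔬 (fun p => θ (p.2 * p.1) * y p.1) ∈ A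

/-! ### Part C: the rational machine -/

/-- nonzero rationals as units, `0` goes to `1` -/
noncomputable def un (q : ℚ) : ℚˣ := if h : q = 0 then 1 else Units.mk0 q h

lemma un_of_ne {q : ℚ} (h : q ≠ 0) : un q = Units.mk0 q h := by
  unfold un
  rw [dif_neg h]

lemma un_val {q : ℚ} (h : q ≠ 0) : ((un q : ℚˣ) : ℚ) = q := by rw [un_of_ne h]; rfl

lemma un_coe (g : ℚˣ) : un (g : ℚ) = g := by
  apply Units.ext
  rw [un_val g.ne_zero]

lemma un_one : un 1 = 1 := by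
  apply Units.ext
  rw [un_val one_ne_zero]
  rfl

lemma un_mul {a b : ℚ} (ha : a ≠ 0) (hb : b ≠ 0) : un (a * b) = un a * un b := by
  apply Units.ext
  rw [un_val (mul_ne_zero ha hb), Units.val_mul, un_val ha, un_val hb]

lemma un_inv {a : ℚ} (ha : a ≠ 0) : un a⁻¹ = (un a)⁻¹ := by
  apply Units.ext
  rw [un_val (inv_ne_zero ha), Units.val_inv_eq_inv_val, un_val ha]

lemma un_div {a b : ℚ} (ha : a ≠ 0) (hb : b ≠ 0) : un (a / b) = un a * (un b)⁻¹ := by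
  rw [div_eq_mul_inv, un_mul ha (inv_ne_zero hb), un_inv hb]

section Rational

variable {E : Type*} [Group E] [TopologicalSpace E] [CompactSpace E] [T2Space E]

/-- the laws `𝓔₁` -/
def E1 (θ : ℚˣ →* E) (𝔲 : Ultrafilter ℚ) : Prop :=
  ∃ 𝔮 : Ultrafilter (ℚ × ℚˣ), 𝔮.map Prod.fst = 𝔲 ∧
    ∀ x : ℚ, (∀ᶠ p in (𝔮 : Filter (ℚ × ℚˣ)), 1 + x * p.1 ≠ 0) ∧
      L 𝔮 (fun p => θ (p.2 * un (1 + x * p.1))) = 1

/-- the twisted laws `𝓔_κ` -/
def EK (θ : ℚˣ →* E) (κ : ℚˣ) (𝔲 : Ultrafilter ℚ) : Prop :=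
  ∃ 𝔮 : Ultrafilter (ℚ × ℚˣ), 𝔮.map Prod.fst = 𝔲 ∧
    (∀ x : ℚ, (∀ᶠ p in (𝔮 : Filter (ℚ × ℚˣ)), 1 + x * p.1 ≠ 0) ∧
      L 𝔮 (fun p => θ (p.2 * un (1 + x * p.1))) = 1) ∧
    (∀ᶠ p in (𝔮 : Filter (ℚ × ℚˣ)), p.1 ≠ 0) ∧
    L 𝔮 (fun p => θ (p.2 * un (2 * p.1 / (κ : ℚ)))) = 1

lemma EK.e1 {θ : ℚˣ →* E} {κ : ℚˣ} {𝔲 : Ultrafilter ℚ} (h : EK θ κ 𝔲) : E1 θ 𝔲 := by
  obtain ⟨𝔮, h1, h2, -⟩ := h
  exact ⟨𝔮, h1, h2⟩

lemma E1.ne {θ : ℚˣ →* E} {𝔲 : Ultrafilter ℚ} (h : E1 θ 𝔲) (x : ℚ) :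
    ∀ᶠ W in (𝔲 : Filter ℚ), 1 + x * W ≠ 0 := by
  obtain ⟨𝔮, rfl, h2⟩ := h
  exact (h2 x).1

lemma EK.ne_zero {θ : ℚˣ →* E} {κ : ℚˣ} {𝔲 : Ultrafilter ℚ} (h : EK θ κ 𝔲) :
    ∀ᶠ W in (𝔲 : Filter ℚ), W ≠ 0 := by
  obtain ⟨𝔮, rfl, -, h3, -⟩ := h
  exact h3

/-- rigid subgroups -/
structure Rig (θ : ℚˣ →* E) (A : Subgroup E) : Prop where
  closed : IsClosed (A : Set E)
  qq : ∀ q ∈ QQ θ A, q ∈ A
  lin : ∀ 𝔮 : Ultrafilter (ℚ × ℚˣ), E1 θ (𝔮.map Prod.fst) → L 𝔮 (fun p => θ p.2) ∈ A →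
    ∀ x : ℚ, L 𝔮 (fun p => θ (p.2 * un (1 + x * p.1))) ∈ A
  nrm : ∀ 𝔮 𝔮' : Ultrafilter (ℚ × ℚˣ), 𝔮.map Prod.fst = 𝔮'.map Prod.fst →
    E1 θ (𝔮.map Prod.fst) → L 𝔮 (fun p => θ p.2) ∈ A → L 𝔮' (fun p => θ p.2) ∈ A →
    L 𝔮 (fun p => θ (p.2 * un (1 + p.1 ^ 2))) ∈ A →
    L 𝔮' (fun p => θ (p.2 * un (1 + p.1 ^ 2))) ∈ A

/-- the smallest rigid subgroup -/
def A0 (θ : ℚˣ →* E) : Subgroup E := sInf {A : Subgroup E | Rig θ A}

/-- the limit of the norms -/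
noncomputable def nu (θ : ℚˣ →* E) (𝔲 : Ultrafilter ℚ) : E := L 𝔲 (fun W => θ (un (1 + W ^ 2)))

/-- the laws of the moves -/
def WW (θ : ℚˣ →* E) : Set (Ultrafilter ℚ) := {𝔲 | E1 θ 𝔲 ∧ nu θ 𝔲 ∈ A0 θ}

/-- the machine of rotations -/
noncomputable def MQ (θ : ℚˣ →* E) : Mach ℚ ℚ ℚˣ where
  act V W := op V W
  cmp V W := op V W
  one := 0
  r V W := un (aa (cc V) W)
  S₀ := {V | V ≠ 0 ∧ V ≠ 1 ∧ V ≠ -1}
  W := WW θ

/-- multiplication by `r` preserves limits modulo `A` -/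
def Pos (θ : ℚˣ →* E) (A : Subgroup E) {Ω : Type} (𝔬 : Ultrafilter Ω) (r : Ω → ℚˣ) : Prop :=
  ∀ 𝔮 : Ultrafilter (Ω × ℚˣ), 𝔮.map Prod.fst = 𝔬 →
    (L 𝔮 (fun p => θ p.2))⁻¹ * L 𝔮 (fun p => θ (p.2 * r p.1)) ∈ A

variable {Γ : Type*} [Group Γ] [TopologicalSpace Γ] [IsTopologicalGroup Γ] [CompactSpace Γ]
  [T2Space Γ]

/-- the family `r` is independent of all elements with limits in `A`, modulo `N` -/
def Ind (θ : ℚˣ →* E) (A : Subgroup E) (π : E → Γ) (N : Subgroup Γ) (v : Ultrafilter ℚ)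
    {Ω : Type} (𝔬 : ℚ → Ultrafilter Ω) (r : ℚ → Ω → ℚˣ) : Prop :=
  (∀ᶠ V in (v : Filter ℚ), Pos θ A (𝔬 V) (r V)) ∧
  ∀ 𝔮 : ℚ → Ultrafilter (Ω × ℚˣ),
    (∀ᶠ V in (v : Filter ℚ), (𝔮 V).map Prod.fst = 𝔬 V ∧ L (𝔮 V) (fun p => θ p.2) ∈ A) →
    (L v (fun V => π (L (𝔮 V) (fun p => θ p.2))))⁻¹ *
      L v (fun V => π (L (𝔮 V) (fun p => θ (p.2 * r V p.1)))) *
      (L v (fun V => π (L (𝔬 V) (fun ω => θ (r V ω)))))⁻¹ ∈ N

end Rational

end Pool.Agent.Work.MP_0f91f8_co.Df
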