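import Pool.Agent.Work.MP_0f91f8_co.Df.Iso
import Pool.Agent.Work.MP_0f91f8_co.Df.Brauer

/-!
The statement of the core and the final theorem.
-/

set_option linter.unusedSectionVars false

open Filter Topology

namespace Pool.Agent.Work.MP_0f91f8_co.Df

universe u

/-- The core: everything about the abstract group `E`. -/
def CORE : Prop := ∀ (E : Type u) [Group E] [TopologicalSpace E] [CompactSpace E] [T2Space E]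
  (θ : ℚ → E), Ell θ → ∀ (n : ℕ) (C : ℕ → Subgroup E), C 0 = ⊤ → C n = ⊥ →
  (∀ i, IsClosed (C i : Set E)) → (∀ i, (C i).Normal) → (∀ i, QA θ (C i : Set E) ⊆ C (i + 1)) →
  ∀ U ∈ 𝓝 (1 : E), ∃ x y z : ℚ, x ≠ 0 ∧ y ≠ 0 ∧ z ≠ 0 ∧ x ^ 2 + y ^ 2 = z ^ 2 ∧
    θ x ∈ U ∧ θ y ∈ U ∧ θ z ∈ U

/-- the final theorem -/
theorem final (hcore : CORE.{u}) {X : Type u} [TopologicalSpace X] [CompactSpace X] [T2Space X]
    (T : ℕ → X → X) (hTc : ∀ k : ℕ, 0 < k → Continuous (T k))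
    (hTm : ∀ k m : ℕ, 0 < k → 0 < m → ∀ x, T (k * m) x = T k (T m x))
    (n : ℕ) (R : ℕ → Setoid X) (hR0 : R 0 = ⊤) (hRn : R n = ⊥)
    (hRc : ∀ i, IsClosed {p : X × X | R i p.1 p.2})
    (hRT : ∀ i k, 0 < k → ∀ x y, R i x y → R i (T k x) (T k y))
    (hsep : ∀ i x y, R i x y → ¬ R (i + 1) x y → ∃ F : X × X → ℝ,
      ContinuousOn F {p | R i p.1 p.2} ∧
      (∀ k, 0 < k → ∀ x y, R i x y → F (T k x, T k y) = F (x, y)) ∧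
      (∀ x, F (x, x) = 0) ∧ F (x, y) ≠ 0)
    (x₀ : X) (n₀ : ℕ) (hn₀ : 0 < n₀) (U : Set X) (hU : U ∈ 𝓝 (T n₀ x₀)) (A : Set ℕ)
    (hA : ∀ S : Finset ℕ, (∀ s ∈ S, 0 < s) → ∃ k : ℕ, 0 < k ∧ ∀ s ∈ S, s * k ∈ A) :
    ∃ x y z : ℕ, 0 < x ∧ 0 < y ∧ 0 < z ∧ x ^ 2 + y ^ 2 = z ^ 2 ∧ x ∈ A ∧ y ∈ A ∧ z ∈ A ∧
      T x x₀ ∈ U ∧ T y x₀ ∈ U ∧ T z x₀ ∈ U := by
  classical
  have h : Iso T n R := by
    refine ⟨hTc, hTm, hRc, hRT, ?_, ?_, hsep⟩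
    · intro x y
      rw [hR0]
      trivial
    · intro x y hxy
      rw [hRn] at hxy
      exact hxy
  have hA' : Cge.Thick {m : ℕ | n₀ * m ∈ A} := by
    intro S hS
    obtain ⟨k, hk, hkS⟩ := hA (S.image (fun x => n₀ * x)) (by
      intro y hy
      obtain ⟨x, hx, rfl⟩ := Finset.mem_image.1 hy
      exact Nat.mul_pos hn₀ (hS x hx))
    refine ⟨k, hk, fun x hx => ?_⟩
    have := hkS (n₀ * x) (Finset.mem_image_of_mem _ hx)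
    show n₀ * (x * k) ∈ A
    rw [← mul_assoc]
    exact this
  obtain ⟨x, y, z, hx, hy, hz, hxyz, hxA, hyA, hzA, hxU, hyU, hzU⟩ := transfer h.dyn
    (hcore (EG h.dyn) (th h.dyn) (th_ell h.dyn) n h.C h.C_zero h.C_last h.C_closed h.C_normal
      h.C_QA) (T n₀ x₀) hU hA'
  have key : ∀ m : ℕ, 0 < m → T m (T n₀ x₀) ∈ U → T (n₀ * m) x₀ ∈ U := by
    intro m hm hmU
    rwa [mul_comm, hTm m n₀ hm hn₀]
  refine ⟨n₀ * x, n₀ * y, n₀ * z, Nat.mul_pos hn₀ hx, Nat.mul_pos hn₀ hy, Nat.mul_pos hn₀ hz,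
    ?_, hxA, hyA, hzA, key x hx hxU, key y hy hyU, key z hz hzU⟩
  calc (n₀ * x) ^ 2 + (n₀ * y) ^ 2 = n₀ ^ 2 * (x ^ 2 + y ^ 2) := by ring
    _ = n₀ ^ 2 * z ^ 2 := by rw [hxyz]
    _ = (n₀ * z) ^ 2 := by ring

end Pool.Agent.Work.MP_0f91f8_co.Df
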