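import Pool.Agent.Work.MP_0f91f8_co.Df.Rpl

/-!
Furstenberg: in a distal system on a compact metric space a closed group `C` with `DD C = C` is
trivial.
-/

set_option linter.unusedSectionVars false

open Filter Topology

namespace Pool.Agent.Work.MP_0f91f8_co.Df

open Cge

universe u

variable {X : Type u} [MetricSpace X] [CompactSpace X] {T : ℕ → X → X}

/-- elements of the enveloping group are approximated by the maps `T k` -/
lemma exists_T_dist {f : X → X} (hf : f ∈ ES T) {x y : X} {ε : ℝ} (hε : dist (f x) (f y) < ε) :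
    ∃ k : ℕ, 0 < k ∧ dist (T k x) (T k y) < ε := by
  have hcont : Continuous (fun g : X → X => dist (g x) (g y)) :=
    (continuous_apply x).dist (continuous_apply y)
  have hopen : IsOpen {g : X → X | dist (g x) (g y) < ε} := isOpen_lt hcont continuous_const
  obtain ⟨g, hg, k, hk, rfl⟩ := mem_closure_iff.1 hf _ hopen hε
  exact ⟨k, hk, hg⟩

/-- distality -/
lemma Dyn.eq_of_dist (h : Dyn T) {x y : X}
    (H : ∀ n : ℕ, ∃ k : ℕ, 0 < k ∧ dist (T k x) (T k y) < 1 / ((n : ℝ) + 1)) : x = y := by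
  choose k hk hd using H
  obtain ⟨𝔫, h𝔫⟩ : ∃ 𝔫 : Ultrafilter ℕ, (𝔫 : Filter ℕ) ≤ atTop := ⟨Ultrafilter.of _,
    Ultrafilter.of_le _⟩
  set f : X → X := L 𝔫 (fun n => T (k n)) with hf
  have hfm : f ∈ ES T := L_mem ES_closed (Eventually.of_forall fun n => T_mem (hk n))
  have hft : Tendsto (fun n => T (k n)) (𝔫 : Filter ℕ) (𝓝 f) := tendsto_L _ _
  apply h.inj f hfm
  have h1 : Tendsto (fun n => dist (T (k n) x) (T (k n) y)) (𝔫 : Filter ℕ)
      (𝓝 (dist (f x) (f y))) :=
    ((tendsto_pi_nhds.1 hft) x).dist ((tendsto_pi_nhds.1 hft) y)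
  have h2 : Tendsto (fun n : ℕ => 1 / ((n : ℝ) + 1)) (𝔫 : Filter ℕ) (𝓝 0) :=
    tendsto_one_div_add_atTop_nhds_zero_nat.mono_left h𝔫
  have h3 : dist (f x) (f y) ≤ 0 :=
    le_of_tendsto_of_tendsto h1 h2 (Eventually.of_forall fun n => (hd n).le)
  exact dist_le_zero.1 h3

/-- Furstenberg's theorem -/
theorem Dyn.fs (h : Dyn T) {C : Subgroup (EG h)} (hC : Adm (th h) C)
    (hDD : DD (th h) C = C) : C = ⊥ := by
  have hE := th_ell h
  have hev : ∀ x : X, Continuous (fun e : EG h => e.1 x) := fun x =>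
    (continuous_apply x).comp continuous_subtype_val
  -- the relation
  have main : ∀ (x : X) (c : EG h), c ∈ C → c.1 x = x := by
    intro x c₀ hc₀
    set R : Set (X × X) := {p | ∃ e c : EG h, c ∈ C ∧ p = (e.1 x, (e * c).1 x)} with hR
    have hRc : IsClosed R := by
      rw [isClosed_iff_ultrafilter]
      intro p 𝔣 hf hR'
      have hch : ∀ q : X × X, ∃ ec : EG h × EG h, q ∈ R →
          ec.2 ∈ C ∧ q = (ec.1.1 x, (ec.1 * ec.2).1 x) := by
        intro q
        by_cases hq : q ∈ R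
        · obtain ⟨e, c, hc, he⟩ := hq
          exact ⟨(e, c), fun _ => ⟨hc, he⟩⟩
        · exact ⟨(1, 1), fun h => absurd h hq⟩
      choose F hF using hch
      have hev𝔣 : ∀ᶠ q in (𝔣 : Filter (X × X)), q ∈ R := hR'
      have hcC : ∀ᶠ q in (𝔣 : Filter (X × X)), (F q).2 ∈ C := hev𝔣.mono fun q hq => (hF q hq).1
      obtain ⟨q, hq, e⟩ := hE.J hC.closed 𝔣 (fun q => (F q).1) (fun q => (F q).2) hcC
      refine ⟨L 𝔣 (fun q => (F q).1), q * L 𝔣 (fun q => (F q).2),
        C.mul_mem (hC.qa hq) (L_mem hC.closed hcC), ?_⟩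
      rw [← mul_assoc, ← e]
      have h1 : Tendsto (fun q : X × X => ((F q).1.1 x, ((F q).1 * (F q).2).1 x))
          (𝔣 : Filter (X × X)) (𝓝 ((L 𝔣 (fun q => (F q).1)).1 x,
            (L 𝔣 (fun q => (F q).1 * (F q).2)).1 x)) :=
        (((hev x).tendsto _).comp (tendsto_L 𝔣 (fun q => (F q).1))).prodMk_nhds
          (((hev x).tendsto _).comp (tendsto_L 𝔣 (fun q => (F q).1 * (F q).2)))
      have h2 : Tendsto (fun q : X × X => q) (𝔣 : Filter (X × X)) (𝓝 p) := hf
      refine tendsto_nhds_unique h2 (h1.congr' ?_)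
      filter_upwards [hev𝔣] with q hq
      exact (hF q hq).2.symm
    -- open dense sets
    let G : ℕ → Set (X × X) := fun n =>
      {p | ∃ k : ℕ, 0 < k ∧ dist (T k p.1) (T k p.2) < 1 / ((n : ℝ) + 1)}
    have hGo : ∀ n, IsOpen (G n) := by
      intro n
      have : G n = ⋃ k : {k : ℕ // 0 < k}, {p : X × X | dist (T k p.1) (T k p.2) <
          1 / ((n : ℝ) + 1)} := by
        ext p
        simp only [G, Set.mem_ofPred_eq, Set.mem_iUnion, Subtype.exists, exists_prop]
      rw [this]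
      refine isOpen_iUnion fun k => isOpen_lt ?_ continuous_const
      exact ((h.cont k.1 k.2).comp continuous_fst).dist ((h.cont k.1 k.2).comp continuous_snd)
    have hdense : ∀ n, ∀ p ∈ R, ∀ O : Set (X × X), IsOpen O → p ∈ O →
        ∃ q ∈ R, q ∈ O ∧ q ∈ G n := by
      rintro n _ ⟨e, c, hc, rfl⟩ O hO hp
      obtain ⟨𝔨, hk0, hk⟩ := hE.exists_law e
      obtain ⟨𝔬, h0, h1, h2, h3⟩ := hC.rpl hE (d := c) (by rw [hDD]; exact hc)
      have e1 : ∀ (f : ℚ × EG h × EG h → EG h),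
          L (sd 𝔨 (fun _ => 𝔬)) (fun P => th h (P.1 * P.2.1) * f P.2) =
            e * L 𝔬 (fun p => th h p.1 * f p) := by
        intro f
        rw [L_sd]
        unfold LL
        have : L 𝔨 (fun k => L 𝔬 (fun p => th h (k * p.1) * f p)) =
            L 𝔨 (fun k => th h k * L 𝔬 (fun p => th h p.1 * f p)) := by
          apply L_congr
          filter_upwards [hk0] with k hk'
          rw [← hE.L_left]
          apply L_congr
          filter_upwards [h0] with p hp
          rw [hE.mul _ _ hk' hp.1, mul_assoc]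
        rw [this, hE.L_right, hk]
      have t1 : Tendsto (fun P : ℚ × ℚ × EG h × EG h => (th h (P.1 * P.2.1) * P.2.2.1).1 x)
          (sd 𝔨 (fun _ => 𝔬) : Filter (ℚ × ℚ × EG h × EG h)) (𝓝 (e.1 x)) := by
        have := ((hev x).tendsto _).comp (tendsto_L (sd 𝔨 (fun _ => 𝔬))
          (fun P : ℚ × ℚ × EG h × EG h => th h (P.1 * P.2.1) * P.2.2.1))
        rw [e1 (fun p => p.2.1), h1, mul_one] at this
        exact this
      have t2 : Tendsto (fun P : ℚ × ℚ × EG h × EG h => (th h (P.1 * P.2.1) * P.2.2.2).1 x)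
          (sd 𝔨 (fun _ => 𝔬) : Filter (ℚ × ℚ × EG h × EG h)) (𝓝 ((e * c).1 x)) := by
        have := ((hev x).tendsto _).comp (tendsto_L (sd 𝔨 (fun _ => 𝔬))
          (fun P : ℚ × ℚ × EG h × EG h => th h (P.1 * P.2.1) * P.2.2.2))
        rw [e1 (fun p => p.2.2), h2] at this
        exact this
      have t3 : ∀ᶠ P in (sd 𝔨 (fun _ => 𝔬) : Filter (ℚ × ℚ × EG h × EG h)),
          ((th h (P.1 * P.2.1) * P.2.2.1).1 x, (th h (P.1 * P.2.1) * P.2.2.2).1 x) ∈ O :=
        (t1.prodMk_nhds t2).eventually (hO.mem_nhds hp)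
      have t4 : ∀ᶠ p in (𝔬 : Filter (ℚ × EG h × EG h)),
          dist (p.2.1.1 x) (p.2.2.1 x) < 1 / ((n : ℝ) + 1) := by
        have s1 : Tendsto (fun p : ℚ × EG h × EG h => p.2.1.1 x) (𝔬 : Filter (ℚ × EG h × EG h))
            (𝓝 ((L 𝔬 (fun p => p.2.1)).1 x)) :=
          ((hev x).tendsto _).comp (tendsto_L 𝔬 (fun p : ℚ × EG h × EG h => p.2.1))
        have s2 : Tendsto (fun p : ℚ × EG h × EG h => p.2.2.1 x) (𝔬 : Filter (ℚ × EG h × EG h))
            (𝓝 ((L 𝔬 (fun p => p.2.1)).1 x)) := by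
          rw [h3]
          exact ((hev x).tendsto _).comp (tendsto_L 𝔬 (fun p : ℚ × EG h × EG h => p.2.2))
        have s3 := s1.dist s2
        rw [dist_self] at s3
        exact s3.eventually (gt_mem_nhds (by positivity))
      have t5 : ∀ᶠ P in (sd 𝔨 (fun _ => 𝔬) : Filter (ℚ × ℚ × EG h × EG h)),
          P.2.2.1 ∈ C ∧ P.2.2.2 ∈ C ∧
            dist (P.2.2.1.1 x) (P.2.2.2.1 x) < 1 / ((n : ℝ) + 1) := by
        rw [eventually_sd]
        refine Eventually.of_forall fun k => ?_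
        filter_upwards [h0, t4] with p hp hp'
        exact ⟨hp.2.1, hp.2.2, hp'⟩
      obtain ⟨⟨k, l, z₁, z₂⟩, hP1, hP2, hP3, hP4⟩ := (t3.and t5).exists
      refine ⟨_, ⟨th h (k * l) * z₁, z₁⁻¹ * z₂, C.mul_mem (C.inv_mem hP2) hP3, rfl⟩, ?_, ?_⟩
      · have : th h (k * l) * z₁ * (z₁⁻¹ * z₂) = th h (k * l) * z₂ := by group
        rw [this]
        exact hP1
      · have : th h (k * l) * z₁ * (z₁⁻¹ * z₂) = th h (k * l) * z₂ := by group
        rw [this]
        apply exists_T_dist ((th h (k * l))⁻¹ : EG h).2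
        have c1 : ((th h (k * l))⁻¹ : EG h).1 ((th h (k * l) * z₁).1 x) = z₁.1 x := by
          have : ((th h (k * l))⁻¹ * (th h (k * l) * z₁) : EG h).1 x = z₁.1 x := by
            rw [inv_mul_cancel_left]
          exact this
        have c2 : ((th h (k * l))⁻¹ : EG h).1 ((th h (k * l) * z₂).1 x) = z₂.1 x := by
          have : ((th h (k * l))⁻¹ * (th h (k * l) * z₂) : EG h).1 x = z₂.1 x := by
            rw [inv_mul_cancel_left]
          exact this
        show dist (((th h (k * l))⁻¹ : EG h).1 ((th h (k * l) * z₁).1 x))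
          (((th h (k * l))⁻¹ : EG h).1 ((th h (k * l) * z₂).1 x)) < 1 / ((n : ℝ) + 1)
        rw [c1, c2]
        exact hP4
    -- Baire
    have : CompactSpace R := isCompact_iff_compactSpace.1 hRc.isCompact
    have hd : Dense (⋂ n, (Subtype.val ⁻¹' G n : Set R)) := by
      apply dense_iInter_of_isOpen
      · intro n
        exact (hGo n).preimage continuous_subtype_val
      · intro n
        rw [dense_iff_inter_open]
        rintro U hU ⟨p, hp⟩
        obtain ⟨O, hO, rfl⟩ := isOpen_induced_iff.1 hU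
        obtain ⟨q, hqR, hqO, hqG⟩ := hdense n p.1 p.2 O hO hp
        exact ⟨⟨q, hqR⟩, hqO, hqG⟩
    have hdiag : (⋂ n, (Subtype.val ⁻¹' G n : Set R)) ⊆ {p : R | p.1.1 = p.1.2} := by
      intro p hp
      exact h.eq_of_dist fun n => Set.mem_iInter.1 hp n
    have hcl : IsClosed {p : R | p.1.1 = p.1.2} :=
      isClosed_eq (continuous_fst.comp continuous_subtype_val)
        (continuous_snd.comp continuous_subtype_val)
    have hall : ∀ p : R, p.1.1 = p.1.2 := by
      intro p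
      have h1 : p ∈ closure (⋂ n, (Subtype.val ⁻¹' G n : Set R)) := hd p
      exact closure_minimal hdiag hcl h1
    exact (hall ⟨_, ⟨1, c₀, hc₀, rfl⟩⟩).symm
  rw [eq_bot_iff]
  intro c hc
  rw [Subgroup.mem_bot]
  exact EG.ext fun x => main x c hc

end Pool.Agent.Work.MP_0f91f8_co.Df
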