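import Pool.Agent.Work.MP_0f91f8_co.Df.Stmts

/-!
Block [0f91f8 DF]: assembly.
-/

set_option linter.unusedSectionVars false
set_option linter.unusedVariables false

open Filter Topology

universe u

namespace Pool.Agent.Work.MP_0f91f8_co.Df

open Pool.Agent.Work.MP_0f91f8_co.Cge (L LL sd op aa cc bnd L_pure)

section

variable {E : Type u} [Group E] [TopologicalSpace E] [CompactSpace E] [T2Space E]

lemma CA_sInf {G : Type} [CommGroup G] {θ : G →* E} {c : Set (Subgroup E)} (hc : c.Nonempty)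
    (h : ∀ A ∈ c, CA θ A) : CA θ (sInf c) := by
  refine ⟨?_, ?_⟩
  · rw [Subgroup.coe_sInf]
    exact isClosed_biInter fun A hA => (h A hA).closed
  · intro q hq
    rw [Subgroup.mem_sInf]
    intro A hA
    exact (h A hA).qq _ (QQ_mono (sInf_le hA) hq)

/-- one level -/
lemma fl_level (hQUO : QUO E)
    (hYEX : ∀ (Γ : Type u) [Group Γ] [TopologicalSpace Γ] [IsTopologicalGroup Γ]
      [CompactSpace Γ] [T2Space Γ], YEX E Γ)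
    {S T G : Type} [CommGroup G] {θ : G →* E} (hθ : RT θ) {K : Mach S T G} (hK : MOK K)
    {A : Subgroup E} (hA : CA θ A)
    (H : ∀ (Γ : Type u) [Group Γ] [TopologicalSpace Γ] [IsTopologicalGroup Γ]
      [CompactSpace Γ] [T2Space Γ] (π : E → Γ), Pr A (DD θ A) π →
      ∀ (v : Ultrafilter S) (N : Subgroup Γ), IsClosed (N : Set Γ) →
      (∀ γ : Γ, ∀ n ∈ N, γ * n * γ⁻¹ ∈ N) → (∀ᶠ s in (v : Filter S), s ∈ K.S₀) →
      Cmp θ K A π v N → N = ⊤) : FL θ K A (DD θ A) := by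
  intro s hs
  obtain ⟨Γ, i1, i2, i3, i4, i5, π, hπ⟩ := hQUO G θ hθ A hA
  obtain ⟨v, N, h1, h2, h3, h4, h5⟩ := hYEX Γ S T G θ hθ K hK A (DD θ A) π hπ s hs
  exact h5 (H Γ π hπ v N h1 h2 h3 h4)

/-- from the first level to the trivial group -/
lemma fl_bot (hQUO : QUO E)
    (hYEX : ∀ (Γ : Type u) [Group Γ] [TopologicalSpace Γ] [IsTopologicalGroup Γ]
      [CompactSpace Γ] [T2Space Γ], YEX E Γ)
    (hSTEP2 : ∀ (Γ : Type u) [Group Γ] [TopologicalSpace Γ] [IsTopologicalGroup Γ]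
      [CompactSpace Γ] [T2Space Γ], STEP2 E Γ)
    (hFLS : FLS E) (hFLC : FLC E) (hZOR : ZOR E)
    {S T G : Type} [CommGroup G] {θ : G →* E} (hθ : RT θ) (hD : Dst θ) {K : Mach S T G}
    (hK : MOK K) {B : Subgroup E} (hB : CA θ B) (h0 : FL θ K B (DD θ B)) : FL θ K B ⊥ := by
  have := hZOR G θ hθ hD (fun A => CA θ A ∧ A ≤ DD θ B ∧ FL θ K B A) (DD θ B)
    (fun A h => h.1) ⟨hB.DD, le_rfl, h0⟩ ?_ ?_
  · exact this.2.2
  · rintro A hAB ⟨h1, h2, h3⟩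
    have h4 : FL θ K A (DD θ A) := by
      refine fl_level hQUO hYEX hθ hK h1 ?_
      intro Γ _ _ _ _ _ π hπ v N hN1 hN2 hN3 hN4
      exact hSTEP2 Γ S T G θ hθ K hK B A (DD θ A) π hB h1 h2 hπ h3 v N hN2 hN3 hN4
    exact ⟨h1.DD, h1.DD_le.trans h2,
      hFLS S T G θ hθ K hK B A hB h1 (h2.trans hB.DD_le) h3 h4⟩
  · intro c hc hch hcA
    refine ⟨CA_sInf hc fun A hA => (hcA A hA).2.1, ?_, ?_⟩
    · obtain ⟨A, hA⟩ := hc
      exact (sInf_le hA).trans (hcA A hA).1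
    · exact hFLC S T G θ hθ K hK B hB c hc hch fun A hA => ⟨(hcA A hA).2.1, (hcA A hA).2.2.2⟩

lemma AF_start {G : Type} [CommGroup G] (θ : G →* E) : AF θ (DD θ ⊤) := by
  refine ⟨pure 1, fun y hy => ⟨pure (1, 1), rfl, ?_, ?_⟩⟩
  · rw [L_pure, map_one]
    exact Subgroup.one_mem _
  · rw [L_pure, mul_one, map_one, one_mul]
    exact hy 1

lemma af_bot (hAFS : AFS E) (hAFC : AFC E) (hZOR : ZOR E) {G : Type} [CommGroup G]
    {θ : G →* E} (hθ : RT θ) (hD : Dst θ) (h : FL θ (MK G) (DD θ ⊤) ⊥) : AF θ ⊥ := by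
  have := hZOR G θ hθ hD (fun A => CA θ A ∧ A ≤ DD θ ⊤ ∧ AF θ A) (DD θ ⊤)
    (fun A h => h.1) ⟨(CA_top θ).DD, le_rfl, AF_start θ⟩ ?_ ?_
  · exact this.2.2
  · rintro A hAB ⟨h1, h2, h3⟩
    exact ⟨h1.DD, h1.DD_le.trans h2, hAFS G θ hθ h A h1 h2 h3⟩
  · intro c hc hch hcA
    refine ⟨CA_sInf hc fun A hA => (hcA A hA).2.1, ?_, ?_⟩
    · obtain ⟨A, hA⟩ := hc
      exact (sInf_le hA).trans (hcA A hA).1
    · exact hAFC G θ hθ c hc hch fun A hA => ⟨(hcA A hA).2.1.closed, (hcA A hA).2.2.2⟩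

/-- the theorem on the rationals -/
theorem rat_main (hQUO : QUO E)
    (hYEX : ∀ (Γ : Type u) [Group Γ] [TopologicalSpace Γ] [IsTopologicalGroup Γ]
      [CompactSpace Γ] [T2Space Γ], YEX E Γ)
    (hSTEP2 : ∀ (Γ : Type u) [Group Γ] [TopologicalSpace Γ] [IsTopologicalGroup Γ]
      [CompactSpace Γ] [T2Space Γ], STEP2 E Γ)
    (hSTEPK : ∀ (Γ : Type u) [Group Γ] [TopologicalSpace Γ] [IsTopologicalGroup Γ]
      [CompactSpace Γ] [T2Space Γ], STEPK E Γ)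
    (hSTEP1 : ∀ (Γ : Type u) [Group Γ] [TopologicalSpace Γ] [IsTopologicalGroup Γ]
      [CompactSpace Γ] [T2Space Γ], STEP1 E Γ)
    (hFLS : FLS E) (hFLC : FLC E) (hZOR : ZOR E) (hMKOK : MKOK) (hAFS : AFS E) (hAFC : AFC E)
    (hRIG : RIG E) (hMQOK : MQOK E) (hFIN : FIN E) {θ : ℚˣ →* E} (hθ : RT θ) (hD : Dst θ)
    {O : Set E} (hO : O ∈ 𝓝 (1 : E)) :
    ∃ X Y Z : ℚˣ, (X : ℚ) ^ 2 + (Y : ℚ) ^ 2 = (Z : ℚ) ^ 2 ∧ θ X ∈ O ∧ θ Y ∈ O ∧ θ Z ∈ O := by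
  have hC1 : CA θ (DD θ ⊤) := (CA_top θ).DD
  have hA0 : CA θ (A0 θ) := ⟨(hRIG θ hθ).1.closed, (hRIG θ hθ).1.qq⟩
  have hQ := hMQOK θ hθ
  have hK := hMKOK ℚˣ
  have h1 : FL θ (MQ θ) (A0 θ) ⊥ := by
    refine fl_bot hQUO hYEX hSTEP2 hFLS hFLC hZOR hθ hD hQ hA0 ?_
    refine fl_level hQUO hYEX hθ hQ hA0 ?_
    intro Γ _ _ _ _ _ π hπ v N hN1 hN2 hN3 hN4
    exact hSTEP1 Γ θ hθ π hπ N hN1 hN2 v hN3 hN4
  have h2 : FL θ (MK ℚˣ) (DD θ ⊤) ⊥ := by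
    refine fl_bot hQUO hYEX hSTEP2 hFLS hFLC hZOR hθ hD hK hC1 ?_
    refine fl_level hQUO hYEX hθ hK hC1 ?_
    intro Γ _ _ _ _ _ π hπ v N hN1 hN2 hN3 hN4
    exact hSTEPK Γ ℚˣ θ hθ _ π hπ v N hN1 hN2 hN4
  exact hFIN θ hθ h1 (af_bot hAFS hAFC hZOR hθ hD h2) O hO

end

end Pool.Agent.Work.MP_0f91f8_co.Df
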