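import Pool.Agent.Work.MP_0f91f8_co.Df.Dyn
import Pool.Agent.Work.MP_0f91f8_co.Cge.I_PEX

/-!
Towers of isometric extensions: the enveloping semigroup is a group, and it has a finite chain of
closed normal subgroups with the required property.  Transfer of triples.
-/

set_option linter.unusedSectionVars false

open Filter Topology

namespace Pool.Agent.Work.MP_0f91f8_co.Df

universe u

variable {X : Type u} [TopologicalSpace X] [CompactSpace X] [T2Space X] {T : ℕ → X → X}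

/-- a finite tower of isometric extensions -/
structure Iso (T : ℕ → X → X) (n : ℕ) (R : ℕ → Setoid X) : Prop where
  cont : ∀ k : ℕ, 0 < k → Continuous (T k)
  mul : ∀ k m : ℕ, 0 < k → 0 < m → ∀ x, T (k * m) x = T k (T m x)
  closed : ∀ i, IsClosed {p : X × X | R i p.1 p.2}
  inv : ∀ i k, 0 < k → ∀ x y, R i x y → R i (T k x) (T k y)
  zero : ∀ x y, R 0 x y
  last : ∀ x y, R n x y → x = y
  sep : ∀ i x y, R i x y → ¬ R (i + 1) x y → ∃ F : X × X → ℝ,
    ContinuousOn F {p | R i p.1 p.2} ∧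
    (∀ k, 0 < k → ∀ x y, R i x y → F (T k x, T k y) = F (x, y)) ∧
    (∀ x, F (x, x) = 0) ∧ F (x, y) ≠ 0

variable {n : ℕ} {R : ℕ → Setoid X}

/-- elements of the enveloping semigroup are limits -/
lemma exists_lim {f : X → X} (hf : f ∈ ES T) : ∃ 𝔣 : Ultrafilter ℕ,
    (∀ᶠ k in (𝔣 : Filter ℕ), 0 < k) ∧
      ∀ y, Tendsto (fun k => T k y) (𝔣 : Filter ℕ) (𝓝 (f y)) := by
  obtain ⟨𝔣, h𝔣, h𝔣x⟩ := mem_closure_iff_ultrafilter.1 (show f ∈ closure
    {f : X → X | ∃ k : ℕ, 0 < k ∧ f = T k} from hf)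
  have h𝔣' : ∀ᶠ f in (𝔣 : Filter (X → X)), ∃ k : ℕ, 0 < k ∧ f = T k := h𝔣
  have hch : ∀ f : X → X, ∃ k : ℕ, (∃ k : ℕ, 0 < k ∧ f = T k) → 0 < k ∧ f = T k := by
    intro f
    by_cases hf : ∃ k : ℕ, 0 < k ∧ f = T k
    · exact ⟨hf.choose, fun _ => hf.choose_spec⟩
    · exact ⟨0, fun h => absurd h hf⟩
  choose ind hind using hch
  refine ⟨𝔣.map ind, ?_, ?_⟩
  · rw [Ultrafilter.coe_map, eventually_map]
    filter_upwards [h𝔣'] with f hf
    exact (hind f hf).1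
  · intro y
    rw [Ultrafilter.coe_map, tendsto_map'_iff]
    have h1 : Tendsto (fun f : X → X => f) (𝔣 : Filter (X → X)) (𝓝 f) := h𝔣x
    refine Tendsto.congr' ?_ ((tendsto_pi_nhds.1 h1) y)
    filter_upwards [h𝔣'] with f hf
    exact congrFun (hind f hf).2 y

namespace Iso

/-- elements of the enveloping semigroup preserve the relations -/
lemma inv_ES (h : Iso T n R) {f : X → X} (hf : f ∈ ES T) {i : ℕ} {x y : X} (hxy : R i x y) :
    R i (f x) (f y) := by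
  obtain ⟨𝔣, h1, h2⟩ := exists_lim hf
  have h3 : Tendsto (fun k => (T k x, T k y)) (𝔣 : Filter ℕ) (𝓝 (f x, f y)) :=
    (h2 x).prodMk_nhds (h2 y)
  exact (h.closed i).mem_of_tendsto h3 (h1.mono fun k hk => h.inv i k hk x y hxy)

/-- invariant functions are invariant under the enveloping semigroup -/
lemma inv_F (h : Iso T n R) {f : X → X} (hf : f ∈ ES T) {i : ℕ} {x y : X} (hxy : R i x y)
    {F : X × X → ℝ} (hF : ContinuousOn F {p | R i p.1 p.2})
    (hFT : ∀ k, 0 < k → ∀ x y, R i x y → F (T k x, T k y) = F (x, y)) :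
    F (f x, f y) = F (x, y) := by
  obtain ⟨𝔣, h1, h2⟩ := exists_lim hf
  have h3 : Tendsto (fun k => (T k x, T k y)) (𝔣 : Filter ℕ) (𝓝 (f x, f y)) :=
    (h2 x).prodMk_nhds (h2 y)
  have h4 : Tendsto (fun k => (T k x, T k y)) (𝔣 : Filter ℕ)
      (𝓝[{p | R i p.1 p.2}] (f x, f y)) :=
    tendsto_nhdsWithin_iff.2 ⟨h3, h1.mono fun k hk => h.inv i k hk x y hxy⟩
  have h5 : Tendsto (fun k => F (T k x, T k y)) (𝔣 : Filter ℕ) (𝓝 (F (f x, f y))) :=
    (hF (f x, f y) (h.inv_ES hf hxy)).tendsto.comp h4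
  have h6 : Tendsto (fun k => F (T k x, T k y)) (𝔣 : Filter ℕ) (𝓝 (F (x, y))) :=
    tendsto_const_nhds.congr' (h1.mono fun k hk => (hFT k hk x y hxy).symm)
  exact tendsto_nhds_unique h5 h6

theorem dyn (h : Iso T n R) : Dyn T := by
  refine ⟨h.cont, h.mul, ?_⟩
  intro f hf x y hxy
  apply h.last
  have : ∀ i, R i x y := by
    intro i
    induction i with
    | zero => exact h.zero x y
    | succ i ih =>
      by_contra hne
      obtain ⟨F, hF, hFT, hF0, hFxy⟩ := h.sep i x y ih hne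
      apply hFxy
      rw [← h.inv_F hf ih hF hFT, hxy]
      exact hF0 _
  exact this n

/-- the chain of subgroups -/
def C (h : Iso T n R) (i : ℕ) : Subgroup (EG h.dyn) where
  carrier := {e | ∀ y, R i (e.1 y) y}
  mul_mem' := by
    intro a b ha hb y
    exact (R i).trans' (ha (b.1 y)) (hb y)
  one_mem' := fun y => (R i).refl' y
  inv_mem' := by
    intro a ha y
    have h1 := ha ((a⁻¹ : EG h.dyn).1 y)
    have h2 : a.1 ((a⁻¹ : EG h.dyn).1 y) = y := by
      have : (a * a⁻¹ : EG h.dyn).1 y = y := by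
        rw [mul_inv_cancel]
        rfl
      exact this
    rw [h2] at h1
    exact (R i).symm' h1

lemma mem_C {h : Iso T n R} {i : ℕ} {e : EG h.dyn} : e ∈ h.C i ↔ ∀ y, R i (e.1 y) y := Iff.rfl

lemma C_zero (h : Iso T n R) : h.C 0 = ⊤ := by
  rw [eq_top_iff]
  intro e _ y
  exact h.zero _ _

lemma C_last (h : Iso T n R) : h.C n = ⊥ := by
  rw [eq_bot_iff]
  intro e he
  rw [Subgroup.mem_bot]
  apply EG.ext
  intro y
  exact h.last _ _ (he y)

lemma C_closed (h : Iso T n R) (i : ℕ) : IsClosed (h.C i : Set (EG h.dyn)) := by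
  have : (h.C i : Set (EG h.dyn)) = ⋂ y : X,
      (fun e : EG h.dyn => (e.1 y, y)) ⁻¹' {p : X × X | R i p.1 p.2} := by
    ext e
    simp only [SetLike.mem_coe, Set.mem_iInter, Set.mem_preimage]
    exact Iff.rfl
  rw [this]
  refine isClosed_iInter fun y => (h.closed i).preimage ?_
  exact ((continuous_apply y).comp continuous_subtype_val).prodMk continuous_const

lemma C_normal (h : Iso T n R) (i : ℕ) : (h.C i).Normal := by
  constructor
  intro a ha b y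
  have h1 : (b * a * b⁻¹ : EG h.dyn).1 y = b.1 (a.1 ((b⁻¹ : EG h.dyn).1 y)) := rfl
  have h2 : b.1 ((b⁻¹ : EG h.dyn).1 y) = y := by
    have : (b * b⁻¹ : EG h.dyn).1 y = y := by
      rw [mul_inv_cancel]
      rfl
    exact this
  rw [h1]
  have h3 := h.inv_ES b.2 (ha ((b⁻¹ : EG h.dyn).1 y))
  rwa [h2] at h3

theorem C_QA (h : Iso T n R) (i : ℕ) : QA (th h.dyn) (h.C i : Set (EG h.dyn)) ⊆ h.C (i + 1) := by
  rintro q ⟨𝔬, h1, h2, h3, h4⟩ y
  rw [EG.tendsto_iff] at h2 h3 h4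
  have hmem : ∀ᶠ p in (𝔬 : Filter (ℚ × EG h.dyn)),
      R i ((th h.dyn p.1 * p.2).1 y) ((th h.dyn p.1).1 y) := by
    filter_upwards [h1] with p hp
    exact h.inv_ES (th h.dyn p.1).2 (hp.2 y)
  have hlim : Tendsto (fun p : ℚ × EG h.dyn => ((th h.dyn p.1 * p.2).1 y, (th h.dyn p.1).1 y))
      (𝔬 : Filter (ℚ × EG h.dyn)) (𝓝 (q.1 y, y)) := (h4 y).prodMk_nhds (h2 y)
  have hq : R i (q.1 y) y := (h.closed i).mem_of_tendsto hlim hmem
  by_contra hne
  obtain ⟨F, hF, hFT, hF0, hFq⟩ := h.sep i _ _ hq hne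
  apply hFq
  have e1 : Tendsto (fun p : ℚ × EG h.dyn => F ((th h.dyn p.1 * p.2).1 y, (th h.dyn p.1).1 y))
      (𝔬 : Filter (ℚ × EG h.dyn)) (𝓝 (F (q.1 y, y))) :=
    (hF (q.1 y, y) hq).tendsto.comp (tendsto_nhdsWithin_iff.2 ⟨hlim, hmem⟩)
  have hlim2 : Tendsto (fun p : ℚ × EG h.dyn => (p.2.1 y, y))
      (𝔬 : Filter (ℚ × EG h.dyn)) (𝓝 (y, y)) := (h3 y).prodMk_nhds tendsto_const_nhds
  have e2 : Tendsto (fun p : ℚ × EG h.dyn => F (p.2.1 y, y))
      (𝔬 : Filter (ℚ × EG h.dyn)) (𝓝 (F (y, y))) :=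
    (hF (y, y) ((R i).refl' y)).tendsto.comp (tendsto_nhdsWithin_iff.2 ⟨hlim2,
      h1.mono fun p hp => hp.2 y⟩)
  rw [hF0] at e2
  refine tendsto_nhds_unique e1 (e2.congr' ?_)
  filter_upwards [h1] with p hp
  exact (h.inv_F (th h.dyn p.1).2 (hp.2 y) hF hFT).symm

end Iso

/-! ### Transfer -/

attribute [local instance] Ultrafilter.mul Ultrafilter.semigroup

open Cge Cge.I_PEX in
/-- an ultrafilter of dilations -/
lemma exists_dil (h : Dyn T) {A : Set ℕ} (hA : Thick A) : ∃ p : Ultrafilter ℕ, p ∈ TT A ∧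
    Tendsto (tn h) (p : Filter ℕ) (𝓝 1) := by
  obtain ⟨p, hp, hpp⟩ := exists_idempotent_in_compact_subsemigroup
    (fun r : Ultrafilter ℕ => Ultrafilter.continuous_mul_left r) (TT A) (nonempty_TT hA)
    (isClosed_TT A).isCompact (fun x hx y hy => mul_TT hx hy)
  have hpos := pos_of_TT hp
  have hleft : ∀ a : ℕ, Continuous (fun y : EG h => tn h a * y) := by
    intro a
    have : (fun y : EG h => tn h a * y) = fun y => y * tn h a :=
      funext fun y => tn_central h a y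
    rw [this]
    exact EG.continuous_mul_right _
  have h1 : L p (tn h) = L p (tn h) * L p (tn h) := by
    calc L p (tn h) = L (p * p) (tn h) := by rw [hpp]
      _ = L p (fun a => L p (fun b => tn h (a * b))) := L_umul p p (tn h)
      _ = L p (fun a => tn h a * L p (tn h)) := by
          apply L_congr
          filter_upwards [hpos] with a ha
          apply L_eq
          refine (((hleft a).tendsto _).comp (tendsto_L p (tn h))).congr' ?_
          filter_upwards [hpos] with b hb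
          exact (tn_mul h ha hb).symm
      _ = L p (tn h) * L p (tn h) :=
          L_eq (((EG.continuous_mul_right _).tendsto _).comp (tendsto_L p (tn h)))
  refine ⟨p, hp, ?_⟩
  have h2 := tendsto_L p (tn h)
  rwa [left_eq_mul.1 h1] at h2

lemma th_abs (h : Dyn T) (r : ℚ) : th h |r| = th h r := by
  rcases abs_choice r with e | e
  · rw [e]
  · rw [e]
    unfold th
    rw [Rat.neg_num, Rat.neg_den, Int.natAbs_neg]

open Cge Cge.I_PEX in
/-- transfer of triples from the enveloping group to the dynamical system -/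
theorem transfer (h : Dyn T)
    (H : ∀ U ∈ 𝓝 (1 : EG h), ∃ x y z : ℚ, x ≠ 0 ∧ y ≠ 0 ∧ z ≠ 0 ∧ x ^ 2 + y ^ 2 = z ^ 2 ∧
      th h x ∈ U ∧ th h y ∈ U ∧ th h z ∈ U)
    (x₀ : X) {U : Set X} (hU : U ∈ 𝓝 x₀) {A : Set ℕ} (hA : Thick A) :
    ∃ x y z : ℕ, 0 < x ∧ 0 < y ∧ 0 < z ∧ x ^ 2 + y ^ 2 = z ^ 2 ∧ x ∈ A ∧ y ∈ A ∧ z ∈ A ∧
      T x x₀ ∈ U ∧ T y x₀ ∈ U ∧ T z x₀ ∈ U := by
  obtain ⟨V, hVU, hVo, hV⟩ := mem_nhds_iff.1 hU
  have hcont : Continuous (fun e : EG h => e.1 x₀) :=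
    (continuous_apply x₀).comp continuous_subtype_val
  obtain ⟨X, Y, Z, hX, hY, hZ, hXYZ, hXU, hYU, hZU⟩ := H {e | e.1 x₀ ∈ V}
    ((hVo.preimage hcont).mem_nhds hV)
  obtain ⟨p, hp, hp1⟩ := exists_dil h hA
  have key : ∀ r : ℚ, r ≠ 0 → (th h r).1 x₀ ∈ V → ∀ᶠ n : ℕ in (p : Filter ℕ),
      ∃ m : ℕ, 0 < m ∧ m ∈ A ∧ (m : ℚ) = |r| * n ∧ T m x₀ ∈ U := by
    intro r hr hrV
    have h1 : Tendsto (fun n => th h |r| * tn h n) (p : Filter ℕ) (𝓝 (th h |r|)) := by
      have hleft : Continuous (fun y : EG h => th h |r| * y) := by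
        have : (fun y : EG h => th h |r| * y) = fun y => y * th h |r| :=
          funext fun y => th_central h _ y
        rw [this]
        exact EG.continuous_mul_right _
      have := (hleft.tendsto 1).comp hp1
      rw [mul_one] at this
      exact this
    have h2 : ∀ᶠ n in (p : Filter ℕ), (th h |r| * tn h n).1 x₀ ∈ V := by
      refine h1.eventually ((hVo.preimage hcont).mem_nhds ?_)
      rw [th_abs]
      exact hrV
    filter_upwards [h2, hp |r| (abs_pos.2 hr), pos_of_TT hp] with n hn hn2 hn3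
    obtain ⟨m, hm, hmA, hmn⟩ := hn2
    refine ⟨m, hm, hmA, hmn, hVU ?_⟩
    have e : th h |r| * tn h n = tn h m := by
      rw [← th_nat h hn3, ← th_nat h hm, hmn, th_mul h _ _ (abs_pos.2 hr).ne'
        (by exact_mod_cast hn3.ne')]
    rw [e, tn_val h hm] at hn
    exact hn
  obtain ⟨n, ⟨⟨x, hx, hxA, hxn, hxU⟩, ⟨y, hy, hyA, hyn, hyU⟩⟩, ⟨z, hz, hzA, hzn, hzU⟩⟩ :=
    (((key X hX hXU).and (key Y hY hYU)).and (key Z hZ hZU)).exists
  refine ⟨x, y, z, hx, hy, hz, ?_, hxA, hyA, hzA, hxU, hyU, hzU⟩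
  have : (x : ℚ) ^ 2 + (y : ℚ) ^ 2 = (z : ℚ) ^ 2 := by
    rw [hxn, hyn, hzn]
    calc (|X| * (n : ℚ)) ^ 2 + (|Y| * (n : ℚ)) ^ 2 = (|X| ^ 2 + |Y| ^ 2) * (n : ℚ) ^ 2 := by ring
      _ = (|Z| * (n : ℚ)) ^ 2 := by rw [sq_abs, sq_abs, hXYZ, ← sq_abs Z]; ring
  exact_mod_cast this

end Pool.Agent.Work.MP_0f91f8_co.Df
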