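import Pool.Agent.Work.MP_0f91f8_co.Df.FS
import Pool.Agent.Work.MP_0f91f8_co.Df.Iso

/-!
The final theorem for distal systems, from the core.
-/

set_option linter.unusedSectionVars false

open Filter Topology

namespace Pool.Agent.Work.MP_0f91f8_co.Df

open Cge

universe u

/-- The core: everything about the abstract group `E`. -/
def CORED : Prop := ∀ (E : Type u) [Group E] [TopologicalSpace E] [CompactSpace E] [T2Space E]
  (θ : ℚ → E), Ell θ →
  (∀ C : Subgroup E, C.Normal → Adm θ C → DD θ C = C → C = ⊥) →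
  ∀ U ∈ 𝓝 (1 : E), ∃ x y z : ℚ, x ≠ 0 ∧ y ≠ 0 ∧ z ≠ 0 ∧ x ^ 2 + y ^ 2 = z ^ 2 ∧
    θ x ∈ U ∧ θ y ∈ U ∧ θ z ∈ U

section

variable {X : Type u} [TopologicalSpace X] [CompactSpace X] [T2Space X] {T : ℕ → X → X}

/-- distal actions -/
lemma dyn_of_distal (hTc : ∀ k : ℕ, 0 < k → Continuous (T k))
    (hTm : ∀ k m : ℕ, 0 < k → 0 < m → ∀ x, T (k * m) x = T k (T m x))
    (hd : ∀ x y z : X, (z, z) ∈ closure {p : X × X | ∃ k : ℕ, 0 < k ∧ p = (T k x, T k y)} →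
      x = y) : Dyn T := by
  refine ⟨hTc, hTm, fun f hf x y hxy => hd x y (f x) ?_⟩
  obtain ⟨𝔣, h1, h2⟩ := exists_lim hf
  have h3 : Tendsto (fun k => (T k x, T k y)) (𝔣 : Filter ℕ) (𝓝 (f x, f x)) := by
    have := (h2 x).prodMk_nhds (h2 y)
    rwa [← hxy] at this
  exact mem_closure_of_tendsto h3 (h1.mono fun k hk => ⟨k, hk, rfl⟩)

end

/-- triples in a distal action on a compact metric space -/
lemma triples_metric (hcore : CORED.{u}) {X : Type u} [MetricSpace X] [CompactSpace X]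
    {T : ℕ → X → X} (h : Dyn T) (x₀ : X) {U : Set X} (hU : U ∈ 𝓝 x₀) {A : Set ℕ}
    (hA : Thick A) : ∃ x y z : ℕ, 0 < x ∧ 0 < y ∧ 0 < z ∧ x ^ 2 + y ^ 2 = z ^ 2 ∧
      x ∈ A ∧ y ∈ A ∧ z ∈ A ∧ T x x₀ ∈ U ∧ T y x₀ ∈ U ∧ T z x₀ ∈ U :=
  transfer h (hcore (EG h) (th h) (th_ell h) fun _ _ hC hDD => h.fs hC hDD) x₀ hU hA

section

variable {X : Type u} [TopologicalSpace X] [CompactSpace X] [T2Space X] {T : ℕ → X → X}

/-- the factor map -/
def Phi (T : ℕ → X → X) (f : X → ℝ) (x : X) : ℕ → ℝ := fun n => f (T (n + 1) x)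

/-- the shift -/
def Sh (k : ℕ) (y : ℕ → ℝ) : ℕ → ℝ := fun n => y ((n + 1) * k - 1)

lemma Sh_Phi (h : Dyn T) (f : X → ℝ) {k : ℕ} (hk : 0 < k) (x : X) :
    Sh k (Phi T f x) = Phi T f (T k x) := by
  funext n
  unfold Sh Phi
  have h1 : 0 < (n + 1) * k := Nat.mul_pos (Nat.succ_pos n) hk
  rw [← h.mul (n + 1) k (Nat.succ_pos n) hk, Nat.sub_add_cancel h1]

lemma continuous_Sh (k : ℕ) : Continuous (Sh k) :=
  continuous_pi fun _ => continuous_apply _

lemma continuous_Phi (h : Dyn T) {f : X → ℝ} (hf : Continuous f) : Continuous (Phi T f) :=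
  continuous_pi fun n => hf.comp (h.cont (n + 1) (Nat.succ_pos n))

/-- the factor -/
abbrev YY (T : ℕ → X → X) (f : X → ℝ) : Type := Set.range (Phi T f)

/-- the action on the factor -/
noncomputable def SS (T : ℕ → X → X) (f : X → ℝ) (k : ℕ) (y : YY T f) : YY T f :=
  ⟨Phi T f (T k y.2.choose), Set.mem_range_self _⟩

lemma SS_val (h : Dyn T) (f : X → ℝ) {k : ℕ} (hk : 0 < k) (y : YY T f) :
    (SS T f k y).1 = Sh k y.1 := by
  have h1 : Phi T f y.2.choose = y.1 := y.2.choose_spec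
  show Phi T f (T k y.2.choose) = Sh k y.1
  rw [← Sh_Phi h f hk, h1]

/-- the image of a point -/
def pt (T : ℕ → X → X) (f : X → ℝ) (x : X) : YY T f := ⟨Phi T f x, Set.mem_range_self x⟩

lemma SS_pt (h : Dyn T) (f : X → ℝ) {k : ℕ} (hk : 0 < k) (x : X) :
    SS T f k (pt T f x) = pt T f (T k x) := by
  apply Subtype.ext
  rw [SS_val h f hk]
  exact Sh_Phi h f hk x

lemma continuous_pt (h : Dyn T) {f : X → ℝ} (hf : Continuous f) : Continuous (pt T f) :=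
  (continuous_Phi h hf).subtype_mk _

lemma exists_pt (f : X → ℝ) (y : YY T f) : ∃ x, pt T f x = y := by
  obtain ⟨y, x, rfl⟩ := y
  exact ⟨x, rfl⟩

lemma dyn_SS (h : Dyn T) {f : X → ℝ} (hf : Continuous f) : Dyn (SS T f) := by
  have hcomp : CompactSpace (YY T f) :=
    isCompact_iff_compactSpace.1 (isCompact_range (continuous_Phi h hf))
  have key : ∀ g ∈ ES (SS T f), ∃ e : EG h, ∀ x, g (pt T f x) = pt T f (e.1 x) := by
    intro g hg
    obtain ⟨𝔣, h1, h2⟩ := exists_lim hg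
    refine ⟨L 𝔣 (tn h), fun x => ?_⟩
    have h3 : Tendsto (fun k => SS T f k (pt T f x)) (𝔣 : Filter ℕ) (𝓝 (g (pt T f x))) :=
      h2 _
    have h4 : Tendsto (fun k => (tn h k).1 x) (𝔣 : Filter ℕ) (𝓝 ((L 𝔣 (tn h)).1 x)) :=
      EG.tendsto_iff.1 (tendsto_L 𝔣 (tn h)) x
    have h5 := ((continuous_pt h hf).tendsto _).comp h4
    refine tendsto_nhds_unique h3 (h5.congr' ?_)
    filter_upwards [h1] with k hk
    simp only [Function.comp_apply]
    rw [tn_val h hk, SS_pt h f hk]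
  have key2 : ∀ e : EG h, ∃ g : YY T f → YY T f, ∀ x, g (pt T f x) = pt T f (e.1 x) := by
    intro e
    obtain ⟨𝔣, h1, h2⟩ := exists_lim e.2
    refine ⟨L 𝔣 (fun k => SS T f k), fun x => ?_⟩
    have h3 : Tendsto (fun k => SS T f k (pt T f x)) (𝔣 : Filter ℕ)
        (𝓝 (L 𝔣 (fun k => SS T f k) (pt T f x))) :=
      (tendsto_pi_nhds.1 (tendsto_L 𝔣 (fun k => SS T f k))) _
    have h5 := ((continuous_pt h hf).tendsto _).comp (h2 x)
    refine tendsto_nhds_unique h3 (h5.congr' ?_)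
    filter_upwards [h1] with k hk
    simp only [Function.comp_apply]
    rw [SS_pt h f hk]
  refine ⟨?_, ?_, ?_⟩
  · intro k hk
    refine continuous_induced_rng.2 ?_
    have : (Subtype.val ∘ SS T f k) = fun y : YY T f => Sh k y.1 :=
      funext fun y => SS_val h f hk y
    rw [this]
    exact (continuous_Sh k).comp continuous_subtype_val
  · intro k m hk hm y
    obtain ⟨x, rfl⟩ := exists_pt f y
    rw [SS_pt h f hm, SS_pt h f hk, SS_pt h f (Nat.mul_pos hk hm), h.mul k m hk hm]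
  · intro g hg y y' hyy
    obtain ⟨x, rfl⟩ := exists_pt f y
    obtain ⟨x', rfl⟩ := exists_pt f y'
    obtain ⟨e, he⟩ := key g hg
    obtain ⟨g', hg'⟩ := key2 e⁻¹
    have c : ∀ x, (e⁻¹).1 (e.1 x) = x := by
      intro x
      have : (e⁻¹ * e : EG h).1 x = x := by
        rw [inv_mul_cancel]
        rfl
      exact this
    rw [he, he] at hyy
    have h1 := congrArg g' hyy
    rw [hg', hg', c, c] at h1
    exact h1

end

/-- the final theorem -/
theorem finalD (hcore : CORED.{0}) {X : Type u} [TopologicalSpace X] [CompactSpace X]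
    [T2Space X] (T : ℕ → X → X) (hTc : ∀ k : ℕ, 0 < k → Continuous (T k))
    (hTm : ∀ k m : ℕ, 0 < k → 0 < m → ∀ x, T (k * m) x = T k (T m x))
    (hd : ∀ x y z : X, (z, z) ∈ closure {p : X × X | ∃ k : ℕ, 0 < k ∧ p = (T k x, T k y)} →
      x = y)
    (x₀ : X) (n₀ : ℕ) (hn₀ : 0 < n₀) (U : Set X) (hU : U ∈ 𝓝 (T n₀ x₀)) (A : Set ℕ)
    (hA : ∀ S : Finset ℕ, (∀ s ∈ S, 0 < s) → ∃ k : ℕ, 0 < k ∧ ∀ s ∈ S, s * k ∈ A) :
    ∃ x y z : ℕ, 0 < x ∧ 0 < y ∧ 0 < z ∧ x ^ 2 + y ^ 2 = z ^ 2 ∧ x ∈ A ∧ y ∈ A ∧ z ∈ A ∧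
      T x x₀ ∈ U ∧ T y x₀ ∈ U ∧ T z x₀ ∈ U := by
  classical
  have h : Dyn T := dyn_of_distal hTc hTm hd
  have hA' : Thick {m : ℕ | n₀ * m ∈ A} := by
    intro S hS
    obtain ⟨k, hk, hkS⟩ := hA (S.image (fun x => n₀ * x)) (by
      intro y hy
      obtain ⟨x, hx, rfl⟩ := Finset.mem_image.1 hy
      exact Nat.mul_pos hn₀ (hS x hx))
    refine ⟨k, hk, fun x hx => ?_⟩
    have := hkS (n₀ * x) (Finset.mem_image_of_mem _ hx)
    show n₀ * (x * k) ∈ A
    rw [← mul_assoc]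
    exact this
  -- a function
  obtain ⟨V, hVU, hVo, hV⟩ := mem_nhds_iff.1 hU
  obtain ⟨f, hf0, hf1, -⟩ := exists_continuous_zero_one_of_isClosed
    (isClosed_singleton (x := T n₀ x₀)) hVo.isClosed_compl
    (Set.disjoint_singleton_left.2 fun hc => hc hV)
  have hfV : ∀ x : X, f x < 1 → x ∈ V := by
    intro x hx
    by_contra hne
    have := hf1 hne
    simp only [Pi.one_apply] at this
    rw [this] at hx
    exact lt_irrefl _ hx
  have hcomp : CompactSpace (YY T f) :=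
    isCompact_iff_compactSpace.1 (isCompact_range (continuous_Phi h f.continuous))
  let _ : MetricSpace (YY T f) := TopologicalSpace.metrizableSpaceMetric (YY T f)
  have hone : ∀ k : ℕ, 0 < k → ∀ x, T 1 (T k x) = T k x := by
    intro k hk x
    rw [← h.mul 1 k one_pos hk, one_mul]
  have hval : ∀ k : ℕ, 0 < k → ∀ x, (pt T f (T k x)).1 0 = f (T k x) := by
    intro k hk x
    show f (T (0 + 1) (T k x)) = f (T k x)
    rw [zero_add, hone k hk]
  have hO : IsOpen {y : YY T f | y.1 0 < 1} :=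
    isOpen_lt ((continuous_apply 0).comp continuous_subtype_val) continuous_const
  have hf0' : f (T n₀ x₀) = 0 := hf0 (Set.mem_singleton _)
  obtain ⟨x, y, z, hx, hy, hz, hxyz, hxA, hyA, hzA, hxU, hyU, hzU⟩ :=
    triples_metric hcore (dyn_SS h f.continuous) (pt T f (T n₀ x₀))
      (U := {y : YY T f | y.1 0 < 1}) (hO.mem_nhds (by
        show (pt T f (T n₀ x₀)).1 0 < 1
        rw [hval n₀ hn₀, hf0']
        exact one_pos)) hA'
  have key : ∀ m : ℕ, 0 < m → SS T f m (pt T f (T n₀ x₀)) ∈ {y : YY T f | y.1 0 < 1} →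
      T (n₀ * m) x₀ ∈ U := by
    intro m hm hmU
    rw [SS_pt h f hm, ← hTm m n₀ hm hn₀, mul_comm m n₀] at hmU
    apply hVU
    apply hfV
    have h2 : (pt T f (T (n₀ * m) x₀)).1 0 < 1 := hmU
    rwa [hval (n₀ * m) (Nat.mul_pos hn₀ hm)] at h2
  refine ⟨n₀ * x, n₀ * y, n₀ * z, Nat.mul_pos hn₀ hx, Nat.mul_pos hn₀ hy, Nat.mul_pos hn₀ hz,
    ?_, hxA, hyA, hzA, key x hx hxU, key y hy hyU, key z hz hzU⟩
  calc (n₀ * x) ^ 2 + (n₀ * y) ^ 2 = n₀ ^ 2 * (x ^ 2 + y ^ 2) := by ring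
    _ = n₀ ^ 2 * z ^ 2 := by rw [hxyz]
    _ = (n₀ * z) ^ 2 := by ring

end Pool.Agent.Work.MP_0f91f8_co.Df
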