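import Pool.Agent.Work.MP_0f91f8_co.Df.Stmts

/-!
Item CSE of block [0f91f8 DF]: closed subsemigroups of a compact right topological group are groups.
-/

open Filter Topology

universe u

namespace Pool.Agent.Work.MP_0f91f8_co.Df

variable (E : Type u) [Group E] [TopologicalSpace E] [CompactSpace E] [T2Space E]

namespace I_CSE

/-- a nonempty closed subsemigroup contains `1` -/
theorem one_mem {E : Type u} [Group E] [TopologicalSpace E] [CompactSpace E] [T2Space E]
    (hc : ∀ q : E, Continuous (fun x : E => x * q)) (S : Set E) (hS : IsCompact S)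
    (hne : S.Nonempty) (hm : ∀ a ∈ S, ∀ b ∈ S, a * b ∈ S) : (1 : E) ∈ S := by
  obtain ⟨m, hmS, hmm⟩ := exists_idempotent_in_compact_subsemigroup hc S hne hS hm
  have h1 : m = 1 := by
    have : m * m = m * 1 := by rw [hmm, mul_one]
    exact mul_left_cancel this
  rw [← h1]
  exact hmS

end I_CSE

theorem CSE_pf : CSE E := by
  intro hc S hcl hne hm
  refine ⟨I_CSE.one_mem hc S hcl.isCompact hne hm, ?_⟩
  intro a ha
  have hcomp : IsCompact ((fun x : E => x * a) '' S) := hcl.isCompact.image (hc a)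
  have hne' : ((fun x : E => x * a) '' S).Nonempty := hne.image _
  have hm' : ∀ x ∈ ((fun x : E => x * a) '' S), ∀ y ∈ ((fun x : E => x * a) '' S),
      x * y ∈ ((fun x : E => x * a) '' S) := by
    rintro _ ⟨x, hx, rfl⟩ _ ⟨y, hy, rfl⟩
    refine ⟨x * a * y, hm _ (hm _ hx _ ha) _ hy, ?_⟩
    simp only [mul_assoc]
  obtain ⟨x, hx, hxa⟩ := I_CSE.one_mem hc _ hcomp hne' hm'
  have hxa' : x * a = 1 := hxa
  have : a⁻¹ = x := (eq_inv_of_mul_eq_one_left hxa').symm
  rw [this]
  exact hx

end Pool.Agent.Work.MP_0f91f8_co.Df
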