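import Pool.Agent.Work.MP_0f91f8_co.Df.Stmts

/-!
Block [0f91f8 DF], item FLS: composing landings.
-/

open Filter Topology

universe u

namespace Pool.Agent.Work.MP_0f91f8_co.Df

open Pool.Agent.Work.MP_0f91f8_co.Cge (L LL sd L_map L_mem)

namespace I_FLS

variable {G : Type} [CommGroup G] {E : Type u} [Group E] [TopologicalSpace E] [CompactSpace E]
  [T2Space E]

lemma key {θ : G →* E} (h : RT θ) {A : Subgroup E} (hA : CA θ A)
    (hD : ∀ 𝔬 : Ultrafilter (E × E), (∀ᶠ p in (𝔬 : Filter (E × E)), p.2 ∈ A) →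
      (L 𝔬 (fun p => p.1) * L 𝔬 (fun p => p.2))⁻¹ * L 𝔬 (fun p => p.1 * p.2) ∈ DD θ A)
    {Ω : Type*} (m : Ultrafilter Ω) (g : Ω → G) (z : Ω → E) (e : E)
    (hz : ∀ᶠ p in (m : Filter Ω), (e⁻¹ * L m (fun p => θ (g p))) * z p ∈ DD θ A) :
    e⁻¹ * L m (fun p => θ (g p) * z p) ∈ DD θ A := by
  set a : E := e⁻¹ * L m (fun p => θ (g p)) with ha
  have h1 := hD (m.map fun p => (θ (g p) * a⁻¹, a * z p)) (by
    show ∀ᶠ p in (m : Filter Ω), a * z p ∈ A
    exact hz.mono fun p hp => hA.DD_le hp)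
  simp only [L_map] at h1
  have h2 : L m (fun p => θ (g p) * a⁻¹) = e := by
    rw [h.L_mul_right, ha]
    group
  have h3 : L m (fun p => a * z p) ∈ DD θ A := L_mem (isClosed_DD θ A) hz
  have h4 : (fun p => θ (g p) * a⁻¹ * (a * z p)) = fun p => θ (g p) * z p := by
    funext p
    group
  rw [h2, h4] at h1
  have h5 := (DD θ A).mul_mem h3 h1
  have h6 : L m (fun p => a * z p) * ((e * L m (fun p => a * z p))⁻¹ *
      L m (fun p => θ (g p) * z p)) = e⁻¹ * L m (fun p => θ (g p) * z p) := by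
    group
  rwa [h6] at h5

end I_FLS

open I_FLS in
theorem FLS_pf (E : Type u) [Group E] [TopologicalSpace E] [CompactSpace E] [T2Space E]
    (hC : CMPS E) (hD : DDP E) : FLS E := by
  intro S T G _ θ h K hK B A hB hA hAB hBA hAD s hs
  classical
  obtain ⟨u, hu, hu2⟩ := hBA s hs
  -- the law of the second landing
  have hex : ∀ s' : S, ∃ u' : Ultrafilter T, (s' ∈ K.S₀ → u' ∈ K.W) ∧
      ∀ e₁ ∈ A, ∀ e₂ ∈ A, ∃ m : Ultrafilter (T × G), m.map Prod.fst = u' ∧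
        (s' ∈ K.S₀ → m ∈ MM θ K A s' ∧ e₁⁻¹ * P1 θ m ∈ DD θ A ∧
          e₂⁻¹ * P2 θ K s' m ∈ DD θ A) := by
    intro s'
    by_cases hs' : s' ∈ K.S₀
    · obtain ⟨u', h1, h2⟩ := hAD s' hs'
      refine ⟨u', fun _ => h1, fun e₁ he₁ e₂ he₂ => ?_⟩
      obtain ⟨m, hm1, hm2, hm3, hm4⟩ := h2 e₁ he₁ e₂ he₂
      exact ⟨m, hm2, fun _ => ⟨hm1, hm3, hm4⟩⟩
    · refine ⟨pure K.one, fun h => absurd h hs', fun e₁ _ e₂ _ => ⟨pure (K.one, 1), ?_,
        fun h => absurd h hs'⟩⟩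
      exact Ultrafilter.map_pure _ _
  choose u' hu' hm' using hex
  refine ⟨(sd u (fun t => u' (K.act s t))).map (fun p => K.cmp p.1 p.2), ?_, ?_⟩
  · apply hK.cmp u hu
    filter_upwards [hK.mem s hs u hu] with t ht
    exact hu' _ ht
  intro e₁ he₁ e₂ he₂
  obtain ⟨m, hm, hmu, hm1, hm2⟩ := hu2 e₁ he₁ e₂ he₂
  set a₁ : E := e₁⁻¹ * P1 θ m with ha₁
  set a₂ : E := e₂⁻¹ * P2 θ K s m with ha₂
  have hF := fun s' : S => hm' s' a₁⁻¹ (A.inv_mem hm1) a₂⁻¹ (A.inv_mem hm2)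
  choose F hF1 hF2 using hF
  have hmW : m.map Prod.fst ∈ K.W := by rw [hmu]; exact hu
  obtain ⟨c1, c2, c3, c4, -⟩ := hC S T G θ h K hK s hs m hmW F (fun s' hs' => by
    rw [hF1]; exact hu' s' hs')
  -- the states after the move are good
  have hst : ∀ᶠ p in (m : Filter (T × G)), K.act s p.1 ∈ K.S₀ := by
    have h1 := hK.mem s hs _ hmW
    exact h1
  have hDA := (hD G θ h A hA).2
  have r1 : e₁⁻¹ * P1 θ (cps K s m F) ∈ DD θ A := by
    rw [c2]
    apply key h hA hDA m (fun p => p.2)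
    filter_upwards [hst] with p hp
    have := (hF2 _ hp).2.1
    rw [inv_inv] at this
    exact this
  have r2 : e₂⁻¹ * P2 θ K s (cps K s m F) ∈ DD θ A := by
    rw [c3]
    apply key h hA hDA m (fun p => p.2 * K.r s p.1)
    filter_upwards [hst] with p hp
    have := (hF2 _ hp).2.2
    rw [inv_inv] at this
    exact this
  have hDB : DD θ A ≤ B := hA.DD_le.trans hAB
  refine ⟨cps K s m F, ⟨c1, ?_, ?_⟩, ?_, r1, r2⟩
  · have := B.mul_mem he₁ (hDB r1)
    rwa [mul_inv_cancel_left] at this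
  · have := B.mul_mem he₂ (hDB r2)
    rwa [mul_inv_cancel_left] at this
  · rw [c4, hmu]
    congr 2
    funext t
    exact hF1 _

end Pool.Agent.Work.MP_0f91f8_co.Df
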