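import Pool.Agent.Work.MP_0f91f8_co.Df.Stmts

/-!
Block [0f91f8 DF], item HDS: the enveloping group of a distal system on a compact metric space
has no nontrivial closed subgroups `A` with `QQ A ⊆ A` and `DD A = A`.
-/

set_option linter.unusedSectionVars false
set_option linter.unusedVariables false
set_option linter.deprecated false

open Filter Topology

universe u

namespace Pool.Agent.Work.MP_0f91f8_co.Df

open Pool.Agent.Work.MP_0f91f8_co.Cge (L LL sd tendsto_L L_eq L_map L_mem L_sd L_comp L_const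
  L_congr eventually_sd)

namespace I_HDS

section

variable {X : Type u} [MetricSpace X] [CompactSpace X] {T : ℕ → X → X} {E : Type u} [Group E]
  [TopologicalSpace E] [CompactSpace E] [T2Space E] {θ : ℚˣ →* E} {ev : E → X → X}

/-- the relation generated by `A` -/
def RX (ev : E → X → X) (A : Subgroup E) (x₀ : X) : Set (X × X) :=
  {z | ∃ e : E, ∃ a ∈ A, z = (ev e x₀, ev (e * a) x₀)}

/-- it is closed -/
lemma closed_RX (h : Env T θ ev) (hJ : JJ E) {A : Subgroup E} (hA : CA θ A) (x₀ : X) :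
    IsClosed (RX ev A x₀) := by
  rw [isClosed_iff_ultrafilter]
  intro z u hu hz
  -- lift the ultrafilter to pairs `(e, a)`
  set f : E × E → X × X := fun p => (ev p.1 x₀, ev (p.1 * p.2) x₀) with hf
  have hR : f '' {p : E × E | p.2 ∈ A} = RX ev A x₀ := by
    ext w
    constructor
    · rintro ⟨⟨e, a⟩, ha, rfl⟩
      exact ⟨e, a, ha, rfl⟩
    · rintro ⟨e, a, ha, rfl⟩
      exact ⟨(e, a), ha, rfl⟩
  have hne : ((u : Filter (X × X)).comap f ⊓ 𝓟 {p : E × E | p.2 ∈ A}).NeBot := by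
    rw [← map_neBot_iff f]
    have h1 : Filter.map f ((u : Filter (X × X)).comap f ⊓ 𝓟 {p : E × E | p.2 ∈ A}) =
        (u : Filter (X × X)) ⊓ 𝓟 (f '' {p : E × E | p.2 ∈ A}) := by
      rw [← map_principal, ← Filter.push_pull', inf_comm]
    rw [h1, hR]
    have h2 : (u : Filter (X × X)) ⊓ 𝓟 (RX ev A x₀) = (u : Filter (X × X)) :=
      inf_eq_left.2 (le_principal_iff.2 hz)
    rw [h2]
    exact u.neBot
  set 𝔬 : Ultrafilter (E × E) := @Ultrafilter.of _ _ hne with h𝔬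
  have hle : (𝔬 : Filter (E × E)) ≤ (u : Filter (X × X)).comap f ⊓ 𝓟 {p : E × E | p.2 ∈ A} :=
    @Ultrafilter.of_le _ _ hne
  have hmem : ∀ᶠ p in (𝔬 : Filter (E × E)), p.2 ∈ A :=
    le_principal_iff.1 (hle.trans inf_le_right)
  have htend : Tendsto f (𝔬 : Filter (E × E)) (𝓝 z) := by
    have h1 : Tendsto f ((u : Filter (X × X)).comap f) (u : Filter (X × X)) := tendsto_comap
    exact (h1.mono_left (hle.trans inf_le_left)).trans hu
  obtain ⟨q, hq, hJq⟩ := hJ ℚˣ θ h.rt A hA.closed 𝔬 hmem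
  have ha : L 𝔬 (fun p => p.2) ∈ A := L_mem hA.closed hmem
  refine ⟨L 𝔬 (fun p => p.1), q * L 𝔬 (fun p => p.2), A.mul_mem (hA.qq q hq) ha, ?_⟩
  have h1 : Tendsto (fun p : E × E => ev p.1 x₀) (𝔬 : Filter (E × E))
      (𝓝 (ev (L 𝔬 (fun p => p.1)) x₀)) :=
    ((h.cont x₀).tendsto _).comp (tendsto_L 𝔬 fun p : E × E => p.1)
  have h2 : Tendsto (fun p : E × E => ev (p.1 * p.2) x₀) (𝔬 : Filter (E × E))
      (𝓝 (ev (L 𝔬 (fun p => p.1 * p.2)) x₀)) :=
    ((h.cont x₀).tendsto _).comp (tendsto_L 𝔬 fun p : E × E => p.1 * p.2)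
  rw [hJq, mul_assoc] at h2
  exact tendsto_nhds_unique htend (h1.prodMk_nhds h2)

/-- the set of the pairs which come close together -/
def O (θ : ℚˣ →* E) (ev : E → X → X) (n : ℕ) : Set (X × X) :=
  {z | ∃ g : ℚˣ, dist (ev (θ g) z.1) (ev (θ g) z.2) < 1 / ((n : ℝ) + 1)}

lemma open_O (h : Env T θ ev) (n : ℕ) : IsOpen (O θ ev n) := by
  have : O θ ev n = ⋃ g : ℚˣ, {z : X × X | dist (ev (θ g) z.1) (ev (θ g) z.2) <
      1 / ((n : ℝ) + 1)} := by
    ext z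
    simp [O]
  rw [this]
  refine isOpen_iUnion fun g => ?_
  exact isOpen_lt (((h.contX g).comp continuous_fst).dist ((h.contX g).comp continuous_snd))
    continuous_const

/-- density -/
lemma dense_aux (h : Env T θ ev) (hR : RPL E) {A : Subgroup E} (hA : CA θ A)
    (hD : DD θ A = A) (x₀ : X) (n : ℕ) (z : X × X) (hz : z ∈ RX ev A x₀) (U : Set (X × X))
    (hU : U ∈ 𝓝 z) : ∃ w ∈ U, w ∈ RX ev A x₀ ∧ w ∈ O θ ev n := by
  obtain ⟨e, a, ha, rfl⟩ := hz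
  obtain ⟨𝔬, h1, h2, h3, h4⟩ := hR ℚˣ θ h.rt A hA a (by rw [hD]; exact ha)
  obtain ⟨𝔨, hk⟩ := h.rt.exists_law e
  set F : ℚˣ × (ℚˣ × (E × E)) → X × X :=
    fun p => (ev (θ p.1 * p.2.2.1) x₀, ev (θ p.1 * p.2.2.2) x₀) with hF
  have hL1 : L (sd 𝔨 (fun _ => 𝔬)) (fun p => θ p.1 * p.2.2.1) = e := by
    rw [h.rt.L_sd_mul 𝔨 (fun _ => 𝔬) (fun k => k) (fun _ p => p.2.1) 1
      (Eventually.of_forall fun _ => h2), hk, mul_one]
  have hL2 : L (sd 𝔨 (fun _ => 𝔬)) (fun p => θ p.1 * p.2.2.2) = e * a := by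
    rw [h.rt.L_sd_mul 𝔨 (fun _ => 𝔬) (fun k => k) (fun _ p => p.2.2) a
      (Eventually.of_forall fun _ => h3), hk]
  have ht1 : Tendsto (fun p : ℚˣ × (ℚˣ × (E × E)) => ev (θ p.1 * p.2.2.1) x₀)
      (sd 𝔨 (fun _ => 𝔬) : Filter _) (𝓝 (ev e x₀)) := by
    have := ((h.cont x₀).tendsto _).comp
      (tendsto_L (sd 𝔨 (fun _ => 𝔬)) fun p : ℚˣ × (ℚˣ × (E × E)) => θ p.1 * p.2.2.1)
    rwa [hL1] at this
  have ht2 : Tendsto (fun p : ℚˣ × (ℚˣ × (E × E)) => ev (θ p.1 * p.2.2.2) x₀)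
      (sd 𝔨 (fun _ => 𝔬) : Filter _) (𝓝 (ev (e * a) x₀)) := by
    have := ((h.cont x₀).tendsto _).comp
      (tendsto_L (sd 𝔨 (fun _ => 𝔬)) fun p : ℚˣ × (ℚˣ × (E × E)) => θ p.1 * p.2.2.2)
    rwa [hL2] at this
  have hUev : ∀ᶠ p in (sd 𝔨 (fun _ => 𝔬) : Filter (ℚˣ × (ℚˣ × (E × E)))), F p ∈ U :=
    (ht1.prodMk_nhds ht2) hU
  have hRev : ∀ᶠ p in (sd 𝔨 (fun _ => 𝔬) : Filter (ℚˣ × (ℚˣ × (E × E)))),
      F p ∈ RX ev A x₀ := by
    rw [eventually_sd]
    refine Eventually.of_forall fun k => ?_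
    filter_upwards [h1] with p hp
    refine ⟨θ k * p.2.1, p.2.1⁻¹ * p.2.2, hp, ?_⟩
    simp only [hF]
    rw [mul_assoc, mul_inv_cancel_left]
  have hOev : ∀ᶠ p in (sd 𝔨 (fun _ => 𝔬) : Filter (ℚˣ × (ℚˣ × (E × E)))),
      F p ∈ O θ ev n := by
    rw [eventually_sd]
    refine Eventually.of_forall fun k => ?_
    have hs1 : Tendsto (fun p : ℚˣ × (E × E) => ev (θ p.1 * p.2.1) x₀) (𝔬 : Filter _)
        (𝓝 (ev (L 𝔬 (fun p => θ p.1 * p.2.1)) x₀)) :=
      ((h.cont x₀).tendsto _).comp (tendsto_L 𝔬 fun p : ℚˣ × (E × E) => θ p.1 * p.2.1)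
    have hs2 : Tendsto (fun p : ℚˣ × (E × E) => ev (θ p.1 * p.2.2) x₀) (𝔬 : Filter _)
        (𝓝 (ev (L 𝔬 (fun p => θ p.1 * p.2.1)) x₀)) := by
      rw [h4]
      exact ((h.cont x₀).tendsto _).comp (tendsto_L 𝔬 fun p : ℚˣ × (E × E) => θ p.1 * p.2.2)
    have hd : Tendsto (fun p : ℚˣ × (E × E) => dist (ev (θ p.1 * p.2.1) x₀)
        (ev (θ p.1 * p.2.2) x₀)) (𝔬 : Filter _) (𝓝 0) := by
      have := hs1.dist hs2
      rwa [dist_self] at this
    have hpos : (0 : ℝ) < 1 / ((n : ℝ) + 1) := by positivity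
    filter_upwards [hd.eventually (gt_mem_nhds hpos)] with p hp
    refine ⟨p.1 * k⁻¹, ?_⟩
    simp only [hF]
    have e1 : ∀ w : E, ev (θ (p.1 * k⁻¹)) (ev (θ k * w) x₀) = ev (θ p.1 * w) x₀ := by
      intro w
      rw [← h.mul]
      congr 1
      rw [← mul_assoc, ← map_mul, inv_mul_cancel_right]
    rw [e1, e1]
    exact hp
  obtain ⟨p, hp1, hp2, hp3⟩ := (hUev.and (hRev.and hOev)).exists
  exact ⟨F p, hp1, hp2, hp3⟩

/-- pairs which come arbitrarily close together are equal -/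
lemma eq_of_O (h : Env T θ ev) (z : X × X) (hz : ∀ n, z ∈ O θ ev n) : z.1 = z.2 := by
  choose g hg using hz
  set 𝔥 : Ultrafilter ℕ := Ultrafilter.of atTop with h𝔥
  have hle : (𝔥 : Filter ℕ) ≤ atTop := Ultrafilter.of_le _
  set e : E := L 𝔥 (fun n => θ (g n)) with he
  have h1 : ∀ x : X, Tendsto (fun n => ev (θ (g n)) x) (𝔥 : Filter ℕ) (𝓝 (ev e x)) :=
    fun x => ((h.cont x).tendsto _).comp (tendsto_L 𝔥 fun n => θ (g n))
  have h2 : Tendsto (fun n => dist (ev (θ (g n)) z.1) (ev (θ (g n)) z.2)) (𝔥 : Filter ℕ)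
      (𝓝 (dist (ev e z.1) (ev e z.2))) := (h1 z.1).dist (h1 z.2)
  have h3 : Tendsto (fun n => dist (ev (θ (g n)) z.1) (ev (θ (g n)) z.2)) (𝔥 : Filter ℕ)
      (𝓝 0) := by
    have h4 : Tendsto (fun n : ℕ => 1 / ((n : ℝ) + 1)) (𝔥 : Filter ℕ) (𝓝 0) :=
      tendsto_one_div_add_atTop_nhds_zero_nat.mono_left hle
    exact squeeze_zero (fun n => dist_nonneg) (fun n => (hg n).le) h4
  have h5 : ev e z.1 = ev e z.2 := dist_eq_zero.1 (tendsto_nhds_unique h2 h3)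
  have h6 : ∀ x : X, ev e⁻¹ (ev e x) = x := fun x => by
    rw [← h.mul, inv_mul_cancel, h.one]
  rw [← h6 z.1, h5, h6]

end

end I_HDS

variable (X : Type u) [MetricSpace X] [CompactSpace X]

open I_HDS in
theorem HDS_pf (hRPL : ∀ (E : Type u) [Group E] [TopologicalSpace E] [CompactSpace E]
    [T2Space E], RPL E)
    (hJ : ∀ (E : Type u) [Group E] [TopologicalSpace E] [CompactSpace E] [T2Space E], JJ E) :
    HDS X := by
  intro T E _ _ _ _ θ ev h A hA hD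
  rw [eq_bot_iff]
  intro a ha
  rw [Subgroup.mem_bot]
  apply h.inj
  intro x₀
  have hcl := closed_RX h (hJ E) hA x₀
  have : CompactSpace (RX ev A x₀) := isCompact_iff_compactSpace.1 hcl.isCompact
  have hdense : Dense (⋂ n : ℕ, (Subtype.val ⁻¹' O θ ev n : Set (RX ev A x₀))) := by
    apply dense_iInter_of_isOpen
    · intro n
      exact (open_O h n).preimage continuous_subtype_val
    · intro n
      rw [dense_iff_inter_open]
      rintro U hU ⟨⟨z, hz⟩, hzU⟩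
      obtain ⟨V, hV, rfl⟩ := isOpen_induced_iff.1 hU
      obtain ⟨w, hw1, hw2, hw3⟩ := dense_aux h (hRPL E) hA hD x₀ n z hz V (hV.mem_nhds hzU)
      exact ⟨⟨w, hw2⟩, hw1, hw3⟩
  have hdiag : IsClosed {z : RX ev A x₀ | z.1.1 = z.1.2} :=
    isClosed_eq (continuous_fst.comp continuous_subtype_val)
      (continuous_snd.comp continuous_subtype_val)
  have hsub : (⋂ n : ℕ, (Subtype.val ⁻¹' O θ ev n : Set (RX ev A x₀))) ⊆
      {z : RX ev A x₀ | z.1.1 = z.1.2} := by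
    intro z hz
    rw [Set.mem_iInter] at hz
    exact eq_of_O h z.1 hz
  have hall : {z : RX ev A x₀ | z.1.1 = z.1.2} = Set.univ := by
    rw [← hdiag.closure_eq]
    exact (hdense.mono hsub).closure_eq
  have hmem : (ev 1 x₀, ev (1 * a) x₀) ∈ RX ev A x₀ := ⟨1, a, ha, rfl⟩
  have hz : (⟨(ev 1 x₀, ev (1 * a) x₀), hmem⟩ : RX ev A x₀) ∈
      {z : RX ev A x₀ | z.1.1 = z.1.2} := by
    rw [hall]
    trivial
  have : ev 1 x₀ = ev (1 * a) x₀ := hz
  rw [h.one, one_mul] at this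
  exact this.symm

end Pool.Agent.Work.MP_0f91f8_co.Df
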