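import Pool.Agent.Work.MP_0f91f8_co.Df.Stmts

/-!
Item LIN of block [0f91f8 DF] (helper64): all linear factors `1 + x w` are independent.
Adapted from `Cge/I_LIN.lean`.
-/

set_option linter.unusedSectionVars false

open Filter Topology

universe u

namespace Pool.Agent.Work.MP_0f91f8_co.Df

open Pool.Agent.Work.MP_0f91f8_co.Cge (L LL sd cc)

namespace I_LIN

/-- the slopes, corrected at the bad points -/
noncomputable def cf (v : ℚ) : ℚ := if v ≠ 0 ∧ v ≠ 1 ∧ v ≠ -1 then cc v else 2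

lemma cf_eq {v : ℚ} (h : v ≠ 0 ∧ v ≠ 1 ∧ v ≠ -1) : cf v = cc v := if_pos h

lemma one_add_ne {v : ℚ} (h : v ≠ -1) : 1 + v ≠ 0 := fun e => h (by linarith)

lemma one_sub_ne {v : ℚ} (h : v ≠ 1) : 1 - v ≠ 0 := fun e => h (by linarith)

lemma cf_ne (v : ℚ) : cf v ≠ 0 := by
  by_cases h : v ≠ 0 ∧ v ≠ 1 ∧ v ≠ -1
  · rw [cf_eq h]
    exact div_ne_zero (one_add_ne h.2.2) (one_sub_ne h.2.1)
  · unfold cf
    rw [if_neg h]
    norm_num

lemma cf_ne_one (v : ℚ) : cf v ≠ 1 := by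
  by_cases h : v ≠ 0 ∧ v ≠ 1 ∧ v ≠ -1
  · rw [cf_eq h]
    unfold cc
    intro e
    rw [div_eq_one_iff_eq (one_sub_ne h.2.1)] at e
    exact h.1 (by linarith)
  · unfold cf
    rw [if_neg h]
    norm_num

lemma cf_ne_neg_one (v : ℚ) : cf v ≠ -1 := by
  by_cases h : v ≠ 0 ∧ v ≠ 1 ∧ v ≠ -1
  · rw [cf_eq h]
    unfold cc
    intro e
    rw [div_eq_iff (one_sub_ne h.2.1)] at e
    linarith
  · unfold cf
    rw [if_neg h]
    norm_num

lemma unit_two : IsUnit (2 : ℚ → ℚ) := by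
  rw [Pi.isUnit_iff]
  intro v
  exact isUnit_iff_ne_zero.2 two_ne_zero

lemma unit_add : IsUnit (cf + fun v => (cf v)⁻¹) := by
  rw [Pi.isUnit_iff]
  intro v
  refine isUnit_iff_ne_zero.2 ?_
  show cf v + (cf v)⁻¹ ≠ 0
  have h := cf_ne v
  intro e
  have e2 : cf v * (cf v + (cf v)⁻¹) = 0 := by rw [e, mul_zero]
  rw [mul_add, mul_inv_cancel₀ h] at e2
  nlinarith [mul_self_nonneg (cf v)]

lemma unit_sub : IsUnit (cf - fun v => (cf v)⁻¹) := by
  rw [Pi.isUnit_iff]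
  intro v
  refine isUnit_iff_ne_zero.2 ?_
  show cf v - (cf v)⁻¹ ≠ 0
  have h := cf_ne v
  intro e
  have e2 : cf v * (cf v - (cf v)⁻¹) = 0 := by rw [e, mul_zero]
  rw [mul_sub, mul_inv_cancel₀ h] at e2
  have e3 : (cf v - 1) * (cf v + 1) = 0 := by linarith
  rcases mul_eq_zero.1 e3 with e4 | e4
  · exact cf_ne_one v (by linarith)
  · exact cf_ne_neg_one v (by linarith)

lemma mul_inv : cf * (fun v => (cf v)⁻¹) = 1 := by
  funext v
  exact mul_inv_cancel₀ (cf_ne v)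

end I_LIN

open I_LIN

variable (E : Type u) [Group E] [TopologicalSpace E] [CompactSpace E] [T2Space E]
variable (Γ : Type u) [Group Γ] [TopologicalSpace Γ] [IsTopologicalGroup Γ] [CompactSpace Γ]
  [T2Space Γ]

theorem LIN_pf (hCLO : CLO E Γ) (hT : Cge.TOOL.{0, 0}) (hI : INDG E Γ) : LIN E Γ := by
  intro θ hθ D π hπ N hN v hv hK 𝔲 hE x
  obtain ⟨i1, ic, im, ii⟩ := hI θ hθ (A0 θ) D π hπ N hN v ℚ 𝔲
  let H : Subgroup (ℚ → ℚ → ℚˣ) :=
    { carrier := {r | Ind θ (A0 θ) π N v 𝔲 r}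
      one_mem' := i1
      mul_mem' := fun {a b} ha hb => im a b ha hb
      inv_mem' := fun {a} ha => ii a ha }
  have hmem : ∀ r : ℚ → ℚ → ℚˣ, r ∈ H ↔ Ind θ (A0 θ) π N v 𝔲 r := fun _ => Iff.rfl
  let f : (ℚ → ℚ) → (ℚ → ℚ → ℚˣ) := fun y V w => un (1 + y V * w)
  let F : (ℚ → ℚ) → Additive ((ℚ → ℚ → ℚˣ) ⧸ H) := fun y =>
    Additive.ofMul (QuotientGroup.mk (f y))
  have hcc : ∀ᶠ V in (v : Filter ℚ), cf V = cc V := by
    filter_upwards [hv] with V hV
    exact cf_eq hV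
  -- the functional equation
  have hfe : ∀ l m : ℚ → ℚ, F (l - cf * m) + F (l + (fun V => (cf V)⁻¹) * m) =
      F (l + cf * m) + F (l - (fun V => (cf V)⁻¹) * m) := by
    intro l m
    have hclo := hCLO θ hθ D π hπ N hN v hv hK 𝔲 hE l m
    show Additive.ofMul ((QuotientGroup.mk (f (l - cf * m)) : (ℚ → ℚ → ℚˣ) ⧸ H) *
        QuotientGroup.mk (f (l + (fun V => (cf V)⁻¹) * m))) =
      Additive.ofMul ((QuotientGroup.mk (f (l + cf * m)) : (ℚ → ℚ → ℚˣ) ⧸ H) *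
        QuotientGroup.mk (f (l - (fun V => (cf V)⁻¹) * m)))
    rw [← QuotientGroup.mk_mul, ← QuotientGroup.mk_mul]
    congr 1
    symm
    rw [QuotientGroup.eq, hmem]
    refine ic _ _ hclo ?_
    filter_upwards [hcc] with V hc
    refine Eventually.of_forall fun w => ?_
    have e1 : f (l - cf * m) V w = un (1 + (l V - cc V * m V) * w) := by
      show un (1 + (l - cf * m) V * w) = _
      rw [Pi.sub_apply, Pi.mul_apply, hc]
    have e2 : f (l + (fun V => (cf V)⁻¹) * m) V w = un (1 + (l V + m V / cc V) * w) := by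
      show un (1 + (l + (fun V => (cf V)⁻¹) * m) V * w) = _
      rw [Pi.add_apply, Pi.mul_apply, hc, div_eq_inv_mul]
    have e3 : f (l + cf * m) V w = un (1 + (l V + cc V * m V) * w) := by
      show un (1 + (l + cf * m) V * w) = _
      rw [Pi.add_apply, Pi.mul_apply, hc]
    have e4 : f (l - (fun V => (cf V)⁻¹) * m) V w = un (1 + (l V - m V / cc V) * w) := by
      show un (1 + (l - (fun V => (cf V)⁻¹) * m) V * w) = _
      rw [Pi.sub_apply, Pi.mul_apply, hc, div_eq_inv_mul]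
    show _ = (f (l + cf * m) V w * f (l - (fun V => (cf V)⁻¹) * m) V w)⁻¹ *
      (f (l - cf * m) V w * f (l + (fun V => (cf V)⁻¹) * m) V w)
    rw [e1, e2, e3, e4, mul_comm]
  have hD := hT (ℚ → ℚ) (Additive ((ℚ → ℚ → ℚˣ) ⧸ H)) F cf (fun V => (cf V)⁻¹)
    mul_inv unit_two unit_add unit_sub hfe x
  have hD2 : (QuotientGroup.mk (f 0) : (ℚ → ℚ → ℚˣ) ⧸ H) = QuotientGroup.mk (f x) :=
    Additive.ofMul.injective hD.symm
  rw [QuotientGroup.eq, hmem] at hD2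
  refine ic _ _ hD2 ?_
  refine Eventually.of_forall fun V => Eventually.of_forall fun w => ?_
  show (un (1 + (0 : ℚ → ℚ) V * w))⁻¹ * un (1 + x V * w) = un (1 + x V * w)
  rw [Pi.zero_apply, zero_mul, add_zero, un_one, inv_one, one_mul]

end Pool.Agent.Work.MP_0f91f8_co.Df
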