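import Pool.Agent.Work.MP_0f91f8_co.Df.J

/-!
The τ-closure and the regional proximality lemma RPL.
-/

set_option linter.unusedSectionVars false

open Filter Topology

namespace Pool.Agent.Work.MP_0f91f8_co.Df

open Cge

universe u v w

variable {E : Type u} [Group E] [TopologicalSpace E] [CompactSpace E] [T2Space E] {θ : ℚ → E}

/-- closed subsemigroups of `E` are closed under inverses -/
lemma Ell.inv_mem_of_semigroup (h : Ell θ) {S : Set E} (hS : IsClosed S)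
    (hmul : ∀ a ∈ S, ∀ b ∈ S, a * b ∈ S) {a : E} (ha : a ∈ S) : a⁻¹ ∈ S := by
  obtain ⟨e, ⟨b, hb, rfl⟩, he⟩ := exists_idempotent_in_compact_subsemigroup
    (M := E) (fun r => h.right r) ((fun b : E => b * a) '' S)
    ⟨_, ⟨a, ha, rfl⟩⟩ (hS.isCompact.image (h.right a)) (by
      rintro _ ⟨b, hb, rfl⟩ _ ⟨c, hc, rfl⟩
      exact ⟨b * a * c, hmul _ (hmul _ hb _ ha) _ hc, by simp only [mul_assoc]⟩)
  have h1 : b * a = 1 := left_eq_mul.1 he.symm
  rw [inv_eq_of_mul_eq_one_left h1]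
  exact hb

/-- a closed subsemigroup containing `1`, as a subgroup -/
def Ell.sg (h : Ell θ) (S : Set E) (hS : IsClosed S) (h1 : (1 : E) ∈ S)
    (hmul : ∀ a ∈ S, ∀ b ∈ S, a * b ∈ S) : Subgroup E where
  carrier := S
  mul_mem' ha hb := hmul _ ha _ hb
  one_mem' := h1
  inv_mem' ha := h.inv_mem_of_semigroup hS hmul ha

/-- the τ-closure -/
def tcl (θ : ℚ → E) (S : Set E) : Set E :=
  {y | ∃ 𝔬 : Ultrafilter (ℚ × E), (∀ᶠ p in (𝔬 : Filter (ℚ × E)), p.1 ≠ 0 ∧ p.2 ∈ S) ∧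
    L 𝔬 (fun p => θ p.1) = 1 ∧ L 𝔬 (fun p => θ p.1 * p.2) = y}

lemma tcl_mono {S S' : Set E} (hS : S ⊆ S') : tcl θ S ⊆ tcl θ S' := by
  rintro y ⟨𝔬, h0, h1, h2⟩
  exact ⟨𝔬, h0.mono fun p hp => ⟨hp.1, hS hp.2⟩, h1, h2⟩

/-- limits along laws on any type -/
lemma mem_tcl {Ω : Type v} {S : Set E} {𝔬 : Ultrafilter Ω} {k : Ω → ℚ} {z : Ω → E}
    (h0 : ∀ᶠ ω in (𝔬 : Filter Ω), k ω ≠ 0 ∧ z ω ∈ S) (h1 : L 𝔬 (fun ω => θ (k ω)) = 1) :
    L 𝔬 (fun ω => θ (k ω) * z ω) ∈ tcl θ S := by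
  refine ⟨𝔬.map (fun ω => (k ω, z ω)), ?_, ?_, ?_⟩
  · rw [Ultrafilter.coe_map, eventually_map]
    exact h0
  · rw [L_map]
    exact h1
  · rw [L_map]

lemma Ell.closure_sub_tcl (h : Ell θ) (S : Set E) : closure S ⊆ tcl θ S := by
  intro y hy
  obtain ⟨𝔣, hf, hfy⟩ := mem_closure_iff_ultrafilter.1 hy
  have h1 := mem_tcl (θ := θ) (S := S) (𝔬 := 𝔣) (k := fun _ => 1) (z := fun x => x)
    (by
      have : ∀ᶠ x in (𝔣 : Filter E), x ∈ S := hf
      filter_upwards [this] with x hx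
      exact ⟨one_ne_zero, hx⟩) (by rw [L_const, h.one])
  have h2 : L 𝔣 (fun x : E => θ 1 * x) = y := by
    rw [h.L_left, h.one, one_mul]
    exact L_eq hfy
  rwa [h2] at h1

lemma Ell.sub_tcl (h : Ell θ) (S : Set E) : S ⊆ tcl θ S :=
  subset_closure.trans (h.closure_sub_tcl S)

lemma Ell.tcl_tcl (h : Ell θ) (S : Set E) : tcl θ (tcl θ S) ⊆ tcl θ S := by
  rintro y ⟨𝔬, h0, h1, h2⟩
  have hch : ∀ z : E, ∃ 𝔬' : Ultrafilter (ℚ × E), z ∈ tcl θ S →
      (∀ᶠ p in (𝔬' : Filter (ℚ × E)), p.1 ≠ 0 ∧ p.2 ∈ S) ∧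
        L 𝔬' (fun p => θ p.1) = 1 ∧ L 𝔬' (fun p => θ p.1 * p.2) = z := by
    intro z
    by_cases hz : z ∈ tcl θ S
    · obtain ⟨𝔬', h⟩ := hz
      exact ⟨𝔬', fun _ => h⟩
    · exact ⟨pure (1, 1), fun h => absurd h hz⟩
  choose 𝔬' h𝔬' using hch
  have e1 : ∀ z : E, z ∈ tcl θ S → ∀ g : ℚ, g ≠ 0 →
      L (𝔬' z) (fun p' => θ (g * p'.1)) = θ g := by
    intro z hz g hg
    have : L (𝔬' z) (fun p' => θ (g * p'.1)) = L (𝔬' z) (fun p' => θ g * θ p'.1) := by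
      apply L_congr
      filter_upwards [(h𝔬' z hz).1] with p' hp'
      exact h.mul _ _ hg hp'.1
    rw [this, h.L_left, (h𝔬' z hz).2.1, mul_one]
  have e2 : ∀ z : E, z ∈ tcl θ S → ∀ g : ℚ, g ≠ 0 →
      L (𝔬' z) (fun p' => θ (g * p'.1) * p'.2) = θ g * z := by
    intro z hz g hg
    have : L (𝔬' z) (fun p' => θ (g * p'.1) * p'.2) =
        L (𝔬' z) (fun p' => θ g * (θ p'.1 * p'.2)) := by
      apply L_congr
      filter_upwards [(h𝔬' z hz).1] with p' hp'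
      rw [h.mul _ _ hg hp'.1, mul_assoc]
    rw [this, h.L_left, (h𝔬' z hz).2.2]
  have key := mem_tcl (θ := θ) (S := S) (𝔬 := sd 𝔬 (fun p => 𝔬' p.2))
    (k := fun P => P.1.1 * P.2.1) (z := fun P => P.2.2) (by
      rw [eventually_sd]
      filter_upwards [h0] with p hp
      filter_upwards [(h𝔬' p.2 hp.2).1] with p' hp'
      exact ⟨mul_ne_zero hp.1 hp'.1, hp'.2⟩) (by
      rw [L_sd]
      unfold LL
      refine Eq.trans (L_congr ?_) h1
      filter_upwards [h0] with p hp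
      exact e1 p.2 hp.2 p.1 hp.1)
  have e3 : L (sd 𝔬 (fun p => 𝔬' p.2)) (fun P => θ (P.1.1 * P.2.1) * P.2.2) = y := by
    rw [L_sd]
    unfold LL
    refine Eq.trans (L_congr ?_) h2
    filter_upwards [h0] with p hp
    exact e2 p.2 hp.2 p.1 hp.1
  rwa [e3] at key

lemma Ell.isClosed_tcl (h : Ell θ) (S : Set E) : IsClosed (tcl θ S) :=
  isClosed_of_closure_subset ((h.closure_sub_tcl _).trans (h.tcl_tcl S))

lemma tcl_union (S S' : Set E) : tcl θ (S ∪ S') ⊆ tcl θ S ∪ tcl θ S' := by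
  rintro y ⟨𝔬, h0, h1, h2⟩
  have h3 : ∀ᶠ p in (𝔬 : Filter (ℚ × E)), (p.1 ≠ 0 ∧ p.2 ∈ S) ∨ (p.1 ≠ 0 ∧ p.2 ∈ S') := by
    filter_upwards [h0] with p hp
    rcases hp.2 with h | h
    · exact Or.inl ⟨hp.1, h⟩
    · exact Or.inr ⟨hp.1, h⟩
  rcases Ultrafilter.eventually_or.1 h3 with h | h
  · exact Or.inl ⟨𝔬, h, h1, h2⟩
  · exact Or.inr ⟨𝔬, h, h1, h2⟩

lemma Ell.tcl_mul_right (h : Ell θ) (S : Set E) (x : E) {y : E}
    (hy : y ∈ tcl θ {z | z * x ∈ S}) : y * x ∈ tcl θ S := by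
  obtain ⟨𝔬, h0, h1, h2⟩ := hy
  have := mem_tcl (θ := θ) (S := S) (𝔬 := 𝔬) (k := fun p => p.1) (z := fun p => p.2 * x) h0 h1
  have e : L 𝔬 (fun p : ℚ × E => θ p.1 * (p.2 * x)) = y * x := by
    rw [← h2, ← h.L_right]
    simp only [mul_assoc]
  rwa [e] at this

lemma Ell.tcl_mul_left (h : Ell θ) (S : Set E) (x : E) {y : E}
    (hy : y ∈ tcl θ {z | x * z ∈ S}) : x * y ∈ tcl θ S := by
  obtain ⟨𝔬, h0, h1, h2⟩ := hy
  obtain ⟨𝔨, hk0, hk⟩ := h.exists_law x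
  obtain ⟨𝔩, hl0, hl⟩ := h.exists_law x⁻¹
  have e0 : ∀ (f : ℚ × E → E) (g : ℚ), g ≠ 0 → ∀ p : ℚ × E, p.1 ≠ 0 →
      L 𝔩 (fun l => θ (g * (p.1 * l)) * f p) = θ g * (θ p.1 * (x⁻¹ * f p)) := by
    intro f g hg p hp
    have : L 𝔩 (fun l => θ (g * (p.1 * l)) * f p) =
        L 𝔩 (fun l => θ g * (θ p.1 * (θ l * f p))) := by
      apply L_congr
      filter_upwards [hl0] with l hl'
      rw [h.mul _ _ hg (mul_ne_zero hp hl'), h.mul _ _ hp hl']
      simp only [mul_assoc]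
    rw [this, h.L_left, h.L_left, h.L_right, hl]
  -- the composed law
  have e1 : ∀ f : ℚ × E → E, L (sd 𝔨 (fun _ => sd 𝔬 (fun _ => 𝔩)))
      (fun P => θ (P.1 * (P.2.1.1 * P.2.2)) * f P.2.1) =
        x * L 𝔬 (fun p => θ p.1 * (x⁻¹ * f p)) := by
    intro f
    rw [L_sd]
    unfold LL
    have : L 𝔨 (fun g => L (sd 𝔬 (fun _ => 𝔩)) (fun P => θ (g * (P.1.1 * P.2)) * f P.1)) =
        L 𝔨 (fun g => θ g * L 𝔬 (fun p => θ p.1 * (x⁻¹ * f p))) := by
      apply L_congr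
      filter_upwards [hk0] with g hg
      rw [L_sd, ← h.L_left]
      unfold LL
      apply L_congr
      filter_upwards [h0] with p hp
      exact e0 f g hg p hp.1
    rw [this, h.L_right, hk]
  have key := mem_tcl (θ := θ) (S := S) (𝔬 := sd 𝔨 (fun _ => sd 𝔬 (fun _ => 𝔩)))
    (k := fun P => P.1 * (P.2.1.1 * P.2.2)) (z := fun P => x * P.2.1.2) (by
      rw [eventually_sd]
      filter_upwards [hk0] with g hg
      rw [eventually_sd]
      filter_upwards [h0] with p hp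
      filter_upwards [hl0] with l hl'
      exact ⟨mul_ne_zero hg (mul_ne_zero hp.1 hl'), hp.2⟩) (by
      have := e1 (fun _ => 1)
      simp only [mul_one] at this
      rw [this, h.L_right, h1, one_mul, mul_inv_cancel])
  have e2 : L (sd 𝔨 (fun _ => sd 𝔬 (fun _ => 𝔩)))
      (fun P : ℚ × (ℚ × E) × ℚ => θ (P.1 * (P.2.1.1 * P.2.2)) * (x * P.2.1.2)) = x * y := by
    rw [e1 (fun p => x * p.2)]
    simp only [inv_mul_cancel_left]
    rw [h2]
  rwa [e2] at key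

/-- relatively τ-open subsets of `A` -/
def TO (θ : ℚ → E) (A : Subgroup E) (V : Set E) : Prop :=
  V ⊆ A ∧ tcl θ ((A : Set E) \ V) ⊆ (A : Set E) \ V

lemma Adm.tcl_sub {A : Subgroup E} (hA : Adm θ A) (h : Ell θ) :
    tcl θ (A : Set E) ⊆ A := by
  rintro y ⟨𝔬, h0, h1, h2⟩
  obtain ⟨q, hq, e⟩ := h.J hA.closed 𝔬 (fun p => θ p.1) (fun p => p.2) (h0.mono fun p hp => hp.2)
  rw [h2, h1, one_mul] at e
  rw [e]
  exact A.mul_mem (hA.qa hq) (L_mem hA.closed (h0.mono fun p hp => hp.2))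

lemma Adm.TO_univ {A : Subgroup E} (_ : Adm θ A) : TO θ A (A : Set E) := by
  refine ⟨subset_rfl, ?_⟩
  rw [Set.sdiff_self]
  rintro y ⟨𝔬, h0, -, -⟩
  obtain ⟨p, hp⟩ := h0.exists
  exact hp.2

lemma Adm.TO_diff {A : Subgroup E} (hA : Adm θ A) (h : Ell θ) {V F : Set E} (hV : TO θ A V)
    (hF : tcl θ F ⊆ F) : TO θ A (V \ F) := by
  refine ⟨Set.sdiff_subset.trans hV.1, ?_⟩
  have e : (A : Set E) \ (V \ F) = ((A : Set E) \ V) ∪ ((A : Set E) ∩ F) := by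
    ext x
    simp only [Set.mem_sdiff, Set.mem_union, Set.mem_inter_iff]
    tauto
  rw [e]
  refine (tcl_union _ _).trans (Set.union_subset_union hV.2 ?_)
  exact Set.subset_inter ((tcl_mono Set.inter_subset_left).trans (hA.tcl_sub h))
    ((tcl_mono Set.inter_subset_right).trans hF)

/-- right translates of τ-open sets -/
lemma Ell.TO_right (h : Ell θ) {A : Subgroup E} {V : Set E} (hV : TO θ A V) {x : E}
    (hx : x ∈ A) : TO θ A {z | z * x ∈ V} := by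
  refine ⟨fun z hz => (A.mul_mem_cancel_right hx).1 (hV.1 hz), ?_⟩
  intro y hy
  have e : (A : Set E) \ {z | z * x ∈ V} = {z | z * x ∈ (A : Set E) \ V} := by
    ext z
    simp only [Set.mem_sdiff, Set.mem_ofPred_eq, SetLike.mem_coe, A.mul_mem_cancel_right hx]
  rw [e] at hy ⊢
  exact hV.2 (h.tcl_mul_right _ x hy)

/-- left translates of τ-open sets -/
lemma Ell.TO_left (h : Ell θ) {A : Subgroup E} {V : Set E} (hV : TO θ A V) {x : E}
    (hx : x ∈ A) : TO θ A {z | x * z ∈ V} := by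
  refine ⟨fun z hz => (A.mul_mem_cancel_left hx).1 (hV.1 hz), ?_⟩
  intro y hy
  have e : (A : Set E) \ {z | x * z ∈ V} = {z | x * z ∈ (A : Set E) \ V} := by
    ext z
    simp only [Set.mem_sdiff, Set.mem_ofPred_eq, SetLike.mem_coe, A.mul_mem_cancel_left hx]
  rw [e] at hy ⊢
  exact hV.2 (h.tcl_mul_left _ x hy)

/-- the set `H` -/
def HH (θ : ℚ → E) (A : Subgroup E) : Set E :=
  {d | d ∈ A ∧ ∀ V : Set E, TO θ A V → (1 : E) ∈ V → d ∈ tcl θ V}

/-- `x * o` is in the closure of every τ-open neighbourhood of `o` -/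
lemma Ell.HH_mul_mem (h : Ell θ) {A : Subgroup E} {V : Set E} (hV : TO θ A V) {x o : E}
    (hx : x ∈ HH θ A) (ho : o ∈ V) : x * o ∈ tcl θ V := by
  have hoA : o ∈ A := hV.1 ho
  have h1 := hx.2 {z | z * o ∈ V} (h.TO_right hV hoA) (by
    show 1 * o ∈ V
    rwa [one_mul])
  exact h.tcl_mul_right V o h1

/-- `b * x` is in the closure of every τ-open neighbourhood of `b` -/
lemma Ell.mul_HH_mem (h : Ell θ) {A : Subgroup E} {V : Set E} (hV : TO θ A V) {x b : E}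
    (hx : x ∈ HH θ A) (hb : b ∈ V) : b * x ∈ tcl θ V := by
  have hbA : b ∈ A := hV.1 hb
  have h1 := hx.2 {z | b * z ∈ V} (h.TO_left hV hbA) (by
    show b * 1 ∈ V
    rwa [mul_one])
  exact h.tcl_mul_left V b h1

theorem Adm.DD_sub_HH {A : Subgroup E} (hA : Adm θ A) (h : Ell θ) :
    (Df.DD θ A : Set E) ⊆ HH θ A := by
  have hclosed : IsClosed (HH θ A) := by
    have e : HH θ A = (A : Set E) ∩ ⋂ V : {V : Set E // TO θ A V ∧ (1 : E) ∈ V},
        tcl θ (V : Set E) := by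
      ext d
      simp only [HH, Set.mem_ofPred_eq, Set.mem_inter_iff, SetLike.mem_coe, Set.mem_iInter,
        Subtype.forall, and_imp]
    rw [e]
    exact hA.closed.inter (isClosed_iInter fun V => h.isClosed_tcl _)
  have h1 : (1 : E) ∈ HH θ A := ⟨A.one_mem, fun V _ hV1 => h.sub_tcl V hV1⟩
  have hmul : ∀ a ∈ HH θ A, ∀ b ∈ HH θ A, a * b ∈ HH θ A := by
    intro a ha b hb
    refine ⟨A.mul_mem ha.1 hb.1, fun V hV hV1 => ?_⟩
    have h2 : V ⊆ {z | a * z ∈ tcl θ V} := fun o ho => h.HH_mul_mem hV ha ho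
    have h3 := tcl_mono (θ := θ) h2 (hb.2 V hV hV1)
    exact h.tcl_tcl V (h.tcl_mul_left _ a h3)
  have key : Df.DD θ A ≤ h.sg (HH θ A) hclosed h1 hmul := by
    refine DD_le hclosed ?_
    intro b hb q hq
    show b⁻¹ * q * b ∈ HH θ A
    refine ⟨A.mul_mem (A.mul_mem (A.inv_mem hb) (hA.qa hq)) hb, fun V hV hV1 => ?_⟩
    -- the conjugate of `V`
    have hV2 : TO θ A {z | z * b ∈ {z | b⁻¹ * z ∈ V}} :=
      h.TO_right (h.TO_left hV (A.inv_mem hb)) hb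
    set V' : Set E := {z | z * b ∈ {z | b⁻¹ * z ∈ V}} with hV'
    have h1V' : (1 : E) ∈ V' := by
      show b⁻¹ * (1 * b) ∈ V
      rwa [one_mul, inv_mul_cancel]
    have hq' : q ∈ tcl θ V' := by
      obtain ⟨𝔬, h0, h2, h3, h4⟩ := hq
      have h5 : ∀ᶠ p in (𝔬 : Filter (ℚ × E)), p.2 ∈ V' := by
        by_contra hne
        rw [← Ultrafilter.eventually_not] at hne
        have h6 : ∀ᶠ p in (𝔬 : Filter (ℚ × E)), p.2 ∈ (A : Set E) \ V' := by
          filter_upwards [h0, hne] with p hp hp'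
          exact ⟨hp.2, hp'⟩
        have h7 : (1 : E) ∈ closure ((A : Set E) \ V') :=
          mem_closure_of_tendsto h3 h6
        exact (hV2.2 (h.closure_sub_tcl _ h7)).2 h1V'
      have h8 := mem_tcl (θ := θ) (S := V') (𝔬 := 𝔬) (k := fun p => p.1) (z := fun p => p.2)
        (by filter_upwards [h0, h5] with p hp hp'; exact ⟨hp.1, hp'⟩) (L_eq h2)
      rwa [L_eq h4] at h8
    have h9 : q * b ∈ tcl θ {z | b⁻¹ * z ∈ V} := h.tcl_mul_right _ b hq'
    have h10 := h.tcl_mul_left V b⁻¹ h9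
    rwa [← mul_assoc] at h10
  exact key

/-- if a nonempty τ-open set is covered by finitely many τ-closed sets, one of them contains a
nonempty τ-open set -/
lemma Adm.exists_interior {A : Subgroup E} (hA : Adm θ A) (h : Ell θ) {ι : Type w}
    (t : Finset ι) (F : ι → Set E) (hF : ∀ i, tcl θ (F i) ⊆ F i) :
    ∀ O : Set E, TO θ A O → O.Nonempty → O ⊆ ⋃ i ∈ t, F i →
      ∃ i ∈ t, ∃ O' : Set E, TO θ A O' ∧ O'.Nonempty ∧ O' ⊆ F i := by
  classical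
  induction t using Finset.induction_on with
  | empty =>
    intro O _ hne hO
    obtain ⟨o, ho⟩ := hne
    have := hO ho
    simp at this
  | insert j s _ ih =>
    intro O hOo hne hO
    by_cases hd : (O \ F j).Nonempty
    · obtain ⟨i, hi, h'⟩ := ih (O \ F j) (hA.TO_diff h hOo (hF j)) hd (by
        rintro o ⟨ho1, ho2⟩
        have := hO ho1
        simp only [Finset.mem_insert, Set.iUnion_iUnion_eq_or_left, Set.mem_union] at this
        rcases this with h | h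
        · exact absurd h ho2
        · exact h)
      exact ⟨i, Finset.mem_insert_of_mem hi, h'⟩
    · refine ⟨j, Finset.mem_insert_self _ _, O, hOo, hne, ?_⟩
      intro o ho
      by_contra hne'
      exact hd ⟨o, ho, hne'⟩

/-- RPL: elements of `DD A` are regionally proximal to `1` relative to `A` -/
theorem Adm.rpl {A : Subgroup E} (hA : Adm θ A) (h : Ell θ) {d : E} (hd : d ∈ Df.DD θ A) :
    ∃ 𝔬 : Ultrafilter (ℚ × E × E),
      (∀ᶠ p in (𝔬 : Filter (ℚ × E × E)), p.1 ≠ 0 ∧ p.2.1 ∈ A ∧ p.2.2 ∈ A) ∧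
      L 𝔬 (fun p => θ p.1 * p.2.1) = 1 ∧ L 𝔬 (fun p => θ p.1 * p.2.2) = d ∧
      L 𝔬 (fun p => p.2.1) = L 𝔬 (fun p => p.2.2) := by
  set K : Set (Ultrafilter (ℚ × E × E)) := {𝔬 |
    (∀ᶠ p in (𝔬 : Filter (ℚ × E × E)), p.1 ≠ 0 ∧ p.2.1 ∈ A ∧ p.2.2 ∈ A) ∧
      L 𝔬 (fun p => θ p.1 * p.2.1) = 1 ∧ L 𝔬 (fun p => θ p.1 * p.2.2) = d} with hK
  have hKc : IsClosed K := by
    refine IsClosed.and (ultrafilter_isClosed_basic _) (IsClosed.and ?_ ?_)
    · exact isClosed_eq (continuous_L _) continuous_const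
    · exact isClosed_eq (continuous_L _) continuous_const
  set Φ : Ultrafilter (ℚ × E × E) → E × E := fun 𝔬 =>
    (L 𝔬 (fun p => p.2.1), L 𝔬 (fun p => p.2.2)) with hΦ
  have hΦc : Continuous Φ := (continuous_L _).prodMk (continuous_L _)
  have hPc : IsClosed (Φ '' K) := (hKc.isCompact.image hΦc).isClosed
  by_contra hcon
  have hdisj : ∀ e : E, (e, e) ∉ Φ '' K := by
    rintro e ⟨𝔬, h𝔬, he⟩
    apply hcon
    refine ⟨𝔬, h𝔬.1, h𝔬.2.1, h𝔬.2.2, ?_⟩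
    have h1 := congrArg Prod.fst he
    have h2 := congrArg Prod.snd he
    exact h1.trans h2.symm
  -- a neighbourhood of every point
  have hW : ∀ e : E, ∃ W : Set E, IsOpen W ∧ e ∈ W ∧
      ∀ x ∈ closure W, ∀ y ∈ closure W, (x, y) ∉ Φ '' K := by
    intro e
    have h1 : (Φ '' K)ᶜ ∈ 𝓝 (e, e) := hPc.isOpen_compl.mem_nhds (hdisj e)
    rw [nhds_prod_eq, mem_prod_self_iff] at h1
    obtain ⟨t, ht, htt⟩ := h1
    obtain ⟨s, hs, hsc, hst⟩ := exists_mem_nhds_isClosed_subset ht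
    refine ⟨interior s, isOpen_interior, mem_interior_iff_mem_nhds.2 hs, ?_⟩
    intro x hx y hy
    have hx' : x ∈ t := hst (closure_minimal interior_subset hsc hx)
    have hy' : y ∈ t := hst (closure_minimal interior_subset hsc hy)
    exact htt (Set.mk_mem_prod hx' hy')
  choose W hWo hWe hWd using hW
  obtain ⟨t, ht⟩ := isCompact_univ.elim_finite_subcover W hWo
    (fun e _ => Set.mem_iUnion.2 ⟨e, hWe e⟩)
  -- one of the pieces has interior
  obtain ⟨i, -, O, hO, hOne, hOW⟩ := hA.exists_interior h t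
    (fun i => tcl θ (W i ∩ A)) (fun i => h.tcl_tcl _) (A : Set E) hA.TO_univ ⟨1, A.one_mem⟩ (by
      intro a ha
      obtain ⟨i, hi, hai⟩ := Set.mem_iUnion₂.1 (ht (Set.mem_univ a))
      exact Set.mem_iUnion₂.2 ⟨i, hi, h.sub_tcl _ ⟨hai, ha⟩⟩)
  have hb : ∃ b, b ∈ O ∧ b ∈ W i ∩ A := by
    by_contra hne
    push Not at hne
    obtain ⟨o, ho⟩ := hOne
    have h1 : W i ∩ A ⊆ (A : Set E) \ O := fun z hz => ⟨hz.2, fun hzO => hne z hzO hz⟩
    exact (hO.2 (tcl_mono h1 (hOW ho))).2 ho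
  obtain ⟨b, hbO, hbW⟩ := hb
  have hbd : b * d ∈ tcl θ (W i ∩ A) :=
    h.tcl_tcl _ (tcl_mono hOW (h.mul_HH_mem hO (hA.DD_sub_HH h hd) hbO))
  obtain ⟨𝔬, h0, h1, h2⟩ := hbd
  obtain ⟨𝔨, hk0, hk⟩ := h.exists_law b⁻¹
  -- the law
  set 𝔭 : Ultrafilter (ℚ × E × E) :=
    (sd 𝔨 (fun _ => 𝔬)).map (fun P => (P.1 * P.2.1, b, P.2.2)) with h𝔭
  have e0 : ∀ f : ℚ × E → E, L (sd 𝔨 (fun _ => 𝔬)) (fun P => θ (P.1 * P.2.1) * f P.2) =
      b⁻¹ * L 𝔬 (fun p => θ p.1 * f p) := by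
    intro f
    rw [L_sd]
    unfold LL
    have : L 𝔨 (fun k => L 𝔬 (fun p => θ (k * p.1) * f p)) =
        L 𝔨 (fun k => θ k * L 𝔬 (fun p => θ p.1 * f p)) := by
      apply L_congr
      filter_upwards [hk0] with k hk'
      rw [← h.L_left]
      apply L_congr
      filter_upwards [h0] with p hp
      rw [h.mul _ _ hk' hp.1, mul_assoc]
    rw [this, h.L_right, hk]
  have hpK : 𝔭 ∈ K := by
    refine ⟨?_, ?_, ?_⟩
    · show ∀ᶠ P in (sd 𝔨 (fun _ => 𝔬) : Filter (ℚ × ℚ × E)), _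
      rw [eventually_sd]
      filter_upwards [hk0] with k hk'
      filter_upwards [h0] with p hp
      exact ⟨mul_ne_zero hk' hp.1, hbW.2, hp.2.2⟩
    · rw [h𝔭, L_map]
      have := e0 (fun _ => b)
      have e1 : L 𝔬 (fun p : ℚ × E => θ p.1 * b) = b := by
        rw [h.L_right, h1, one_mul]
      rw [e1, inv_mul_cancel] at this
      exact this
    · rw [h𝔭, L_map]
      have := e0 (fun p => p.2)
      rw [h2, inv_mul_cancel_left] at this
      exact this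
  refine hWd i (L 𝔭 (fun p => p.2.1)) ?_ (L 𝔭 (fun p => p.2.2)) ?_ ⟨𝔭, hpK, rfl⟩
  · rw [h𝔭, L_map, L_const]
    exact subset_closure hbW.1
  · rw [h𝔭, L_map]
    refine mem_closure_of_tendsto (tendsto_L _ _) ?_
    rw [eventually_sd]
    refine Eventually.of_forall fun k => ?_
    filter_upwards [h0] with p hp
    exact hp.2.1

end Pool.Agent.Work.MP_0f91f8_co.Df
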