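import Pool.Agent.Work.MP_0f91f8_co.Df.Basic

/-!
Block [0f91f8 DF]: all statements of the items.  Captain helper40.
Paper proof: notes S1-40-3 (id 3465) and S1-40-4 (id 3480) of MP_0f91f8_co.
-/

set_option linter.unusedSectionVars false
set_option linter.unusedVariables false

open Filter Topology

universe u

namespace Pool.Agent.Work.MP_0f91f8_co.Df

open Pool.Agent.Work.MP_0f91f8_co.Cge (L LL sd op aa cc bnd)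

/-! ### Part A: right topological groups -/

section A

variable (E : Type u) [Group E] [TopologicalSpace E] [CompactSpace E] [T2Space E]

/-- Lemma J -/
def JJ : Prop := ∀ (G : Type) [CommGroup G] (θ : G →* E), RT θ → ∀ A : Subgroup E,
  IsClosed (A : Set E) → ∀ 𝔬 : Ultrafilter (E × E),
  (∀ᶠ p in (𝔬 : Filter (E × E)), p.2 ∈ A) → ∃ q ∈ QQ θ A,
    L 𝔬 (fun p => p.1 * p.2) = L 𝔬 (fun p => p.1) * q * L 𝔬 (fun p => p.2)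

/-- closed subsemigroups are groups -/
def CSE : Prop := (∀ q : E, Continuous (fun x : E => x * q)) → ∀ S : Set E, IsClosed S →
  S.Nonempty → (∀ a ∈ S, ∀ b ∈ S, a * b ∈ S) → (1 : E) ∈ S ∧ ∀ a ∈ S, a⁻¹ ∈ S

/-- properties of `DD` -/
def DDP : Prop := ∀ (G : Type) [CommGroup G] (θ : G →* E), RT θ → ∀ A : Subgroup E, CA θ A →
  (∀ a ∈ A, ∀ d ∈ DD θ A, a⁻¹ * d * a ∈ DD θ A) ∧
  ∀ 𝔬 : Ultrafilter (E × E), (∀ᶠ p in (𝔬 : Filter (E × E)), p.2 ∈ A) →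
    (L 𝔬 (fun p => p.1) * L 𝔬 (fun p => p.2))⁻¹ * L 𝔬 (fun p => p.1 * p.2) ∈ DD θ A

/-- the quotient by `DD` is a compact topological group -/
def QUO : Prop := ∀ (G : Type) [CommGroup G] (θ : G →* E), RT θ → ∀ A : Subgroup E, CA θ A →
  ∃ (Γ : Type u) (_ : Group Γ) (_ : TopologicalSpace Γ) (_ : IsTopologicalGroup Γ)
    (_ : CompactSpace Γ) (_ : T2Space Γ) (π : E → Γ), Pr A (DD θ A) π

/-- the `τ`-closure -/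
def TCL : Prop := ∀ (G : Type) [CommGroup G] (θ : G →* E), RT θ →
  tcl θ ∅ = ∅ ∧
  (∀ S : Set E, closure S ⊆ tcl θ S) ∧
  (∀ S S' : Set E, S ⊆ S' → tcl θ S ⊆ tcl θ S') ∧
  (∀ S : Set E, tcl θ (tcl θ S) ⊆ tcl θ S) ∧
  (∀ S S' : Set E, tcl θ (S ∪ S') = tcl θ S ∪ tcl θ S') ∧
  (∀ (S : Set E) (a : E), tcl θ ((fun x => x * a) '' S) = (fun x => x * a) '' tcl θ S) ∧
  (∀ (S : Set E) (a : E), tcl θ ((fun x => a * x) '' S) = (fun x => a * x) '' tcl θ S) ∧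
  (∀ S : Set E, tcl θ ((fun x => x⁻¹) '' S) = (fun x => x⁻¹) '' tcl θ S) ∧
  (∀ A : Subgroup E, CA θ A → tcl θ (A : Set E) ⊆ A)

/-- `DD A` is contained in the intersection of the closed `τ`-neighbourhoods -/
def DHH : Prop := ∀ (G : Type) [CommGroup G] (θ : G →* E), RT θ → ∀ A : Subgroup E, CA θ A →
  ∀ d ∈ DD θ A, d ∈ HH θ A

/-- the covering lemma -/
def COV : Prop := ∀ (G : Type) [CommGroup G] (θ : G →* E), RT θ → ∀ A : Subgroup E, CA θ A →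
  ∀ 𝒲 : Finset (Set E), (∀ a ∈ A, ∃ W ∈ 𝒲, a ∈ W) →
    ∃ W ∈ 𝒲, ∃ b ∈ A, b ∈ W ∧ b ∉ tcl θ ((A : Set E) \ tcl θ (W ∩ A))

/-- two points which differ by an element of `DD A` are relatively regionally proximal -/
def RPL : Prop := ∀ (G : Type) [CommGroup G] (θ : G →* E), RT θ → ∀ A : Subgroup E, CA θ A →
  ∀ d ∈ DD θ A, ∃ 𝔬 : Ultrafilter (G × (E × E)),
    (∀ᶠ p in (𝔬 : Filter (G × (E × E))), p.2.1⁻¹ * p.2.2 ∈ A) ∧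
    L 𝔬 (fun p => p.2.1) = 1 ∧ L 𝔬 (fun p => p.2.2) = d ∧
    L 𝔬 (fun p => θ p.1 * p.2.1) = L 𝔬 (fun p => θ p.1 * p.2.2)

/-- Zorn's lemma -/
def ZOR : Prop := ∀ (G : Type) [CommGroup G] (θ : G →* E), RT θ → Dst θ →
  ∀ (P : Subgroup E → Prop) (A₀ : Subgroup E), (∀ A, P A → CA θ A) → P A₀ →
    (∀ A, A ≤ A₀ → P A → P (DD θ A)) →
    (∀ c : Set (Subgroup E), c.Nonempty → IsChain (· ≤ ·) c → (∀ A ∈ c, A ≤ A₀ ∧ P A) →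
      P (sInf c)) → P ⊥

end A

/-! ### Part B: abstract machines -/

section B

variable (E : Type u) [Group E] [TopologicalSpace E] [CompactSpace E] [T2Space E]

/-- compositions -/
def CMPS : Prop := ∀ (S T G : Type) [CommGroup G] (θ : G →* E), RT θ →
  ∀ K : Mach S T G, MOK K → ∀ s ∈ K.S₀, ∀ m : Ultrafilter (T × G), m.map Prod.fst ∈ K.W →
  ∀ F : S → Ultrafilter (T × G), (∀ s' ∈ K.S₀, (F s').map Prod.fst ∈ K.W) →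
    (cps K s m F).map Prod.fst ∈ K.W ∧
    P1 θ (cps K s m F) = L m (fun p => θ p.2 * P1 θ (F (K.act s p.1))) ∧
    P2 θ K s (cps K s m F) =
      L m (fun p => θ (p.2 * K.r s p.1) * P2 θ K (K.act s p.1) (F (K.act s p.1))) ∧
    (cps K s m F).map Prod.fst =
      (sd (m.map Prod.fst) (fun t => (F (K.act s t)).map Prod.fst)).map
        (fun p => K.cmp p.1 p.2) ∧
    ((cps K s m F).map Prod.fst).map (K.act s) =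
      (sd ((m.map Prod.fst).map (K.act s)) (fun s' => (F s').map Prod.fst)).map
        (fun p => K.act p.1 p.2)

/-- composing landings -/
def FLS : Prop := ∀ (S T G : Type) [CommGroup G] (θ : G →* E), RT θ →
  ∀ K : Mach S T G, MOK K → ∀ B A : Subgroup E, CA θ B → CA θ A → A ≤ B → FL θ K B A →
    FL θ K A (DD θ A) → FL θ K B (DD θ A)

/-- landings and intersections of chains -/
def FLC : Prop := ∀ (S T G : Type) [CommGroup G] (θ : G →* E), RT θ →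
  ∀ K : Mach S T G, MOK K → ∀ B : Subgroup E, CA θ B → ∀ c : Set (Subgroup E), c.Nonempty →
    IsChain (· ≤ ·) c → (∀ A ∈ c, CA θ A ∧ FL θ K B A) → FL θ K B (sInf c)

variable (Γ : Type u) [Group Γ] [TopologicalSpace Γ] [IsTopologicalGroup Γ] [CompactSpace Γ]
  [T2Space Γ]

/-- the set of reachable states -/
def RCH : Prop := ∀ (S T G : Type) [CommGroup G] (θ : G →* E), RT θ →
  ∀ K : Mach S T G, MOK K → ∀ (A D : Subgroup E) (π : E → Γ), Pr A D π → ∀ s₀ ∈ K.S₀,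
    IsClosed (Rch θ K A π s₀) ∧ (Rch θ K A π s₀).Nonempty ∧
    (∀ F, Sel θ K A F → ∀ x ∈ Rch θ K A π s₀, Mv θ K π F x ∈ Rch θ K A π s₀) ∧
    (∀ F : S → Ultrafilter (T × G), Continuous (Mv θ K π F))

/-- the minimal set and its group -/
def YEX : Prop := ∀ (S T G : Type) [CommGroup G] (θ : G →* E), RT θ →
  ∀ K : Mach S T G, MOK K → ∀ (A D : Subgroup E) (π : E → Γ), Pr A D π → ∀ s₀ ∈ K.S₀,
  ∃ (v : Ultrafilter S) (N : Subgroup Γ), IsClosed (N : Set Γ) ∧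
    (∀ γ : Γ, ∀ n ∈ N, γ * n * γ⁻¹ ∈ N) ∧ (∀ᶠ s in (v : Filter S), s ∈ K.S₀) ∧
    Cmp θ K A π v N ∧ (N = ⊤ → FLat θ K A D s₀)

/-- step (II') -/
def STEP2 : Prop := ∀ (S T G : Type) [CommGroup G] (θ : G →* E), RT θ →
  ∀ K : Mach S T G, MOK K → ∀ (B A D : Subgroup E) (π : E → Γ), CA θ B → CA θ A →
  A ≤ DD θ B → Pr A D π → FL θ K B A → ∀ (v : Ultrafilter S) (N : Subgroup Γ),
    (∀ γ : Γ, ∀ n ∈ N, γ * n * γ⁻¹ ∈ N) → (∀ᶠ s in (v : Filter S), s ∈ K.S₀) →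
    Cmp θ K A π v N → N = ⊤

end B

/-! ### Part K: the twist -/

section K

variable (E : Type u) [Group E] [TopologicalSpace E] [CompactSpace E] [T2Space E]

/-- the machine of the twist is a machine -/
def MKOK : Prop := ∀ (G : Type) [CommGroup G], MOK (MK G)

/-- successor step of the absorption -/
def AFS : Prop := ∀ (G : Type) [CommGroup G] (θ : G →* E), RT θ →
  FL θ (MK G) (DD θ ⊤) ⊥ → ∀ A : Subgroup E, CA θ A → A ≤ DD θ ⊤ → AF θ A → AF θ (DD θ A)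

/-- the absorption and intersections of chains -/
def AFC : Prop := ∀ (G : Type) [CommGroup G] (θ : G →* E), RT θ →
  ∀ c : Set (Subgroup E), c.Nonempty → IsChain (· ≤ ·) c →
    (∀ A ∈ c, IsClosed (A : Set E) ∧ AF θ A) → AF θ (sInf c)

variable (Γ : Type u) [Group Γ] [TopologicalSpace Γ] [IsTopologicalGroup Γ] [CompactSpace Γ]
  [T2Space Γ]

/-- step (I) for the twist -/
def STEPK : Prop := ∀ (G : Type) [CommGroup G] (θ : G →* E), RT θ →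
  ∀ (D : Subgroup E) (π : E → Γ), Pr (DD θ ⊤) D π →
  ∀ (v : Ultrafilter G) (N : Subgroup Γ), IsClosed (N : Set Γ) →
    (∀ γ : Γ, ∀ n ∈ N, γ * n * γ⁻¹ ∈ N) → Cmp θ (MK G) (DD θ ⊤) π v N → N = ⊤

end K

/-! ### Part Q: rational laws -/

section Q

variable (E : Type u) [Group E] [TopologicalSpace E] [CompactSpace E] [T2Space E]

/-- `𝓔₁` is closed under adaptive composition -/
def E1BND : Prop := ∀ θ : ℚˣ →* E, RT θ → ∀ (𝔲 : Ultrafilter ℚ) (m : ℚ → Ultrafilter ℚ),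
  E1 θ 𝔲 → (∀ᶠ V in (𝔲 : Filter ℚ), E1 θ (m V)) → E1 θ (bnd 𝔲 m)

/-- `𝓔_κ` followed by `𝓔₁` -/
def EKBND : Prop := ∀ θ : ℚˣ →* E, RT θ → ∀ (κ : ℚˣ) (𝔲 : Ultrafilter ℚ)
  (m : ℚ → Ultrafilter ℚ), EK θ κ 𝔲 → (∀ᶠ V in (𝔲 : Filter ℚ), E1 θ (m V)) →
  EK θ κ (bnd 𝔲 m)

/-- Moebius invariance and closedness of `𝓔₁` -/
def MOB : Prop := ∀ θ : ℚˣ →* E, RT θ → E1 θ (pure 0) ∧ IsClosed {𝔲 | E1 θ 𝔲} ∧
  ∀ 𝔲 : Ultrafilter ℚ, E1 θ 𝔲 → ∀ l m : ℚ, E1 θ (𝔲.map (fun w => m * w / (1 + l * w)))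

/-- the smallest rigid subgroup is rigid and normal -/
def RIG : Prop := ∀ θ : ℚˣ →* E, RT θ → Rig θ (A0 θ) ∧
  ∀ b : E, ∀ a ∈ A0 θ, b⁻¹ * a * b ∈ A0 θ

/-- position independence is a group property -/
def POSG : Prop := ∀ θ : ℚˣ →* E, RT θ → ∀ (A : Subgroup E) (Ω : Type) (𝔬 : Ultrafilter Ω),
  Pos θ A 𝔬 (fun _ => 1) ∧
  (∀ r r' : Ω → ℚˣ, Pos θ A 𝔬 r → (∀ᶠ ω in (𝔬 : Filter Ω), r ω = r' ω) → Pos θ A 𝔬 r') ∧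
  (∀ r r' : Ω → ℚˣ, Pos θ A 𝔬 r → Pos θ A 𝔬 r' → Pos θ A 𝔬 (fun ω => r ω * r' ω)) ∧
  (∀ r : Ω → ℚˣ, Pos θ A 𝔬 r → Pos θ A 𝔬 (fun ω => (r ω)⁻¹)) ∧
  (∀ r : Ω → ℚˣ, Pos θ A 𝔬 r → L 𝔬 (fun ω => θ (r ω)) ∈ A)

/-- position independence of linear factors and of norms of laws in `WW` -/
def POS : Prop := ∀ θ : ℚˣ →* E, RT θ → ∀ (Ω : Type) (𝔬 : Ultrafilter Ω) (W : Ω → ℚ),
  (E1 θ (𝔬.map W) → ∀ x : ℚ, Pos θ (A0 θ) 𝔬 (fun ω => un (1 + x * W ω))) ∧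
  (𝔬.map W ∈ WW θ → Pos θ (A0 θ) 𝔬 (fun ω => un (1 + W ω ^ 2)))

/-- norms of adaptive compositions -/
def NUB : Prop := ∀ θ : ℚˣ →* E, RT θ → ∀ (𝔲 : Ultrafilter ℚ) (m : ℚ → Ultrafilter ℚ),
  E1 θ 𝔲 → (∀ᶠ V in (𝔲 : Filter ℚ), E1 θ (m V)) →
  (L 𝔲 (fun V => θ (un (1 + V ^ 2)) * nu θ (m V)))⁻¹ * nu θ (bnd 𝔲 m) ∈ A0 θ

/-- compensation of norms -/
def COMPEN : Prop := ∀ θ : ℚˣ →* E, RT θ → ∀ 𝔲 : Ultrafilter ℚ, E1 θ 𝔲 →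
  ∃ 𝔲' : Ultrafilter ℚ, E1 θ 𝔲' ∧ ∀ 𝔲₂ : Ultrafilter ℚ, E1 θ 𝔲₂ → nu θ 𝔲₂ = nu θ 𝔲 →
    bnd 𝔲₂ (fun _ => 𝔲') ∈ WW θ

/-- closedness and adaptive closedness of `WW` -/
def WWP : Prop := ∀ θ : ℚˣ →* E, RT θ → IsClosed (WW θ) ∧ (pure 0 : Ultrafilter ℚ) ∈ WW θ ∧
  ∀ (𝔲 : Ultrafilter ℚ) (m : ℚ → Ultrafilter ℚ), 𝔲 ∈ WW θ →
    (∀ᶠ V in (𝔲 : Filter ℚ), m V ∈ WW θ) → bnd 𝔲 m ∈ WW θ

/-- the machine of rotations is a machine -/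
def MQOK : Prop := ∀ θ : ℚˣ →* E, RT θ → MOK (MQ θ)

/-- return times are syndetic -/
def SYND : Prop := ∀ θ : ℚˣ →* E, RT θ → ∀ O ∈ 𝓝 (1 : E),
  ∃ M : Finset ℚˣ, ∀ g : ℚˣ, ∃ m ∈ M, θ (m * g) ∈ O

/-- configurations -/
def CFG : Prop := ∀ θ : ℚˣ →* E, RT θ → ∀ (κ : ℚˣ) (X : Finset ℚ), ∀ O ∈ 𝓝 (1 : E),
  ∃ (W : ℚ) (q : ℚˣ), W ≠ 0 ∧ θ (q * un (2 * W / (κ : ℚ))) ∈ O ∧
    ∀ x ∈ X, 1 + x * W ≠ 0 ∧ θ (q * un (1 + x * W)) ∈ O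

/-- twisted laws in `WW` -/
def TWIST : Prop := ∀ θ : ℚˣ →* E, RT θ → ∀ κ : ℚˣ, ∃ 𝔲 : Ultrafilter ℚ,
  EK θ κ 𝔲 ∧ 𝔲 ∈ WW θ

end Q

/-! ### Part I: independence -/

section I

variable (E : Type u) [Group E] [TopologicalSpace E] [CompactSpace E] [T2Space E]
variable (Γ : Type u) [Group Γ] [TopologicalSpace Γ] [IsTopologicalGroup Γ] [CompactSpace Γ]
  [T2Space Γ]

/-- independent families form a group -/
def INDG : Prop := ∀ θ : ℚˣ →* E, RT θ → ∀ (A D : Subgroup E) (π : E → Γ), Pr A D π →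
  ∀ N : Subgroup Γ, (∀ γ : Γ, ∀ n ∈ N, γ * n * γ⁻¹ ∈ N) → ∀ (v : Ultrafilter ℚ) (Ω : Type)
    (𝔬 : ℚ → Ultrafilter Ω),
    Ind θ A π N v 𝔬 (fun _ _ => 1) ∧
    (∀ r r' : ℚ → Ω → ℚˣ, Ind θ A π N v 𝔬 r →
      (∀ᶠ V in (v : Filter ℚ), ∀ᶠ ω in (𝔬 V : Filter Ω), r V ω = r' V ω) →
      Ind θ A π N v 𝔬 r') ∧
    (∀ r r' : ℚ → Ω → ℚˣ, Ind θ A π N v 𝔬 r → Ind θ A π N v 𝔬 r' →
      Ind θ A π N v 𝔬 (fun V ω => r V ω * r' V ω)) ∧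
    (∀ r : ℚ → Ω → ℚˣ, Ind θ A π N v 𝔬 r → Ind θ A π N v 𝔬 (fun V ω => (r V ω)⁻¹))

/-- the increments of the machine are independent -/
def KIND : Prop := ∀ θ : ℚˣ →* E, RT θ → ∀ (D : Subgroup E) (π : E → Γ), Pr (A0 θ) D π →
  ∀ N : Subgroup Γ, (∀ γ : Γ, ∀ n ∈ N, γ * n * γ⁻¹ ∈ N) → ∀ v : Ultrafilter ℚ,
  (∀ᶠ V in (v : Filter ℚ), V ≠ 0 ∧ V ≠ 1 ∧ V ≠ -1) → Cmp θ (MQ θ) (A0 θ) π v N →
  ∀ (Ω : Type) (𝔬 : ℚ → Ultrafilter Ω) (W : ℚ → Ω → ℚ),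
    (∀ᶠ V in (v : Filter ℚ), (𝔬 V).map (W V) ∈ WW θ) →
    Ind θ (A0 θ) π N v 𝔬 (fun V ω => un (aa (cc V) (W V ω)))

/-- the closure step -/
def CLO : Prop := ∀ θ : ℚˣ →* E, RT θ → ∀ (D : Subgroup E) (π : E → Γ), Pr (A0 θ) D π →
  ∀ N : Subgroup Γ, (∀ γ : Γ, ∀ n ∈ N, γ * n * γ⁻¹ ∈ N) → ∀ v : Ultrafilter ℚ,
  (∀ᶠ V in (v : Filter ℚ), V ≠ 0 ∧ V ≠ 1 ∧ V ≠ -1) → Cmp θ (MQ θ) (A0 θ) π v N →
  ∀ 𝔲 : ℚ → Ultrafilter ℚ, (∀ᶠ V in (v : Filter ℚ), E1 θ (𝔲 V)) → ∀ l m : ℚ → ℚ,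
    Ind θ (A0 θ) π N v 𝔲 (fun V w =>
      un (1 + (l V - cc V * m V) * w) * un (1 + (l V + m V / cc V) * w) *
        (un (1 + (l V + cc V * m V) * w) * un (1 + (l V - m V / cc V) * w))⁻¹)

/-- all linear factors are independent -/
def LIN : Prop := ∀ θ : ℚˣ →* E, RT θ → ∀ (D : Subgroup E) (π : E → Γ), Pr (A0 θ) D π →
  ∀ N : Subgroup Γ, (∀ γ : Γ, ∀ n ∈ N, γ * n * γ⁻¹ ∈ N) → ∀ v : Ultrafilter ℚ,
  (∀ᶠ V in (v : Filter ℚ), V ≠ 0 ∧ V ≠ 1 ∧ V ≠ -1) → Cmp θ (MQ θ) (A0 θ) π v N →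
  ∀ 𝔲 : ℚ → Ultrafilter ℚ, (∀ᶠ V in (v : Filter ℚ), E1 θ (𝔲 V)) → ∀ x : ℚ → ℚ,
    Ind θ (A0 θ) π N v 𝔲 (fun V w => un (1 + x V * w))

/-- step (I) -/
def STEP1 : Prop := ∀ θ : ℚˣ →* E, RT θ → ∀ π : E → Γ, Pr (A0 θ) (DD θ (A0 θ)) π →
  ∀ N : Subgroup Γ, IsClosed (N : Set Γ) → (∀ γ : Γ, ∀ n ∈ N, γ * n * γ⁻¹ ∈ N) →
  ∀ v : Ultrafilter ℚ, (∀ᶠ V in (v : Filter ℚ), V ≠ 0 ∧ V ≠ 1 ∧ V ≠ -1) →
  Cmp θ (MQ θ) (A0 θ) π v N → N = ⊤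

end I

/-! ### Part F: the end on the rationals -/

section F

variable (E : Type u) [Group E] [TopologicalSpace E] [CompactSpace E] [T2Space E]

/-- the law for one twist -/
def LAWK : Prop := ∀ θ : ℚˣ →* E, RT θ → FL θ (MQ θ) (A0 θ) ⊥ →
  ∀ κ : ℚˣ, ∃ 𝔬 : Ultrafilter (ℚ × ℚˣ), EK θ κ (𝔬.map Prod.fst) ∧
    (∀ᶠ p in (𝔬 : Filter (ℚ × ℚˣ)), p.1 ≠ 0 ∧ p.1 ≠ 1 ∧ p.1 ≠ -1) ∧
    L 𝔬 (fun p => θ p.2) = 1 ∧ L 𝔬 (fun p => θ (p.2 * un (aa 1 p.1))) = 1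

/-- the third limit is in `DD ⊤` -/
def YK : Prop := ∀ θ : ℚˣ →* E, RT θ → ∀ (κ : ℚˣ) (𝔬 : Ultrafilter (ℚ × ℚˣ)),
  EK θ κ (𝔬.map Prod.fst) →
  (∀ᶠ p in (𝔬 : Filter (ℚ × ℚˣ)), p.1 ≠ 0 ∧ p.1 ≠ 1 ∧ p.1 ≠ -1) →
  L 𝔬 (fun p => θ p.2) = 1 → L 𝔬 (fun p => θ (p.2 * un (aa 1 p.1))) = 1 →
  L 𝔬 (fun p => θ (p.2 * un (2 * p.1 / (κ : ℚ) / (1 + p.1 ^ 2)))) ∈ DD θ ⊤

/-- the theorem on the rationals -/
def FIN : Prop := ∀ θ : ℚˣ →* E, RT θ → FL θ (MQ θ) (A0 θ) ⊥ → AF θ ⊥ →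
  ∀ O ∈ 𝓝 (1 : E), ∃ X Y Z : ℚˣ, (X : ℚ) ^ 2 + (Y : ℚ) ^ 2 = (Z : ℚ) ^ 2 ∧
    θ X ∈ O ∧ θ Y ∈ O ∧ θ Z ∈ O

end F

/-! ### Part D: dynamics -/

section D

/-- a distal system: commuting continuous maps `T k` on a compact metric space, any two
different points stay away from each other -/
structure DSys {X : Type u} [MetricSpace X] (T : ℕ → X → X) : Prop where
  cont : ∀ k : ℕ, 0 < k → Continuous (T k)
  mul : ∀ k m : ℕ, 0 < k → 0 < m → ∀ x, T (k * m) x = T k (T m x)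
  distal : ∀ x y, x ≠ y → ∃ ε : ℝ, 0 < ε ∧ ∀ k : ℕ, 0 < k → ε ≤ dist (T k x) (T k y)

/-- `E` is the enveloping group of `T` -/
structure Env {X : Type u} [TopologicalSpace X] (T : ℕ → X → X) {E : Type u} [Group E]
    [TopologicalSpace E] [CompactSpace E] [T2Space E] (θ : ℚˣ →* E) (ev : E → X → X) :
    Prop where
  rt : RT θ
  cont : ∀ x, Continuous (fun e => ev e x)
  contX : ∀ g : ℚˣ, Continuous (ev (θ g))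
  mul : ∀ e e' x, ev (e * e') x = ev e (ev e' x)
  one : ∀ x, ev 1 x = x
  T : ∀ k : ℕ, 0 < k → ∀ x, ev (θ (un (k : ℚ))) x = T k x
  neg : θ (-1) = 1
  inj : ∀ e, (∀ x, ev e x = x) → e = 1

variable (X : Type u) [MetricSpace X] [CompactSpace X]

/-- existence of the enveloping group -/
def ELL : Prop := ∀ T : ℕ → X → X, DSys T →
  ∃ (E : Type u) (_ : Group E) (_ : TopologicalSpace E) (_ : CompactSpace E) (_ : T2Space E)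
    (θ : ℚˣ →* E) (ev : E → X → X), Env T θ ev

/-- the enveloping group has no subgroups with `DD A = A` -/
def HDS : Prop := ∀ (T : ℕ → X → X) (E : Type u) [Group E] [TopologicalSpace E]
  [CompactSpace E] [T2Space E] (θ : ℚˣ →* E) (ev : E → X → X), Env T θ ev → Dst θ

/-- contains a dilate of every finite set of positive integers -/
def Thick (A : Set ℕ) : Prop :=
  ∀ X : Finset ℕ, (∀ x ∈ X, 0 < x) → ∃ k : ℕ, 0 < k ∧ ∀ x ∈ X, x * k ∈ A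

/-- the ultrafilter of dilations -/
def PEXD : Prop := ∀ (E : Type u) [Group E] [TopologicalSpace E] [CompactSpace E] [T2Space E]
  (θ : ℚˣ →* E), RT θ → ∀ A : Set ℕ, Thick A → ∃ 𝔭 : Ultrafilter ℕ,
    (∀ r : ℚ, 0 < r → ∀ᶠ n : ℕ in (𝔭 : Filter ℕ), ∃ m : ℕ, 0 < m ∧ m ∈ A ∧
      (m : ℚ) = r * (n : ℚ)) ∧
    L 𝔭 (fun n : ℕ => θ (un (n : ℚ))) = 1

end D

end Pool.Agent.Work.MP_0f91f8_co.Df
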